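import Pool.Agent.H10.Sar.Box
set_option autoImplicit false
set_option linter.unusedSectionVars false

namespace Pool.Agent.H10.Sar

open NumberField Module Finset
open scoped Classical

noncomputable section

variable {K : Type*} [Field K] [NumberField K] {D : ℕ} (b : Basis (Fin D) ℤ (𝓞 K))

/-- every element has an associate whose size is controlled by its norm -/
theorem exists_unit_balanced : ∃ C : ℕ, ∀ x : 𝓞 K, ∃ u : (𝓞 K)ˣ,
    sz b ((u : 𝓞 K) * x) ^ D ≤ C * (Algebra.norm ℤ x).natAbs := by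
  obtain ⟨C, hC1, hC⟩ := sz_le b
  obtain ⟨R, hR⟩ := (mixedEmbedding.fundamentalCone.isBounded_normLeOne K).exists_norm_le
  have hD : 0 < D := D_pos b
  refine ⟨⌈(C * |R|) ^ D⌉₊, fun x => ?_⟩
  by_cases hx : x = 0
  · refine ⟨1, ?_⟩
    subst hx
    rw [mul_zero, sz_zero, zero_pow hD.ne']
    exact Nat.zero_le _
  · set N : ℝ := ((Algebra.norm ℤ x).natAbs : ℝ) with hN
    have hnorm : mixedEmbedding.norm (mixedEmbedding K (x : K)) = N := by
      rw [mixedEmbedding.norm_eq_norm, hN, ← Algebra.coe_norm_int]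
      push_cast
      rw [Nat.cast_natAbs]
      push_cast
      rfl
    have hN0 : 0 < N := by
      rw [hN]
      have : Algebra.norm ℤ x ≠ 0 := by
        rwa [Ne, Algebra.norm_eq_zero_iff]
      exact_mod_cast Int.natAbs_pos.mpr this
    obtain ⟨u, hu⟩ := mixedEmbedding.fundamentalCone.exists_unit_smul_mem
      (x := mixedEmbedding K (x : K)) (by rw [hnorm]; exact hN0.ne')
    refine ⟨u, ?_⟩
    have hux : u • mixedEmbedding K (x : K) = mixedEmbedding K (((u : 𝓞 K) * x : 𝓞 K) : K) := by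
      rw [mixedEmbedding.unitSMul_smul, RingOfIntegers.coe_eq_algebraMap,
        RingOfIntegers.coe_eq_algebraMap, map_mul (algebraMap (𝓞 K) K), map_mul]
    set t : ℝ := N ^ ((D : ℝ)⁻¹) with ht
    have ht0 : 0 < t := Real.rpow_pos_of_pos hN0 _
    have htD : t ^ D = N := by
      rw [ht, ← Real.rpow_natCast, ← Real.rpow_mul hN0.le, inv_mul_cancel₀ (by exact_mod_cast hD.ne'),
        Real.rpow_one]
    have hmem : t⁻¹ • (u • mixedEmbedding K (x : K)) ∈ mixedEmbedding.fundamentalCone.normLeOne K := by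
      refine ⟨mixedEmbedding.fundamentalCone.smul_mem_of_mem hu (inv_ne_zero ht0.ne'), ?_⟩
      change mixedEmbedding.norm (t⁻¹ • (u • mixedEmbedding K (x : K))) ≤ 1
      rw [mixedEmbedding.norm_smul, mixedEmbedding.norm_unit_smul, hnorm, abs_of_pos (inv_pos.mpr ht0),
        ← card_eq_finrank b, inv_pow, htD, inv_mul_cancel₀ hN0.ne']
    have h1 := hR _ hmem
    rw [norm_smul, Real.norm_eq_abs, abs_of_pos (inv_pos.mpr ht0), hux] at h1
    have h2 : mn ((u : 𝓞 K) * x) ≤ |R| * t := by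
      have h3 : mn ((u : 𝓞 K) * x) ≤ R * t := by
        unfold mn
        rw [inv_mul_le_iff₀ ht0, mul_comm t R] at h1
        exact h1
      exact h3.trans (mul_le_mul_of_nonneg_right (le_abs_self R) ht0.le)
    have h3 : (sz b ((u : 𝓞 K) * x) : ℝ) ≤ C * |R| * t := by
      refine (hC _).trans ?_
      rw [mul_assoc]
      exact mul_le_mul_of_nonneg_left h2 (by linarith)
    have h4 : (sz b ((u : 𝓞 K) * x) : ℝ) ^ D ≤ (C * |R|) ^ D * N := by
      rw [← htD, ← mul_pow]
      exact pow_le_pow_left₀ (Nat.cast_nonneg _) h3 _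
    have h5 : (sz b ((u : 𝓞 K) * x) : ℝ) ^ D ≤ (⌈(C * |R|) ^ D⌉₊ : ℝ) * N :=
      h4.trans (mul_le_mul_of_nonneg_right (Nat.le_ceil _) hN0.le)
    rw [hN] at h5
    exact_mod_cast h5

end

end Pool.Agent.H10.Sar
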