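import Pool.Agent.H10.Sar.Box
set_option autoImplicit false
set_option linter.unusedSectionVars false

namespace Pool.Agent.H10.Sar

open NumberField Module Finset UniqueFactorizationMonoid
open scoped Classical

noncomputable section

variable (K : Type*) [Field K] [NumberField K]

/-- nonzero ideals of norm at most `x` -/
def IX (x : ℕ) : Finset (Ideal (𝓞 K)) :=
  ((Ideal.finite_setOfPred_absNorm_le (S := 𝓞 K) x).toFinset).filter (fun I => I ≠ ⊥)

variable {K}

lemma mem_IX {x : ℕ} {I : Ideal (𝓞 K)} : I ∈ IX K x ↔ Ideal.absNorm I ≤ x ∧ I ≠ ⊥ := by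
  unfold IX
  rw [Finset.mem_filter, Set.Finite.mem_toFinset]
  rfl

lemma mem_IX' {x : ℕ} {I : Ideal (𝓞 K)} : I ∈ IX K x ↔ Ideal.absNorm I ≤ x ∧ 1 ≤ Ideal.absNorm I := by
  rw [mem_IX, Nat.one_le_iff_ne_zero, ne_eq, ne_eq, Ideal.absNorm_eq_zero_iff]

variable (K)

lemma card_IX_eq (x : ℕ) :
    (IX K x).card = Nat.card {I : (nonZeroDivisors (Ideal (𝓞 K))) // (Ideal.absNorm (I : Ideal (𝓞 K)) : ℝ) ≤ (x : ℝ)} := by
  rw [← Fintype.card_coe, ← Nat.card_eq_fintype_card]
  refine Nat.card_congr ?_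
  refine
    { toFun := fun I => ⟨⟨I.1, mem_nonZeroDivisors_iff_ne_zero.mpr (mem_IX.mp I.2).2⟩,
        by exact_mod_cast (mem_IX.mp I.2).1⟩
      invFun := fun I => ⟨I.1.1, mem_IX.mpr ⟨by exact_mod_cast I.2, nonZeroDivisors.ne_zero I.1.2⟩⟩
      left_inv := fun I => rfl
      right_inv := fun I => rfl }

lemma exists_card_IX : ∃ c : ℝ, 0 < c ∧ ∀ n : ℕ, 1 ≤ n → c * n ≤ (IX K n).card := by
  have hpos : 0 < dedekindZeta_residue K := dedekindZeta_residue_pos K
  rw [dedekindZeta_residue_def] at hpos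
  have ht := (Ideal.tendsto_norm_le_div_atTop₀ K).comp tendsto_natCast_atTop_atTop
  have h1 := ht.eventually (lt_mem_nhds (half_lt_self hpos))
  rw [Filter.eventually_atTop] at h1
  obtain ⟨n0, hn0⟩ := h1
  set r := (2 ^ InfinitePlace.nrRealPlaces K * (2 * Real.pi) ^ InfinitePlace.nrComplexPlaces K *
    Units.regulator K * classNumber K) / (Units.torsionOrder K * Real.sqrt |discr K|) with hr
  have hone : ∀ n : ℕ, 1 ≤ n → 1 ≤ (IX K n).card := by
    intro n hn
    rw [Nat.one_le_iff_ne_zero, Finset.card_ne_zero]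
    exact ⟨⊤, mem_IX'.mpr (by simp [hn])⟩
  refine ⟨min (r / 2) (1 / (n0 + 1)), lt_min (by linarith) (by positivity), ?_⟩
  intro n hn
  have hnpos : (0 : ℝ) < n := by exact_mod_cast hn
  rcases le_or_gt n0 n with h | h
  · have h2 := hn0 n h
    simp only [Function.comp_apply] at h2
    rw [← card_IX_eq, lt_div_iff₀ hnpos] at h2
    have : min (r / 2) (1 / ((n0 : ℝ) + 1)) * n ≤ r / 2 * n :=
      mul_le_mul_of_nonneg_right (min_le_left _ _) hnpos.le
    linarith
  · have h2 : (1 : ℝ) ≤ (IX K n).card := by exact_mod_cast hone n hn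
    have h3 : min (r / 2) (1 / ((n0 : ℝ) + 1)) * n ≤ 1 / ((n0 : ℝ) + 1) * n :=
      mul_le_mul_of_nonneg_right (min_le_right _ _) hnpos.le
    have h4 : 1 / ((n0 : ℝ) + 1) * n ≤ 1 := by
      rw [one_div, inv_mul_le_iff₀ (by positivity), mul_one]
      have : (n : ℝ) < n0 := by exact_mod_cast h
      linarith
    linarith

variable {K}

/-- harmonic type lower bound -/
lemma sum_inv_ge {c : ℝ} (h : ∀ n : ℕ, 1 ≤ n → c * n ≤ (IX K n).card) (n : ℕ) (hn : 1 ≤ n) :
    ((IX K n).card : ℝ) / n + c * (((harmonic n : ℚ) : ℝ) - 1) ≤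
      ∑ I ∈ IX K n, (1 : ℝ) / Ideal.absNorm I := by
  induction n, hn using Nat.le_induction with
  | base =>
    rw [Finset.card_eq_sum_ones]
    simp only [harmonic, Finset.sum_range_one]
    push_cast
    have : ∀ I ∈ IX K 1, (1 : ℝ) = (1 : ℝ) / Ideal.absNorm I := by
      intro I hI
      rw [mem_IX'] at hI
      have : Ideal.absNorm I = 1 := le_antisymm hI.1 hI.2
      rw [this]
      simp
    rw [← Finset.sum_congr rfl this]
    simp
  | succ n hn ih =>
    have hsub : IX K n ⊆ IX K (n + 1) := by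
      intro I hI
      rw [mem_IX'] at hI ⊢
      exact ⟨by omega, hI.2⟩
    have hnpos : (0 : ℝ) < n := by exact_mod_cast hn
    rw [← Finset.sum_sdiff hsub]
    have h1 : ∀ I ∈ IX K (n + 1) \ IX K n, (1 : ℝ) / Ideal.absNorm I = 1 / (n + 1) := by
      intro I hI
      rw [Finset.mem_sdiff, mem_IX', mem_IX'] at hI
      have : Ideal.absNorm I = n + 1 := by
        rcases hI with ⟨⟨h1, h2⟩, h3⟩
        by_contra hne
        exact h3 ⟨by omega, h2⟩
      rw [this]
      push_cast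
      rfl
    rw [Finset.sum_congr rfl h1, Finset.sum_const, nsmul_eq_mul, Finset.card_sdiff_of_subset hsub,
      Nat.cast_sub (Finset.card_le_card hsub), harmonic_succ]
    have h2 := h n hn
    push_cast
    have h3 : ((IX K n).card : ℝ) / n - (IX K n).card / (n + 1) ≥ c / (n + 1) := by
      rw [div_sub_div _ _ hnpos.ne' (by positivity), ge_iff_le, div_le_div_iff₀ (by positivity) (by positivity)]
      nlinarith
    have h4 : (((IX K (n + 1)).card : ℝ) - (IX K n).card) * (1 / (n + 1)) =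
      (IX K (n + 1)).card / (n + 1) - (IX K n).card / (n + 1) := by ring
    rw [h4]
    have h5 : c * ((((harmonic n : ℚ) : ℝ) + ((n : ℝ) + 1)⁻¹) - 1) = c * (((harmonic n : ℚ) : ℝ) - 1) + c / (n + 1) := by
      ring
    rw [h5]
    linarith

lemma sum_inv_ge_log : ∃ c : ℝ, 0 < c ∧ ∀ n : ℕ, 1 ≤ n → c * Real.log n ≤
    ∑ I ∈ IX K n, (1 : ℝ) / Ideal.absNorm I := by
  obtain ⟨c, hc, h⟩ := exists_card_IX K
  refine ⟨c, hc, fun n hn => ?_⟩
  have h1 := sum_inv_ge h n hn
  have h2 := h n hn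
  have hnpos : (0 : ℝ) < n := by exact_mod_cast hn
  have h3 : c ≤ (IX K n).card / n := by
    rw [le_div_iff₀ hnpos]
    exact h2
  have h4 := log_add_one_le_harmonic n
  have h5 : Real.log n ≤ Real.log ((n + 1 : ℕ) : ℝ) :=
    Real.log_le_log hnpos (by push_cast; linarith)
  have h6 : c * Real.log n ≤ c * ((harmonic n : ℚ) : ℝ) :=
    mul_le_mul_of_nonneg_left (h5.trans h4) hc.le
  linarith

variable (K)

/-- prime ideals of norm at most `x` -/
def PX (x : ℕ) : Finset (Ideal (𝓞 K)) := (IX K x).filter (fun I => I.IsPrime)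

variable {K}

lemma mem_PX {x : ℕ} {I : Ideal (𝓞 K)} : I ∈ PX K x ↔ (Ideal.absNorm I ≤ x ∧ I ≠ ⊥) ∧ I.IsPrime := by
  unfold PX
  rw [Finset.mem_filter, mem_IX]

lemma two_le_absNorm {I : Ideal (𝓞 K)} (h0 : I ≠ ⊥) (hI : I.IsPrime) : 2 ≤ Ideal.absNorm I := by
  have h1 : Ideal.absNorm I ≠ 0 := by rwa [ne_eq, Ideal.absNorm_eq_zero_iff]
  have h2 : Ideal.absNorm I ≠ 1 := by
    rw [ne_eq, Ideal.absNorm_eq_one_iff]
    exact hI.ne_top
  omega

lemma prod_pow_count {x : ℕ} {I : Ideal (𝓞 K)} (hI : I ∈ IX K x) :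
    ∏ P ∈ PX K x, P ^ (normalizedFactors I).count P = I := by
  have h0 := (mem_IX.mp hI).2
  conv_rhs => rw [← Ideal.prod_normalizedFactors_eq_self h0]
  rw [← Finset.prod_multiset_count_of_subset]
  intro P hP
  rw [Multiset.mem_toFinset] at hP
  have hprime := prime_of_normalized_factor P hP
  have hdvd := dvd_of_mem_normalizedFactors hP
  rw [mem_PX]
  refine ⟨⟨?_, hprime.ne_zero⟩, Ideal.isPrime_of_prime hprime⟩
  refine le_trans (Nat.le_of_dvd (mem_IX'.mp hI).2 ?_) (mem_IX.mp hI).1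
  exact map_dvd Ideal.absNorm hdvd

lemma count_lt {x : ℕ} {I P : Ideal (𝓞 K)} (hI : I ∈ IX K x) (hP : P ∈ PX K x) :
    (normalizedFactors I).count P < x + 1 := by
  rw [mem_PX] at hP
  have h2 := two_le_absNorm hP.1.2 hP.2
  by_contra hcon
  rw [not_lt] at hcon
  have hdvd : P ^ (normalizedFactors I).count P ∣ I := by
    have h0 := (mem_IX.mp hI).2
    conv_rhs => rw [← Ideal.prod_normalizedFactors_eq_self h0]
    rw [← Multiset.prod_replicate]
    exact Multiset.prod_dvd_prod_of_le (Multiset.le_count_iff_replicate_le.mp le_rfl)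
  have h3 := Nat.le_of_dvd (mem_IX'.mp hI).2 (map_dvd Ideal.absNorm hdvd)
  rw [map_pow] at h3
  have h4 : 2 ^ (normalizedFactors I).count P ≤ Ideal.absNorm P ^ (normalizedFactors I).count P :=
    Nat.pow_le_pow_left h2 _
  have h5 : (normalizedFactors I).count P < 2 ^ (normalizedFactors I).count P := Nat.lt_two_pow_self
  have h6 := (mem_IX.mp hI).1
  omega

/-- finite Euler product inequality -/
lemma euler_le (x : ℕ) : ∑ I ∈ IX K x, (1 : ℝ) / Ideal.absNorm I ≤
    ∏ P ∈ PX K x, ∑ k ∈ Finset.range (x + 1), ((1 : ℝ) / Ideal.absNorm P) ^ k := by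
  rw [← Finset.prod_coe_sort, Finset.prod_univ_sum]
  have hinj : Set.InjOn (fun I : Ideal (𝓞 K) => (fun P : PX K x => (normalizedFactors I).count P.1))
      (IX K x) := by
    intro I hI J hJ h
    rw [Finset.mem_coe] at hI hJ
    rw [← prod_pow_count hI, ← prod_pow_count hJ]
    refine Finset.prod_congr rfl (fun P hP => ?_)
    have := congrFun h ⟨P, hP⟩
    simp only at this
    rw [this]
  have hterm : ∀ I ∈ IX K x, (1 : ℝ) / Ideal.absNorm I =
      ∏ P : PX K x, ((1 : ℝ) / Ideal.absNorm P.1) ^ ((normalizedFactors I).count P.1) := by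
    intro I hI
    rw [Finset.prod_coe_sort (PX K x) (fun P => ((1 : ℝ) / Ideal.absNorm P) ^ ((normalizedFactors I).count P))]
    conv_lhs => rw [← prod_pow_count hI]
    rw [map_prod]
    push_cast
    rw [one_div, ← Finset.prod_inv_distrib]
    refine Finset.prod_congr rfl (fun P hP => ?_)
    rw [map_pow, Nat.cast_pow, one_div, inv_pow]
  rw [Finset.sum_congr rfl hterm]
  rw [← Finset.sum_image (s := IX K x) (g := (fun I : Ideal (𝓞 K) => (fun P : PX K x => (normalizedFactors I).count P.1)))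
    (f := fun g => ∏ P : PX K x, ((1 : ℝ) / Ideal.absNorm P.1) ^ (g P)) hinj]
  refine Finset.sum_le_sum_of_subset_of_nonneg ?_ ?_
  · intro g hg
    rw [Finset.mem_image] at hg
    obtain ⟨I, hI, rfl⟩ := hg
    rw [Fintype.mem_piFinset]
    intro P
    rw [Finset.mem_range]
    exact count_lt hI P.2
  · intro g _ _
    positivity

lemma geom_le {t : ℝ} (h0 : 0 ≤ t) (h1 : t ≤ 1 / 2) (m : ℕ) :
    ∑ k ∈ Finset.range m, t ^ k ≤ Real.exp (2 * t) := by
  have h2 : ∑ k ∈ Finset.range m, t ^ k ≤ 1 / (1 - t) := by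
    rw [le_div_iff₀ (by linarith), geom_sum_mul_neg]
    have : 0 ≤ t ^ m := by positivity
    linarith
  refine h2.trans ?_
  have h3 : 1 / (1 - t) ≤ 1 + 2 * t := by
    rw [div_le_iff₀ (by linarith)]
    nlinarith
  refine h3.trans ?_
  have := Real.add_one_le_exp (2 * t)
  linarith

lemma sum_inv_le_exp (x : ℕ) : ∑ I ∈ IX K x, (1 : ℝ) / Ideal.absNorm I ≤
    Real.exp (2 * ∑ P ∈ PX K x, (1 : ℝ) / Ideal.absNorm P) := by
  refine (euler_le x).trans ?_
  rw [Finset.mul_sum, Real.exp_sum]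
  refine Finset.prod_le_prod ?_ ?_
  · intro P _
    positivity
  · intro P hP
    rw [mem_PX] at hP
    have h2 := two_le_absNorm hP.1.2 hP.2
    refine geom_le (by positivity) ?_ _
    have : (2 : ℝ) ≤ Ideal.absNorm P := by exact_mod_cast h2
    exact one_div_le_one_div_of_le (by norm_num) this

/-- the rational prime below -/
def pr (P : Ideal (𝓞 K)) : ℕ := (Ideal.absNorm P).minFac

lemma pr_spec {P : Ideal (𝓞 K)} (h0 : P ≠ ⊥) (hP : P.IsPrime) :
    (pr P).Prime ∧ ((pr P : ℕ) : 𝓞 K) ∈ P ∧ (Ideal.absNorm P = pr P ∨ (pr P) ^ 2 ≤ Ideal.absNorm P)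
      ∧ pr P ≤ Ideal.absNorm P := by
  have : P.IsMaximal := hP.isMaximal h0
  obtain ⟨p, n, hn, hpP, hp, hN⟩ := Ideal.exists_prime_and_absNorm_eq_pow P
  have hpr : pr P = p := by
    unfold pr
    rw [hN, hp.pow_minFac hn.ne']
  rw [hpr]
  refine ⟨hp, hpP, ?_, ?_⟩
  · rcases Nat.lt_or_ge n 2 with h | h
    · left
      have : n = 1 := by omega
      rw [hN, this, pow_one]
    · right
      rw [hN]
      exact Nat.pow_le_pow_right hp.pos h
  · rw [hN]
    exact Nat.le_self_pow hn.ne' p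

/-- at most `[K : ℚ]` primes above `p` -/
lemma card_above {p : ℕ} (hp : p.Prime) (T : Finset (Ideal (𝓞 K)))
    (hT : ∀ P ∈ T, P ≠ ⊥ ∧ P.IsPrime ∧ pr P = p) : T.card ≤ finrank ℤ (𝓞 K) := by
  have h1 : ∏ P ∈ T, P ∣ Ideal.span {((p : ℕ) : 𝓞 K)} := by
    refine Finset.prod_primes_dvd _ ?_ ?_
    · intro P hP
      exact (Ideal.prime_iff_isPrime (hT P hP).1).mpr (hT P hP).2.1
    · intro P hP
      rw [Ideal.dvd_span_singleton]
      have := (pr_spec (hT P hP).1 (hT P hP).2.1).2.1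
      rwa [(hT P hP).2.2] at this
  have h2 := map_dvd Ideal.absNorm h1
  rw [map_prod, Ideal.absNorm_span_natCast] at h2
  have h3 := Nat.le_of_dvd (pow_pos hp.pos _) h2
  have h4 : p ^ T.card ≤ ∏ P ∈ T, Ideal.absNorm P := by
    rw [← Finset.prod_const]
    refine Finset.prod_le_prod' ?_
    intro P hP
    have := (pr_spec (hT P hP).1 (hT P hP).2.1).2.2.2
    rwa [(hT P hP).2.2] at this
  exact (Nat.pow_le_pow_iff_right hp.one_lt).mp (h4.trans h3)


variable (K)

/-- rational primes with a degree one prime above -/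
def S0 (x : ℕ) : Finset ℕ := ((PX K x).filter (fun P => Ideal.absNorm P = pr P)).image pr

lemma sum_inv_sq_le (x : ℕ) : ∑ p ∈ Finset.Icc 1 x, (1 : ℝ) / (p : ℝ) ^ 2 ≤ 2 := by
  have : ∀ x : ℕ, 1 ≤ x → ∑ p ∈ Finset.Icc 1 x, (1 : ℝ) / (p : ℝ) ^ 2 ≤ 2 - 1 / x := by
    intro x hx
    induction x, hx using Nat.le_induction with
    | base => norm_num
    | succ n hn ih =>
      rw [Finset.sum_Icc_succ_top (by omega)]
      have hnpos : (0 : ℝ) < n := by exact_mod_cast hn
      have h1 : (1 : ℝ) / ((n + 1 : ℕ) : ℝ) ^ 2 ≤ 1 / n - 1 / ((n + 1 : ℕ) : ℝ) := by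
        push_cast
        rw [div_sub_div _ _ hnpos.ne' (by positivity), div_le_div_iff₀ (by positivity) (by positivity)]
        nlinarith
      linarith
  rcases Nat.eq_zero_or_pos x with rfl | hx
  · simp
  · have h1 := this x hx
    have h2 : (0 : ℝ) ≤ 1 / x := by positivity
    linarith

lemma sum_PX_le (x : ℕ) : ∑ P ∈ PX K x, (1 : ℝ) / Ideal.absNorm P ≤
    finrank ℤ (𝓞 K) * (∑ p ∈ S0 K x, (1 : ℝ) / p + 2) := by
  have hmaps : ∀ P ∈ PX K x, pr P ∈ Finset.Icc 1 x := by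
    intro P hP
    rw [mem_PX] at hP
    have h := pr_spec hP.1.2 hP.2
    rw [Finset.mem_Icc]
    exact ⟨h.1.pos, h.2.2.2.trans hP.1.1⟩
  rw [← Finset.sum_fiberwise_of_maps_to hmaps]
  have hS0 : S0 K x ⊆ Finset.Icc 1 x := by
    intro p hp
    unfold S0 at hp
    rw [Finset.mem_image] at hp
    obtain ⟨P, hP, rfl⟩ := hp
    exact hmaps P (Finset.mem_filter.mp hP).1
  have key : ∀ p ∈ Finset.Icc 1 x, ∑ P ∈ PX K x with pr P = p, (1 : ℝ) / Ideal.absNorm P ≤
      finrank ℤ (𝓞 K) * ((if p ∈ S0 K x then (1 : ℝ) / p else 0) + 1 / (p : ℝ) ^ 2) := by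
    intro p hp
    rw [Finset.mem_Icc] at hp
    rcases Finset.eq_empty_or_nonempty ((PX K x).filter (fun P => pr P = p)) with he | hne
    · rw [he, Finset.sum_empty]
      have : (0 : ℝ) ≤ (if p ∈ S0 K x then (1 : ℝ) / p else 0) := by
        split_ifs
        · positivity
        · exact le_rfl
      positivity
    · obtain ⟨P0, hP0⟩ := hne
      rw [Finset.mem_filter, mem_PX] at hP0
      have hpp : p.Prime := by
        have := (pr_spec hP0.1.1.2 hP0.1.2).1
        rwa [hP0.2] at this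
      have hcard : ((PX K x).filter (fun P => pr P = p)).card ≤ finrank ℤ (𝓞 K) := by
        refine card_above hpp _ ?_
        intro P hP
        rw [Finset.mem_filter, mem_PX] at hP
        exact ⟨hP.1.1.2, hP.1.2, hP.2⟩
      have hppos : (0 : ℝ) < p := by exact_mod_cast hpp.pos
      have hb : ∀ P ∈ (PX K x).filter (fun P => pr P = p), (1 : ℝ) / Ideal.absNorm P ≤
          (if p ∈ S0 K x then (1 : ℝ) / p else 0) + 1 / (p : ℝ) ^ 2 := by
        intro P hP
        have hP' := hP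
        rw [Finset.mem_filter, mem_PX] at hP
        have hs := pr_spec hP.1.1.2 hP.1.2
        rw [hP.2] at hs
        rcases hs.2.2.1 with h | h
        · have : p ∈ S0 K x := by
            unfold S0
            rw [Finset.mem_image]
            refine ⟨P, ?_, hP.2⟩
            rw [Finset.mem_filter]
            exact ⟨(Finset.mem_filter.mp hP').1, by rw [h, hP.2]⟩
          rw [if_pos this, h]
          have : (0 : ℝ) ≤ 1 / (p : ℝ) ^ 2 := by positivity
          linarith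
        · have h1 : (1 : ℝ) / Ideal.absNorm P ≤ 1 / (p : ℝ) ^ 2 := by
            apply one_div_le_one_div_of_le (by positivity)
            exact_mod_cast h
          have : (0 : ℝ) ≤ (if p ∈ S0 K x then (1 : ℝ) / p else 0) := by
            split_ifs
            · positivity
            · exact le_rfl
          linarith
      refine (Finset.sum_le_sum hb).trans ?_
      rw [Finset.sum_const, nsmul_eq_mul]
      refine mul_le_mul_of_nonneg_right (by exact_mod_cast hcard) ?_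
      have : (0 : ℝ) ≤ (if p ∈ S0 K x then (1 : ℝ) / p else 0) := by
        split_ifs
        · positivity
        · exact le_rfl
      positivity
  refine (Finset.sum_le_sum key).trans ?_
  rw [← Finset.mul_sum, Finset.sum_add_distrib, ← Finset.sum_filter, Finset.filter_mem_eq_inter,
    Finset.inter_eq_right.mpr hS0]
  refine mul_le_mul_of_nonneg_left ?_ (by positivity)
  have := sum_inv_sq_le x
  linarith

/-- many degree one primes in one ideal class -/
theorem exists_primes : ∃ c C : ℝ, 0 < c ∧ ∀ x : ℕ, 3 ≤ x →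
    ∃ (S : Finset ℕ) (P : ℕ → Ideal (𝓞 K)),
      (∀ p ∈ S, p.Prime ∧ p ≤ x ∧ (P p).IsPrime ∧ Ideal.absNorm (P p) = p) ∧
      (∀ E ⊆ S, classNumber K ∣ E.card → Submodule.IsPrincipal (∏ p ∈ E, P p)) ∧
      c * Real.log (Real.log x) - C ≤ ∑ p ∈ S, (1 : ℝ) / p := by
  obtain ⟨c, hc, hsum⟩ := sum_inv_ge_log (K := K)
  set D : ℝ := ((finrank ℤ (𝓞 K) : ℕ) : ℝ) with hD
  have hDpos : 0 < D := by
    rw [hD]
    exact_mod_cast Module.finrank_pos
  set h : ℝ := ((classNumber K : ℕ) : ℝ) with hh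
  have hhpos : 0 < h := by
    rw [hh]
    exact_mod_cast classNumber_pos K
  refine ⟨1 / (2 * D * h), (4 * D - Real.log c) / (2 * D * h), by positivity, ?_⟩
  intro x hx
  -- choose the primes
  have hch : ∀ p : ℕ, ∃ P : Ideal (𝓞 K), p ∈ S0 K x → p.Prime ∧ p ≤ x ∧ P.IsPrime ∧ P ≠ ⊥ ∧ Ideal.absNorm P = p := by
    intro p
    by_cases hp : p ∈ S0 K x
    · unfold S0 at hp
      rw [Finset.mem_image] at hp
      obtain ⟨P, hP, rfl⟩ := hp
      rw [Finset.mem_filter, mem_PX] at hP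
      refine ⟨P, fun _ => ⟨(pr_spec hP.1.1.2 hP.1.2).1, (pr_spec hP.1.1.2 hP.1.2).2.2.2.trans hP.1.1.1, hP.1.2, hP.1.1.2, hP.2⟩⟩
    · exact ⟨⊤, fun h => absurd h hp⟩
  choose P hP using hch
  have hlogx : 0 < Real.log x := Real.log_pos (by exact_mod_cast (by omega : 1 < x))
  have h1 := hsum x (by omega)
  have h2 := sum_inv_le_exp (K := K) x
  have h3 : Real.log (c * Real.log x) ≤ 2 * ∑ P ∈ PX K x, (1 : ℝ) / Ideal.absNorm P := by
    rw [Real.log_le_iff_le_exp (by positivity)]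
    exact h1.trans h2
  rw [Real.log_mul hc.ne' hlogx.ne'] at h3
  have h4 := sum_PX_le K x
  -- pigeonhole on classes
  let cl : ℕ → ClassGroup (𝓞 K) := fun p =>
    if hp : P p ≠ ⊥ then ClassGroup.mk0 ⟨P p, mem_nonZeroDivisors_iff_ne_zero.mpr hp⟩ else 1
  have hfib : ∑ p ∈ S0 K x, (1 : ℝ) / p = ∑ C : ClassGroup (𝓞 K), ∑ p ∈ (S0 K x).filter (fun p => cl p = C), (1 : ℝ) / p :=
    (Finset.sum_fiberwise (S0 K x) cl (fun p => (1 : ℝ) / p)).symm
  have hex : ∃ C : ClassGroup (𝓞 K), (∑ p ∈ S0 K x, (1 : ℝ) / p) / h ≤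
      ∑ p ∈ (S0 K x).filter (fun p => cl p = C), (1 : ℝ) / p := by
    by_contra hcon
    push Not at hcon
    have : ∑ C : ClassGroup (𝓞 K), ∑ p ∈ (S0 K x).filter (fun p => cl p = C), (1 : ℝ) / p <
        ∑ _C : ClassGroup (𝓞 K), (∑ p ∈ S0 K x, (1 : ℝ) / p) / h :=
      Finset.sum_lt_sum_of_nonempty Finset.univ_nonempty (fun C _ => hcon C)
    rw [← hfib, Finset.sum_const, Finset.card_univ, nsmul_eq_mul] at this
    have hcard : ((Fintype.card (ClassGroup (𝓞 K)) : ℕ) : ℝ) = h := by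
      rw [hh]
      rfl
    rw [hcard, mul_div_cancel₀ _ hhpos.ne'] at this
    exact lt_irrefl _ this
  obtain ⟨C, hC⟩ := hex
  refine ⟨(S0 K x).filter (fun p => cl p = C), P, ?_, ?_, ?_⟩
  · intro p hp
    have := hP p (Finset.mem_filter.mp hp).1
    exact ⟨this.1, this.2.1, this.2.2.1, this.2.2.2.2⟩
  · intro E hE hdvd
    have hne : ∀ p ∈ E, P p ≠ ⊥ := fun p hp => (hP p (Finset.mem_filter.mp (hE hp)).1).2.2.2.1
    have hprod : ∏ p ∈ E, P p ≠ 0 := Finset.prod_ne_zero_iff.mpr hne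
    have key : ClassGroup.mk0 ⟨∏ p ∈ E, P p, mem_nonZeroDivisors_iff_ne_zero.mpr hprod⟩ = 1 := by
      have h5 : (⟨∏ p ∈ E, P p, mem_nonZeroDivisors_iff_ne_zero.mpr hprod⟩ : nonZeroDivisors (Ideal (𝓞 K))) =
          ∏ p ∈ E.attach, ⟨P p.1, mem_nonZeroDivisors_iff_ne_zero.mpr (hne p.1 p.2)⟩ := by
        apply Subtype.ext
        rw [Submonoid.coe_finsetProd]
        simp only
        rw [Finset.prod_attach E (fun p => P p)]
      rw [h5, map_prod]
      have h6 : ∀ p ∈ E.attach, ClassGroup.mk0 (⟨P p.1, mem_nonZeroDivisors_iff_ne_zero.mpr (hne p.1 p.2)⟩ : nonZeroDivisors (Ideal (𝓞 K))) = C := by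
        intro p _
        have h7 := (Finset.mem_filter.mp (hE p.2)).2
        simp only [cl] at h7
        rwa [dif_pos (hne p.1 p.2)] at h7
      rw [Finset.prod_congr rfl h6, Finset.prod_const, Finset.card_attach]
      obtain ⟨k, hk⟩ := hdvd
      have h8 : C ^ classNumber K = 1 := pow_card_eq_one
      rw [hk, pow_mul, h8, one_pow]
    rw [ClassGroup.mk0_eq_one_iff] at key
    exact key
  · refine le_trans ?_ hC
    rw [le_div_iff₀ hhpos]
    have h9 : (1 / (2 * D * h) * Real.log (Real.log x) - (4 * D - Real.log c) / (2 * D * h)) * h =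
        (Real.log c + Real.log (Real.log x) - 4 * D) / (2 * D) := by
      field_simp
      ring
    rw [h9, div_le_iff₀ (by positivity)]
    have h10 : D * (∑ p ∈ S0 K x, (1 : ℝ) / p + 2) = D * ∑ p ∈ S0 K x, (1 : ℝ) / p + 2 * D := by ring
    linarith

end

end Pool.Agent.H10.Sar
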