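import Pool.Agent.H10.Sar.Cnt
set_option autoImplicit false
set_option linter.unusedSectionVars false
set_option linter.deprecated false

namespace Pool.Agent.H10.Sar

open NumberField Module Finset
open scoped Classical

noncomputable section

variable {K : Type*} [Field K] [NumberField K] {D : ℕ} (b : Basis (Fin D) ℤ (𝓞 K))

/-- the primes of the number field above `p` -/
def Tp (K : Type*) [Field K] [NumberField K] (p : ℕ) : Finset (Ideal (𝓞 K)) :=
  IsDedekindDomain.primesOverFinset (Ideal.span {(p : ℤ)}) (𝓞 K)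

lemma span_ne_bot {p : ℕ} (hp : p.Prime) : (Ideal.span {(p : ℤ)} : Ideal ℤ) ≠ ⊥ := by
  rw [Ne, Ideal.span_singleton_eq_bot]
  exact_mod_cast hp.ne_zero

lemma span_isMaximal {p : ℕ} (hp : p.Prime) : (Ideal.span {(p : ℤ)} : Ideal ℤ).IsMaximal := by
  have h1 : Prime (p : ℤ) := Nat.prime_iff_prime_int.mp hp
  have h2 : (Ideal.span {(p : ℤ)} : Ideal ℤ).IsPrime :=
    (Ideal.span_singleton_prime h1.ne_zero).mpr h1
  exact h2.isMaximal (span_ne_bot hp)

lemma card_Tp_le {p : ℕ} (hp : p.Prime) : (Tp K p).card ≤ finrank ℚ K := by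
  have := span_isMaximal hp
  exact Ideal.card_primesOverFinset_le_finrank (𝓞 K) ℚ K (span_ne_bot hp)

lemma mem_Tp {p : ℕ} (hp : p.Prime) {Q : Ideal (𝓞 K)} (hQ : Q.IsPrime)
    (h : Q.under ℤ = Ideal.span {(p : ℤ)}) : Q ∈ Tp K p := by
  have := span_isMaximal hp
  unfold Tp
  rw [IsDedekindDomain.mem_primesOverFinset_iff (span_ne_bot hp)]
  exact ⟨hQ, ⟨h.symm⟩⟩

lemma of_mem_Tp {p : ℕ} (hp : p.Prime) {Q : Ideal (𝓞 K)} (h : Q ∈ Tp K p) :
    Q.IsPrime ∧ (p : 𝓞 K) ∈ Q := by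
  have := span_isMaximal hp
  unfold Tp at h
  rw [IsDedekindDomain.mem_primesOverFinset_iff (span_ne_bot hp)] at h
  obtain ⟨h1, h2⟩ := h
  refine ⟨h1, ?_⟩
  have h3 : (p : ℤ) ∈ Q.under ℤ := by
    rw [← h2.over]
    exact Ideal.mem_span_singleton_self _
  rw [Ideal.under, Ideal.mem_comap] at h3
  simpa using h3

lemma le_absNorm_of_mem {p : ℕ} (hp : p.Prime) {Q : Ideal (𝓞 K)} (h1 : Q.IsPrime)
    (h2 : (p : 𝓞 K) ∈ Q) : p ≤ Ideal.absNorm Q := by
  have h3 : Ideal.absNorm Q ∣ Ideal.absNorm (Ideal.span {(p : 𝓞 K)}) :=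
    Ideal.absNorm_dvd_absNorm_of_le ((Ideal.span_singleton_le_iff_mem _).mpr h2)
  have h4 : Ideal.absNorm (Ideal.span {(p : 𝓞 K)}) = p ^ finrank ℤ (𝓞 K) := by
    rw [Ideal.absNorm_span_singleton]
    have : (p : 𝓞 K) = algebraMap ℤ (𝓞 K) p := by simp
    rw [this, Algebra.norm_algebraMap, Int.natAbs_pow]
    simp
  rw [h4, Nat.dvd_prime_pow hp] at h3
  obtain ⟨k, -, hk⟩ := h3
  rcases Nat.eq_zero_or_pos k with h0 | h0
  · rw [h0, pow_zero] at hk
    exact absurd (Ideal.absNorm_eq_one_iff.mp hk) h1.ne_top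
  · rw [hk]
    exact Nat.le_self_pow h0.ne' p

/-- few points `n` of the box have `n ∈ P p` and `p ^ 2 ∣ N(n)` for some `p ∈ S` -/
theorem nongood_bound : ∃ C : ℕ, ∀ (S : Finset ℕ) (P : ℕ → Ideal (𝓞 K)),
    (∀ p ∈ S, p.Prime ∧ (P p).IsPrime ∧ Ideal.absNorm (P p) = p) →
    ∀ H : ℕ, (∀ p ∈ S, p ^ 2 ≤ H) →
    (((bx D H).filter (fun n => ∃ p ∈ S, b.equivFun.symm n ∈ P p ∧
        (p : ℤ) ^ 2 ∣ Algebra.norm ℤ (b.equivFun.symm n))).card : ℝ)
      ≤ C * (∑ p ∈ S, (1 : ℝ) / p ^ 2) * H ^ D := by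
  refine ⟨finrank ℚ K * 2 ^ D, fun S P hP H hH => ?_⟩
  have hsub : (bx D H).filter (fun n => ∃ p ∈ S, b.equivFun.symm n ∈ P p ∧
        (p : ℤ) ^ 2 ∣ Algebra.norm ℤ (b.equivFun.symm n)) ⊆
      S.biUnion (fun p => (Tp K p).biUnion (fun Q =>
        (bx D H).filter (fun n => b.equivFun.symm n ∈ P p * Q))) := by
    intro n hn
    rw [mem_filter] at hn
    obtain ⟨hn, p, hpS, hx, hdvd⟩ := hn
    obtain ⟨hp, hPp, hnorm⟩ := hP p hpS
    set x := b.equivFun.symm n with hxd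
    have h1 : P p ∣ Ideal.span {x} := by
      rw [Ideal.dvd_iff_le]
      exact (Ideal.span_singleton_le_iff_mem _).mpr hx
    obtain ⟨J, hJ⟩ := h1
    have h2 : Ideal.absNorm (Ideal.span {x}) = p * Ideal.absNorm J := by
      rw [hJ, map_mul, hnorm]
    have h3 : p ^ 2 ∣ p * Ideal.absNorm J := by
      rw [← h2, Ideal.absNorm_span_singleton]
      have := Int.natAbs_dvd_natAbs.mpr hdvd
      rw [Int.natAbs_pow, Int.natAbs_natCast] at this
      exact this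
    have h4 : p ∣ Ideal.absNorm J := by
      rw [pow_two] at h3
      exact Nat.dvd_of_mul_dvd_mul_left hp.pos h3
    obtain ⟨Q, hQ, hu, hQJ⟩ := Ideal.exists_isMaximal_dvd_of_dvd_absNorm' hp J h4
    rw [mem_biUnion]
    refine ⟨p, hpS, ?_⟩
    rw [mem_biUnion]
    refine ⟨Q, mem_Tp hp hQ.isPrime hu, ?_⟩
    rw [mem_filter]
    refine ⟨hn, ?_⟩
    have h5 : P p * Q ∣ Ideal.span {x} := by
      rw [hJ]
      exact mul_dvd_mul_left _ hQJ
    rw [Ideal.dvd_iff_le] at h5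
    exact (Ideal.span_singleton_le_iff_mem _).mp h5
  have hone : ∀ p ∈ S, ∀ Q ∈ Tp K p,
      (((bx D H).filter (fun n => b.equivFun.symm n ∈ P p * Q)).card : ℝ)
        ≤ 2 ^ D * H ^ D * (1 / (p : ℝ) ^ 2) := by
    intro p hpS Q hQ
    obtain ⟨hp, hPp, hnorm⟩ := hP p hpS
    obtain ⟨hQp, hpQ⟩ := of_mem_Tp hp hQ
    have hmem : ((p ^ 2 : ℕ) : 𝓞 K) ∈ P p * Q := by
      rw [pow_two]
      push_cast
      refine Ideal.mul_mem_mul ?_ hpQ
      have := Ideal.absNorm_mem (P p)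
      rwa [hnorm] at this
    have h1 := ideal_count_le b (P p * Q) (p ^ 2) (pow_pos hp.pos 2) hmem H
    have h2 : p ^ 2 ≤ Ideal.absNorm (P p * Q) := by
      rw [map_mul, hnorm, pow_two]
      exact Nat.mul_le_mul_left _ (le_absNorm_of_mem hp hQp hpQ)
    have h3 : ((bx D H).filter (fun n => b.equivFun.symm n ∈ P p * Q)).card * p ^ 2
        ≤ (2 * H) ^ D := by
      refine (Nat.mul_le_mul_left _ h2).trans (h1.trans ?_)
      apply Nat.pow_le_pow_left
      have := hH p hpS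
      omega
    have h4 : (((bx D H).filter (fun n => b.equivFun.symm n ∈ P p * Q)).card : ℝ) * (p : ℝ) ^ 2
        ≤ (2 * H) ^ D := by exact_mod_cast h3
    have hp0 : (0 : ℝ) < (p : ℝ) ^ 2 := by
      have : (0 : ℝ) < p := by exact_mod_cast hp.pos
      positivity
    rw [mul_one_div, le_div_iff₀ hp0, ← mul_pow]
    exact h4
  have hcard := card_le_card hsub
  have h1 : (((bx D H).filter (fun n => ∃ p ∈ S, b.equivFun.symm n ∈ P p ∧
        (p : ℤ) ^ 2 ∣ Algebra.norm ℤ (b.equivFun.symm n))).card : ℝ) ≤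
      ∑ p ∈ S, ∑ Q ∈ Tp K p,
        (((bx D H).filter (fun n => b.equivFun.symm n ∈ P p * Q)).card : ℝ) := by
    refine (Nat.cast_le.mpr (hcard.trans (card_biUnion_le.trans
      (sum_le_sum fun p _ => card_biUnion_le)))).trans ?_
    push_cast
    exact le_rfl
  refine h1.trans ?_
  calc ∑ p ∈ S, ∑ Q ∈ Tp K p,
        (((bx D H).filter (fun n => b.equivFun.symm n ∈ P p * Q)).card : ℝ)
      ≤ ∑ p ∈ S, ((finrank ℚ K : ℝ) * (2 ^ D * H ^ D * (1 / (p : ℝ) ^ 2))) := by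
        refine sum_le_sum fun p hp => ?_
        refine (sum_le_sum (hone p hp)).trans ?_
        rw [sum_const, nsmul_eq_mul]
        apply mul_le_mul_of_nonneg_right _ (by positivity)
        exact_mod_cast card_Tp_le (hP p hp).1
    _ = ((finrank ℚ K * 2 ^ D : ℕ) : ℝ) * (∑ p ∈ S, (1 : ℝ) / p ^ 2) * H ^ D := by
        rw [← mul_sum, ← mul_sum]
        push_cast
        ring

end

end Pool.Agent.H10.Sar
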