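import Mathlib
set_option autoImplicit false

/-!
Combinatorial part of the sieve bound.
-/

namespace Pool.Agent.H10.Sar

open Finset

noncomputable section

/-- truncated binomial sums -/
def Wb (r m : ℕ) : ℝ := ∑ i ∈ range m, (-1 / 2 : ℝ) ^ i * (r.choose i : ℝ)

theorem Wb_succ (r m : ℕ) : Wb (r + 1) (m + 1) = Wb r (m + 1) - 1 / 2 * Wb r m := by
  unfold Wb
  rw [sum_range_succ', sum_range_succ']
  simp only [pow_zero, Nat.choose_zero_right, Nat.cast_one, mul_one]
  rw [mul_sum]
  have : ∑ i ∈ range m, (-1 / 2 : ℝ) ^ (i + 1) * ((r + 1).choose (i + 1) : ℝ) =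
      ∑ i ∈ range m, (-1 / 2 : ℝ) ^ (i + 1) * (r.choose (i + 1) : ℝ) -
      ∑ i ∈ range m, 1 / 2 * ((-1 / 2 : ℝ) ^ i * (r.choose i : ℝ)) := by
    rw [← sum_sub_distrib]
    apply sum_congr rfl
    intro i _
    rw [Nat.choose_succ_succ]
    push_cast
    rw [pow_succ]
    ring
  rw [this]
  ring

theorem Wb_bounds (r : ℕ) : ∀ m : ℕ, (Even m → Wb r m ≤ (1 / 2 : ℝ) ^ r) ∧
    (Odd m → (1 / 2 : ℝ) ^ r ≤ Wb r m) := by
  induction r with
  | zero =>
    intro m
    rcases Nat.eq_zero_or_pos m with h | h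
    · subst h
      constructor
      · intro _; simp [Wb]
      · intro h; exact absurd h (by decide)
    · have : Wb 0 m = 1 := by
        obtain ⟨s, rfl⟩ : ∃ s, m = s + 1 := ⟨m - 1, by omega⟩
        unfold Wb
        rw [sum_range_succ']
        simp
      rw [this]
      constructor <;> intro _ <;> simp
  | succ r ih =>
    intro m
    rcases Nat.eq_zero_or_pos m with h | h
    · subst h
      constructor
      · intro _
        simp [Wb]
      · intro h; exact absurd h (by decide)
    · obtain ⟨s, rfl⟩ : ∃ s, m = s + 1 := ⟨m - 1, by omega⟩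
      rw [Wb_succ, pow_succ]
      obtain ⟨h1, h2⟩ := ih (s + 1)
      obtain ⟨h3, h4⟩ := ih s
      constructor
      · intro he
        have ho : Odd s := by
          rcases Nat.even_or_odd s with h | h
          · exact absurd (h.add_one) (Nat.not_odd_iff_even.mpr he)
          · exact h
        have := h1 he
        have := h4 ho
        linarith
      · intro ho
        have he : Even s := by
          rcases Nat.even_or_odd s with h | h
          · exact h
          · exact absurd (h.add_one) (Nat.not_even_iff_odd.mpr ho)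
        have := h2 ho
        have := h3 he
        linarith

/-- sums over small subsets -/
theorem Wb_subsets {α : Type*} (A : Finset α) (m : ℕ) :
    ∑ E ∈ A.powerset, (if E.card < m then (-1 / 2 : ℝ) ^ E.card else 0) = Wb A.card m := by
  have h := sum_powerset_apply_card (fun i => if i < m then (-1 / 2 : ℝ) ^ i else 0) (x := A)
  rw [h]
  unfold Wb
  simp only [nsmul_eq_mul, mul_ite, mul_zero]
  rw [← sum_filter]
  have e1 : ∀ i ∈ range m, i ∉ (range (A.card + 1)).filter (fun i => i < m) →
      (-1 / 2 : ℝ) ^ i * (A.card.choose i : ℝ) = 0 := by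
    intro i hi hni
    rw [mem_range] at hi
    rw [mem_filter, mem_range] at hni
    have : A.card < i := by
      by_contra hc
      exact hni ⟨by omega, hi⟩
    rw [Nat.choose_eq_zero_of_lt this]
    simp
  have e2 : (range (A.card + 1)).filter (fun i => i < m) ⊆ range m := by
    intro i hi
    rw [mem_filter] at hi
    rw [mem_range]
    exact hi.2
  rw [← sum_subset e2 e1]
  apply sum_congr rfl
  intro i _
  ring

/-- harmonic sums up to `2^l` -/
theorem harm_le (l : ℕ) (S : Finset ℕ) (hS : ∀ p ∈ S, 1 ≤ p ∧ p ≤ 2 ^ l) :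
    ∑ p ∈ S, (1 : ℝ) / p ≤ 1 + l := by
  have h1 : ∑ p ∈ S, (1 : ℝ) / p ≤ ∑ p ∈ Icc (1 : ℕ) (2 ^ l), (1 : ℝ) / p := by
    apply sum_le_sum_of_subset_of_nonneg
    · intro p hp
      rw [mem_Icc]
      exact hS p hp
    · intro p _ _
      positivity
  have h2 : ∀ l : ℕ, ∑ p ∈ Icc (1 : ℕ) (2 ^ l), (1 : ℝ) / p ≤ 1 + l := by
    intro l
    induction l with
    | zero => simp
    | succ l ih =>
      have h3 : Icc (1 : ℕ) (2 ^ (l + 1)) = Icc 1 (2 ^ l) ∪ Icc (2 ^ l + 1) (2 ^ (l + 1)) := by
        ext x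
        simp only [mem_union, mem_Icc]
        have : 2 ^ l ≤ 2 ^ (l + 1) := Nat.pow_le_pow_right (by norm_num) (by omega)
        omega
      have hd : Disjoint (Icc (1 : ℕ) (2 ^ l)) (Icc (2 ^ l + 1) (2 ^ (l + 1))) := by
        rw [disjoint_left]
        intro x hx hx'
        rw [mem_Icc] at hx hx'
        omega
      rw [h3, sum_union hd]
      have h4 : ∑ p ∈ Icc (2 ^ l + 1 : ℕ) (2 ^ (l + 1)), (1 : ℝ) / p ≤ 1 := by
        calc _ ≤ ∑ p ∈ Icc (2 ^ l + 1 : ℕ) (2 ^ (l + 1)), (1 : ℝ) / 2 ^ l := by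
              apply sum_le_sum
              intro p hp
              rw [mem_Icc] at hp
              apply one_div_le_one_div_of_le (by positivity)
              have : (2 ^ l : ℕ) ≤ p := by omega
              exact_mod_cast this
          _ = 1 := by
              rw [sum_const, Nat.card_Icc, nsmul_eq_mul]
              have : 2 ^ (l + 1) + 1 - (2 ^ l + 1) = 2 ^ l := by
                rw [pow_succ]
                omega
              rw [this]
              push_cast
              field_simp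
      push_cast
      linarith
  exact h1.trans (h2 l)

theorem card_small_subsets (S : Finset ℕ) (l : ℕ) (hS : S.card ≤ 2 ^ l) :
    ((S.powerset.filter (fun E => E.card < 4 * l + 1)).card : ℝ) ≤ 2 ^ (4 * l ^ 2 + 4 * l) := by
  have h1 : (S.powerset.filter (fun E => E.card < 4 * l + 1)).card =
      ∑ i ∈ range (4 * l + 1), S.card.choose i := by
    rw [card_eq_sum_card_fiberwise (f := card) (t := range (4 * l + 1))]
    · apply sum_congr rfl
      intro i hi
      rw [mem_range] at hi
      rw [← card_powersetCard]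
      congr 1
      ext E
      simp only [mem_filter, mem_powerset, mem_powersetCard]
      constructor
      · rintro ⟨⟨h1, _⟩, h3⟩
        exact ⟨h1, h3⟩
      · rintro ⟨h1, h2⟩
        exact ⟨⟨h1, by omega⟩, h2⟩
    · intro E hE
      have := (mem_filter.mp hE).2
      simpa using this
  have h2 : ∑ i ∈ range (4 * l + 1), S.card.choose i ≤ 2 ^ (4 * l ^ 2 + 4 * l) := by
    calc _ ≤ ∑ i ∈ range (4 * l + 1), (2 ^ l) ^ (4 * l) := by
          apply sum_le_sum
          intro i hi
          rw [mem_range] at hi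
          calc S.card.choose i ≤ S.card ^ i := Nat.choose_le_pow _ _
            _ ≤ (2 ^ l) ^ i := Nat.pow_le_pow_left hS i
            _ ≤ (2 ^ l) ^ (4 * l) := Nat.pow_le_pow_right (by positivity) (by omega)
      _ = (4 * l + 1) * 2 ^ (4 * l ^ 2) := by
          rw [sum_const, card_range, smul_eq_mul, ← pow_mul]
          congr 2
          ring
      _ ≤ 2 ^ (4 * l) * 2 ^ (4 * l ^ 2) := by
          apply Nat.mul_le_mul_right
          exact Nat.lt_two_pow_self
      _ = _ := by rw [← pow_add, add_comm]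
  rw [h1]
  exact_mod_cast h2

/-- the combinatorial sieve -/
theorem comb_sieve {α : Type*} (B : Finset α) (mem : α → ℕ → Prop) [∀ n p, Decidable (mem n p)]
    (l : ℕ) (S : Finset ℕ) (hS : ∀ p ∈ S, 1 ≤ p ∧ p ≤ 2 ^ l) (X err : ℝ) (hX : 0 ≤ X)
    (herr : 0 ≤ err)
    (hcnt : ∀ E ⊆ S, E.card < 4 * l + 1 →
      |((B.filter (fun n => ∀ p ∈ E, mem n p)).card : ℝ) - X * ∏ p ∈ E, (1 : ℝ) / p| ≤ err) :
    ∑ n ∈ B, (1 / 2 : ℝ) ^ (S.filter (fun p => mem n p)).card ≤
      X * (Real.exp (-(∑ p ∈ S, (1 : ℝ) / p) / 2) + 2 * (1 / 2) ^ l) +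
        2 ^ (4 * l ^ 2 + 4 * l) * err := by
  classical
  set m := 4 * l + 1 with hm
  have hmodd : Odd m := ⟨2 * l, by omega⟩
  -- step 1: truncated inclusion-exclusion
  have step1 : ∑ n ∈ B, (1 / 2 : ℝ) ^ (S.filter (fun p => mem n p)).card ≤
      ∑ E ∈ S.powerset.filter (fun E => E.card < m), (-1 / 2 : ℝ) ^ E.card *
        ((B.filter (fun n => ∀ p ∈ E, mem n p)).card : ℝ) := by
    calc _ ≤ ∑ n ∈ B, Wb (S.filter (fun p => mem n p)).card m :=
          sum_le_sum fun n _ => (Wb_bounds _ m).2 hmodd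
      _ = ∑ n ∈ B, ∑ E ∈ S.powerset.filter (fun E => E.card < m),
          (if ∀ p ∈ E, mem n p then (-1 / 2 : ℝ) ^ E.card else 0) := by
          apply sum_congr rfl
          intro n _
          rw [← Wb_subsets, ← sum_filter, ← sum_filter]
          apply sum_congr _ (fun _ _ => rfl)
          ext E
          simp only [mem_filter, mem_powerset, subset_iff]
          constructor
          · rintro ⟨h1, h2⟩
            exact ⟨⟨fun x hx => (h1 hx).1, h2⟩, fun p hp => (h1 hp).2⟩
          · rintro ⟨⟨h1, h2⟩, h3⟩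
            exact ⟨fun x hx => ⟨h1 hx, h3 x hx⟩, h2⟩
      _ = ∑ E ∈ S.powerset.filter (fun E => E.card < m), ∑ n ∈ B,
          (if ∀ p ∈ E, mem n p then (-1 / 2 : ℝ) ^ E.card else 0) := sum_comm
      _ = _ := by
          apply sum_congr rfl
          intro E _
          rw [← sum_filter, sum_const, nsmul_eq_mul, mul_comm]
  -- step 2: replace the counts
  have step2 : ∑ E ∈ S.powerset.filter (fun E => E.card < m), (-1 / 2 : ℝ) ^ E.card *
        ((B.filter (fun n => ∀ p ∈ E, mem n p)).card : ℝ) ≤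
      X * ∑ E ∈ S.powerset.filter (fun E => E.card < m), ∏ p ∈ E, (-1 / 2 : ℝ) * (1 / p) +
        2 ^ (4 * l ^ 2 + 4 * l) * err := by
    have hterm : ∀ E ∈ S.powerset.filter (fun E => E.card < m), (-1 / 2 : ℝ) ^ E.card *
        ((B.filter (fun n => ∀ p ∈ E, mem n p)).card : ℝ) ≤
        X * ∏ p ∈ E, (-1 / 2 : ℝ) * (1 / p) + err := by
      intro E hE
      rw [mem_filter, mem_powerset] at hE
      have h1 := hcnt E hE.1 hE.2
      set c := ((B.filter (fun n => ∀ p ∈ E, mem n p)).card : ℝ)
      set w := ∏ p ∈ E, (1 : ℝ) / p with hw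
      have h2 : ∏ p ∈ E, (-1 / 2 : ℝ) * (1 / (p : ℝ)) = (-1 / 2 : ℝ) ^ E.card * w := by
        rw [prod_mul_distrib, prod_const]
      rw [h2]
      have h3 : (-1 / 2 : ℝ) ^ E.card * (c - X * w) ≤ err := by
        calc _ ≤ |(-1 / 2 : ℝ) ^ E.card * (c - X * w)| := le_abs_self _
          _ = |(-1 / 2 : ℝ) ^ E.card| * |c - X * w| := abs_mul _ _
          _ ≤ 1 * err := by
              apply mul_le_mul _ h1 (abs_nonneg _) zero_le_one
              rw [abs_pow]
              apply pow_le_one₀ (abs_nonneg _)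
              rw [abs_le]
              constructor <;> norm_num
          _ = err := one_mul _
      linarith
    refine (sum_le_sum hterm).trans ?_
    rw [sum_add_distrib, ← mul_sum, sum_const, nsmul_eq_mul]
    have hcardS : S.card ≤ 2 ^ l := by
      have : S ⊆ Icc 1 (2 ^ l) := fun p hp => mem_Icc.mpr (hS p hp)
      calc S.card ≤ (Icc 1 (2 ^ l)).card := card_le_card this
        _ = 2 ^ l := by rw [Nat.card_Icc]; exact Nat.add_sub_cancel _ _
    have h3 := card_small_subsets S l hcardS
    have h4 := mul_le_mul_of_nonneg_right h3 herr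
    linarith
  -- step 3: complete the product
  have hsplit : ∑ E ∈ S.powerset.filter (fun E => E.card < m), ∏ p ∈ E, (-1 / 2 : ℝ) * (1 / p) =
      ∏ p ∈ S, (1 + (-1 / 2 : ℝ) * (1 / p)) -
      ∑ E ∈ S.powerset.filter (fun E => ¬ E.card < m), ∏ p ∈ E, (-1 / 2 : ℝ) * (1 / p) := by
    rw [prod_one_add, ← sum_filter_add_sum_filter_not S.powerset (fun E => E.card < m)]
    ring
  have hprod : ∏ p ∈ S, (1 + (-1 / 2 : ℝ) * (1 / p)) ≤
      Real.exp (-(∑ p ∈ S, (1 : ℝ) / p) / 2) := by
    have h1 : -(∑ p ∈ S, (1 : ℝ) / p) / 2 = ∑ p ∈ S, (-1 / 2 : ℝ) * (1 / p) := by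
      rw [← mul_sum]
      ring
    rw [h1, Real.exp_sum]
    apply prod_le_prod
    · intro p hp
      have h2 : (1 : ℝ) ≤ p := by exact_mod_cast (hS p hp).1
      have h3 : (1 : ℝ) / p ≤ 1 := by
        rw [div_le_one (by linarith)]
        exact h2
      linarith
    · intro p _
      have := Real.add_one_le_exp ((-1 / 2 : ℝ) * (1 / p))
      linarith
  have htail : |∑ E ∈ S.powerset.filter (fun E => ¬ E.card < m),
      ∏ p ∈ E, (-1 / 2 : ℝ) * (1 / p)| ≤ 2 * (1 / 2) ^ l := by
    calc _ ≤ ∑ E ∈ S.powerset.filter (fun E => ¬ E.card < m),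
          |∏ p ∈ E, (-1 / 2 : ℝ) * (1 / p)| := abs_sum_le_sum_abs _ _
      _ ≤ ∑ E ∈ S.powerset.filter (fun E => ¬ E.card < m),
          (1 / 4 : ℝ) ^ m * ∏ p ∈ E, (2 * (1 / p) : ℝ) := by
          apply sum_le_sum
          intro E hE
          rw [mem_filter] at hE
          have h1 : |∏ p ∈ E, (-1 / 2 : ℝ) * (1 / p)| = (1 / 4 : ℝ) ^ E.card *
              ∏ p ∈ E, (2 * (1 / p) : ℝ) := by
            rw [abs_prod, ← prod_const, ← prod_mul_distrib]
            apply prod_congr rfl
            intro p _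
            rw [abs_mul, abs_of_nonneg (by positivity : (0 : ℝ) ≤ 1 / p)]
            norm_num
            ring
          rw [h1]
          apply mul_le_mul_of_nonneg_right _ (prod_nonneg fun p _ => by positivity)
          apply pow_le_pow_of_le_one (by norm_num) (by norm_num)
          omega
      _ ≤ ∑ E ∈ S.powerset, (1 / 4 : ℝ) ^ m * ∏ p ∈ E, (2 * (1 / p) : ℝ) := by
          apply sum_le_sum_of_subset_of_nonneg (filter_subset _ _)
          intro E _ _
          apply mul_nonneg (by positivity) (prod_nonneg fun p _ => by positivity)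
      _ = (1 / 4 : ℝ) ^ m * ∏ p ∈ S, (1 + (2 * (1 / p) : ℝ)) := by
          rw [← mul_sum, prod_one_add]
      _ ≤ (1 / 4 : ℝ) ^ m * Real.exp (∑ p ∈ S, (2 * (1 / p) : ℝ)) := by
          apply mul_le_mul_of_nonneg_left _ (by positivity)
          exact Real.prod_one_add_le_exp_sum S (f := fun p => (2 * (1 / p) : ℝ))
            (fun p => by positivity)
      _ ≤ (1 / 4 : ℝ) ^ m * Real.exp (2 + 2 * l) := by
          apply mul_le_mul_of_nonneg_left _ (by positivity)
          apply Real.exp_le_exp.mpr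
          rw [← mul_sum]
          have := harm_le l S hS
          linarith
      _ ≤ 2 * (1 / 2) ^ l := by
          have he : Real.exp 2 ≤ 8 := by
            have h1 : Real.exp 2 = Real.exp 1 ^ 2 := by
              rw [← Real.exp_nat_mul]
              norm_num
            rw [h1]
            have h2 := Real.exp_one_lt_d9
            have h3 := Real.exp_pos 1
            nlinarith
          have h1 : Real.exp (2 + 2 * l) = Real.exp 2 * Real.exp 2 ^ l := by
            rw [← Real.exp_nat_mul, ← Real.exp_add]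
            congr 1
            ring
          rw [h1, hm, pow_succ, pow_mul]
          have h2 : Real.exp 2 ^ l ≤ 8 ^ l := pow_le_pow_left₀ (Real.exp_pos _).le he l
          have h3 : ((1 / 4 : ℝ) ^ 4) ^ l * 8 ^ l ≤ (1 / 2) ^ l := by
            rw [← mul_pow]
            apply pow_le_pow_left₀ (by norm_num)
            norm_num
          have h4 : (0 : ℝ) ≤ ((1 / 4 : ℝ) ^ 4) ^ l := by positivity
          have h5 : 0 < Real.exp 2 := Real.exp_pos _
          calc ((1 / 4 : ℝ) ^ 4) ^ l * (1 / 4) * (Real.exp 2 * Real.exp 2 ^ l) =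
                (1 / 4 * Real.exp 2) * (((1 / 4 : ℝ) ^ 4) ^ l * Real.exp 2 ^ l) := by ring
            _ ≤ (1 / 4 * 8) * (((1 / 4 : ℝ) ^ 4) ^ l * 8 ^ l) := by gcongr
            _ ≤ (1 / 4 * 8) * (1 / 2) ^ l := by gcongr
            _ = _ := by ring
  have hfin : ∑ E ∈ S.powerset.filter (fun E => E.card < m), ∏ p ∈ E, (-1 / 2 : ℝ) * (1 / p) ≤
      Real.exp (-(∑ p ∈ S, (1 : ℝ) / p) / 2) + 2 * (1 / 2) ^ l := by
    rw [hsplit]
    have := (abs_le.mp htail).1
    linarith
  have := mul_le_mul_of_nonneg_left hfin hX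
  linarith

end

end Pool.Agent.H10.Sar
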