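import Pool.Agent.H10.Sar.Cnt
import Pool.Agent.H10.Sar.SieveComb
set_option autoImplicit false
set_option linter.unusedSectionVars false

namespace Pool.Agent.H10.Sar

open NumberField Module Finset
open scoped Classical

noncomputable section

variable {K : Type*} [Field K] [NumberField K] {D : ℕ} (b : Basis (Fin D) ℤ (𝓞 K))

lemma pow_upper (D : ℕ) (x : ℝ) (hx : 0 ≤ x) (hx1 : x ≤ 1) :
    (1 + x) ^ D ≤ 1 + D * 2 ^ D * x := by
  induction D with
  | zero => simp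
  | succ D ih =>
    have h2 : (1 : ℝ) ≤ 2 ^ D := one_le_pow₀ (by norm_num)
    have h3 : (0 : ℝ) ≤ D * 2 ^ D * x := by positivity
    calc (1 + x) ^ (D + 1) = (1 + x) ^ D * (1 + x) := pow_succ _ _
      _ ≤ (1 + D * 2 ^ D * x) * (1 + x) := mul_le_mul_of_nonneg_right ih (by linarith)
      _ ≤ 1 + ((D + 1 : ℕ) : ℝ) * 2 ^ (D + 1) * x := by
          push_cast
          rw [pow_succ]
          have h4 : (D * 2 ^ D * x) * x ≤ (D * 2 ^ D * x) * 1 := mul_le_mul_of_nonneg_left hx1 h3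
          have h5 : x ≤ 2 ^ D * x := le_mul_of_one_le_left hx h2
          nlinarith

/-- membership in the product of distinct primes -/
lemma mem_prod_iff (S : Finset ℕ) (P : ℕ → Ideal (𝓞 K))
    (hP : ∀ p ∈ S, p.Prime ∧ (P p).IsPrime ∧ Ideal.absNorm (P p) = p) (x : 𝓞 K) :
    x ∈ ∏ p ∈ S, P p ↔ ∀ p ∈ S, x ∈ P p := by
  have h1 : ∏ p ∈ S, P p = ⨅ p ∈ S, P p := by
    apply Ideal.prod_eq_iInf_of_pairwise_isCoprime
    intro p hp q hq hpq
    have hp' := hP p hp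
    have hq' := hP q hq
    have hp0 : P p ≠ ⊥ := by
      intro h
      have := hp'.2.2
      rw [h, Ideal.absNorm_bot] at this
      exact hp'.1.ne_zero this.symm
    have hq0 : P q ≠ ⊥ := by
      intro h
      have := hq'.2.2
      rw [h, Ideal.absNorm_bot] at this
      exact hq'.1.ne_zero this.symm
    have hpm : (P p).IsMaximal := hp'.2.1.isMaximal hp0
    have hqm : (P q).IsMaximal := hq'.2.1.isMaximal hq0
    simp only [Function.onFun]
    rw [Ideal.isCoprime_iff_sup_eq]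
    apply hpm.coprime_of_ne hqm
    intro h
    apply hpq
    rw [← hp'.2.2, ← hq'.2.2, h]
  rw [h1]
  simp [Submodule.mem_iInf]

/-- the count for one set of primes -/
lemma count_one (l : ℕ) (E : Finset ℕ) (P : ℕ → Ideal (𝓞 K)) (hE : E.card < 4 * l + 1)
    (hP : ∀ p ∈ E, p.Prime ∧ p ≤ 2 ^ l ∧ (P p).IsPrime ∧ Ideal.absNorm (P p) = p)
    (H : ℕ) (hH : 2 ^ (4 * l ^ 2) ≤ H) :
    |((((bx D H).filter (fun n => ∀ p ∈ E, b.equivFun.symm n ∈ P p)).card : ℕ) : ℝ) -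
      (H : ℝ) ^ D * ∏ p ∈ E, (1 : ℝ) / p| ≤ D * 2 ^ D * ((H : ℝ) ^ D / H) := by
  set I := ∏ p ∈ E, P p with hI
  set N := Ideal.absNorm I with hN
  have hNprod : N = ∏ p ∈ E, p := by
    rw [hN, hI, map_prod]
    exact prod_congr rfl fun p hp => (hP p hp).2.2.2
  have hNpos : 0 < N := by
    rw [hNprod]
    exact prod_pos fun p hp => (hP p hp).1.pos
  have hNle : N ≤ H := by
    rw [hNprod]
    calc ∏ p ∈ E, p ≤ ∏ p ∈ E, 2 ^ l := prod_le_prod' fun p hp => (hP p hp).2.1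
      _ = (2 ^ l) ^ E.card := by rw [prod_const]
      _ ≤ (2 ^ l) ^ (4 * l) := Nat.pow_le_pow_right (by positivity) (by omega)
      _ = 2 ^ (4 * l ^ 2) := by rw [← pow_mul]; congr 1; ring
      _ ≤ H := hH
  have hHpos : 0 < H := lt_of_lt_of_le hNpos hNle
  have hmem : ∀ n : Fin D → ℤ, (∀ p ∈ E, b.equivFun.symm n ∈ P p) ↔ b.equivFun.symm n ∈ I := by
    intro n
    rw [hI, mem_prod_iff E P (fun p hp => ⟨(hP p hp).1, (hP p hp).2.2⟩)]
  have hfilter : (bx D H).filter (fun n => ∀ p ∈ E, b.equivFun.symm n ∈ P p) =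
      (bx D H).filter (fun n => b.equivFun.symm n ∈ I) := by
    apply filter_congr
    intro n _
    exact hmem n
  rw [hfilter]
  set c := ((bx D H).filter (fun n => b.equivFun.symm n ∈ I)).card with hc
  have hle := ideal_count_le b I N hNpos (Ideal.absNorm_mem I) H
  have hge := ideal_count_ge b I N hNpos (Ideal.absNorm_mem I) H
  rw [← hc, ← hN] at hle hge
  have hprod : ∏ p ∈ E, (1 : ℝ) / p = 1 / N := by
    rw [hNprod]
    push_cast
    rw [prod_div_distrib, prod_const_one]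
  rw [hprod]
  have hNR : (0 : ℝ) < N := by exact_mod_cast hNpos
  have hHR : (0 : ℝ) < H := by exact_mod_cast hHpos
  have hNHR : (N : ℝ) ≤ H := by exact_mod_cast hNle
  set x : ℝ := N / H with hx
  have hx0 : 0 ≤ x := by positivity
  have hx1 : x ≤ 1 := by rw [hx, div_le_one hHR]; exact hNHR
  have hleR : (c : ℝ) * N ≤ (H : ℝ) ^ D * (1 + D * 2 ^ D * x) := by
    have h1 : (c : ℝ) * N ≤ ((H : ℝ) + N) ^ D := by exact_mod_cast hle
    have h2 : ((H : ℝ) + N) ^ D = (H : ℝ) ^ D * (1 + x) ^ D := by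
      rw [← mul_pow]
      congr 1
      rw [hx]
      field_simp
    rw [h2] at h1
    exact h1.trans (mul_le_mul_of_nonneg_left (pow_upper D x hx0 hx1) (by positivity))
  have hgeR : (H : ℝ) ^ D * (1 - D * 2 ^ D * x) ≤ (c : ℝ) * N := by
    have h1 : ((H : ℝ) - N) ^ D ≤ (c : ℝ) * N := by
      have : (((H - N : ℕ) : ℝ)) ^ D ≤ (c : ℝ) * N := by exact_mod_cast hge
      rwa [Nat.cast_sub hNle] at this
    have h2 : ((H : ℝ) - N) ^ D = (H : ℝ) ^ D * (1 + -x) ^ D := by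
      rw [← mul_pow]
      congr 1
      rw [hx]
      field_simp
      ring
    rw [h2] at h1
    refine le_trans ?_ h1
    apply mul_le_mul_of_nonneg_left _ (by positivity)
    have h3 := one_add_mul_le_pow (a := -x) (by linarith) D
    have h4 : (D : ℝ) * x ≤ D * 2 ^ D * x := by
      have : (1 : ℝ) ≤ 2 ^ D := one_le_pow₀ (by norm_num)
      have h5 : (0 : ℝ) ≤ D * x := by positivity
      nlinarith
    linarith
  have hkey : (H : ℝ) ^ D * (D * 2 ^ D * x) = (D * 2 ^ D * ((H : ℝ) ^ D / H)) * N := by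
    rw [hx]
    ring
  rw [abs_le]
  constructor
  · have h1 : ((H : ℝ) ^ D * (1 / N) - D * 2 ^ D * ((H : ℝ) ^ D / H)) * N ≤ c * N := by
      calc _ = (H : ℝ) ^ D - (D * 2 ^ D * ((H : ℝ) ^ D / H)) * N := by
            field_simp
        _ = (H : ℝ) ^ D * (1 - D * 2 ^ D * x) := by rw [← hkey]; ring
        _ ≤ _ := hgeR
    have := le_of_mul_le_mul_right h1 hNR
    linarith
  · have h1 : (c : ℝ) * N ≤ ((H : ℝ) ^ D * (1 / N) + D * 2 ^ D * ((H : ℝ) ^ D / H)) * N := by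
      calc _ ≤ _ := hleR
        _ = (H : ℝ) ^ D + (D * 2 ^ D * ((H : ℝ) ^ D / H)) * N := by rw [← hkey]; ring
        _ = _ := by field_simp
    have := le_of_mul_le_mul_right h1 hNR
    linarith

/-- sieve bound: few points of the box lie in fewer than `g` of the prime ideals -/
theorem sieve_bound (g : ℕ) : ∃ C : ℕ, ∀ (l : ℕ) (S : Finset ℕ) (P : ℕ → Ideal (𝓞 K)), 1 ≤ l →
    (∀ p ∈ S, p.Prime ∧ p ≤ 2 ^ l ∧ (P p).IsPrime ∧ Ideal.absNorm (P p) = p) →
    ∀ H : ℕ, 2 ^ (C * l ^ 2) ≤ H →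
    (((bx D H).filter (fun n => (S.filter (fun p => b.equivFun.symm n ∈ P p)).card < g)).card : ℝ)
      ≤ C * (Real.exp (-(∑ p ∈ S, (1 : ℝ) / p) / 2) + (1 / 2) ^ l) * H ^ D := by
  refine ⟨9 + 2 ^ g * (2 + D * 2 ^ D), ?_⟩
  intro l S P hl hP H hH
  set C := 9 + 2 ^ g * (2 + D * 2 ^ D) with hC
  have hll : l ≤ l ^ 2 := by nlinarith
  have hH9 : 2 ^ (9 * l ^ 2) ≤ H := by
    refine le_trans (Nat.pow_le_pow_right (by norm_num) ?_) hH
    exact Nat.mul_le_mul_right _ (by omega)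
  have hH4 : 2 ^ (4 * l ^ 2) ≤ H := by
    refine le_trans (Nat.pow_le_pow_right (by norm_num) ?_) hH9
    exact Nat.mul_le_mul_right _ (by omega)
  have hHpos : 0 < H := lt_of_lt_of_le (by positivity) hH4
  have hHR : (0 : ℝ) < H := by exact_mod_cast hHpos
  set r : (Fin D → ℤ) → ℕ := fun n => (S.filter (fun p => b.equivFun.symm n ∈ P p)).card with hr
  have hsieve := comb_sieve (bx D H) (fun n p => b.equivFun.symm n ∈ P p) l S
    (fun p hp => ⟨(hP p hp).1.one_lt.le, (hP p hp).2.1⟩) ((H : ℝ) ^ D)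
    (D * 2 ^ D * ((H : ℝ) ^ D / H)) (by positivity) (by positivity)
    (fun E hES hEc => count_one b l E P hEc (fun p hp => hP p (hES hp)) H hH4)
  have hcount : (((bx D H).filter (fun n => r n < g)).card : ℝ) ≤
      2 ^ g * ∑ n ∈ bx D H, (1 / 2 : ℝ) ^ r n := by
    calc (((bx D H).filter (fun n => r n < g)).card : ℝ) =
          ∑ n ∈ (bx D H).filter (fun n => r n < g), (1 : ℝ) := by simp
      _ ≤ ∑ n ∈ (bx D H).filter (fun n => r n < g), 2 ^ g * (1 / 2 : ℝ) ^ r n := by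
          apply sum_le_sum
          intro n hn
          rw [mem_filter] at hn
          have h1 : (1 / 2 : ℝ) ^ g ≤ (1 / 2 : ℝ) ^ r n :=
            pow_le_pow_of_le_one (by norm_num) (by norm_num) hn.2.le
          calc (1 : ℝ) = 2 ^ g * (1 / 2 : ℝ) ^ g := by rw [← mul_pow]; norm_num
            _ ≤ _ := mul_le_mul_of_nonneg_left h1 (by positivity)
      _ ≤ ∑ n ∈ bx D H, 2 ^ g * (1 / 2 : ℝ) ^ r n := by
          apply sum_le_sum_of_subset_of_nonneg (filter_subset _ _)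
          intro n _ _
          positivity
      _ = _ := by rw [mul_sum]
  have herr : (2 : ℝ) ^ (4 * l ^ 2 + 4 * l) * (D * 2 ^ D * ((H : ℝ) ^ D / H)) ≤
      D * 2 ^ D * ((1 / 2) ^ l * (H : ℝ) ^ D) := by
    have h1 : (2 : ℝ) ^ (4 * l ^ 2 + 4 * l) * 2 ^ l ≤ H := by
      rw [← pow_add]
      have h0 : (2 : ℝ) ^ (4 * l ^ 2 + 4 * l + l) ≤ (2 : ℝ) ^ (9 * l ^ 2) := by
        apply pow_le_pow_right₀ (by norm_num)
        nlinarith
      have h00 : (2 : ℝ) ^ (9 * l ^ 2) ≤ (H : ℝ) := by exact_mod_cast hH9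
      exact h0.trans h00
    have h2 : (2 : ℝ) ^ (4 * l ^ 2 + 4 * l) * (1 / H) ≤ (1 / 2) ^ l := by
      rw [one_div, one_div, inv_pow, ← div_eq_mul_inv, div_le_iff₀ hHR, ← div_eq_inv_mul,
        le_div_iff₀ (by positivity)]
      exact h1
    calc _ = D * 2 ^ D * (((2 : ℝ) ^ (4 * l ^ 2 + 4 * l) * (1 / H)) * (H : ℝ) ^ D) := by ring
      _ ≤ _ := by gcongr
  set e := Real.exp (-(∑ p ∈ S, (1 : ℝ) / p) / 2) with he
  have he0 : 0 < e := Real.exp_pos _
  have hl0 : (0 : ℝ) < (1 / 2) ^ l := by positivity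
  have hHD : (0 : ℝ) < (H : ℝ) ^ D := by positivity
  calc (((bx D H).filter (fun n => r n < g)).card : ℝ) ≤
        2 ^ g * ∑ n ∈ bx D H, (1 / 2 : ℝ) ^ r n := hcount
    _ ≤ 2 ^ g * ((H : ℝ) ^ D * (e + 2 * (1 / 2) ^ l) +
          D * 2 ^ D * ((1 / 2) ^ l * (H : ℝ) ^ D)) := by
        apply mul_le_mul_of_nonneg_left _ (by positivity)
        linarith
    _ ≤ 2 ^ g * ((2 + D * 2 ^ D) * (e + (1 / 2) ^ l) * (H : ℝ) ^ D) := by
        apply mul_le_mul_of_nonneg_left _ (by positivity)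
        have h3 : (0 : ℝ) ≤ D * 2 ^ D * e * (H : ℝ) ^ D := by positivity
        have h4 : (0 : ℝ) ≤ e * (H : ℝ) ^ D := by positivity
        nlinarith
    _ ≤ (C : ℝ) * (e + (1 / 2) ^ l) * (H : ℝ) ^ D := by
        rw [hC]
        push_cast
        have h3 : (0 : ℝ) ≤ (e + (1 / 2) ^ l) * (H : ℝ) ^ D := by positivity
        nlinarith

end

end Pool.Agent.H10.Sar
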