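import Pool.Agent.H10.Sar.AitId
import Pool.Agent.H10.Sar.Bal
import Pool.Agent.H10.Sar.Mer
import Pool.Agent.H10.Sar.Sieve
import Pool.Agent.H10.Sar.NonGood
set_option autoImplicit false
set_option linter.unusedSectionVars false

namespace Pool.Agent.H10.Sar

open NumberField Module Finset
open scoped Classical

noncomputable section

variable {K : Type*} [Field K] [NumberField K] {D : ℕ} (b : Basis (Fin D) ℤ (𝓞 K))

lemma sum_recip_le (S : Finset ℕ) (z : ℕ) (hS : ∀ p ∈ S, 1 ≤ p ∧ p ≤ z) :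
    ∑ p ∈ S, (1 : ℝ) / p ≤ 1 + Real.log z := by
  have h1 : ∑ p ∈ S, (1 : ℝ) / p ≤ ∑ p ∈ Icc 1 z, (1 : ℝ) / p := by
    apply sum_le_sum_of_subset_of_nonneg
    · intro p hp
      rw [mem_Icc]
      exact hS p hp
    · intro p _ _
      positivity
  refine h1.trans ?_
  have h2 := harmonic_le_one_add_log z
  rw [harmonic_eq_sum_Icc] at h2
  push_cast at h2
  simpa [one_div] using h2

lemma sum_recip_sq_le (S : Finset ℕ) (z : ℕ) (hz : 1 ≤ z) (hS : ∀ p ∈ S, z < p) :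
    ∑ p ∈ S, (1 : ℝ) / p ^ 2 ≤ 1 / z := by
  obtain ⟨N, hN⟩ : ∃ N, ∀ p ∈ S, p ≤ N := ⟨S.sup id, fun p hp => le_sup (f := id) hp⟩
  have h1 : ∑ p ∈ S, (1 : ℝ) / p ^ 2 ≤ ∑ p ∈ Ioc z (max z N), (1 : ℝ) / p ^ 2 := by
    apply sum_le_sum_of_subset_of_nonneg
    · intro p hp
      rw [mem_Ioc]
      exact ⟨hS p hp, (hN p hp).trans (le_max_right _ _)⟩
    · intro p _ _
      positivity
  refine h1.trans ?_
  have h2 := sum_Ioc_inv_sq_le_sub (α := ℝ) (k := z) (n := max z N) (by omega) (le_max_left _ _)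
  have h3 : (0 : ℝ) ≤ ((max z N : ℕ) : ℝ)⁻¹ := by positivity
  calc ∑ p ∈ Ioc z (max z N), (1 : ℝ) / p ^ 2 = ∑ p ∈ Ioc z (max z N), ((p : ℝ) ^ 2)⁻¹ := by
        refine sum_congr rfl (fun p _ => ?_)
        rw [one_div]
    _ ≤ (z : ℝ)⁻¹ - ((max z N : ℕ) : ℝ)⁻¹ := h2
    _ ≤ 1 / z := by rw [one_div]; linarith

lemma balanced_ge {Cg Cb : ℕ} (hg : GeoC b Cg) {a : 𝓞 K} (ha : a ≠ 0)
    (hb : sz b a ^ D ≤ Cb * (Algebra.norm ℤ a).natAbs) (m : Fin D → ℤ) :
    sz b a * nn m ≤ (Cb * Cg ^ 2) * nn (act b a m) := by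
  have h1 := hg.act_ge a m
  have hs : 0 < sz b a := sz_pos ha
  have hD := D_pos b
  have h2 : sz b a ^ (D - 1) * (sz b a * nn m) ≤ sz b a ^ (D - 1) * ((Cb * Cg ^ 2) * nn (act b a m)) := by
    calc sz b a ^ (D - 1) * (sz b a * nn m) = sz b a ^ D * nn m := by
          rw [← mul_assoc, ← pow_succ]
          congr 2
          omega
      _ ≤ (Cb * (Algebra.norm ℤ a).natAbs) * nn m := Nat.mul_le_mul_right _ hb
      _ = Cb * ((Algebra.norm ℤ a).natAbs * nn m) := by ring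
      _ ≤ Cb * (Cg ^ 2 * sz b a ^ (D - 1) * nn (act b a m)) := Nat.mul_le_mul_left _ h1
      _ = _ := by ring
  exact Nat.le_of_mul_le_mul_left h2 (pow_pos hs _)

/-- the arithmetic input -/
theorem ait (χ : 𝓞 K → ℂ)
    (hmul : ∀ m n : 𝓞 K, IsCoprime (Algebra.norm ℤ m) (Algebra.norm ℤ n) →
      χ (m * n) = χ m * χ n) (hχ : ∀ x, ‖χ x‖ ≤ 1) :
    ∃ s : ℕ, 1 ≤ s ∧ ∀ B : ℕ, ∃ C : ℕ, 1 ≤ C ∧ ∀ j : ℕ, C ≤ j →
      ∃ (𝒜 : Finset (𝓞 K)) (β : (Fin D → ℤ) → ℂ) (𝓔 : Set (Fin D → ℤ)),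
        (∀ n, ‖β n‖ ≤ 1) ∧
        (∀ α ∈ 𝒜, α ≠ 0 ∧ 2 ^ (B * j) ≤ sz b α ∧ sz b α ≤ 2 ^ (C * 2 ^ (s * j)) ∧
          ∀ m, sz b α * nn m ≤ C * nn (act b α m)) ∧
        (∀ H : ℕ, 2 ^ (C * 2 ^ (2 * s * j)) ≤ H →
          (((bx D H).filter (fun n => n ∈ 𝓔)).card : ℝ) ≤ C * (1 / 2) ^ j * H ^ D) ∧
        (∀ H : ℕ, ∀ G : (Fin D → ℤ) → ℂ, (∀ n, n ∉ bx D H → G n = 0) → ∀ R, C * H ≤ R →
          ‖∑ n ∈ bx D H, χ (b.equivFun.symm n) * G n - ∑ α ∈ 𝒜, χ α *
            ∑ m ∈ sbx D R, β m * G (act b α m)‖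
            ≤ 2 * ∑ n ∈ (bx D H).filter (fun n => n ∈ 𝓔), ‖G n‖) := by
  obtain ⟨c, C1, hc, hpr⟩ := exists_primes K
  obtain ⟨Cg, hgeo⟩ := exists_geoC b
  obtain ⟨Cb, hbal⟩ := exists_unit_balanced b
  obtain ⟨Cn, hnon⟩ := nongood_bound b
  have hD := D_pos b
  set h := classNumber K with hh
  have hh1 : 1 ≤ h := classNumber_pos K
  obtain ⟨s, hs1, hs5⟩ : ∃ s : ℕ, 1 ≤ s ∧ 5 ≤ c * s := by
    refine ⟨⌈5 / c⌉₊ + 1, by omega, ?_⟩
    have h1 := Nat.le_ceil (5 / c)
    push_cast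
    rw [div_le_iff₀ hc] at h1
    nlinarith
  refine ⟨s, hs1, ?_⟩
  intro B
  set g := h * (B * D + 1) with hg
  obtain ⟨Cs, hsv⟩ := sieve_bound b g
  -- the constant from the exponential of the prime sum
  set C2 : ℝ := C1 + 1 - c * Real.log (Real.log 2) with hC2
  set C : ℕ := Cs + Cn + Cb * Cg ^ 2 + Cb + g + Cg + 2 + ⌈Cs * (Real.exp (C2 / 2) + 1) + Cn⌉₊ with hC
  refine ⟨C, by omega, ?_⟩
  intro j hj
  set z := 2 ^ j with hz
  set l := 2 ^ (s * j) with hl
  have hjl : j ≤ l := by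
    calc j ≤ 2 ^ j := Nat.lt_two_pow_self.le
      _ ≤ 2 ^ (s * j) := Nat.pow_le_pow_right (by norm_num) (Nat.le_mul_of_pos_left _ (by omega))
  have hl1 : 1 ≤ l := Nat.one_le_two_pow
  have hl2 : 2 ≤ l := by omega
  have hx3 : 3 ≤ 2 ^ l := by
    calc 3 ≤ 2 ^ 2 := by norm_num
      _ ≤ 2 ^ l := Nat.pow_le_pow_right (by norm_num) hl2
  obtain ⟨S0, P, hS0, hprin, hsum0⟩ := hpr (2 ^ l) hx3
  set S := S0.filter (fun p => z < p) with hS
  have hSsub : S ⊆ S0 := filter_subset _ _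
  have hdeg : DegOne S P := fun p hp => ⟨(hS0 p (hSsub hp)).1, (hS0 p (hSsub hp)).2.2.1,
    (hS0 p (hSsub hp)).2.2.2⟩
  have hSz : ∀ p ∈ S, z < p := fun p hp => (mem_filter.mp hp).2
  have hSx : ∀ p ∈ S, p ≤ 2 ^ l := fun p hp => (hS0 p (hSsub hp)).2.1
  -- lower bound for the prime sum
  have hlog2 : 0 < Real.log 2 := Real.log_pos (by norm_num)
  have hsumS : 4 * (j * Real.log 2) - C2 ≤ ∑ p ∈ S, (1 : ℝ) / p := by
    have h1 : Real.log (Real.log ((2 ^ l : ℕ) : ℝ)) = s * (j * Real.log 2) + Real.log (Real.log 2) := by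
      push_cast
      rw [Real.log_pow, Real.log_mul (by positivity) hlog2.ne', hl]
      push_cast
      rw [Real.log_pow]
      push_cast
      ring
    rw [h1] at hsum0
    have h2 : ∑ p ∈ S0, (1 : ℝ) / p = ∑ p ∈ S, (1 : ℝ) / p
        + ∑ p ∈ S0.filter (fun p => ¬ z < p), (1 : ℝ) / p := by
      rw [hS, sum_filter_add_sum_filter_not]
    have h3 : ∑ p ∈ S0.filter (fun p => ¬ z < p), (1 : ℝ) / p ≤ 1 + Real.log z := by
      apply sum_recip_le
      intro p hp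
      rw [mem_filter] at hp
      exact ⟨(hS0 p hp.1).1.one_lt.le, not_lt.mp hp.2⟩
    have h4 : Real.log z = j * Real.log 2 := by
      rw [hz]
      push_cast
      rw [Real.log_pow]
    have h5 : 5 * (j * Real.log 2) ≤ c * s * (j * Real.log 2) :=
      mul_le_mul_of_nonneg_right hs5 (by positivity)
    rw [hC2]
    rw [h4] at h3
    nlinarith
  -- balanced generators
  have hprin' : ∀ E, ∃ a : 𝓞 K, E ∈ S.powersetCard g → Ideal.span {a} = ∏ p ∈ E, P p ∧
      sz b a ^ D ≤ Cb * (Algebra.norm ℤ a).natAbs := by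
    intro E
    by_cases hE : E ∈ S.powersetCard g
    · rw [mem_powersetCard] at hE
      have h1 := hprin E (hE.1.trans hSsub) (by rw [hE.2, hg]; exact dvd_mul_right _ _)
      obtain ⟨x, hx⟩ := h1
      obtain ⟨u, hu⟩ := hbal x
      refine ⟨(u : 𝓞 K) * x, fun _ => ⟨?_, ?_⟩⟩
      · rw [Ideal.span_singleton_mul_left_unit u.isUnit]
        exact hx.symm
      · have h2 : (Algebra.norm ℤ ((u : 𝓞 K) * x)).natAbs = (Algebra.norm ℤ x).natAbs := by
          rw [← Ideal.absNorm_span_singleton, ← Ideal.absNorm_span_singleton,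
            Ideal.span_singleton_mul_left_unit u.isUnit]
        rw [h2]
        exact hu
    · exact ⟨0, fun h => absurd h hE⟩
  choose α hα using hprin'
  have hα1 : ∀ E ∈ S.powersetCard g, Ideal.span {α E} = ∏ p ∈ E, P p := fun E hE => (hα E hE).1
  have hα2 : ∀ E ∈ S.powersetCard g, sz b (α E) ^ D ≤ Cb * (Algebra.norm ℤ (α E)).natAbs :=
    fun E hE => (hα E hE).2
  have hN : ∀ E ∈ S.powersetCard g, (Algebra.norm ℤ (α E)).natAbs = ∏ p ∈ E, p :=
    fun E hE => natAbs_norm_gen hdeg (mem_powersetCard.mp hE).1 (hα1 E hE)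
  have hNpos : ∀ E ∈ S.powersetCard g, 0 < (Algebra.norm ℤ (α E)).natAbs := by
    intro E hE
    rw [hN E hE]
    apply prod_pos
    intro p hp
    exact (hdeg p ((mem_powersetCard.mp hE).1 hp)).1.pos
  have hα0 : ∀ E ∈ S.powersetCard g, α E ≠ 0 := by
    intro E hE h0
    have := hNpos E hE
    rw [h0, Algebra.norm_zero] at this
    simp at this
  have hbalE : ∀ E ∈ S.powersetCard g, ∀ m, sz b (α E) * nn m ≤ C * nn (act b (α E) m) := by
    intro E hE m
    refine (balanced_ge b hgeo (hα0 E hE) (hα2 E hE) m).trans ?_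
    exact Nat.mul_le_mul_right _ (by omega)
  have hinj : ∀ E ∈ S.powersetCard g, ∀ E' ∈ S.powersetCard g, α E = α E' → E = E' := by
    have key : ∀ E ∈ S.powersetCard g, ∀ E' ∈ S.powersetCard g, α E = α E' → E ⊆ E' := by
      intro E hE E' hE' heq p hp
      have hpS := (mem_powersetCard.mp hE).1 hp
      have h1 := (gen_mem_iff hdeg (mem_powersetCard.mp hE).1 (hα1 E hE) hpS).mpr hp
      rw [heq] at h1
      exact (gen_mem_iff hdeg (mem_powersetCard.mp hE').1 (hα1 E' hE') hpS).mp h1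
    intro E hE E' hE' heq
    exact Subset.antisymm (key E hE E' hE' heq) (key E' hE' E hE heq.symm)
  refine ⟨(S.powersetCard g).image α, fun m => bet χ S P g (b.equivFun.symm m),
    {n | (SS S P (b.equivFun.symm n)).card < g ∨ ¬ Good S P (b.equivFun.symm n)}, ?_, ?_, ?_, ?_⟩
  · intro n
    exact norm_bet_le hχ _ _ _ _
  · intro a ha
    obtain ⟨E, hE, rfl⟩ := mem_image.mp ha
    have hEc : E.card = g := (mem_powersetCard.mp hE).2
    refine ⟨hα0 E hE, ?_, ?_, hbalE E hE⟩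
    · by_contra hlt
      rw [not_le] at hlt
      have h1 : z ^ g ≤ (Algebra.norm ℤ (α E)).natAbs := by
        rw [hN E hE, ← hEc]
        apply pow_card_le_prod
        intro p hp
        exact (hSz p ((mem_powersetCard.mp hE).1 hp)).le
      have h2 := hgeo.norm (α E)
      have h3 : sz b (α E) ^ D ≤ (2 ^ (B * j)) ^ D := Nat.pow_le_pow_left hlt.le _
      have h4 : 2 ^ (j * (B * D + 1)) ≤ z ^ g := by
        rw [hz, ← pow_mul]
        apply Nat.pow_le_pow_right (by norm_num)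
        apply Nat.mul_le_mul_left
        rw [hg]
        exact Nat.le_mul_of_pos_left _ hh1
      have h5 : 2 ^ (j * (B * D + 1)) ≤ Cg * 2 ^ (B * j * D) := by
        calc 2 ^ (j * (B * D + 1)) ≤ Cg * sz b (α E) ^ D := h4.trans (h1.trans h2)
          _ ≤ Cg * (2 ^ (B * j)) ^ D := Nat.mul_le_mul_left _ h3
          _ = Cg * 2 ^ (B * j * D) := by rw [← pow_mul]
      have h6 : 2 ^ (j * (B * D + 1)) = 2 ^ j * 2 ^ (B * j * D) := by
        rw [← pow_add]
        congr 1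
        ring
      rw [h6] at h5
      have h7 := Nat.le_of_mul_le_mul_right h5 (pow_pos (by norm_num) _)
      have h8 : j < 2 ^ j := Nat.lt_two_pow_self
      omega
    · have h1 : (Algebra.norm ℤ (α E)).natAbs ≤ (2 ^ l) ^ g := by
        rw [hN E hE, ← hEc]
        apply prod_le_pow_card
        intro p hp
        exact hSx p ((mem_powersetCard.mp hE).1 hp)
      calc sz b (α E) ≤ sz b (α E) ^ D := Nat.le_self_pow (by omega) _
        _ ≤ Cb * (Algebra.norm ℤ (α E)).natAbs := hα2 E hE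
        _ ≤ Cb * (2 ^ l) ^ g := Nat.mul_le_mul_left _ h1
        _ ≤ 2 ^ Cb * (2 ^ l) ^ g := Nat.mul_le_mul_right _ Nat.lt_two_pow_self.le
        _ = 2 ^ (Cb + l * g) := by rw [← pow_mul, ← pow_add]
        _ ≤ 2 ^ (C * l) := by
            apply Nat.pow_le_pow_right (by norm_num)
            have h2 : Cb ≤ Cb * l := Nat.le_mul_of_pos_right _ hl1
            calc Cb + l * g ≤ Cb * l + l * g := by omega
              _ = (Cb + g) * l := by ring
              _ ≤ C * l := Nat.mul_le_mul_right _ (by omega)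
  · intro H hH
    have hll : 2 ^ (2 * s * j) = l ^ 2 := by
      rw [hl, ← pow_mul]
      congr 1
      ring
    rw [hll] at hH
    have hH1 : 2 ^ (Cs * l ^ 2) ≤ H := by
      refine le_trans ?_ hH
      apply Nat.pow_le_pow_right (by norm_num)
      exact Nat.mul_le_mul_right _ (by omega)
    have h1 := hsv l S P hl1 (fun p hp => ⟨(hdeg p hp).1, hSx p hp, (hdeg p hp).2⟩) H hH1
    have h2 := hnon S P hdeg H (fun p hp => by
      calc p ^ 2 ≤ (2 ^ l) ^ 2 := Nat.pow_le_pow_left (hSx p hp) _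
        _ = 2 ^ (2 * l) := by rw [← pow_mul, mul_comm]
        _ ≤ 2 ^ (C * l ^ 2) := by
            apply Nat.pow_le_pow_right (by norm_num)
            rw [pow_two, ← mul_assoc]
            have h3 : 2 * 1 ≤ C * l := Nat.mul_le_mul (by omega) hl1
            exact Nat.mul_le_mul_right _ (by omega)
        _ ≤ H := hH)
    have h3 := sum_recip_sq_le S z (Nat.one_le_two_pow) hSz
    have hhalf : (1 : ℝ) / (z : ℝ) = (1 / 2) ^ j := by
      rw [hz]
      push_cast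
      rw [one_div_pow]
    rw [hhalf] at h3
    have h4 : Real.exp (-(∑ p ∈ S, (1 : ℝ) / p) / 2) ≤ Real.exp (C2 / 2) * (1 / 2) ^ j := by
      have h5 : ((1 : ℝ) / 2) ^ j = Real.exp (-(j * Real.log 2)) := by
        rw [Real.exp_neg, ← Real.log_pow, Real.exp_log (by positivity), one_div_pow, one_div]
      rw [h5, ← Real.exp_add]
      apply Real.exp_le_exp.mpr
      have h6 : 0 ≤ (j : ℝ) * Real.log 2 := by positivity
      linarith
    have h5 : ((1 : ℝ) / 2) ^ l ≤ (1 / 2) ^ j := pow_le_pow_of_le_one (by norm_num) (by norm_num) hjl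
    have h6 : (bx D H).filter (fun n => n ∈ {n | (SS S P (b.equivFun.symm n)).card < g ∨
        ¬ Good S P (b.equivFun.symm n)})
        ⊆ (bx D H).filter (fun n => (S.filter (fun p => b.equivFun.symm n ∈ P p)).card < g) ∪
          (bx D H).filter (fun n => ∃ p ∈ S, b.equivFun.symm n ∈ P p ∧
        (p : ℤ) ^ 2 ∣ Algebra.norm ℤ (b.equivFun.symm n)) := by
      intro n hn
      rw [mem_filter] at hn
      rw [mem_union, mem_filter, mem_filter]
      rcases hn.2 with h7 | h7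
      · exact Or.inl ⟨hn.1, h7⟩
      · right
        refine ⟨hn.1, ?_⟩
        unfold Good at h7
        rw [not_forall] at h7
        obtain ⟨p, hp⟩ := h7
        rw [Classical.not_imp, Classical.not_imp, not_not] at hp
        exact ⟨p, hp.1, hp.2.1, hp.2.2⟩
    have h7 := (card_le_card h6).trans (card_union_le _ _)
    have h8 : (((bx D H).filter (fun n => n ∈ {n | (SS S P (b.equivFun.symm n)).card < g ∨
        ¬ Good S P (b.equivFun.symm n)})).card : ℝ)
        ≤ (((bx D H).filter (fun n => (S.filter (fun p => b.equivFun.symm n ∈ P p)).card < g)).card : ℝ)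
          + (((bx D H).filter (fun n => ∃ p ∈ S, b.equivFun.symm n ∈ P p ∧
        (p : ℤ) ^ 2 ∣ Algebra.norm ℤ (b.equivFun.symm n))).card : ℝ) := by exact_mod_cast h7
    have h80 := h8.trans (add_le_add h1 h2)
    have h9 : (Cs * (Real.exp (-(∑ p ∈ S, (1 : ℝ) / p) / 2) + (1 / 2) ^ l)
        + Cn * (∑ p ∈ S, (1 : ℝ) / p ^ 2)) ≤ C * (1 / 2) ^ j := by
      have h10 : (Cs : ℝ) * (Real.exp (-(∑ p ∈ S, (1 : ℝ) / p) / 2) + (1 / 2) ^ l)
          ≤ Cs * (Real.exp (C2 / 2) * (1 / 2) ^ j + (1 / 2) ^ j) :=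
        mul_le_mul_of_nonneg_left (add_le_add h4 h5) (Nat.cast_nonneg _)
      have h11 : (Cn : ℝ) * (∑ p ∈ S, (1 : ℝ) / p ^ 2) ≤ Cn * (1 / 2) ^ j :=
        mul_le_mul_of_nonneg_left h3 (Nat.cast_nonneg _)
      have h12 : Cs * (Real.exp (C2 / 2) + 1) + Cn ≤ (C : ℝ) := by
        refine (Nat.le_ceil _).trans ?_
        rw [hC]
        push_cast
        have : (0 : ℝ) ≤ Cs + Cn + Cb * Cg ^ 2 + Cb + g + Cg + 2 := by positivity
        linarith
      calc _ ≤ Cs * (Real.exp (C2 / 2) * (1 / 2) ^ j + (1 / 2) ^ j) + Cn * (1 / 2) ^ j :=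
            add_le_add h10 h11
        _ = (Cs * (Real.exp (C2 / 2) + 1) + Cn) * (1 / 2) ^ j := by ring
        _ ≤ C * (1 / 2) ^ j := mul_le_mul_of_nonneg_right h12 (by positivity)
    rw [← add_mul] at h80
    have h81 := h80.trans (mul_le_mul_of_nonneg_right h9 (by positivity))
    refine le_trans (le_of_eq ?_) h81
    congr 2
    ext n
    simp only [mem_filter, Set.mem_setOf_eq]
  · intro H G hG R hR
    rw [sum_image hinj]
    refine (ait_id b hmul hχ hdeg hα0 hα1 hbalE hR G hG).trans (le_of_eq ?_)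
    congr 1
    apply sum_congr _ (fun _ _ => rfl)
    ext n
    simp only [mem_filter, Set.mem_setOf_eq]

end

end Pool.Agent.H10.Sar
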