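import Pool.Agent.H10.Sar.Prim
set_option autoImplicit false
set_option linter.unusedSectionVars false

namespace Pool.Agent.H10.Sar

open NumberField Module Finset
open scoped Classical

noncomputable section

variable {K : Type*} [Field K] [NumberField K] {D : ℕ} (b : Basis (Fin D) ℤ (𝓞 K))

/-- the primes of `S` whose ideal contains `x` -/
def SS (S : Finset ℕ) (P : ℕ → Ideal (𝓞 K)) (x : 𝓞 K) : Finset ℕ := S.filter (fun p => x ∈ P p)

lemma gen_mem_iff {S E : Finset ℕ} {P : ℕ → Ideal (𝓞 K)} (h : DegOne S P) (hE : E ⊆ S) {a : 𝓞 K}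
    (ha : Ideal.span {a} = ∏ p ∈ E, P p) {p : ℕ} (hp : p ∈ S) : a ∈ P p ↔ p ∈ E := by
  constructor
  · intro hap
    rw [← Ideal.dvd_span_singleton, ha, (h.prime hp).dvd_finsetProd_iff] at hap
    obtain ⟨q, hq, hpq⟩ := hap
    have h1 : P p = P q := by
      have := (h.prime hp).associated_of_dvd (h.prime (hE hq)) hpq
      exact associated_iff_eq.mp this
    rw [h.inj hp (hE hq) h1]
    exact hq
  · intro hpE
    have : a ∈ ∏ p ∈ E, P p := by
      rw [← ha]
      exact Ideal.mem_span_singleton_self a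
    exact (h.mono hE).mem_prod.mp this p hpE

lemma ss_mul {S E : Finset ℕ} {P : ℕ → Ideal (𝓞 K)} (h : DegOne S P) (hE : E ⊆ S) {a : 𝓞 K}
    (ha : Ideal.span {a} = ∏ p ∈ E, P p) (y : 𝓞 K) : SS S P (a * y) = E ∪ SS S P y := by
  ext p
  unfold SS
  simp only [mem_filter, mem_union]
  constructor
  · rintro ⟨hp, hm⟩
    have := (h p hp).2.1
    rcases this.mem_or_mem hm with h1 | h1
    · exact Or.inl ((gen_mem_iff h hE ha hp).mp h1)
    · exact Or.inr ⟨hp, h1⟩
  · rintro (hp | ⟨hp, h1⟩)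
    · exact ⟨hE hp, Ideal.mul_mem_right _ _ ((gen_mem_iff h hE ha (hE hp)).mpr hp)⟩
    · exact ⟨hp, Ideal.mul_mem_left _ _ h1⟩

lemma natAbs_norm_gen {S E : Finset ℕ} {P : ℕ → Ideal (𝓞 K)} (h : DegOne S P) (hE : E ⊆ S)
    {a : 𝓞 K} (ha : Ideal.span {a} = ∏ p ∈ E, P p) : (Algebra.norm ℤ a).natAbs = ∏ p ∈ E, p := by
  rw [← Ideal.absNorm_span_singleton, ha, (h.mono hE).absNorm_prod]

/-- good elements: no `p ∈ S` with `x ∈ P p` and `p ^ 2 ∣ N x` -/
def Good (S : Finset ℕ) (P : ℕ → Ideal (𝓞 K)) (x : 𝓞 K) : Prop :=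
  ∀ p ∈ S, x ∈ P p → ¬ (p : ℤ) ^ 2 ∣ Algebra.norm ℤ x

lemma good_not_dvd {S E : Finset ℕ} {P : ℕ → Ideal (𝓞 K)} (h : DegOne S P) (hE : E ⊆ S)
    {a : 𝓞 K} (ha : Ideal.span {a} = ∏ p ∈ E, P p) {y : 𝓞 K} (hg : Good S P (a * y)) {p : ℕ}
    (hp : p ∈ E) : ¬ (p : ℤ) ∣ Algebra.norm ℤ y := by
  intro hd
  have h1 : a ∈ P p := (gen_mem_iff h hE ha (hE hp)).mpr hp
  apply hg p (hE hp) (Ideal.mul_mem_right _ _ h1)
  rw [map_mul, pow_two]
  exact mul_dvd_mul (h.dvd_norm (hE hp) h1) hd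

lemma good_coprime {S E : Finset ℕ} {P : ℕ → Ideal (𝓞 K)} (h : DegOne S P) (hE : E ⊆ S)
    {a : 𝓞 K} (ha : Ideal.span {a} = ∏ p ∈ E, P p) {y : 𝓞 K} (hg : Good S P (a * y)) :
    IsCoprime (Algebra.norm ℤ a) (Algebra.norm ℤ y) := by
  rw [Int.isCoprime_iff_gcd_eq_one, Int.gcd_def, natAbs_norm_gen h hE ha]
  apply Nat.Coprime.prod_left
  intro p hp
  rw [Nat.Prime.coprime_iff_not_dvd (h p (hE hp)).1, ← Int.natCast_dvd]
  exact good_not_dvd h hE ha hg hp

lemma good_disj {S E : Finset ℕ} {P : ℕ → Ideal (𝓞 K)} (h : DegOne S P) (hE : E ⊆ S)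
    {a : 𝓞 K} (ha : Ideal.span {a} = ∏ p ∈ E, P p) {y : 𝓞 K} (hg : Good S P (a * y)) :
    Disjoint E (SS S P y) := by
  rw [disjoint_left]
  intro p hp hp2
  unfold SS at hp2
  rw [mem_filter] at hp2
  exact good_not_dvd h hE ha hg hp (h.dvd_norm hp2.1 hp2.2)

/-- the coefficient of the cofactor -/
def bet (χ : 𝓞 K → ℂ) (S : Finset ℕ) (P : ℕ → Ideal (𝓞 K)) (g : ℕ) (y : 𝓞 K) : ℂ :=
  χ y / (((SS S P y).card + g).choose g : ℂ)

lemma norm_bet_le {χ : 𝓞 K → ℂ} (hχ : ∀ x, ‖χ x‖ ≤ 1) (S : Finset ℕ) (P : ℕ → Ideal (𝓞 K)) (g : ℕ)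
    (y : 𝓞 K) : ‖bet χ S P g y‖ ≤ 1 := by
  unfold bet
  rw [norm_div, Complex.norm_natCast]
  have h1 : 1 ≤ ((SS S P y).card + g).choose g := Nat.choose_pos (by omega)
  have h2 : (1 : ℝ) ≤ (((SS S P y).card + g).choose g : ℝ) := by exact_mod_cast h1
  rw [div_le_one (by linarith)]
  exact (hχ y).trans h2

lemma norm_bet_le' {χ : 𝓞 K → ℂ} (hχ : ∀ x, ‖χ x‖ ≤ 1) (S : Finset ℕ) (P : ℕ → Ideal (𝓞 K)) (g : ℕ)
    (y : 𝓞 K) (r : ℕ) (hr : g ≤ r) (hr2 : r ≤ (SS S P y).card + g) :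
    ‖bet χ S P g y‖ ≤ 1 / (r.choose g : ℝ) := by
  unfold bet
  rw [norm_div, Complex.norm_natCast]
  have h1 : 1 ≤ r.choose g := Nat.choose_pos hr
  have h3 : r.choose g ≤ ((SS S P y).card + g).choose g := Nat.choose_le_choose g hr2
  have h2 : (1 : ℝ) ≤ (r.choose g : ℝ) := by exact_mod_cast h1
  have h4 : (r.choose g : ℝ) ≤ (((SS S P y).card + g).choose g : ℝ) := by exact_mod_cast h3
  gcongr
  exact hχ y

/-- the weight of `n` in the bilinear form -/
def psi (χ : 𝓞 K → ℂ) (S : Finset ℕ) (P : ℕ → Ideal (𝓞 K)) (g : ℕ) (α : Finset ℕ → 𝓞 K)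
    (R : ℕ) (n : Fin D → ℤ) : ℂ :=
  ∑ E ∈ S.powersetCard g, χ (α E) * ∑ m ∈ (sbx D R).filter (fun m => act b (α E) m = n),
    bet χ S P g (b.equivFun.symm m)

section
variable {χ : 𝓞 K → ℂ} {S : Finset ℕ} {P : ℕ → Ideal (𝓞 K)} {g : ℕ} {α : Finset ℕ → 𝓞 K}

lemma psi_term {H R C : ℕ} (h0 : ∀ E ∈ S.powersetCard g, α E ≠ 0)
    (hα : ∀ E ∈ S.powersetCard g, Ideal.span {α E} = ∏ p ∈ E, P p)
    (hb : ∀ E ∈ S.powersetCard g, ∀ m, sz b (α E) * nn m ≤ C * nn (act b (α E) m))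
    (hR : C * H ≤ R) {n : Fin D → ℤ} (hn : n ∈ bx D H) {E : Finset ℕ}
    (hE : E ∈ S.powersetCard g) (h : DegOne S P) (f : (Fin D → ℤ) → ℂ) :
    (∃ y, b.equivFun.symm n = α E * y ∧ E ⊆ SS S P (b.equivFun.symm n) ∧
      ∑ m ∈ (sbx D R).filter (fun m => act b (α E) m = n), f m = f (b.equivFun y)) ∨
    (¬ E ⊆ SS S P (b.equivFun.symm n) ∧
      ∑ m ∈ (sbx D R).filter (fun m => act b (α E) m = n), f m = 0) := by
  have hES : E ⊆ S := (mem_powersetCard.mp hE).1
  by_cases hx : b.equivFun.symm n ∈ ∏ p ∈ E, P p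
  · left
    have hx' := hx
    rw [← hα E hE, Ideal.mem_span_singleton] at hx
    obtain ⟨y, hy⟩ := hx
    refine ⟨y, hy, ?_, ?_⟩
    · intro p hp
      unfold SS
      rw [mem_filter]
      exact ⟨hES hp, (h.mono hES).mem_prod.mp hx' p hp⟩
    · have h1 : act b (α E) (b.equivFun y) = n := by
        unfold act
        rw [LinearEquiv.symm_apply_apply, ← hy, LinearEquiv.apply_symm_apply]
      have h2 : (sbx D R).filter (fun m => act b (α E) m = n) = {b.equivFun y} := by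
        ext m
        rw [mem_filter, mem_singleton]
        constructor
        · rintro ⟨_, hm⟩
          exact act_injective b (h0 E hE) (hm.trans h1.symm)
        · rintro rfl
          refine ⟨?_, h1⟩
          rw [mem_sbx]
          have h3 := hb E hE (b.equivFun y)
          rw [h1] at h3
          have h4 : nn n ≤ H := mem_sbx.mp (bx_subset_sbx D H hn)
          have h5 : 1 ≤ sz b (α E) := sz_pos (h0 E hE)
          calc nn (b.equivFun y) ≤ sz b (α E) * nn (b.equivFun y) := Nat.le_mul_of_pos_left _ h5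
            _ ≤ C * nn n := h3
            _ ≤ C * H := Nat.mul_le_mul_left _ h4
            _ ≤ R := hR
      rw [h2, sum_singleton]
  · right
    constructor
    · intro hsub
      apply hx
      rw [(h.mono hES).mem_prod]
      intro p hp
      have := hsub hp
      unfold SS at this
      exact (mem_filter.mp this).2
    · apply sum_eq_zero
      intro m hm
      exfalso
      apply hx
      rw [← (mem_filter.mp hm).2, symm_act, ← hα E hE]
      exact Ideal.mul_mem_right _ _ (Ideal.mem_span_singleton_self _)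

/-- on good points with enough primes, `psi` equals the multiplicative function -/
lemma psi_good {H R C : ℕ} (hχ : ∀ m n : 𝓞 K, IsCoprime (Algebra.norm ℤ m) (Algebra.norm ℤ n) →
      χ (m * n) = χ m * χ n) (h : DegOne S P) (h0 : ∀ E ∈ S.powersetCard g, α E ≠ 0)
    (hα : ∀ E ∈ S.powersetCard g, Ideal.span {α E} = ∏ p ∈ E, P p)
    (hb : ∀ E ∈ S.powersetCard g, ∀ m, sz b (α E) * nn m ≤ C * nn (act b (α E) m))
    (hR : C * H ≤ R) {n : Fin D → ℤ} (hn : n ∈ bx D H) (hg : Good S P (b.equivFun.symm n))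
    (hr : g ≤ (SS S P (b.equivFun.symm n)).card) :
    psi b χ S P g α R n = χ (b.equivFun.symm n) := by
  set x := b.equivFun.symm n with hx
  have key : ∀ E ∈ S.powersetCard g, χ (α E) * ∑ m ∈ (sbx D R).filter (fun m => act b (α E) m = n),
      bet χ S P g (b.equivFun.symm m)
      = if E ∈ (SS S P x).powersetCard g then χ x / ((SS S P x).card.choose g : ℂ) else 0 := by
    intro E hE
    have hES : E ⊆ S := (mem_powersetCard.mp hE).1
    have hEg : E.card = g := (mem_powersetCard.mp hE).2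
    rcases psi_term b h0 hα hb hR hn hE h (fun m => bet χ S P g (b.equivFun.symm m)) with
      ⟨y, hy, hsub, hs⟩ | ⟨hsub, hs⟩
    · rw [hs, if_pos (mem_powersetCard.mpr ⟨hsub, hEg⟩)]
      simp only [LinearEquiv.symm_apply_apply]
      have hgy : Good S P (α E * y) := by rw [← hy]; exact hg
      unfold bet
      have h1 : χ x = χ (α E) * χ y := by
        rw [hx, hy]
        exact hχ _ _ (good_coprime h hES (hα E hE) hgy)
      have h2 : (SS S P x).card = (SS S P y).card + g := by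
        rw [hx, hy, ss_mul h hES (hα E hE), card_union_of_disjoint (good_disj h hES (hα E hE) hgy),
          hEg, add_comm]
      rw [h1, h2]
      ring
    · rw [hs, if_neg (fun hm => hsub (mem_powersetCard.mp hm).1), mul_zero]
  unfold psi
  rw [sum_congr rfl key, ← sum_filter]
  have h3 : (S.powersetCard g).filter (fun E => E ∈ (SS S P x).powersetCard g)
      = (SS S P x).powersetCard g := by
    ext E
    rw [mem_filter]
    constructor
    · exact fun hE => hE.2
    · intro hE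
      refine ⟨?_, hE⟩
      rw [mem_powersetCard] at hE ⊢
      exact ⟨hE.1.trans (filter_subset _ _), hE.2⟩
  rw [h3, sum_const, card_powersetCard, nsmul_eq_mul]
  have h4 : (((SS S P x).card.choose g : ℕ) : ℂ) ≠ 0 := by
    have := Nat.choose_pos hr
    exact_mod_cast this.ne'
  field_simp

/-- `psi` is bounded by one -/
lemma norm_psi_le {H R C : ℕ} (hχ : ∀ x, ‖χ x‖ ≤ 1) (h : DegOne S P)
    (h0 : ∀ E ∈ S.powersetCard g, α E ≠ 0)
    (hα : ∀ E ∈ S.powersetCard g, Ideal.span {α E} = ∏ p ∈ E, P p)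
    (hb : ∀ E ∈ S.powersetCard g, ∀ m, sz b (α E) * nn m ≤ C * nn (act b (α E) m))
    (hR : C * H ≤ R) {n : Fin D → ℤ} (hn : n ∈ bx D H) :
    ‖psi b χ S P g α R n‖ ≤ 1 := by
  set x := b.equivFun.symm n with hx
  have key : ∀ E ∈ S.powersetCard g, ‖χ (α E) * ∑ m ∈ (sbx D R).filter (fun m => act b (α E) m = n),
      bet χ S P g (b.equivFun.symm m)‖
      ≤ if E ∈ (SS S P x).powersetCard g then 1 / ((SS S P x).card.choose g : ℝ) else 0 := by
    intro E hE
    have hES : E ⊆ S := (mem_powersetCard.mp hE).1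
    have hEg : E.card = g := (mem_powersetCard.mp hE).2
    rcases psi_term b h0 hα hb hR hn hE h (fun m => bet χ S P g (b.equivFun.symm m)) with
      ⟨y, hy, hsub, hs⟩ | ⟨hsub, hs⟩
    · rw [hs, if_pos (mem_powersetCard.mpr ⟨hsub, hEg⟩)]
      simp only [LinearEquiv.symm_apply_apply]
      rw [norm_mul]
      have h1 : (SS S P x).card ≤ (SS S P y).card + g := by
        rw [hx, hy, ss_mul h hES (hα E hE)]
        refine (card_union_le _ _).trans ?_
        rw [hEg, add_comm]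
      have h2 : g ≤ (SS S P x).card := by
        rw [← hEg]
        exact card_le_card hsub
      have h3 := norm_bet_le' hχ S P g y _ h2 h1
      calc ‖χ (α E)‖ * ‖bet χ S P g y‖ ≤ 1 * ‖bet χ S P g y‖ :=
            mul_le_mul_of_nonneg_right (hχ _) (norm_nonneg _)
        _ = ‖bet χ S P g y‖ := one_mul _
        _ ≤ _ := h3
    · rw [hs, if_neg (fun hm => hsub (mem_powersetCard.mp hm).1), mul_zero, norm_zero]
  unfold psi
  refine (norm_sum_le _ _).trans ((sum_le_sum key).trans ?_)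
  rw [← sum_filter]
  have h3 : (S.powersetCard g).filter (fun E => E ∈ (SS S P x).powersetCard g)
      ⊆ (SS S P x).powersetCard g := by
    intro E hE
    exact (mem_filter.mp hE).2
  refine (sum_le_sum_of_subset_of_nonneg h3 (fun _ _ _ => by positivity)).trans ?_
  rw [sum_const, card_powersetCard, nsmul_eq_mul]
  rcases Nat.eq_zero_or_pos ((SS S P x).card.choose g) with h4 | h4
  · rw [h4]
    simp
  · have h5 : (0 : ℝ) < ((SS S P x).card.choose g : ℝ) := by exact_mod_cast h4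
    rw [mul_one_div_cancel h5.ne']

/-- rewriting the bilinear form -/
lemma bil_eq {H R C : ℕ} (h0 : ∀ E ∈ S.powersetCard g, α E ≠ 0)
    (hb : ∀ E ∈ S.powersetCard g, ∀ m, sz b (α E) * nn m ≤ C * nn (act b (α E) m))
    (hR : C * H ≤ R) (G : (Fin D → ℤ) → ℂ) (hG : ∀ n, n ∉ bx D H → G n = 0) :
    ∑ E ∈ S.powersetCard g, χ (α E) * ∑ m ∈ sbx D R, bet χ S P g (b.equivFun.symm m) *
      G (act b (α E) m) = ∑ n ∈ bx D H, psi b χ S P g α R n * G n := by
  unfold psi
  simp_rw [sum_mul]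
  rw [sum_comm]
  refine sum_congr rfl (fun E _ => ?_)
  have h1 : ∑ m ∈ sbx D R, bet χ S P g (b.equivFun.symm m) * G (act b (α E) m)
      = ∑ n ∈ bx D H, ∑ m ∈ (sbx D R).filter (fun m => act b (α E) m = n),
        bet χ S P g (b.equivFun.symm m) * G n := by
    have h2 : ∑ m ∈ sbx D R, bet χ S P g (b.equivFun.symm m) * G (act b (α E) m)
        = ∑ m ∈ (sbx D R).filter (fun m => act b (α E) m ∈ bx D H),
          bet χ S P g (b.equivFun.symm m) * G (act b (α E) m) := by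
      symm
      apply sum_subset (filter_subset _ _)
      intro m hm hm2
      rw [mem_filter] at hm2
      rw [hG _ (fun h => hm2 ⟨hm, h⟩), mul_zero]
    rw [h2, ← sum_fiberwise_of_maps_to (t := bx D H) (g := fun m => act b (α E) m)]
    · refine sum_congr rfl (fun n hn => ?_)
      have h3 : ((sbx D R).filter (fun m => act b (α E) m ∈ bx D H)).filter
          (fun m => act b (α E) m = n) = (sbx D R).filter (fun m => act b (α E) m = n) := by
        ext m
        simp only [mem_filter]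
        constructor
        · rintro ⟨⟨h, _⟩, h'⟩
          exact ⟨h, h'⟩
        · rintro ⟨h, h'⟩
          exact ⟨⟨h, by rw [h']; exact hn⟩, h'⟩
      rw [h3]
      refine sum_congr rfl (fun m hm => ?_)
      rw [(mem_filter.mp hm).2]
    · intro m hm
      exact (mem_filter.mp hm).2
  rw [h1, mul_sum]
  refine sum_congr rfl (fun n _ => ?_)
  rw [← sum_mul]
  ring

/-- the decomposition -/
lemma ait_id {H R C : ℕ} (hmul : ∀ m n : 𝓞 K, IsCoprime (Algebra.norm ℤ m) (Algebra.norm ℤ n) →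
      χ (m * n) = χ m * χ n) (hχ : ∀ x, ‖χ x‖ ≤ 1) (h : DegOne S P)
    (h0 : ∀ E ∈ S.powersetCard g, α E ≠ 0)
    (hα : ∀ E ∈ S.powersetCard g, Ideal.span {α E} = ∏ p ∈ E, P p)
    (hb : ∀ E ∈ S.powersetCard g, ∀ m, sz b (α E) * nn m ≤ C * nn (act b (α E) m))
    (hR : C * H ≤ R) (G : (Fin D → ℤ) → ℂ) (hG : ∀ n, n ∉ bx D H → G n = 0) :
    ‖∑ n ∈ bx D H, χ (b.equivFun.symm n) * G n - ∑ E ∈ S.powersetCard g, χ (α E) *
      ∑ m ∈ sbx D R, bet χ S P g (b.equivFun.symm m) * G (act b (α E) m)‖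
      ≤ 2 * ∑ n ∈ (bx D H).filter (fun n => (SS S P (b.equivFun.symm n)).card < g ∨
        ¬ Good S P (b.equivFun.symm n)), ‖G n‖ := by
  rw [bil_eq b h0 hb hR G hG, ← sum_sub_distrib]
  refine (norm_sum_le _ _).trans ?_
  rw [mul_sum, sum_filter]
  apply sum_le_sum
  intro n hn
  rw [← sub_mul, norm_mul]
  split_ifs with hc
  · apply mul_le_mul_of_nonneg_right _ (norm_nonneg _)
    refine (norm_sub_le _ _).trans ?_
    have h1 := hχ (b.equivFun.symm n)
    have h2 := norm_psi_le b hχ h h0 hα hb hR hn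
    linarith
  · rw [not_or, not_lt, not_not] at hc
    rw [psi_good b hmul h h0 hα hb hR hn hc.2 hc.1, sub_self, norm_zero, zero_mul]

end

end

end Pool.Agent.H10.Sar
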