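import Pool.Agent.H10.Sar.Box
set_option autoImplicit false
set_option linter.unusedSectionVars false

namespace Pool.Agent.H10.Sar

open NumberField Module Finset
open scoped Classical

noncomputable section

namespace ApLipAux

/-- one-dimensional progressions -/
lemma ap_one (A B q n1 : ℤ) (hq : 0 < q) (h1 : A ≤ n1) (h2 : n1 < B) :
    ∃ (n0 : ℤ) (L : ℕ), 1 ≤ L ∧ ∀ n : ℤ, (A ≤ n ∧ n < B ∧ n % q = n1 % q) ↔
      ∃ k : ℕ, k < L ∧ n = n0 + q * k := by
  set e := (n1 - A) % q with he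
  have he0 : 0 ≤ e := Int.emod_nonneg _ hq.ne'
  have hkey : ∀ n : ℤ, A ≤ n → n % q = n1 % q → ∃ k : ℕ, n = A + e + q * k := by
    intro n hn hm
    have h3 : (n - A) % q = e := by
      rw [he, Int.sub_emod, hm, ← Int.sub_emod]
    have h4 := Int.emod_add_mul_ediv (n - A) q
    rw [h3] at h4
    have h5 : 0 ≤ (n - A) / q := Int.ediv_nonneg (by linarith) hq.le
    refine ⟨((n - A) / q).toNat, ?_⟩
    rw [Int.toNat_of_nonneg h5]
    linarith
  obtain ⟨k1, hk1⟩ := hkey n1 h1 rfl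
  have hlt : A + e < B := by
    have : 0 ≤ q * (k1 : ℤ) := by positivity
    linarith
  have hnn : 0 ≤ (B - (A + e) - 1) / q := Int.ediv_nonneg (by linarith) hq.le
  refine ⟨A + e, ((B - (A + e) - 1) / q + 1).toNat, by omega, ?_⟩
  intro n
  constructor
  · rintro ⟨h3, h4, h5⟩
    obtain ⟨k, hk⟩ := hkey n h3 h5
    refine ⟨k, ?_, hk⟩
    have h6 : (k : ℤ) ≤ (B - (A + e) - 1) / q := by
      rw [Int.le_ediv_iff_mul_le hq]
      have : (k : ℤ) * q = q * k := mul_comm _ _
      omega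
    omega
  · rintro ⟨k, hk, rfl⟩
    have h6 : (k : ℤ) ≤ (B - (A + e) - 1) / q := by omega
    rw [Int.le_ediv_iff_mul_le hq] at h6
    have h7 : (0 : ℤ) ≤ q * k := by positivity
    have h8 : (k : ℤ) * q = q * k := mul_comm _ _
    refine ⟨by omega, by omega, ?_⟩
    have h9 : n1 = A + e + q * k1 := hk1
    rw [h9, Int.add_mul_emod_self_left, Int.add_mul_emod_self_left]

lemma ee_const {D : ℕ} (a : Fin D → ℤ) (q : ℕ) (hq : 1 ≤ q) (m n : Fin D → ℤ)
    (h : ∀ i, m i % q = n i % q) :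
    ee (dot (fun i => (a i : ℝ) / q) m) = ee (dot (fun i => (a i : ℝ) / q) n) := by
  have hq0 : (q : ℝ) ≠ 0 := by
    have : (0 : ℝ) < q := by exact_mod_cast hq
    exact this.ne'
  have h1 : ∀ i, ∃ t : ℤ, m i = n i + q * t := by
    intro i
    have := Int.emod_emod_of_dvd (m i) (dvd_refl (q : ℤ))
    have h2 : (q : ℤ) ∣ m i - n i := Int.ModEq.dvd (h i).symm
    obtain ⟨t, ht⟩ := h2
    exact ⟨t, by linarith⟩
  choose t ht using h1
  have h3 : dot (fun i => (a i : ℝ) / q) m = dot (fun i => (a i : ℝ) / q) n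
      + ((∑ i, a i * t i : ℤ) : ℝ) := by
    unfold dot
    push_cast
    rw [← sum_add_distrib]
    refine sum_congr rfl (fun i _ => ?_)
    rw [ht i]
    push_cast
    field_simp
  rw [h3, ee_add_int]

/-- index of the piece containing a point -/
def pc {D : ℕ} (s q : ℤ) (n : Fin D → ℤ) : (Fin D → ℤ) × (Fin D → ℤ) :=
  (fun i => n i / s, fun i => n i % q)

/-- each piece is an arithmetic progression -/
lemma piece {D : ℕ} (H : ℕ) (s q : ℕ) (hs : 1 ≤ s) (hq : 1 ≤ q) (lo hi : Fin D → ℤ)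
    (n1 : Fin D → ℤ) (hn1 : n1 ∈ bx D H) (hn1' : ∀ i, lo i ≤ n1 i ∧ n1 i < hi i) :
    ∃ (n0 : Fin D → ℤ) (Lk : Fin D → ℕ), (∀ i, 1 ≤ Lk i) ∧
      ((bx D H).filter (fun n => ∀ i, lo i ≤ n i ∧ n i < hi i)).filter
        (fun n => pc s q n = pc s q n1) =
      (sbx D H).filter (fun n => n ∈ AP n0 (fun _ => q) Lk) := by
  have hs' : (0 : ℤ) < s := by exact_mod_cast hs
  have hq' : (0 : ℤ) < q := by exact_mod_cast hq
  rw [mem_bx] at hn1
  have h := fun i => ap_one (max (max 0 (lo i)) (s * (n1 i / s)))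
    (min (min H (hi i)) (s * (n1 i / s) + s)) q (n1 i) hq'
    (by
      refine max_le (max_le (hn1 i).1 (hn1' i).1) ?_
      have := Int.mul_ediv_self_le (x := n1 i) hs'.ne'
      exact this)
    (by
      refine lt_min (lt_min (hn1 i).2 (hn1' i).2) ?_
      exact Int.lt_mul_ediv_self_add hs')
  choose n0 Lk hL hiff using h
  refine ⟨n0, Lk, hL, ?_⟩
  have hcell : ∀ n : Fin D → ℤ, (∀ i, (0 ≤ n i ∧ n i < H) ∧ (lo i ≤ n i ∧ n i < hi i) ∧
      n i / s = n1 i / s ∧ n i % q = n1 i % q) ↔ n ∈ AP n0 (fun _ => q) Lk := by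
    intro n
    have h3 : ∀ i, ((0 ≤ n i ∧ n i < H) ∧ (lo i ≤ n i ∧ n i < hi i) ∧
      n i / s = n1 i / s ∧ n i % q = n1 i % q) ↔ ∃ k : ℕ, k < Lk i ∧ n i = n0 i + q * k := by
      intro i
      rw [← hiff i (n i)]
      simp only [max_le_iff, lt_min_iff]
      have h5 : n i / s = n1 i / s ↔ s * (n1 i / s) ≤ n i ∧ n i < s * (n1 i / s) + s := by
        rw [Int.ediv_eq_iff_of_pos hs']
        have h6 : n1 i / s * s = s * (n1 i / s) := mul_comm _ _
        have h7 : (n1 i / s + 1) * s = s * (n1 i / s) + s := by ring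
        rw [h6]
      rw [h5]
      tauto
    constructor
    · intro h4
      choose k hk hk' using fun i => (h3 i).1 (h4 i)
      exact ⟨k, hk, funext hk'⟩
    · rintro ⟨k, hk, hn⟩ i
      exact (h3 i).2 ⟨k i, hk i, congrFun hn i⟩
  ext n
  rw [mem_filter, mem_filter, mem_filter, mem_bx, ← hcell n]
  unfold pc
  rw [Prod.mk.injEq, funext_iff, funext_iff]
  constructor
  · rintro ⟨⟨h3, h4⟩, h5, h6⟩
    exact ⟨bx_subset_sbx D H (mem_bx.2 h3), fun i => ⟨h3 i, h4 i, h5 i, h6 i⟩⟩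
  · rintro ⟨_, h4⟩
    exact ⟨⟨fun i => (h4 i).1, fun i => (h4 i).2.1⟩, fun i => (h4 i).2.2.1, fun i => (h4 i).2.2.2⟩

end ApLipAux

open ApLipAux in
/-- aperiodic functions have small averages against Lipschitz weights and rational characters -/
theorem aper_lip {D : ℕ} (X : (Fin D → ℤ) → ℂ) (hX : ∀ n, ‖X n‖ ≤ 1) (hap : Aper X)
    (q : ℕ) (hq : 1 ≤ q) (L ε : ℝ) (hε : 0 < ε) : ∃ H0 : ℕ, ∀ H : ℕ, H0 ≤ H →
    ∀ (V : (Fin D → ℤ) → ℂ), (∀ n, ‖V n‖ ≤ 1) → (∀ m n, ‖V m - V n‖ ≤ L / H * nn (m - n)) →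
    ∀ (a lo hi : Fin D → ℤ),
    ‖∑ n ∈ bx D H with (∀ i, lo i ≤ n i ∧ n i < hi i),
        X n * ee (dot (fun i => (a i : ℝ) / q) n) * V n‖ ≤ ε * H ^ D := by
  set η : ℝ := ε / (2 * (|L| + 1)) with hη
  have hL1 : (0 : ℝ) < |L| + 1 := by positivity
  have hη0 : 0 < η := by positivity
  obtain ⟨K1, hK1⟩ := exists_nat_gt (2 / η)
  set ε' : ℝ := ε / (2 * ((K1 : ℝ) ^ D * (q : ℝ) ^ D) * 3 ^ D) with hε'
  have hK1pos : (0 : ℝ) < K1 := lt_trans (by positivity) hK1
  have hqpos : (0 : ℝ) < q := by exact_mod_cast hq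
  have hε'0 : 0 < ε' := by positivity
  obtain ⟨N0, hN0⟩ := hap ε' hε'0
  obtain ⟨N1, hN1⟩ := exists_nat_gt (2 / η)
  refine ⟨N0 + N1 + 1, ?_⟩
  intro H hH V hV hlip a lo hi
  have hHN0 : N0 ≤ H := by omega
  have hH1 : (1 : ℝ) ≤ H := by
    have : 1 ≤ H := by omega
    exact_mod_cast this
  have hH0 : (0 : ℝ) < H := by linarith
  have hHη : 2 / η < H := by
    refine lt_of_lt_of_le hN1 ?_
    have : N1 ≤ H := by omega
    exact_mod_cast this
  have hηH : 2 < η * H := by
    rw [div_lt_iff₀ hη0] at hHη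
    linarith
  set s : ℕ := ⌊η * H⌋₊ with hs
  have hs_le : (s : ℝ) ≤ η * H := Nat.floor_le (by positivity)
  have hs_gt : η * H - 1 < s := Nat.sub_one_lt_floor _
  have hs_gt' : η * H / 2 < s := by linarith
  have hs1 : 1 ≤ s := by
    have : (0 : ℝ) < s := by linarith
    exact_mod_cast this
  have hs0 : (0 : ℝ) < s := by linarith
  set Sf : Finset (Fin D → ℤ) := (bx D H).filter (fun n => ∀ i, lo i ≤ n i ∧ n i < hi i) with hSf
  set T : Finset ((Fin D → ℤ) × (Fin D → ℤ)) :=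
    (Fintype.piFinset (fun _ => Finset.Ico (0 : ℤ) K1)) ×ˢ
      (Fintype.piFinset (fun _ => Finset.Ico (0 : ℤ) q)) with hT
  have hTcard : T.card = K1 ^ D * q ^ D := by
    rw [hT, card_product, Fintype.card_piFinset, Fintype.card_piFinset]
    simp
  have hmaps : ∀ n ∈ Sf, pc (s : ℤ) q n ∈ T := by
    intro n hn
    have hn1 := mem_bx.1 (mem_filter.1 hn).1
    rw [hT, mem_product, Fintype.mem_piFinset, Fintype.mem_piFinset]
    constructor
    · intro i
      rw [mem_Ico]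
      refine ⟨Int.ediv_nonneg (hn1 i).1 (by positivity), ?_⟩
      show n i / (s : ℤ) < K1
      rw [Int.ediv_lt_iff_lt_mul (by exact_mod_cast hs1)]
      have h1 : ((n i : ℤ) : ℝ) < H := by exact_mod_cast (hn1 i).2
      have h2 : (H : ℝ) < K1 * s := by
        calc (H : ℝ) = 2 / η * (η * H / 2) := by field_simp
          _ < K1 * s := mul_lt_mul'' hK1 hs_gt' (by positivity) (by positivity)
      have h3 : ((n i : ℤ) : ℝ) < ((K1 * s : ℤ) : ℝ) := by
        push_cast
        linarith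
      exact_mod_cast h3
    · intro i
      rw [mem_Ico]
      have hq' : (0 : ℤ) < q := by exact_mod_cast hq
      exact ⟨Int.emod_nonneg _ hq'.ne', Int.emod_lt_of_pos _ hq'⟩
  set g : (Fin D → ℤ) → ℂ := fun n => X n * ee (dot (fun i => (a i : ℝ) / q) n) * V n with hg
  have hfib : ∑ n ∈ Sf, g n = ∑ t ∈ T, ∑ n ∈ Sf with pc (s : ℤ) q n = t, g n :=
    (Finset.sum_fiberwise_of_maps_to hmaps g).symm
  have hcardSf : ((Sf.card : ℕ) : ℝ) ≤ (H : ℝ) ^ D := by
    have h1 : Sf.card ≤ (bx D H).card := card_le_card (filter_subset _ _)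
    rw [card_bx] at h1
    exact_mod_cast h1
  have hpiece : ∀ t ∈ T, ‖∑ n ∈ Sf with pc (s : ℤ) q n = t, g n‖ ≤
      ε' * (2 * H + 1) ^ D + (|L| * η) * ((Sf.filter (fun n => pc (s : ℤ) q n = t)).card : ℝ) := by
    intro t _
    rcases Finset.eq_empty_or_nonempty (Sf.filter (fun n => pc (s : ℤ) q n = t)) with he | ⟨n1, hn1⟩
    · rw [he]
      simp only [sum_empty, norm_zero, card_empty, Nat.cast_zero, mul_zero, add_zero]
      positivity
    · have hn1' := mem_filter.1 hn1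
      have hn1'' := mem_filter.1 hn1'.1
      obtain ⟨n0, Lk, hLk, hset⟩ := piece H s q hs1 hq lo hi n1 hn1''.1 hn1''.2
      rw [← hn1'.2]
      have hsum : ‖∑ n ∈ Sf with pc (s : ℤ) q n = pc (s : ℤ) q n1, X n‖ ≤ ε' * (2 * H + 1) ^ D := by
        rw [hset]
        exact hN0 H hHN0 n0 (fun _ => q) Lk (fun _ => hq) hLk
      have hdec : ∑ n ∈ Sf with pc (s : ℤ) q n = pc (s : ℤ) q n1, g n
          = (∑ n ∈ Sf with pc (s : ℤ) q n = pc (s : ℤ) q n1, X n) *
              (ee (dot (fun i => (a i : ℝ) / q) n1) * V n1)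
            + ∑ n ∈ Sf with pc (s : ℤ) q n = pc (s : ℤ) q n1,
                X n * ee (dot (fun i => (a i : ℝ) / q) n1) * (V n - V n1) := by
        rw [Finset.sum_mul, ← sum_add_distrib]
        refine sum_congr rfl (fun n hn => ?_)
        have h1 : pc (s : ℤ) q n = pc (s : ℤ) q n1 := (mem_filter.1 hn).2
        have h2 : ∀ i, n i % q = n1 i % q := fun i => congrFun (congrArg Prod.snd h1) i
        rw [hg]
        simp only
        rw [ee_const a q hq n n1 h2]
        ring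
      rw [hdec]
      refine (norm_add_le _ _).trans (add_le_add ?_ ?_)
      · rw [norm_mul, norm_mul, norm_ee, one_mul]
        calc _ ≤ ε' * (2 * H + 1) ^ D * 1 :=
              mul_le_mul hsum (hV n1) (norm_nonneg _) (by positivity)
          _ = _ := mul_one _
      · refine (norm_sum_le _ _).trans ?_
        rw [mul_comm (|L| * η), ← nsmul_eq_mul]
        apply Finset.sum_le_card_nsmul
        intro n hn
        rw [norm_mul, norm_mul, norm_ee, mul_one]
        have h1 : pc (s : ℤ) q n = pc (s : ℤ) q n1 := (mem_filter.1 hn).2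
        have h2 : ∀ i, n i / s = n1 i / s := fun i => congrFun (congrArg Prod.fst h1) i
        have h3 : nn (n - n1) ≤ s := by
          rw [nn_le_iff]
          intro i
          have hsz : (0 : ℤ) < s := by exact_mod_cast hs1
          have h4 := Int.emod_add_mul_ediv (n i) s
          have h5 := Int.emod_add_mul_ediv (n1 i) s
          have h6 := Int.emod_nonneg (n i) hsz.ne'
          have h7 := Int.emod_nonneg (n1 i) hsz.ne'
          have h8 := Int.emod_lt_of_pos (n i) hsz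
          have h9 := Int.emod_lt_of_pos (n1 i) hsz
          rw [h2 i] at h4
          rw [Pi.sub_apply, abs_le]
          constructor <;> linarith
        have h4 : ‖V n - V n1‖ ≤ |L| * η := by
          refine (hlip n n1).trans ?_
          calc L / H * nn (n - n1) ≤ |L| / H * (η * H) := by
                apply mul_le_mul _ _ (Nat.cast_nonneg _) (by positivity)
                · gcongr
                  exact le_abs_self L
                · have : ((nn (n - n1) : ℕ) : ℝ) ≤ s := by exact_mod_cast h3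
                  linarith
            _ = |L| * η := by field_simp
        calc ‖X n‖ * ‖V n - V n1‖ ≤ 1 * (|L| * η) :=
              mul_le_mul (hX n) h4 (norm_nonneg _) zero_le_one
          _ = |L| * η := one_mul _
  show ‖∑ n ∈ Sf, g n‖ ≤ ε * H ^ D
  rw [hfib]
  refine (norm_sum_le _ _).trans ((sum_le_sum hpiece).trans ?_)
  rw [sum_add_distrib, sum_const, nsmul_eq_mul, hTcard, ← mul_sum]
  have hc : ∑ t ∈ T, ((Sf.filter (fun n => pc (s : ℤ) q n = t)).card : ℝ) = Sf.card := by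
    rw [Finset.card_eq_sum_card_fiberwise hmaps]
    push_cast
    rfl
  rw [hc]
  have h1 : (2 * (H : ℝ) + 1) ^ D ≤ 3 ^ D * (H : ℝ) ^ D := by
    rw [← mul_pow]
    gcongr
    linarith
  have h2 : ((K1 ^ D * q ^ D : ℕ) : ℝ) * (ε' * (2 * H + 1) ^ D) ≤ ε / 2 * (H : ℝ) ^ D := by
    calc ((K1 ^ D * q ^ D : ℕ) : ℝ) * (ε' * (2 * H + 1) ^ D)
        ≤ ((K1 ^ D * q ^ D : ℕ) : ℝ) * (ε' * (3 ^ D * (H : ℝ) ^ D)) := by gcongr
      _ = ε / 2 * (H : ℝ) ^ D := by
          rw [hε']
          push_cast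
          field_simp
  have h3 : |L| * η * (Sf.card : ℝ) ≤ ε / 2 * (H : ℝ) ^ D := by
    have h4 : |L| * η ≤ ε / 2 := by
      rw [hη]
      calc |L| * (ε / (2 * (|L| + 1))) ≤ (|L| + 1) * (ε / (2 * (|L| + 1))) := by
            gcongr
            linarith
        _ = ε / 2 := by field_simp
    exact mul_le_mul h4 hcardSf (Nat.cast_nonneg _) (by positivity)
  linarith

end

end Pool.Agent.H10.Sar
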