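import Pool.Agent.H10.Sar.NsemDefs
set_option autoImplicit false
set_option linter.unusedSectionVars false

namespace Pool.Agent.H10.Sar

open NumberField Module Finset
open scoped Classical

noncomputable section

lemma norm_Fv_le {D : ℕ} (Λ : Finset (ℕ × (Fin D → ℤ))) (v : ℕ × (Fin D → ℤ) → ℂ)
    (y : Fin D → ℤ) : ‖Fv Λ v y‖ ≤ ∑ e ∈ Λ, ‖v e‖ := by
  unfold Fv
  refine (norm_sum_le _ _).trans (sum_le_sum fun e _ => ?_)
  rw [norm_mul, norm_ee, mul_one]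

lemma Fv_periodic {D : ℕ} {Λ : Finset (ℕ × (Fin D → ℤ))} {v : ℕ × (Fin D → ℤ) → ℂ} {M : ℕ}
    (hM : ∀ e ∈ Λ, IsInt ((M : ℝ) • vec e)) (y k : Fin D → ℤ) :
    Fv Λ v (y + (M : ℤ) • k) = Fv Λ v y := by
  unfold Fv
  refine sum_congr rfl fun e he => ?_
  obtain ⟨c, hc⟩ := isInt_dot (hM e he) k
  rw [dot_add, dot_zsmul]
  rw [smul_dot] at hc
  have : (((M : ℤ) : ℝ)) * dot (vec e) k = (c : ℝ) := by
    rw [← hc]
    push_cast
    rfl
  rw [this, ee_add_int]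

/-- sum of a periodic function over a symmetric box -/
lemma sum_periodic_le {D : ℕ} (G : (Fin D → ℤ) → ℝ) (hG0 : ∀ m, 0 ≤ G m) {M : ℕ} (hM : 1 ≤ M)
    (hper : ∀ m k, G (m + (M : ℤ) • k) = G m) (R : ℕ) :
    ∑ m ∈ sbx D R, G m ≤ ((2 * (R : ℝ) + 2 * M) / M) ^ D * ∑ s ∈ bx D M, G s := by
  have hM' : (0 : ℤ) < M := by exact_mod_cast hM
  have hMr : (0 : ℝ) < M := by exact_mod_cast hM
  set π : (Fin D → ℤ) → (Fin D → ℤ) := fun m i => m i % M with hπ
  have hmaps : ∀ m ∈ sbx D R, π m ∈ bx D M := by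
    intro m _
    rw [mem_bx]
    intro i
    exact ⟨Int.emod_nonneg _ hM'.ne', Int.emod_lt_of_pos _ hM'⟩
  have hGπ : ∀ m, G m = G (π m) := by
    intro m
    rw [← hper (π m) (fun i => m i / M)]
    congr 1
    funext i
    simp only [hπ, Pi.add_apply, Pi.smul_apply, smul_eq_mul]
    exact (Int.emod_add_mul_ediv _ _).symm
  have hfib : ∀ s ∈ bx D M, (((sbx D R).filter (fun m => π m = s)).card : ℝ) ≤
      ((2 * (R : ℝ) + 2 * M) / M) ^ D := by
    intro s _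
    set B := Fintype.piFinset (fun _ : Fin D => Finset.Icc ((-(R : ℤ)) / M) ((R : ℤ) / M)) with hB
    have h1 : ((sbx D R).filter (fun m => π m = s)).card ≤ B.card := by
      apply Finset.card_le_card_of_injOn (fun (m : Fin D → ℤ) (i : Fin D) => m i / (M : ℤ))
      · intro m hm
        rw [Finset.mem_coe, mem_filter, mem_sbx, nn_le_iff] at hm
        rw [Finset.mem_coe, hB, Fintype.mem_piFinset]
        intro i
        have h2 := abs_le.mp (hm.1 i)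
        rw [Finset.mem_Icc]
        exact ⟨Int.ediv_le_ediv hM' h2.1, Int.ediv_le_ediv hM' h2.2⟩
      · intro m hm m' hm' hmm
        rw [Finset.mem_coe, mem_filter] at hm hm'
        funext i
        have h3 : m i % M = m' i % M := by
          have h4 := congrFun hm.2 i
          have h5 := congrFun hm'.2 i
          simp only [hπ] at h4 h5
          rw [h4, h5]
        have h4 : m i / M = m' i / M := congrFun hmm i
        rw [← Int.emod_add_mul_ediv (m i) M, ← Int.emod_add_mul_ediv (m' i) M, h3, h4]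
    have h2 : (B.card : ℝ) ≤ ((2 * (R : ℝ) + 2 * M) / M) ^ D := by
      rw [hB, Fintype.card_piFinset]
      simp only [prod_const, card_univ, Fintype.card_fin, Int.card_Icc]
      push_cast
      apply pow_le_pow_left₀ (Nat.cast_nonneg _)
      have h3 : (0 : ℤ) ≤ (R : ℤ) / M + 1 - (-(R : ℤ)) / M := by
        have h4 : (0 : ℤ) ≤ (R : ℤ) / M := Int.ediv_nonneg (by positivity) hM'.le
        have h5 : (-(R : ℤ)) / M ≤ 0 := by
          have : (-(R : ℤ)) / M ≤ 0 / M := Int.ediv_le_ediv hM' (by omega)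
          simpa using this
        omega
      have h4 : (((R : ℤ) / M + 1 - (-(R : ℤ)) / M).toNat : ℝ) =
          (((R : ℤ) / M + 1 - (-(R : ℤ)) / M : ℤ) : ℝ) := by
        rw [← Int.cast_natCast, Int.toNat_of_nonneg h3]
      rw [h4, le_div_iff₀ hMr]
      have h5 := Int.emod_add_mul_ediv (R : ℤ) M
      have h6 := Int.emod_add_mul_ediv (-(R : ℤ)) M
      have h7 := Int.emod_nonneg (R : ℤ) hM'.ne'
      have h8 := Int.emod_lt_of_pos (-(R : ℤ)) hM'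
      have h9 : ((R : ℤ) / M + 1 - (-(R : ℤ)) / M) * M ≤ 2 * R + 2 * M := by
        have e : ((R : ℤ) / M + 1 - (-(R : ℤ)) / M) * M =
          M * ((R : ℤ) / M) + M - M * ((-(R : ℤ)) / M) := by ring
        rw [e]
        omega
      exact_mod_cast h9
    have h1' : (((sbx D R).filter (fun m => π m = s)).card : ℝ) ≤ B.card := by exact_mod_cast h1
    exact h1'.trans h2
  calc ∑ m ∈ sbx D R, G m = ∑ s ∈ bx D M, ∑ m ∈ (sbx D R).filter (fun m => π m = s), G m :=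
        (sum_fiberwise_of_maps_to hmaps _).symm
    _ = ∑ s ∈ bx D M, (((sbx D R).filter (fun m => π m = s)).card : ℝ) * G s := by
        refine sum_congr rfl fun s _ => ?_
        rw [← nsmul_eq_mul, ← sum_const]
        refine sum_congr rfl fun m hm => ?_
        rw [hGπ m, (mem_filter.mp hm).2]
    _ ≤ ∑ s ∈ bx D M, ((2 * (R : ℝ) + 2 * M) / M) ^ D * G s :=
        sum_le_sum fun s hs => mul_le_mul_of_nonneg_right (hfib s hs) (hG0 s)
    _ = _ := (mul_sum _ _ _).symm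

variable {K : Type*} [Field K] [NumberField K] {D : ℕ} (b : Basis (Fin D) ℤ (𝓞 K))

/-- main term of a block -/
lemma block_main (χ : 𝓞 K → ℂ) (S : Finset (𝓞 K)) {M : ℕ} (hM : 1 ≤ M)
    {Λ : Finset (ℕ × (Fin D → ℤ))} {v : ℕ × (Fin D → ℤ) → ℂ}
    (hΛ : ∀ e ∈ Λ, IsInt ((M : ℝ) • vec e)) (y : Fin D → ℤ) (R : ℕ) :
    ∑ m ∈ sbx D R, ‖∑ α ∈ S, χ α * Fv Λ v (y + act b α m)‖ ≤
      (2 * (R : ℝ) + 2 * M) ^ D * Real.sqrt ((1 / (M : ℝ) ^ D) * ∑ s ∈ bx D M,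
        ‖∑ α ∈ S, χ α * Fv Λ v (y + act b α s)‖ ^ 2) := by
  have hMr : (0 : ℝ) < M := by exact_mod_cast hM
  set G : (Fin D → ℤ) → ℝ := fun m => ‖∑ α ∈ S, χ α * Fv Λ v (y + act b α m)‖ with hG
  have hper : ∀ m k, G (m + (M : ℤ) • k) = G m := by
    intro m k
    simp only [hG]
    congr 1
    refine sum_congr rfl fun α _ => ?_
    rw [act_add, act_zsmul, ← add_assoc, Fv_periodic hΛ]
  have h1 := sum_periodic_le G (fun m => norm_nonneg _) hM hper R
  have h2 : ∑ s ∈ bx D M, G s ≤ (M : ℝ) ^ D *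
      Real.sqrt ((1 / (M : ℝ) ^ D) * ∑ s ∈ bx D M, G s ^ 2) := by
    have h3 := sq_sum_le_card_mul_sum_sq (s := bx D M) (f := G)
    rw [card_bx] at h3
    have h4 : ∑ s ∈ bx D M, G s ≤ Real.sqrt ((M : ℝ) ^ D * ∑ s ∈ bx D M, G s ^ 2) := by
      apply Real.le_sqrt_of_sq_le
      push_cast at h3
      exact h3
    refine h4.trans (le_of_eq ?_)
    have h5 : (M : ℝ) ^ D * ∑ s ∈ bx D M, G s ^ 2 =
        ((M : ℝ) ^ D) ^ 2 * ((1 / (M : ℝ) ^ D) * ∑ s ∈ bx D M, G s ^ 2) := by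
      field_simp
    rw [h5, Real.sqrt_mul (by positivity), Real.sqrt_sq (by positivity)]
  calc ∑ m ∈ sbx D R, G m ≤ ((2 * (R : ℝ) + 2 * M) / M) ^ D * ∑ s ∈ bx D M, G s := h1
    _ ≤ ((2 * (R : ℝ) + 2 * M) / M) ^ D * ((M : ℝ) ^ D *
      Real.sqrt ((1 / (M : ℝ) ^ D) * ∑ s ∈ bx D M, G s ^ 2)) := by gcongr
    _ = (2 * (R : ℝ) + 2 * M) ^ D *
      Real.sqrt ((1 / (M : ℝ) ^ D) * ∑ s ∈ bx D M, G s ^ 2) := by
      rw [div_pow]
      field_simp

lemma card_dya_le (𝒜 : Finset (𝓞 K)) (a : ℕ) : ((dya b 𝒜 a).card : ℝ) ≤ (8 * 2 ^ a) ^ D := by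
  have h1 : (dya b 𝒜 a).card ≤ (sbx D (2 ^ (a + 1))).card := by
    apply Finset.card_le_card_of_injOn (fun α => b.equivFun α)
    · intro α hα
      rw [Finset.mem_coe, dya, mem_filter] at hα
      rw [Finset.mem_coe, mem_sbx]
      exact hα.2.2.le
    · intro α _ α' _ h
      exact b.equivFun.injective h
  have h2 : ((sbx D (2 ^ (a + 1))).card : ℝ) ≤ (8 * 2 ^ a) ^ D := by
    rw [card_sbx]
    push_cast
    apply pow_le_pow_left₀ (by positivity)
    have : (1 : ℝ) ≤ 2 ^ a := one_le_pow₀ (by norm_num)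
    rw [pow_succ]
    linarith
  have h1' : ((dya b 𝒜 a).card : ℝ) ≤ (sbx D (2 ^ (a + 1))).card := by exact_mod_cast h1
  exact h1'.trans h2

/-- one dyadic range -/
lemma dyadic_bound {Cg C0 : ℕ} (hCg : GeoC b Cg) {L1 : ℝ} (χ : 𝓞 K → ℂ)
    (β : (Fin D → ℤ) → ℂ) (p l M H a : ℕ) (W : (Fin D → ℤ) → ℝ) (𝒜 : Finset (𝓞 K))
    (Λ : Finset (ℕ × (Fin D → ℤ))) (v : ℕ × (Fin D → ℤ) → ℂ) (y : Fin D → ℤ)
    (hge : ∀ α ∈ 𝒜, 2 ^ p ≤ sz b α)
    (hχ : ∀ x, ‖χ x‖ ≤ 1) (hβ : ∀ n, ‖β n‖ ≤ 1) (hM : 1 ≤ M)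
    (hH : 2 ^ l * M ≤ H) (hW : IsWt H L1 W) (hal : a ≤ l)
    (hΛ : ∀ e ∈ Λ, IsInt ((M : ℝ) • vec e)) :
    ‖∑ m ∈ sbx D (C0 * H / 2 ^ a), β m * ∑ α ∈ dya b 𝒜 a,
        χ α * ((W (act b α m) : ℂ) * Fv Λ v (y + act b α m))‖ ≤
      (((2 * C0 + 2 : ℕ) : ℝ) ^ D * H ^ D) * (∑ γ ∈ (dya b 𝒜 a).image (blk b (2 ^ (a - p))),
        (1 / (2 : ℝ) ^ a) ^ D * Real.sqrt ((1 / (M : ℝ) ^ D) * ∑ s ∈ bx D M,
        ‖∑ α ∈ (dya b 𝒜 a).filter (fun α => blk b (2 ^ (a - p)) α = γ),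
          χ α * Fv Λ v (y + act b α s)‖ ^ 2)) +
      (8 : ℝ) ^ D * ((2 * C0 + 1 : ℕ) : ℝ) ^ D * (|L1| * Cg * C0) / 2 ^ p * H ^ D *
        ∑ e ∈ Λ, ‖v e‖ := by
  set V := ∑ e ∈ Λ, ‖v e‖ with hV
  have hV0 : 0 ≤ V := sum_nonneg fun e _ => norm_nonneg _
  set R := C0 * H / 2 ^ a with hR
  have h2a : (0 : ℝ) < 2 ^ a := by positivity
  have h2aN : 0 < 2 ^ a := by positivity
  have hMr : (1 : ℝ) ≤ M := by exact_mod_cast hM
  have h2al : (2 : ℝ) ^ a ≤ 2 ^ l := pow_le_pow_right₀ (by norm_num) hal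
  have hHr : (2 : ℝ) ^ l * M ≤ H := by exact_mod_cast hH
  have h2aM : (2 : ℝ) ^ a * M ≤ H := le_trans (by gcongr) hHr
  have h2aH : (2 : ℝ) ^ a ≤ H := le_trans (by nlinarith) h2aM
  have hH0 : (0 : ℝ) < H := lt_of_lt_of_le h2a h2aH
  have hRr : (2 : ℝ) ^ a * R ≤ C0 * H := by
    have : R * 2 ^ a ≤ C0 * H := Nat.div_mul_le_self _ _
    have h : ((R * 2 ^ a : ℕ) : ℝ) ≤ ((C0 * H : ℕ) : ℝ) := by exact_mod_cast this
    push_cast at h
    linarith
  -- bound in one block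
  have hblock : ∀ γ ∈ (dya b 𝒜 a).image (blk b (2 ^ (a - p))), ∀ m ∈ sbx D R,
      ‖∑ α ∈ (dya b 𝒜 a).filter (fun α => blk b (2 ^ (a - p)) α = γ),
        χ α * ((W (act b α m) : ℂ) * Fv Λ v (y + act b α m))‖ ≤
      ‖∑ α ∈ (dya b 𝒜 a).filter (fun α => blk b (2 ^ (a - p)) α = γ),
        χ α * Fv Λ v (y + act b α m)‖ +
      ((dya b 𝒜 a).filter (fun α => blk b (2 ^ (a - p)) α = γ)).card *
        ((|L1| * Cg * C0) / 2 ^ p * V) := by
    intro γ hγ m hm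
    obtain ⟨α0, hα0, hα0γ⟩ := mem_image.mp hγ
    set S := (dya b 𝒜 a).filter (fun α => blk b (2 ^ (a - p)) α = γ) with hS
    have hpa : p ≤ a := by
      have h1 := hα0
      rw [dya, mem_filter] at h1
      have h2 := hge α0 h1.1
      have h3 : 2 ^ p < 2 ^ (a + 1) := lt_of_le_of_lt h2 h1.2.2
      have := (Nat.pow_lt_pow_iff_right (by norm_num : 1 < 2)).mp h3
      omega
    have hsplit : ∑ α ∈ S, χ α * ((W (act b α m) : ℂ) * Fv Λ v (y + act b α m)) =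
        (W (act b α0 m) : ℂ) * ∑ α ∈ S, χ α * Fv Λ v (y + act b α m) +
        ∑ α ∈ S, χ α * (((W (act b α m) - W (act b α0 m) : ℝ) : ℂ) *
          Fv Λ v (y + act b α m)) := by
      rw [mul_sum, ← sum_add_distrib]
      refine sum_congr rfl fun α _ => ?_
      push_cast
      ring
    rw [hsplit]
    refine (norm_add_le _ _).trans (add_le_add ?_ ?_)
    · rw [norm_mul, Complex.norm_real, Real.norm_of_nonneg (hW.nonneg _)]
      exact mul_le_of_le_one_left (norm_nonneg _) (hW.le_one _)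
    · refine (norm_sum_le _ _).trans ?_
      rw [← nsmul_eq_mul, ← sum_const]
      refine sum_le_sum fun α hα => ?_
      rw [norm_mul, norm_mul, Complex.norm_real, Real.norm_eq_abs]
      have hα2 : blk b (2 ^ (a - p)) α = γ := (mem_filter.mp hα).2
      have hdiff : sz b (α - α0) ≤ 2 ^ (a - p) := by
        unfold sz
        rw [nn_le_iff]
        intro i
        have h1 : b.equivFun α i / ((2 ^ (a - p) : ℕ) : ℤ) =
            b.equivFun α0 i / ((2 ^ (a - p) : ℕ) : ℤ) := by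
          have := congrFun (hα2.trans hα0γ.symm) i
          exact this
        have hw : (0 : ℤ) < ((2 ^ (a - p) : ℕ) : ℤ) := by positivity
        have h2 := Int.emod_add_mul_ediv (b.equivFun α i) ((2 ^ (a - p) : ℕ) : ℤ)
        have h3 := Int.emod_add_mul_ediv (b.equivFun α0 i) ((2 ^ (a - p) : ℕ) : ℤ)
        have h4 := Int.emod_nonneg (b.equivFun α i) hw.ne'
        have h5 := Int.emod_nonneg (b.equivFun α0 i) hw.ne'
        have h6 := Int.emod_lt_of_pos (b.equivFun α i) hw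
        have h7 := Int.emod_lt_of_pos (b.equivFun α0 i) hw
        rw [map_sub, Pi.sub_apply, abs_le]
        rw [h1] at h2
        constructor <;> linarith
      have hact : (nn (act b α m - act b α0 m) : ℝ) ≤ Cg * 2 ^ (a - p) * R := by
        rw [← sub_act]
        have h1 := hCg.act_le (α - α0) m
        have h2 : nn m ≤ R := mem_sbx.mp hm
        have h3 : Cg * sz b (α - α0) * nn m ≤ Cg * 2 ^ (a - p) * R := by gcongr
        have h4 := h1.trans h3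
        have h5 : ((nn (act b (α - α0) m) : ℕ) : ℝ) ≤ ((Cg * 2 ^ (a - p) * R : ℕ) : ℝ) := by
          exact_mod_cast h4
        push_cast at h5
        exact h5
      have hWd : |W (act b α m) - W (act b α0 m)| ≤ (|L1| * Cg * C0) / 2 ^ p := by
        have h1 := hW.lip (act b α m) (act b α0 m)
        have h2 : L1 / H * (nn (act b α m - act b α0 m) : ℝ) ≤
            |L1| / H * (Cg * 2 ^ (a - p) * R) := by
          calc L1 / H * (nn (act b α m - act b α0 m) : ℝ)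
              ≤ |L1| / H * (nn (act b α m - act b α0 m) : ℝ) := by
                apply mul_le_mul_of_nonneg_right _ (Nat.cast_nonneg _)
                apply div_le_div_of_nonneg_right (le_abs_self _) hH0.le
            _ ≤ _ := by gcongr
        refine h1.trans (h2.trans ?_)
        rw [le_div_iff₀ (by positivity)]
        have h3 : (2 : ℝ) ^ (a - p) * 2 ^ p = 2 ^ a := by
          rw [← pow_add]
          congr 1
          omega
        calc |L1| / H * (Cg * 2 ^ (a - p) * R) * 2 ^ p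
            = |L1| * Cg * ((2 ^ (a - p) * 2 ^ p) * R) / H := by ring
          _ = |L1| * Cg * (2 ^ a * R) / H := by rw [h3]
          _ ≤ |L1| * Cg * (C0 * H) / H := by gcongr
          _ = |L1| * Cg * C0 := by field_simp
      calc ‖χ α‖ * (|W (act b α m) - W (act b α0 m)| * ‖Fv Λ v (y + act b α m)‖)
          ≤ 1 * ((|L1| * Cg * C0) / 2 ^ p * V) := by
            apply mul_le_mul (hχ α) _ (by positivity) zero_le_one
            exact mul_le_mul hWd (norm_Fv_le _ _ _) (norm_nonneg _) (by positivity)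
        _ = _ := one_mul _
  -- sum over the blocks and over `m`
  have hsum : ∀ m ∈ sbx D R, ‖β m * ∑ α ∈ dya b 𝒜 a,
        χ α * ((W (act b α m) : ℂ) * Fv Λ v (y + act b α m))‖ ≤
      ∑ γ ∈ (dya b 𝒜 a).image (blk b (2 ^ (a - p))),
        ‖∑ α ∈ (dya b 𝒜 a).filter (fun α => blk b (2 ^ (a - p)) α = γ),
          χ α * Fv Λ v (y + act b α m)‖ +
      (dya b 𝒜 a).card * ((|L1| * Cg * C0) / 2 ^ p * V) := by
    intro m hm
    rw [norm_mul]
    calc ‖β m‖ * ‖∑ α ∈ dya b 𝒜 a, χ α * ((W (act b α m) : ℂ) * Fv Λ v (y + act b α m))‖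
        ≤ 1 * ‖∑ α ∈ dya b 𝒜 a, χ α * ((W (act b α m) : ℂ) * Fv Λ v (y + act b α m))‖ :=
          mul_le_mul_of_nonneg_right (hβ m) (norm_nonneg _)
      _ = ‖∑ γ ∈ (dya b 𝒜 a).image (blk b (2 ^ (a - p))),
          ∑ α ∈ (dya b 𝒜 a).filter (fun α => blk b (2 ^ (a - p)) α = γ),
            χ α * ((W (act b α m) : ℂ) * Fv Λ v (y + act b α m))‖ := by
          rw [one_mul, sum_fiberwise_of_maps_to (fun α hα => mem_image_of_mem _ hα)]
      _ ≤ ∑ γ ∈ (dya b 𝒜 a).image (blk b (2 ^ (a - p))),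
          ‖∑ α ∈ (dya b 𝒜 a).filter (fun α => blk b (2 ^ (a - p)) α = γ),
            χ α * ((W (act b α m) : ℂ) * Fv Λ v (y + act b α m))‖ := norm_sum_le _ _
      _ ≤ ∑ γ ∈ (dya b 𝒜 a).image (blk b (2 ^ (a - p))),
          (‖∑ α ∈ (dya b 𝒜 a).filter (fun α => blk b (2 ^ (a - p)) α = γ),
            χ α * Fv Λ v (y + act b α m)‖ +
          ((dya b 𝒜 a).filter (fun α => blk b (2 ^ (a - p)) α = γ)).card *
            ((|L1| * Cg * C0) / 2 ^ p * V)) := sum_le_sum fun γ hγ => hblock γ hγ m hm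
      _ = _ := by
          rw [sum_add_distrib, ← sum_mul]
          congr 2
          have h1 := card_eq_sum_card_image (blk b (2 ^ (a - p))) (dya b 𝒜 a)
          rw [h1]
          push_cast
          rfl
  refine (norm_sum_le _ _).trans ((sum_le_sum hsum).trans ?_)
  rw [sum_add_distrib]
  refine add_le_add ?_ ?_
  · rw [sum_comm, mul_sum]
    refine sum_le_sum fun γ _ => ?_
    refine (block_main b χ _ hM hΛ y R).trans ?_
    rw [← mul_assoc]
    apply mul_le_mul_of_nonneg_right _ (Real.sqrt_nonneg _)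
    rw [← mul_pow, ← mul_pow]
    apply pow_le_pow_left₀ (by positivity)
    rw [mul_one_div, le_div_iff₀ h2a]
    push_cast
    nlinarith
  · rw [sum_const, card_sbx, nsmul_eq_mul]
    have h1 := card_dya_le b 𝒜 a
    have h2 : (0 : ℝ) ≤ (|L1| * Cg * C0) / 2 ^ p * V := by positivity
    have h3 : (((2 * R + 1) ^ D : ℕ) : ℝ) * (8 * 2 ^ a) ^ D ≤
        (8 : ℝ) ^ D * ((2 * C0 + 1 : ℕ) : ℝ) ^ D * H ^ D := by
      push_cast
      rw [← mul_pow, ← mul_pow, ← mul_pow]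
      apply pow_le_pow_left₀ (by positivity)
      nlinarith
    calc (((2 * R + 1) ^ D : ℕ) : ℝ) * (((dya b 𝒜 a).card : ℝ) *
          ((|L1| * Cg * C0) / 2 ^ p * V))
        ≤ (((2 * R + 1) ^ D : ℕ) : ℝ) * ((8 * 2 ^ a) ^ D * ((|L1| * Cg * C0) / 2 ^ p * V)) := by
          gcongr
      _ = ((((2 * R + 1) ^ D : ℕ) : ℝ) * (8 * 2 ^ a) ^ D) * ((|L1| * Cg * C0) / 2 ^ p * V) := by
          ring
      _ ≤ ((8 : ℝ) ^ D * ((2 * C0 + 1 : ℕ) : ℝ) ^ D * H ^ D) *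
          ((|L1| * Cg * C0) / 2 ^ p * V) := mul_le_mul_of_nonneg_right h3 h2
      _ = _ := by ring

/-- the bilinear form is bounded by the seminorm -/
theorem bil_le_Nsem (C0 : ℕ) (L1 : ℝ) : ∃ C : ℕ, ∀ (𝒜 : Finset (𝓞 K)) (χ : 𝓞 K → ℂ)
    (β : (Fin D → ℤ) → ℂ) (p l M H R : ℕ) (W : (Fin D → ℤ) → ℝ)
    (Λ : Finset (ℕ × (Fin D → ℤ))) (v : ℕ × (Fin D → ℤ) → ℂ) (y : Fin D → ℤ),
    MulSet b C0 (2 ^ p) (2 ^ l) 𝒜 → (∀ x, ‖χ x‖ ≤ 1) → (∀ n, ‖β n‖ ≤ 1) → 1 ≤ M →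
    2 ^ l * M ≤ H → IsWt H L1 W → C0 * H ≤ R →
    (∀ e ∈ Λ, IsInt ((M : ℝ) • vec e)) →
    ‖∑ α ∈ 𝒜, χ α * ∑ m ∈ sbx D R, β m * ((W (act b α m) : ℂ) * Fv Λ v (y + act b α m))‖
      ≤ C * H ^ D * (Nsem b χ 𝒜 l p M Λ v y + (l + 1) / 2 ^ p * ∑ e ∈ Λ, ‖v e‖) := by
  obtain ⟨Cg, hCg⟩ := exists_geoC b
  refine ⟨(2 * C0 + 2) ^ D + 8 ^ D * (2 * C0 + 1) ^ D * (⌈|L1|⌉₊ * Cg * C0), ?_⟩
  intro 𝒜 χ β p l M H R W Λ v y h𝒜 hχ hβ hM hH hW hR hΛ
  set V := ∑ e ∈ Λ, ‖v e‖ with hV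
  have hV0 : 0 ≤ V := sum_nonneg fun e _ => norm_nonneg _
  -- decomposition into dyadic ranges
  have hdec : ∑ α ∈ 𝒜, χ α * ∑ m ∈ sbx D R,
        β m * ((W (act b α m) : ℂ) * Fv Λ v (y + act b α m)) =
      ∑ a ∈ range (l + 1), ∑ m ∈ sbx D (C0 * H / 2 ^ a), β m * ∑ α ∈ dya b 𝒜 a,
        χ α * ((W (act b α m) : ℂ) * Fv Λ v (y + act b α m)) := by
    have hmaps : ∀ α ∈ 𝒜, Nat.log 2 (sz b α) ∈ range (l + 1) := by
      intro α hα
      rw [Finset.mem_range, Nat.lt_succ_iff]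
      have h1 := h𝒜.le α hα
      calc Nat.log 2 (sz b α) ≤ Nat.log 2 (2 ^ l) := Nat.log_mono_right h1
        _ = l := Nat.log_pow (by norm_num) l
    rw [← sum_fiberwise_of_maps_to hmaps]
    refine sum_congr rfl fun a _ => ?_
    have hdya : 𝒜.filter (fun α => Nat.log 2 (sz b α) = a) = dya b 𝒜 a := by
      unfold dya
      apply filter_congr
      intro α hα
      have h1 : sz b α ≠ 0 := (sz_pos (h𝒜.ne_zero α hα)).ne'
      rw [Nat.log_eq_iff (Or.inr ⟨by norm_num, h1⟩)]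
    rw [hdya]
    have h1 : ∀ α ∈ dya b 𝒜 a, χ α * ∑ m ∈ sbx D R,
        β m * ((W (act b α m) : ℂ) * Fv Λ v (y + act b α m)) =
        ∑ m ∈ sbx D (C0 * H / 2 ^ a),
          β m * (χ α * ((W (act b α m) : ℂ) * Fv Λ v (y + act b α m))) := by
      intro α hα
      have hα' := hα
      rw [dya, mem_filter] at hα'
      have hsub : sbx D (C0 * H / 2 ^ a) ⊆ sbx D R := by
        intro m hm
        rw [mem_sbx] at hm ⊢
        exact hm.trans ((Nat.div_le_self _ _).trans hR)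
      rw [← sum_subset hsub, mul_sum]
      · refine sum_congr rfl fun m _ => ?_
        ring
      · intro m _ hm
        have hWz : W (act b α m) = 0 := by
          by_contra hne
          apply hm
          rw [mem_sbx, Nat.le_div_iff_mul_le (by positivity)]
          have h2 : act b α m ∈ bx D H := by
            by_contra h3
            exact hne (hW.supp _ h3)
          have h3 : nn (act b α m) ≤ H := mem_sbx.mp (bx_subset_sbx D H h2)
          have h4 := h𝒜.bal α hα'.1 m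
          calc nn m * 2 ^ a ≤ nn m * sz b α := Nat.mul_le_mul_left _ hα'.2.1
            _ = sz b α * nn m := mul_comm _ _
            _ ≤ C0 * nn (act b α m) := h4
            _ ≤ C0 * H := Nat.mul_le_mul_left _ h3
        rw [hWz]
        simp
    rw [sum_congr rfl h1, sum_comm]
    refine sum_congr rfl fun m _ => ?_
    rw [mul_sum]
  rw [hdec]
  refine (norm_sum_le _ _).trans ?_
  refine (sum_le_sum fun a ha => dyadic_bound (C0 := C0) b hCg χ β p l M H a W 𝒜 Λ v y h𝒜.ge hχ hβ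
    hM hH hW (Nat.lt_succ_iff.mp (Finset.mem_range.mp ha)) hΛ).trans ?_
  rw [sum_add_distrib, ← mul_sum, sum_const, card_range, nsmul_eq_mul]
  have hN : ∑ a ∈ range (l + 1), ∑ γ ∈ (dya b 𝒜 a).image (blk b (2 ^ (a - p))),
        (1 / (2 : ℝ) ^ a) ^ D * Real.sqrt ((1 / (M : ℝ) ^ D) * ∑ s ∈ bx D M,
        ‖∑ α ∈ (dya b 𝒜 a).filter (fun α => blk b (2 ^ (a - p)) α = γ),
          χ α * Fv Λ v (y + act b α s)‖ ^ 2) = Nsem b χ 𝒜 l p M Λ v y := rfl
  rw [hN]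
  have hN0 : 0 ≤ Nsem b χ 𝒜 l p M Λ v y := by
    unfold Nsem
    positivity
  set N := Nsem b χ 𝒜 l p M Λ v y with hNdef
  have hL : |L1| ≤ (⌈|L1|⌉₊ : ℝ) := Nat.le_ceil _
  push_cast
  have e1 : (0 : ℝ) ≤ (2 * C0 + 2) ^ D := by positivity
  have e2 : (0 : ℝ) ≤ 8 ^ D * (2 * C0 + 1) ^ D * (⌈|L1|⌉₊ * Cg * C0) := by positivity
  have e3 : (8 : ℝ) ^ D * (2 * C0 + 1) ^ D * (|L1| * Cg * C0) ≤
      8 ^ D * (2 * C0 + 1) ^ D * (⌈|L1|⌉₊ * Cg * C0) := by gcongr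
  set P1 : ℝ := (2 * C0 + 2) ^ D with hP1
  set P2 : ℝ := 8 ^ D * (2 * C0 + 1) ^ D * (⌈|L1|⌉₊ * Cg * C0) with hP2
  have e4 : (0 : ℝ) ≤ (l + 1) / 2 ^ p * V := by positivity
  have e5 : (0 : ℝ) ≤ (H : ℝ) ^ D := by positivity
  calc P1 * H ^ D * N + (l + 1) *
        (8 ^ D * (2 * C0 + 1) ^ D * (|L1| * Cg * C0) / 2 ^ p * H ^ D * V)
      = P1 * H ^ D * N + (8 ^ D * (2 * C0 + 1) ^ D * (|L1| * Cg * C0)) *
        (H ^ D * ((l + 1) / 2 ^ p * V)) := by ring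
    _ ≤ P1 * H ^ D * N + P2 * (H ^ D * ((l + 1) / 2 ^ p * V)) := by gcongr
    _ ≤ (P1 + P2) * H ^ D * (N + (l + 1) / 2 ^ p * V) := by
      have h1 : 0 ≤ P2 * H ^ D * N := by positivity
      have h2 : 0 ≤ P1 * (H ^ D * ((l + 1) / 2 ^ p * V)) := by positivity
      nlinarith

end

end Pool.Agent.H10.Sar
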