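import Pool.Agent.H10.Sar.Geo
set_option autoImplicit false
set_option linter.unusedSectionVars false

namespace Pool.Agent.H10.Sar

open NumberField Module Finset
open scoped Classical

noncomputable section

/-- the box `[0,H)^D` -/
def bx (D H : ℕ) : Finset (Fin D → ℤ) := Fintype.piFinset (fun _ => Finset.Ico (0 : ℤ) H)

/-- the symmetric box `|n| ≤ R` -/
def sbx (D R : ℕ) : Finset (Fin D → ℤ) := Fintype.piFinset (fun _ => Finset.Icc (-(R : ℤ)) R)

lemma mem_bx {D H : ℕ} {n : Fin D → ℤ} : n ∈ bx D H ↔ ∀ i, 0 ≤ n i ∧ n i < H := by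
  unfold bx
  simp [Fintype.mem_piFinset]

lemma mem_sbx {D R : ℕ} {n : Fin D → ℤ} : n ∈ sbx D R ↔ nn n ≤ R := by
  unfold sbx
  simp only [Fintype.mem_piFinset, mem_Icc, nn_le_iff, abs_le]

lemma card_bx (D H : ℕ) : (bx D H).card = H ^ D := by
  unfold bx
  rw [Fintype.card_piFinset]
  simp

lemma card_sbx (D R : ℕ) : (sbx D R).card = (2 * R + 1) ^ D := by
  unfold sbx
  rw [Fintype.card_piFinset]
  have : ((R : ℤ) + 1 - -(R : ℤ)).toNat = 2 * R + 1 := by omega
  simp only [Int.card_Icc, this, prod_const, card_univ, Fintype.card_fin]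

lemma bx_subset_sbx (D H : ℕ) : bx D H ⊆ sbx D H := by
  intro n hn
  rw [mem_bx] at hn
  rw [mem_sbx, nn_le_iff]
  intro i
  rw [abs_le]
  have := hn i
  constructor <;> linarith [this.1, this.2]

/-- weights supported in the box `[0,H)^D` -/
structure IsWt {D : ℕ} (H : ℕ) (L : ℝ) (W : (Fin D → ℤ) → ℝ) : Prop where
  nonneg : ∀ n, 0 ≤ W n
  le_one : ∀ n, W n ≤ 1
  supp : ∀ n, n ∉ bx D H → W n = 0
  lip : ∀ m n, |W m - W n| ≤ L / H * nn (m - n)

/-- trapezoid -/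
def trap (s H : ℕ) (t : ℤ) : ℝ := max 0 (min 1 (min (s * t / H) (s * (H - t) / H)))

/-- product of trapezoids -/
def trapD (D s H : ℕ) (n : Fin D → ℤ) : ℝ := ∏ i, trap s H (n i)

/-- the averaging operator -/
def Aop {D : ℕ} (X : (Fin D → ℤ) → ℂ) (H : ℕ) (W : (Fin D → ℤ) → ℝ) (F : (Fin D → ℤ) → ℂ)
    (y : Fin D → ℤ) : ℂ := (1 / (H : ℂ) ^ D) * ∑ n ∈ bx D H, (W n : ℂ) * X n * F (y + n)

/-- arithmetic progressions in dimension `D` -/
def AP {D : ℕ} (n0 : Fin D → ℤ) (M N : Fin D → ℕ) : Set (Fin D → ℤ) :=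
  {n | ∃ k : Fin D → ℕ, (∀ i, k i < N i) ∧ n = fun i => n0 i + M i * k i}

/-- aperiodic functions on `ℤ^D` -/
def Aper {D : ℕ} (X : (Fin D → ℤ) → ℂ) : Prop :=
  ∀ ε : ℝ, 0 < ε → ∃ N0 : ℕ, ∀ N : ℕ, N0 ≤ N → ∀ (n0 : Fin D → ℤ) (M L : Fin D → ℕ),
    (∀ i, 1 ≤ M i) → (∀ i, 1 ≤ L i) →
    ‖∑ n ∈ sbx D N with n ∈ AP n0 M L, X n‖ ≤ ε * (2 * N + 1) ^ D

lemma trap_nonneg (s H : ℕ) (t : ℤ) : 0 ≤ trap s H t := le_max_left _ _

lemma trap_le_one (s H : ℕ) (t : ℤ) : trap s H t ≤ 1 := by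
  unfold trap
  exact max_le zero_le_one (min_le_left _ _)

lemma trap_supp {s H : ℕ} {t : ℤ} (h : t ≤ 0 ∨ (H : ℤ) ≤ t) : trap s H t = 0 := by
  unfold trap
  apply max_eq_left
  rcases h with h | h
  · refine (min_le_right _ _).trans ((min_le_left _ _).trans ?_)
    have : (t : ℝ) ≤ 0 := by exact_mod_cast h
    apply div_nonpos_of_nonpos_of_nonneg _ (Nat.cast_nonneg _)
    exact mul_nonpos_of_nonneg_of_nonpos (Nat.cast_nonneg _) this
  · refine (min_le_right _ _).trans ((min_le_right _ _).trans ?_)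
    have : (H : ℝ) ≤ t := by exact_mod_cast h
    apply div_nonpos_of_nonpos_of_nonneg _ (Nat.cast_nonneg _)
    exact mul_nonpos_of_nonneg_of_nonpos (Nat.cast_nonneg _) (by linarith)

lemma trap_lip (s H : ℕ) (t u : ℤ) : |trap s H t - trap s H u| ≤ s / H * |(t : ℝ) - u| := by
  unfold trap
  have h1 : ∀ a b : ℝ, |max 0 a - max 0 b| ≤ |a - b| := fun a b => by
    have := abs_max_sub_max_le_max 0 a 0 b
    simpa using this
  have h2 : ∀ a b : ℝ, |min 1 a - min 1 b| ≤ |a - b| := fun a b => by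
    have := abs_min_sub_min_le_max 1 a 1 b
    simpa using this
  refine (h1 _ _).trans ((h2 _ _).trans ((abs_min_sub_min_le_max _ _ _ _).trans ?_))
  apply max_le
  · rw [← sub_div, ← mul_sub, abs_div, abs_mul, Nat.abs_cast, Nat.abs_cast]
    apply le_of_eq
    ring
  · rw [← sub_div, ← mul_sub, abs_div, abs_mul, Nat.abs_cast, Nat.abs_cast]
    rw [show ((H : ℝ) - t - (H - u)) = -((t : ℝ) - u) by ring, abs_neg]
    apply le_of_eq
    ring

lemma prod_lip {ι : Type*} (s : Finset ι) (f g : ι → ℝ) (hf : ∀ i, 0 ≤ f i ∧ f i ≤ 1)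
    (hg : ∀ i, 0 ≤ g i ∧ g i ≤ 1) : |∏ i ∈ s, f i - ∏ i ∈ s, g i| ≤ ∑ i ∈ s, |f i - g i| := by
  induction s using Finset.induction_on with
  | empty => simp
  | insert a s ha ih =>
    rw [prod_insert ha, prod_insert ha, sum_insert ha]
    have h1 : f a * ∏ i ∈ s, f i - g a * ∏ i ∈ s, g i
        = (f a - g a) * ∏ i ∈ s, f i + g a * (∏ i ∈ s, f i - ∏ i ∈ s, g i) := by ring
    rw [h1]
    refine (abs_add_le _ _).trans ?_
    rw [abs_mul, abs_mul]
    have h2 : |∏ i ∈ s, f i| ≤ 1 := by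
      rw [abs_of_nonneg (prod_nonneg (fun i _ => (hf i).1))]
      exact prod_le_one (fun i _ => (hf i).1) (fun i _ => (hf i).2)
    have h3 : |g a| ≤ 1 := by
      rw [abs_of_nonneg (hg a).1]
      exact (hg a).2
    have h4 : |f a - g a| * |∏ i ∈ s, f i| ≤ |f a - g a| * 1 :=
      mul_le_mul_of_nonneg_left h2 (abs_nonneg _)
    have h5 : |g a| * |∏ i ∈ s, f i - ∏ i ∈ s, g i| ≤ 1 * |∏ i ∈ s, f i - ∏ i ∈ s, g i| :=
      mul_le_mul_of_nonneg_right h3 (abs_nonneg _)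
    linarith

lemma isWt_trapD (D s H : ℕ) : IsWt H (D * s) (trapD D s H) where
  nonneg n := prod_nonneg (fun i _ => trap_nonneg _ _ _)
  le_one n := prod_le_one (fun i _ => trap_nonneg _ _ _) (fun i _ => trap_le_one _ _ _)
  supp n hn := by
    rw [mem_bx] at hn
    rw [not_forall] at hn
    obtain ⟨i, hi⟩ := hn
    apply prod_eq_zero (mem_univ i)
    apply trap_supp
    by_cases h : 0 ≤ n i
    · exact Or.inr (by
        by_contra h2
        exact hi ⟨h, not_le.mp h2⟩)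
    · exact Or.inl (by omega)
  lip m n := by
    unfold trapD
    refine (prod_lip _ _ _ (fun i => ⟨trap_nonneg _ _ _, trap_le_one _ _ _⟩)
      (fun i => ⟨trap_nonneg _ _ _, trap_le_one _ _ _⟩)).trans ?_
    calc ∑ i, |trap s H (m i) - trap s H (n i)| ≤ ∑ _i : Fin D, (s / H * (nn (m - n) : ℝ)) := by
          apply sum_le_sum
          intro i _
          refine (trap_lip s H _ _).trans ?_
          apply mul_le_mul_of_nonneg_left _ (by positivity)
          have := abs_le_nn' (m - n) i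
          simpa using this
      _ = D * s / H * nn (m - n) := by
          rw [sum_const, card_univ, Fintype.card_fin, nsmul_eq_mul]
          ring

end

end Pool.Agent.H10.Sar
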