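import Pool.Agent.H10.Sar.Box
set_option autoImplicit false
set_option linter.unusedSectionVars false

namespace Pool.Agent.H10.Sar

open NumberField Module Finset
open scoped Classical

noncomputable section

variable {K : Type*} [Field K] [NumberField K] {D : ℕ} (b : Basis (Fin D) ℤ (𝓞 K))

/-- the residue of a coordinate vector modulo an ideal -/
def resI (I : Ideal (𝓞 K)) : (Fin D → ℤ) →+ 𝓞 K ⧸ I :=
  (Ideal.Quotient.mk I).toAddMonoidHom.comp b.equivFun.symm.toAddEquiv.toAddMonoidHom

lemma resI_apply (I : Ideal (𝓞 K)) (n : Fin D → ℤ) :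
    resI b I n = Ideal.Quotient.mk I (b.equivFun.symm n) := rfl

lemma resI_eq_zero (I : Ideal (𝓞 K)) (n : Fin D → ℤ) :
    resI b I n = 0 ↔ b.equivFun.symm n ∈ I := by
  rw [resI_apply, Ideal.Quotient.eq_zero_iff_mem]

lemma resI_surj (I : Ideal (𝓞 K)) : Function.Surjective (resI b I) := by
  intro c
  obtain ⟨x, rfl⟩ := Ideal.Quotient.mk_surjective c
  exact ⟨b.equivFun x, by rw [resI_apply, LinearEquiv.symm_apply_apply]⟩

lemma resI_dvd (I : Ideal (𝓞 K)) (N : ℕ) (hNI : (N : 𝓞 K) ∈ I) (m : Fin D → ℤ)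
    (h : ∀ i, (N : ℤ) ∣ m i) : resI b I m = 0 := by
  rw [resI_eq_zero]
  choose k hk using h
  have h1 : m = (N : ℤ) • k := by
    funext i
    simp [hk i]
  rw [h1, map_zsmul, zsmul_eq_mul]
  exact I.mul_mem_right _ (by exact_mod_cast hNI)

lemma resI_congr (I : Ideal (𝓞 K)) (N : ℕ) (hNI : (N : 𝓞 K) ∈ I) (m n : Fin D → ℤ)
    (h : ∀ i, ((m i : ℤ) : ZMod N) = ((n i : ℤ) : ZMod N)) : resI b I m = resI b I n := by
  rw [← sub_eq_zero, ← map_sub]
  apply resI_dvd b I N hNI
  intro i
  rw [Pi.sub_apply]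
  have := h i
  rw [ZMod.intCast_eq_intCast_iff_dvd_sub] at this
  have h2 : m i - n i = -(n i - m i) := by ring
  rw [h2]
  exact (dvd_neg).mpr this

/-- the residue map on the torus -/
def resZ (I : Ideal (𝓞 K)) (N : ℕ) [NeZero N] (hNI : (N : 𝓞 K) ∈ I) :
    (Fin D → ZMod N) →+ 𝓞 K ⧸ I where
  toFun z := resI b I (fun i => ((z i).val : ℤ))
  map_zero' := by
    rw [← (resI b I).map_zero]
    apply resI_congr b I N hNI
    intro i
    simp
  map_add' z w := by
    rw [← map_add]
    apply resI_congr b I N hNI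
    intro i
    simp

lemma resZ_intCast (I : Ideal (𝓞 K)) (N : ℕ) [NeZero N] (hNI : (N : 𝓞 K) ∈ I)
    (n : Fin D → ℤ) : resZ b I N hNI (fun i => (n i : ZMod N)) = resI b I n := by
  show resI b I _ = _
  apply resI_congr b I N hNI
  intro i
  simp

lemma card_ker_resZ (I : Ideal (𝓞 K)) (N : ℕ) [NeZero N] (hNI : (N : 𝓞 K) ∈ I) :
    Nat.card (resZ b I N hNI).ker * Ideal.absNorm I = N ^ D := by
  have h1 := AddSubgroup.card_mul_index (resZ b I N hNI).ker
  rw [AddSubgroup.index_ker] at h1
  have hs : Function.Surjective (resZ b I N hNI) := by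
    intro c
    obtain ⟨n, hn⟩ := resI_surj b I c
    exact ⟨_, (resZ_intCast b I N hNI n).trans hn⟩
  have h2 : (resZ b I N hNI).range = ⊤ := AddMonoidHom.range_eq_top.mpr hs
  rw [h2] at h1
  have h3 : Nat.card (⊤ : AddSubgroup (𝓞 K ⧸ I)) = Ideal.absNorm I := by
    rw [AddSubgroup.card_top]
    rfl
  rw [h3] at h1
  rw [h1]
  simp [Nat.card_eq_fintype_card, ZMod.card]

/-- exact count of the points of an ideal in a cube whose side lies in the ideal -/
theorem ideal_count (I : Ideal (𝓞 K)) (N : ℕ) (hN : 0 < N) (hNI : (N : 𝓞 K) ∈ I)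
    (a : Fin D → ℤ) :
    ((bx D N).filter (fun n => b.equivFun.symm (a + n) ∈ I)).card * Ideal.absNorm I = N ^ D := by
  have : NeZero N := ⟨hN.ne'⟩
  rw [← card_ker_resZ b I N hNI]
  congr 1
  have h1 : Nat.card (resZ b I N hNI).ker
      = ((univ : Finset (Fin D → ZMod N)).filter (fun z => resZ b I N hNI z = 0)).card := by
    rw [Nat.card_eq_fintype_card, Fintype.card_subtype]
    apply congrArg Finset.card
    ext z
    simp [AddMonoidHom.mem_ker]
  rw [h1]
  refine Finset.card_nbij' (fun n => fun i => ((a i + n i : ℤ) : ZMod N))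
    (fun z => fun i => (((z i - (a i : ZMod N)).val : ℕ) : ℤ)) ?_ ?_ ?_ ?_
  · intro n hn
    have hn' := (mem_filter.mp hn).2
    rw [mem_coe, mem_filter]
    refine ⟨mem_univ _, ?_⟩
    have := resZ_intCast b I N hNI (a + n)
    rw [← resI_eq_zero] at hn'
    rw [hn'] at this
    exact this
  · intro z hz
    have hz' := (mem_filter.mp hz).2
    rw [mem_coe, mem_filter]
    refine ⟨?_, ?_⟩
    · rw [mem_bx]
      intro i
      refine ⟨Int.natCast_nonneg _, ?_⟩
      exact Int.ofNat_lt.mpr (ZMod.val_lt _)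
    · rw [← resI_eq_zero, ← resZ_intCast b I N hNI, ← hz']
      congr 1
      funext i
      simp
  · intro n hn
    have hn' := mem_bx.mp (mem_filter.mp hn).1
    funext i
    have h2 : ((a i + n i : ℤ) : ZMod N) - (a i : ZMod N) = ((n i).toNat : ZMod N) := by
      push_cast
      rw [add_sub_cancel_left]
      have : ((n i : ℤ) : ZMod N) = (((n i).toNat : ℤ) : ZMod N) := by
        rw [Int.toNat_of_nonneg (hn' i).1]
      rw [this]
      push_cast
      rfl
    show (((((a i + n i : ℤ) : ZMod N) - (a i : ZMod N)).val : ℕ) : ℤ) = n i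
    rw [h2, ZMod.val_natCast, Nat.mod_eq_of_lt, Int.toNat_of_nonneg (hn' i).1]
    have := hn' i
    omega
  · intro z hz
    funext i
    simp

/-- upper bound for the number of points of an ideal in the cube `[0,H)^D` -/
theorem ideal_count_le (I : Ideal (𝓞 K)) (N : ℕ) (hN : 0 < N) (hNI : (N : 𝓞 K) ∈ I) (H : ℕ) :
    ((bx D H).filter (fun n => b.equivFun.symm n ∈ I)).card * Ideal.absNorm I ≤ (H + N) ^ D := by
  set N' := N * (H / N + 1) with hN'
  have h1 : H < N' := by
    rw [hN']
    exact Nat.lt_mul_div_succ H hN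
  have h2 : N' ≤ H + N := by
    rw [hN', mul_add, mul_one]
    have := Nat.mul_div_le H N
    omega
  have hI : ((N' : ℕ) : 𝓞 K) ∈ I := by
    rw [hN']
    push_cast
    exact I.mul_mem_right _ hNI
  have h3 := ideal_count b I N' (by omega) hI 0
  calc ((bx D H).filter (fun n => b.equivFun.symm n ∈ I)).card * Ideal.absNorm I
      ≤ ((bx D N').filter (fun n => b.equivFun.symm (0 + n) ∈ I)).card * Ideal.absNorm I := by
        apply Nat.mul_le_mul_right
        apply card_le_card
        intro n hn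
        rw [mem_filter, mem_bx] at hn ⊢
        refine ⟨fun i => ⟨(hn.1 i).1, ?_⟩, by rw [zero_add]; exact hn.2⟩
        have := (hn.1 i).2
        omega
    _ = N' ^ D := h3
    _ ≤ (H + N) ^ D := Nat.pow_le_pow_left h2 _

include b in
lemma dim_pos : 0 < D := by
  have h1 : finrank ℤ (𝓞 K) = D := by
    rw [Module.finrank_eq_card_basis b, Fintype.card_fin]
  rw [← h1, RingOfIntegers.rank]
  exact finrank_pos

/-- lower bound for the number of points of an ideal in the cube `[0,H)^D` -/
theorem ideal_count_ge (I : Ideal (𝓞 K)) (N : ℕ) (hN : 0 < N) (hNI : (N : 𝓞 K) ∈ I) (H : ℕ) :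
    (H - N) ^ D ≤ ((bx D H).filter (fun n => b.equivFun.symm n ∈ I)).card * Ideal.absNorm I := by
  rcases Nat.lt_or_ge H N with hlt | hge
  · have h0 : H - N = 0 := by omega
    rw [h0, zero_pow (dim_pos b).ne']
    exact Nat.zero_le _
  set N' := N * (H / N) with hN'
  have h1 : N' ≤ H := Nat.mul_div_le H N
  have h2 : H - N ≤ N' := by
    have := Nat.lt_mul_div_succ H hN
    rw [mul_add, mul_one] at this
    omega
  have h4 : 0 < N' := Nat.mul_pos hN (Nat.div_pos hge hN)
  have hI : ((N' : ℕ) : 𝓞 K) ∈ I := by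
    rw [hN']
    push_cast
    exact I.mul_mem_right _ hNI
  have h3 := ideal_count b I N' h4 hI 0
  calc (H - N) ^ D ≤ N' ^ D := Nat.pow_le_pow_left h2 _
    _ = ((bx D N').filter (fun n => b.equivFun.symm (0 + n) ∈ I)).card * Ideal.absNorm I := h3.symm
    _ ≤ ((bx D H).filter (fun n => b.equivFun.symm n ∈ I)).card * Ideal.absNorm I := by
        apply Nat.mul_le_mul_right
        apply card_le_card
        intro n hn
        rw [mem_filter, mem_bx] at hn ⊢
        refine ⟨fun i => ⟨(hn.1 i).1, ?_⟩, by rw [← zero_add n]; exact hn.2⟩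
        have := (hn.1 i).2
        omega

end

end Pool.Agent.H10.Sar
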