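import Mathlib
set_option autoImplicit false
set_option linter.unusedSectionVars false

namespace Pool.Agent.H10.Sar

open NumberField Module Finset

noncomputable section

/-- sup norm of an integer vector, as a natural number -/
def nn {D : ℕ} (n : Fin D → ℤ) : ℕ := univ.sup (fun i => (n i).natAbs)

lemma nn_le_iff {D : ℕ} {n : Fin D → ℤ} {A : ℕ} : nn n ≤ A ↔ ∀ i, |n i| ≤ A := by
  unfold nn
  rw [Finset.sup_le_iff]
  constructor
  · intro h i
    have := h i (mem_univ i)
    rw [Int.abs_eq_natAbs]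
    exact_mod_cast this
  · intro h i _
    have := h i
    rw [Int.abs_eq_natAbs] at this
    exact_mod_cast this

lemma abs_le_nn {D : ℕ} (n : Fin D → ℤ) (i : Fin D) : |n i| ≤ nn n := nn_le_iff.mp le_rfl i

lemma abs_le_nn' {D : ℕ} (n : Fin D → ℤ) (i : Fin D) : |(n i : ℝ)| ≤ nn n := by
  exact_mod_cast abs_le_nn n i

@[simp] lemma nn_zero {D : ℕ} : nn (0 : Fin D → ℤ) = 0 := by
  apply Nat.le_zero.mp
  rw [nn_le_iff]
  simp

lemma nn_eq_zero {D : ℕ} {n : Fin D → ℤ} : nn n = 0 ↔ n = 0 := by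
  constructor
  · intro h
    funext i
    have := abs_le_nn n i
    rw [h] at this
    simpa using this
  · rintro rfl
    simp

lemma nn_add_le {D : ℕ} (m n : Fin D → ℤ) : nn (m + n) ≤ nn m + nn n := by
  rw [nn_le_iff]
  intro i
  push_cast
  exact (abs_add_le _ _).trans (add_le_add (abs_le_nn m i) (abs_le_nn n i))

lemma nn_neg {D : ℕ} (m : Fin D → ℤ) : nn (-m) = nn m := by
  unfold nn
  simp

lemma nn_sub_le {D : ℕ} (m n : Fin D → ℤ) : nn (m - n) ≤ nn m + nn n := by
  rw [sub_eq_add_neg]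
  exact (nn_add_le _ _).trans (by rw [nn_neg])

lemma nn_sum_le {D : ℕ} {ι : Type*} (s : Finset ι) (f : ι → Fin D → ℤ) :
    nn (∑ i ∈ s, f i) ≤ ∑ i ∈ s, nn (f i) := by
  classical
  induction s using Finset.induction_on with
  | empty => simp
  | insert a s ha ih =>
    rw [sum_insert ha, sum_insert ha]
    exact (nn_add_le _ _).trans (add_le_add le_rfl ih)

lemma nn_zsmul {D : ℕ} (c : ℤ) (n : Fin D → ℤ) : nn (c • n) = c.natAbs * nn n := by
  apply le_antisymm
  · rw [nn_le_iff]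
    intro i
    simp only [Pi.smul_apply, smul_eq_mul, abs_mul]
    push_cast
    exact mul_le_mul_of_nonneg_left (abs_le_nn n i) (abs_nonneg c)
  · rcases Nat.eq_zero_or_pos c.natAbs with h | h
    · rw [h, zero_mul]
      exact Nat.zero_le _
    · have key : ∀ i, (n i).natAbs ≤ nn (c • n) / c.natAbs := by
        intro i
        rw [Nat.le_div_iff_mul_le h, mul_comm, ← Int.natAbs_mul]
        unfold nn
        exact Finset.le_sup (f := fun i => ((c • n) i).natAbs) (mem_univ i)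
      have h2 : nn n ≤ nn (c • n) / c.natAbs := by
        conv_lhs => unfold nn
        exact Finset.sup_le (fun i _ => key i)
      rw [mul_comm]
      exact (Nat.le_div_iff_mul_le h).mp h2

/-- the pairing of a real vector with an integer vector -/
def dot {D : ℕ} (θ : Fin D → ℝ) (n : Fin D → ℤ) : ℝ := ∑ i, θ i * n i

lemma dot_add {D : ℕ} (θ : Fin D → ℝ) (m n : Fin D → ℤ) : dot θ (m + n) = dot θ m + dot θ n := by
  unfold dot
  rw [← sum_add_distrib]
  refine sum_congr rfl (fun i _ => ?_)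
  simp only [Pi.add_apply]
  push_cast
  ring

lemma dot_neg {D : ℕ} (θ : Fin D → ℝ) (n : Fin D → ℤ) : dot θ (-n) = - dot θ n := by
  unfold dot
  rw [← sum_neg_distrib]
  refine sum_congr rfl (fun i _ => ?_)
  simp only [Pi.neg_apply]
  push_cast
  ring

lemma dot_sub {D : ℕ} (θ : Fin D → ℝ) (m n : Fin D → ℤ) : dot θ (m - n) = dot θ m - dot θ n := by
  rw [sub_eq_add_neg, dot_add, dot_neg, sub_eq_add_neg]

lemma dot_zero {D : ℕ} (θ : Fin D → ℝ) : dot θ 0 = 0 := by
  unfold dot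
  simp

lemma add_dot {D : ℕ} (θ ψ : Fin D → ℝ) (n : Fin D → ℤ) : dot (θ + ψ) n = dot θ n + dot ψ n := by
  unfold dot
  rw [← sum_add_distrib]
  refine sum_congr rfl (fun i _ => ?_)
  simp only [Pi.add_apply]
  ring

lemma neg_dot {D : ℕ} (θ : Fin D → ℝ) (n : Fin D → ℤ) : dot (-θ) n = - dot θ n := by
  unfold dot
  rw [← sum_neg_distrib]
  refine sum_congr rfl (fun i _ => ?_)
  simp only [Pi.neg_apply]
  ring

lemma sub_dot {D : ℕ} (θ ψ : Fin D → ℝ) (n : Fin D → ℤ) : dot (θ - ψ) n = dot θ n - dot ψ n := by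
  rw [sub_eq_add_neg, add_dot, neg_dot, sub_eq_add_neg]

lemma smul_dot {D : ℕ} (c : ℝ) (θ : Fin D → ℝ) (n : Fin D → ℤ) : dot (c • θ) n = c * dot θ n := by
  unfold dot
  rw [mul_sum]
  refine sum_congr rfl (fun i _ => ?_)
  simp only [Pi.smul_apply, smul_eq_mul]
  ring

lemma dot_zsmul {D : ℕ} (θ : Fin D → ℝ) (c : ℤ) (n : Fin D → ℤ) : dot θ (c • n) = c * dot θ n := by
  unfold dot
  rw [mul_sum]
  refine sum_congr rfl (fun i _ => ?_)
  simp only [Pi.smul_apply, smul_eq_mul]
  push_cast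
  ring

lemma dot_single {D : ℕ} (θ : Fin D → ℝ) (j : Fin D) : dot θ (Pi.single j 1) = θ j := by
  unfold dot
  rw [Finset.sum_eq_single j]
  · simp
  · intro i _ hi
    simp [Pi.single_eq_of_ne hi]
  · simp

lemma abs_dot_le {D : ℕ} (θ : Fin D → ℝ) (n : Fin D → ℤ) {A : ℝ} (h : ∀ i, |θ i| ≤ A) :
    |dot θ n| ≤ D * A * nn n := by
  unfold dot
  refine (abs_sum_le_sum_abs _ _).trans ?_
  calc ∑ i, |θ i * n i| ≤ ∑ _i : Fin D, A * nn n := by
        apply sum_le_sum
        intro i _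
        rw [abs_mul]
        exact mul_le_mul (h i) (abs_le_nn' n i) (abs_nonneg _) ((abs_nonneg _).trans (h i))
    _ = D * A * nn n := by
        rw [sum_const, card_univ, Fintype.card_fin, nsmul_eq_mul]
        ring

/-- the additive character `exp (2 π i t)` -/
def ee (t : ℝ) : ℂ := Complex.exp (2 * Real.pi * t * Complex.I)

lemma ee_add (s t : ℝ) : ee (s + t) = ee s * ee t := by
  unfold ee
  rw [← Complex.exp_add]
  congr 1
  push_cast
  ring

@[simp] lemma ee_zero : ee 0 = 1 := by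
  unfold ee
  simp

lemma norm_ee (t : ℝ) : ‖ee t‖ = 1 := by
  unfold ee
  rw [show (2 * Real.pi * t * Complex.I : ℂ) = ((2 * Real.pi * t : ℝ) : ℂ) * Complex.I by push_cast; ring]
  exact Complex.norm_exp_ofReal_mul_I _

lemma ee_int (n : ℤ) : ee n = 1 := by
  unfold ee
  rw [Complex.exp_eq_one_iff]
  exact ⟨n, by push_cast; ring⟩

lemma ee_neg (t : ℝ) : ee (-t) = (starRingEnd ℂ) (ee t) := by
  unfold ee
  rw [← Complex.exp_conj]
  congr 1
  simp only [map_mul, Complex.conj_ofReal, Complex.conj_I, map_ofNat]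
  push_cast
  ring

lemma ee_ne_zero (t : ℝ) : ee t ≠ 0 := Complex.exp_ne_zero _

lemma ee_add_int (t : ℝ) (n : ℤ) : ee (t + n) = ee t := by
  rw [ee_add, ee_int, mul_one]

lemma ee_mul_conj (t : ℝ) : ee t * (starRingEnd ℂ) (ee t) = 1 := by
  rw [← ee_neg, ← ee_add, add_neg_cancel, ee_zero]

variable {K : Type*} [Field K] [NumberField K] {D : ℕ} (b : Basis (Fin D) ℤ (𝓞 K))

/-- action of ring elements on coordinate vectors -/
def act (α : 𝓞 K) (n : Fin D → ℤ) : Fin D → ℤ := b.equivFun (α * b.equivFun.symm n)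

lemma act_add (α : 𝓞 K) (m n : Fin D → ℤ) : act b α (m + n) = act b α m + act b α n := by
  unfold act
  rw [map_add, mul_add, map_add]

lemma act_sub (α : 𝓞 K) (m n : Fin D → ℤ) : act b α (m - n) = act b α m - act b α n := by
  unfold act
  rw [map_sub, mul_sub, map_sub]

lemma act_zero (α : 𝓞 K) : act b α 0 = 0 := by
  unfold act
  simp

lemma act_zsmul (α : 𝓞 K) (c : ℤ) (n : Fin D → ℤ) : act b α (c • n) = c • act b α n := by
  unfold act
  rw [map_zsmul, mul_smul_comm, map_zsmul]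

lemma add_act (α β : 𝓞 K) (n : Fin D → ℤ) : act b (α + β) n = act b α n + act b β n := by
  unfold act
  rw [add_mul, map_add]

lemma sub_act (α β : 𝓞 K) (n : Fin D → ℤ) : act b (α - β) n = act b α n - act b β n := by
  unfold act
  rw [sub_mul, map_sub]

lemma act_act (α β : 𝓞 K) (n : Fin D → ℤ) : act b α (act b β n) = act b (α * β) n := by
  unfold act
  rw [LinearEquiv.symm_apply_apply, mul_assoc]

lemma act_intCast (c : ℤ) (n : Fin D → ℤ) : act b (c : 𝓞 K) n = c • n := by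
  unfold act
  rw [← zsmul_eq_mul, map_zsmul, LinearEquiv.apply_symm_apply]

lemma symm_act (α : 𝓞 K) (n : Fin D → ℤ) :
    b.equivFun.symm (act b α n) = α * b.equivFun.symm n := by
  unfold act
  rw [LinearEquiv.symm_apply_apply]

lemma act_injective {α : 𝓞 K} (hα : α ≠ 0) : Function.Injective (act b α) := by
  intro m n h
  have h1 := congrArg b.equivFun.symm h
  rw [symm_act, symm_act] at h1
  exact b.equivFun.symm.injective (mul_left_cancel₀ hα h1)

/-- coordinate size of a ring element -/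
def sz (α : 𝓞 K) : ℕ := nn (b.equivFun α)

/-- the dual action on real vectors -/
def star (α : 𝓞 K) (θ : Fin D → ℝ) : Fin D → ℝ := fun j => dot θ (act b α (Pi.single j 1))

lemma eq_sum_single (n : Fin D → ℤ) : n = ∑ j, n j • (Pi.single j (1 : ℤ) : Fin D → ℤ) := by
  funext i
  rw [Finset.sum_apply, Finset.sum_eq_single i]
  · simp
  · intro j _ hj
    simp [Pi.single_eq_of_ne hj.symm]
  · simp

lemma dot_sum {D : ℕ} {ι : Type*} (θ : Fin D → ℝ) (s : Finset ι) (f : ι → Fin D → ℤ) :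
    dot θ (∑ i ∈ s, f i) = ∑ i ∈ s, dot θ (f i) := by
  classical
  induction s using Finset.induction_on with
  | empty => simp [dot_zero]
  | insert a s ha ih => rw [sum_insert ha, sum_insert ha, dot_add, ih]

lemma act_sum {ι : Type*} (α : 𝓞 K) (s : Finset ι) (f : ι → Fin D → ℤ) :
    act b α (∑ i ∈ s, f i) = ∑ i ∈ s, act b α (f i) := by
  classical
  induction s using Finset.induction_on with
  | empty => simp [act_zero]
  | insert a s ha ih => rw [sum_insert ha, sum_insert ha, act_add, ih]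

lemma dot_star (α : 𝓞 K) (θ : Fin D → ℝ) (n : Fin D → ℤ) :
    dot (star b α θ) n = dot θ (act b α n) := by
  conv_rhs => rw [eq_sum_single n, act_sum, dot_sum]
  unfold dot star
  refine sum_congr rfl (fun j _ => ?_)
  rw [act_zsmul, ← dot, dot_zsmul]
  unfold dot
  ring

lemma ext_dot {D : ℕ} {θ ψ : Fin D → ℝ} (h : ∀ n, dot θ n = dot ψ n) : θ = ψ := by
  funext j
  rw [← dot_single θ j, h, dot_single]

lemma star_star (α β : 𝓞 K) (θ : Fin D → ℝ) : star b α (star b β θ) = star b (α * β) θ := by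
  apply ext_dot
  intro n
  rw [dot_star, dot_star, dot_star, act_act, mul_comm]

lemma star_add (α : 𝓞 K) (θ ψ : Fin D → ℝ) : star b α (θ + ψ) = star b α θ + star b α ψ := by
  apply ext_dot
  intro n
  rw [dot_star, add_dot, add_dot, dot_star, dot_star]

lemma star_sub (α : 𝓞 K) (θ ψ : Fin D → ℝ) : star b α (θ - ψ) = star b α θ - star b α ψ := by
  apply ext_dot
  intro n
  rw [dot_star, sub_dot, sub_dot, dot_star, dot_star]

lemma star_smul (α : 𝓞 K) (c : ℝ) (θ : Fin D → ℝ) : star b α (c • θ) = c • star b α θ := by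
  apply ext_dot
  intro n
  rw [dot_star, smul_dot, smul_dot, dot_star]

lemma add_star (α β : 𝓞 K) (θ : Fin D → ℝ) : star b (α + β) θ = star b α θ + star b β θ := by
  apply ext_dot
  intro n
  rw [dot_star, add_dot, add_act, dot_add, dot_star, dot_star]

lemma sub_star (α β : 𝓞 K) (θ : Fin D → ℝ) : star b (α - β) θ = star b α θ - star b β θ := by
  apply ext_dot
  intro n
  rw [dot_star, sub_dot, sub_act, dot_sub, dot_star, dot_star]

lemma star_intCast (c : ℤ) (θ : Fin D → ℝ) : star b (c : 𝓞 K) θ = (c : ℝ) • θ := by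
  apply ext_dot
  intro n
  rw [dot_star, act_intCast, dot_zsmul, smul_dot]

/-- a real vector with integer coordinates -/
def IsInt {D : ℕ} (θ : Fin D → ℝ) : Prop := ∃ z : Fin D → ℤ, θ = fun i => (z i : ℝ)

lemma isInt_dot {D : ℕ} {θ : Fin D → ℝ} (h : IsInt θ) (n : Fin D → ℤ) :
    ∃ c : ℤ, dot θ n = c := by
  obtain ⟨z, rfl⟩ := h
  refine ⟨∑ i, z i * n i, ?_⟩
  unfold dot
  push_cast
  rfl

lemma IsInt.star {θ : Fin D → ℝ} (h : IsInt θ) (α : 𝓞 K) : IsInt (star b α θ) := by
  have : ∀ j, ∃ c : ℤ, Sar.star b α θ j = c := fun j => isInt_dot h _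
  choose z hz using this
  exact ⟨z, funext hz⟩

lemma IsInt.add {D : ℕ} {θ ψ : Fin D → ℝ} (h : IsInt θ) (h' : IsInt ψ) : IsInt (θ + ψ) := by
  obtain ⟨z, rfl⟩ := h
  obtain ⟨z', rfl⟩ := h'
  exact ⟨z + z', by funext i; simp⟩

lemma IsInt.neg {D : ℕ} {θ : Fin D → ℝ} (h : IsInt θ) : IsInt (-θ) := by
  obtain ⟨z, rfl⟩ := h
  exact ⟨-z, by funext i; simp⟩

lemma IsInt.sub {D : ℕ} {θ ψ : Fin D → ℝ} (h : IsInt θ) (h' : IsInt ψ) : IsInt (θ - ψ) := by
  rw [sub_eq_add_neg]
  exact h.add h'.neg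

/-- every coordinate is within `τ` of an integer -/
def Near {D : ℕ} (θ : Fin D → ℝ) (τ : ℝ) : Prop := ∀ i, |θ i - round (θ i)| ≤ τ

lemma near_iff {D : ℕ} {θ : Fin D → ℝ} {τ : ℝ} :
    Near θ τ ↔ ∃ z : Fin D → ℤ, ∀ i, |θ i - z i| ≤ τ := by
  constructor
  · intro h
    exact ⟨fun i => round (θ i), h⟩
  · rintro ⟨z, hz⟩ i
    exact (round_le (θ i) (z i)).trans (hz i)

end

end Pool.Agent.H10.Sar
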