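import Pool.Agent.H10.Sar.Defs
set_option autoImplicit false
set_option linter.unusedSectionVars false

namespace Pool.Agent.H10.Sar

open NumberField Module Finset
open scoped Classical

noncomputable section

variable {K : Type*} [Field K] [NumberField K] {D : ℕ} (b : Basis (Fin D) ℤ (𝓞 K))

/-- norm of the image in the mixed space -/
def mn (x : 𝓞 K) : ℝ := ‖mixedEmbedding K (x : K)‖

lemma mn_nonneg (x : 𝓞 K) : 0 ≤ mn x := norm_nonneg _

include b in
lemma card_eq_finrank : D = finrank ℚ K := by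
  rw [← RingOfIntegers.rank K]
  have := Module.finrank_eq_card_basis b
  simpa using this.symm

include b in
lemma D_pos : 0 < D := by
  rw [card_eq_finrank b]
  exact finrank_pos

lemma sz_coord (x : 𝓞 K) (i : Fin D) : |((b.equivFun x i : ℤ) : ℝ)| ≤ sz b x := abs_le_nn' _ i

lemma mn_le : ∃ C : ℝ, 1 ≤ C ∧ ∀ x : 𝓞 K, mn x ≤ C * sz b x := by
  refine ⟨1 + ∑ i, mn (b i), ?_, ?_⟩
  · have : 0 ≤ ∑ i, mn (b i) := sum_nonneg (fun i _ => mn_nonneg _)
    linarith
  · intro x
    have h1 : mixedEmbedding K (x : K) = ∑ i, ((b.equivFun x i : ℤ) : ℝ) • mixedEmbedding K ((b i : 𝓞 K) : K) := by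
      have h0 : (x : K) = ∑ i, (b.equivFun x i : ℤ) • ((b i : 𝓞 K) : K) := by
        conv_lhs => rw [← b.sum_equivFun x]
        rw [RingOfIntegers.coe_eq_algebraMap, map_sum]
        refine sum_congr rfl (fun i _ => ?_)
        rw [map_zsmul]
      conv_lhs => rw [h0]
      rw [map_sum]
      refine sum_congr rfl (fun i _ => ?_)
      rw [map_zsmul, Int.cast_smul_eq_zsmul]
    unfold mn
    rw [h1]
    refine (norm_sum_le _ _).trans ?_
    calc ∑ i, ‖((b.equivFun x i : ℤ) : ℝ) • mixedEmbedding K ((b i : 𝓞 K) : K)‖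
        ≤ ∑ i, (sz b x : ℝ) * mn (b i) := by
          apply sum_le_sum
          intro i _
          rw [norm_smul, Real.norm_eq_abs]
          exact mul_le_mul_of_nonneg_right (sz_coord b x i) (norm_nonneg _)
      _ = (∑ i, mn (b i)) * sz b x := by rw [← mul_sum]; ring
      _ ≤ (1 + ∑ i, mn (b i)) * sz b x := by
          apply mul_le_mul_of_nonneg_right _ (Nat.cast_nonneg _)
          linarith

lemma sz_le : ∃ C : ℝ, 1 ≤ C ∧ ∀ x : 𝓞 K, (sz b x : ℝ) ≤ C * mn x := by
  classical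
  -- coordinates in the standard basis
  let L := mixedEmbedding.latticeBasis K
  obtain ⟨C0, hC0⟩ : ∃ C0 : ℝ, ∀ v : mixedEmbedding.mixedSpace K, ∀ i, |L.repr v i| ≤ C0 * ‖v‖ := by
    have hf : ∀ i, ∃ C : ℝ, ∀ v : mixedEmbedding.mixedSpace K, |L.repr v i| ≤ C * ‖v‖ := by
      intro i
      let f : mixedEmbedding.mixedSpace K →ₗ[ℝ] ℝ := L.coord i
      let g := LinearMap.toContinuousLinearMap f
      refine ⟨‖g‖, fun v => ?_⟩
      have := g.le_opNorm v
      rw [Real.norm_eq_abs] at this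
      exact this
    choose C hC using hf
    refine ⟨∑ i, |C i|, fun v i => (hC i v).trans ?_⟩
    apply mul_le_mul_of_nonneg_right _ (norm_nonneg _)
    exact (le_abs_self _).trans (single_le_sum (f := fun i => |C i|) (fun i _ => abs_nonneg _) (mem_univ i))
  set B := RingOfIntegers.basis K with hB
  have hrepr : ∀ x : 𝓞 K, ∀ i, L.repr (mixedEmbedding K (x : K)) i = ((B.repr x i : ℤ) : ℝ) := by
    intro x i
    rw [mixedEmbedding.latticeBasis_repr_apply, integralBasis_repr_apply]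
    simp [hB]
  set M : ℝ := ∑ i, (sz b (B i) : ℝ) with hM
  have hM0 : 0 ≤ M := sum_nonneg (fun i _ => Nat.cast_nonneg _)
  have hC00 : 0 ≤ |C0| := abs_nonneg _
  refine ⟨1 + |C0| * M, by nlinarith [mul_nonneg hC00 hM0], ?_⟩
  intro x
  have h1 : b.equivFun x = ∑ i, (B.repr x i) • b.equivFun (B i) := by
    conv_lhs => rw [← B.sum_repr x]
    rw [map_sum]
    refine sum_congr rfl (fun i _ => ?_)
    rw [map_zsmul]
  have h2 : (sz b x : ℝ) ≤ ∑ i, |((B.repr x i : ℤ) : ℝ)| * (sz b (B i) : ℝ) := by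
    unfold sz
    rw [h1]
    have h3 := nn_sum_le univ (fun i => (B.repr x i) • b.equivFun (B i))
    have h4 : ((nn (∑ i, (B.repr x i) • b.equivFun (B i)) : ℕ) : ℝ)
        ≤ ((∑ i, nn ((B.repr x i) • b.equivFun (B i)) : ℕ) : ℝ) := by exact_mod_cast h3
    refine h4.trans ?_
    push_cast
    apply le_of_eq
    refine sum_congr rfl (fun i _ => ?_)
    rw [nn_zsmul]
    push_cast
    rw [Nat.cast_natAbs]
    push_cast
    rfl
  refine h2.trans ?_
  have h5 : ∀ i, |((B.repr x i : ℤ) : ℝ)| ≤ |C0| * mn x := by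
    intro i
    rw [← hrepr]
    refine (hC0 _ i).trans ?_
    exact mul_le_mul_of_nonneg_right (le_abs_self _) (norm_nonneg _)
  calc ∑ i, |((B.repr x i : ℤ) : ℝ)| * (sz b (B i) : ℝ)
      ≤ ∑ i, (|C0| * mn x) * (sz b (B i) : ℝ) := by
        apply sum_le_sum
        intro i _
        exact mul_le_mul_of_nonneg_right (h5 i) (Nat.cast_nonneg _)
    _ = |C0| * M * mn x := by rw [← mul_sum]; ring
    _ ≤ (1 + |C0| * M) * mn x := by
        apply mul_le_mul_of_nonneg_right _ (mn_nonneg _)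
        linarith

lemma mn_mul (x y : 𝓞 K) : mn (x * y) ≤ mn x * mn y := by
  unfold mn
  have h : ((x * y : 𝓞 K) : K) = (x : K) * (y : K) := map_mul (algebraMap (𝓞 K) K) x y
  rw [h, map_mul]
  exact norm_mul_le _ _

lemma place_le_mn (x : 𝓞 K) (w : InfinitePlace K) : w (x : K) ≤ mn x := by
  unfold mn
  rw [mixedEmbedding.norm_eq_sup'_normAtPlace, ← mixedEmbedding.normAtPlace_apply]
  exact Finset.le_sup' (fun w => mixedEmbedding.normAtPlace w (mixedEmbedding K (x : K))) (mem_univ w)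

lemma exists_place (x : 𝓞 K) : ∃ w : InfinitePlace K, w (x : K) = mn x := by
  unfold mn
  rw [mixedEmbedding.norm_eq_sup'_normAtPlace]
  obtain ⟨w, _, hw⟩ := Finset.exists_mem_eq_sup' (univ_nonempty (α := InfinitePlace K))
    (fun w => mixedEmbedding.normAtPlace w (mixedEmbedding K (x : K)))
  refine ⟨w, ?_⟩
  rw [hw, mixedEmbedding.normAtPlace_apply]

lemma abs_norm_eq (x : 𝓞 K) : ((Algebra.norm ℤ x).natAbs : ℝ) = ∏ w : InfinitePlace K, w (x : K) ^ w.mult := by
  rw [InfinitePlace.prod_eq_abs_norm, ← Algebra.coe_norm_int]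
  rw [Nat.cast_natAbs]
  push_cast
  rfl

include b in
lemma norm_le_mn (x : 𝓞 K) : ((Algebra.norm ℤ x).natAbs : ℝ) ≤ mn x ^ D := by
  rw [abs_norm_eq, card_eq_finrank b, ← InfinitePlace.sum_mult_eq, ← prod_pow_eq_pow_sum]
  apply prod_le_prod
  · intro w _
    positivity
  · intro w _
    exact pow_le_pow_left₀ (apply_nonneg _ _) (place_le_mn x w) _

include b in
/-- the cofactor -/
lemma exists_cofactor {x : 𝓞 K} : ∃ y : 𝓞 K, x * y = ((Algebra.norm ℤ x : ℤ) : 𝓞 K) ∧
    mn y * mn x ≤ mn x ^ D := by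
  by_cases hx : x = 0
  · subst hx
    refine ⟨0, ?_, ?_⟩
    · rw [zero_mul, Algebra.norm_zero]
      simp
    · have hD := D_pos b
      unfold mn
      simp
  have h1 : x ∣ ((Algebra.norm ℤ x : ℤ) : 𝓞 K) := by
    have := Ideal.absNorm_mem (Ideal.span {x})
    rw [Ideal.absNorm_span_singleton, Ideal.mem_span_singleton] at this
    rcases Int.natAbs_eq (Algebra.norm ℤ x) with h | h
    · rw [h, Int.cast_natCast]
      exact this
    · rw [h, Int.cast_neg, Int.cast_natCast, dvd_neg]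
      exact this
  obtain ⟨y, hy⟩ := h1
  refine ⟨y, hy.symm, ?_⟩
  have hN : Algebra.norm ℤ x ≠ 0 := Algebra.norm_ne_zero_iff.mpr hx
  have hxK : (x : K) ≠ 0 := RingOfIntegers.coe_ne_zero_iff.mpr hx
  obtain ⟨w, hw⟩ := exists_place y
  -- w x * w y = |N x|
  have h2 : w (x : K) * w (y : K) = ((Algebra.norm ℤ x).natAbs : ℝ) := by
    rw [← map_mul, ← map_mul, ← hy]
    rw [map_intCast]
    have : w ((Algebra.norm ℤ x : ℤ) : K) = |((Algebra.norm ℤ x : ℤ) : ℝ)| := by
      rw [← InfinitePlace.norm_embedding_eq, map_intCast]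
      exact Complex.norm_intCast _
    rw [this, Nat.cast_natAbs]
    push_cast
    rfl
  have h3 : ((Algebra.norm ℤ x).natAbs : ℝ) ≤ w (x : K) * mn x ^ (D - 1) := by
    rw [abs_norm_eq, ← mul_prod_erase univ _ (mem_univ w)]
    have hmult : w.mult = (w.mult - 1) + 1 := by
      have := w.mult_pos
      omega
    have h4 : w (x : K) ^ w.mult = w (x : K) * w (x : K) ^ (w.mult - 1) := by
      conv_lhs => rw [hmult, pow_succ']
    rw [h4, mul_assoc]
    apply mul_le_mul_of_nonneg_left _ (apply_nonneg _ _)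
    have h5 : w (x : K) ^ (w.mult - 1) ≤ mn x ^ (w.mult - 1) :=
      pow_le_pow_left₀ (apply_nonneg _ _) (place_le_mn x w) _
    have h6 : ∏ v ∈ univ.erase w, v (x : K) ^ v.mult ≤ ∏ v ∈ univ.erase w, mn x ^ v.mult := by
      apply prod_le_prod
      · intro v _
        positivity
      · intro v _
        exact pow_le_pow_left₀ (apply_nonneg _ _) (place_le_mn x v) _
    calc w (x : K) ^ (w.mult - 1) * ∏ v ∈ univ.erase w, v (x : K) ^ v.mult
        ≤ mn x ^ (w.mult - 1) * ∏ v ∈ univ.erase w, mn x ^ v.mult :=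
          mul_le_mul h5 h6 (by positivity) (pow_nonneg (mn_nonneg _) _)
      _ = mn x ^ (D - 1) := by
          rw [prod_pow_eq_pow_sum, ← pow_add]
          congr 1
          have h7 : ∑ v : InfinitePlace K, v.mult = D := by
            rw [InfinitePlace.sum_mult_eq, ← card_eq_finrank b]
          rw [← Finset.add_sum_erase univ _ (mem_univ w)] at h7
          have := w.mult_pos
          omega
  have hwx : 0 < w (x : K) := InfinitePlace.pos_iff.mpr hxK
  have h8 : w (y : K) ≤ mn x ^ (D - 1) := by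
    rw [← h2] at h3
    exact le_of_mul_le_mul_left h3 hwx
  rw [← hw]
  calc w (y : K) * mn x ≤ mn x ^ (D - 1) * mn x := mul_le_mul_of_nonneg_right h8 (mn_nonneg _)
    _ = mn x ^ D := by
        rw [← pow_succ]
        congr 1
        have := D_pos b
        omega

/-- geometric constants -/
structure GeoC (C : ℕ) : Prop where
  one_le : 1 ≤ C
  mul : ∀ x y : 𝓞 K, sz b (x * y) ≤ C * sz b x * sz b y
  norm : ∀ x : 𝓞 K, (Algebra.norm ℤ x).natAbs ≤ C * sz b x ^ D
  cof : ∀ x : 𝓞 K, ∃ y : 𝓞 K, x * y = ((Algebra.norm ℤ x : ℤ) : 𝓞 K) ∧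
    sz b y ≤ C * sz b x ^ (D - 1)

lemma mn_pos {x : 𝓞 K} (hx : x ≠ 0) : 0 < mn x := by
  unfold mn
  rw [norm_pos_iff]
  intro h
  rw [map_eq_zero_iff _ (mixedEmbedding_injective K)] at h
  exact hx (RingOfIntegers.coe_eq_zero_iff.mp h)

lemma exists_geoC : ∃ C : ℕ, GeoC b C := by
  obtain ⟨C1, hC1, h1⟩ := mn_le b
  obtain ⟨C2, hC2, h2⟩ := sz_le b
  have hD := D_pos b
  set B : ℝ := C2 * (C1 + 1) ^ (2 * D) with hB
  have hC1' : (1 : ℝ) ≤ C1 + 1 := by linarith
  have hpow : ∀ j, (1 : ℝ) ≤ (C1 + 1) ^ j := fun j => one_le_pow₀ hC1'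
  have hB1 : 1 ≤ B := by
    have := hpow (2 * D)
    nlinarith
  refine ⟨⌈B⌉₊, ?_, ?_, ?_, ?_⟩
  · exact Nat.one_le_ceil_iff.mpr (by linarith)
  · intro x y
    have h3 : (sz b (x * y) : ℝ) ≤ B * sz b x * sz b y := by
      calc (sz b (x * y) : ℝ) ≤ C2 * mn (x * y) := h2 _
        _ ≤ C2 * (mn x * mn y) := mul_le_mul_of_nonneg_left (mn_mul x y) (by linarith)
        _ ≤ C2 * ((C1 * sz b x) * (C1 * sz b y)) := by
            apply mul_le_mul_of_nonneg_left _ (by linarith)
            exact mul_le_mul (h1 x) (h1 y) (mn_nonneg _) (by positivity)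
        _ = C2 * C1 ^ 2 * (sz b x * sz b y) := by ring
        _ ≤ B * (sz b x * sz b y) := by
            apply mul_le_mul_of_nonneg_right _ (by positivity)
            rw [hB]
            apply mul_le_mul_of_nonneg_left _ (by linarith)
            calc C1 ^ 2 ≤ (C1 + 1) ^ 2 := pow_le_pow_left₀ (by linarith) (by linarith) 2
              _ ≤ (C1 + 1) ^ (2 * D) := pow_le_pow_right₀ hC1' (by omega)
        _ = B * sz b x * sz b y := by ring
    have h4 : (sz b (x * y) : ℝ) ≤ (⌈B⌉₊ : ℝ) * sz b x * sz b y := by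
      refine h3.trans ?_
      have := Nat.le_ceil B
      gcongr
    exact_mod_cast h4
  · intro x
    have h3 : ((Algebra.norm ℤ x).natAbs : ℝ) ≤ B * (sz b x : ℝ) ^ D := by
      refine (norm_le_mn b x).trans ?_
      calc mn x ^ D ≤ (C1 * sz b x) ^ D := pow_le_pow_left₀ (mn_nonneg _) (h1 x) D
        _ = C1 ^ D * (sz b x : ℝ) ^ D := by rw [mul_pow]
        _ ≤ B * (sz b x : ℝ) ^ D := by
            apply mul_le_mul_of_nonneg_right _ (by positivity)
            rw [hB]
            calc C1 ^ D ≤ (C1 + 1) ^ D := pow_le_pow_left₀ (by linarith) (by linarith) D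
              _ ≤ (C1 + 1) ^ (2 * D) := pow_le_pow_right₀ hC1' (by omega)
              _ ≤ C2 * (C1 + 1) ^ (2 * D) := le_mul_of_one_le_left (by positivity) hC2
    have h4 : ((Algebra.norm ℤ x).natAbs : ℝ) ≤ (⌈B⌉₊ : ℝ) * (sz b x : ℝ) ^ D := by
      refine h3.trans ?_
      have := Nat.le_ceil B
      gcongr
    exact_mod_cast h4
  · intro x
    obtain ⟨y, hy, hyx⟩ := exists_cofactor b (x := x)
    by_cases hx : x = 0
    · subst hx
      refine ⟨0, ?_, ?_⟩
      · rw [zero_mul, Algebra.norm_zero]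
        simp
      · unfold sz
        simp
    refine ⟨y, hy, ?_⟩
    have hmx := mn_pos hx
    have h3 : mn y ≤ mn x ^ (D - 1) := by
      have h5 : mn x ^ D = mn x ^ (D - 1) * mn x := by
        rw [← pow_succ]
        congr 1
        omega
      rw [h5] at hyx
      exact le_of_mul_le_mul_right hyx hmx
    have h4 : (sz b y : ℝ) ≤ B * (sz b x : ℝ) ^ (D - 1) := by
      calc (sz b y : ℝ) ≤ C2 * mn y := h2 _
        _ ≤ C2 * mn x ^ (D - 1) := mul_le_mul_of_nonneg_left h3 (by linarith)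
        _ ≤ C2 * (C1 * sz b x) ^ (D - 1) := by
            apply mul_le_mul_of_nonneg_left _ (by linarith)
            exact pow_le_pow_left₀ (mn_nonneg _) (h1 x) _
        _ = C2 * C1 ^ (D - 1) * (sz b x : ℝ) ^ (D - 1) := by rw [mul_pow]; ring
        _ ≤ B * (sz b x : ℝ) ^ (D - 1) := by
            apply mul_le_mul_of_nonneg_right _ (by positivity)
            rw [hB]
            apply mul_le_mul_of_nonneg_left _ (by linarith)
            calc C1 ^ (D - 1) ≤ (C1 + 1) ^ (D - 1) := pow_le_pow_left₀ (by linarith) (by linarith) _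
              _ ≤ (C1 + 1) ^ (2 * D) := pow_le_pow_right₀ hC1' (by omega)
    have h5 : (sz b y : ℝ) ≤ (⌈B⌉₊ : ℝ) * (sz b x : ℝ) ^ (D - 1) := by
      refine h4.trans ?_
      have := Nat.le_ceil B
      gcongr
    exact_mod_cast h5

variable {b}

lemma sz_symm (n : Fin D → ℤ) : sz b (b.equivFun.symm n) = nn n := by
  unfold sz
  rw [LinearEquiv.apply_symm_apply]

lemma nn_act_eq (α : 𝓞 K) (n : Fin D → ℤ) : nn (act b α n) = sz b (α * b.equivFun.symm n) := rfl

lemma GeoC.act_le {C : ℕ} (h : GeoC b C) (α : 𝓞 K) (n : Fin D → ℤ) :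
    nn (act b α n) ≤ C * sz b α * nn n := by
  rw [nn_act_eq, ← sz_symm (b := b) n]
  exact h.mul _ _

lemma sz_zero : sz b 0 = 0 := by
  unfold sz
  simp

lemma sz_eq_zero {x : 𝓞 K} : sz b x = 0 ↔ x = 0 := by
  unfold sz
  rw [nn_eq_zero, map_eq_zero_iff _ b.equivFun.injective]

lemma sz_pos {x : 𝓞 K} (hx : x ≠ 0) : 0 < sz b x :=
  Nat.pos_of_ne_zero (fun h => hx (sz_eq_zero.mp h))

lemma sz_sub_le (x y : 𝓞 K) : sz b (x - y) ≤ sz b x + sz b y := by
  unfold sz
  rw [map_sub]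
  exact nn_sub_le _ _

lemma sz_add_le (x y : 𝓞 K) : sz b (x + y) ≤ sz b x + sz b y := by
  unfold sz
  rw [map_add]
  exact nn_add_le _ _

/-- lower bound for the action: `|N α| |n| ≤ C |α|^(D-1) |α n|` -/
lemma GeoC.act_ge {C : ℕ} (h : GeoC b C) (α : 𝓞 K) (n : Fin D → ℤ) :
    (Algebra.norm ℤ α).natAbs * nn n ≤ C ^ 2 * sz b α ^ (D - 1) * nn (act b α n) := by
  obtain ⟨y, hy, hyx⟩ := h.cof α
  have h1 : act b y (act b α n) = (Algebra.norm ℤ α) • n := by
    rw [act_act, mul_comm, hy, act_intCast]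
  have h2 : (Algebra.norm ℤ α).natAbs * nn n = nn (act b y (act b α n)) := by
    rw [h1, nn_zsmul]
  rw [h2]
  refine (h.act_le y _).trans ?_
  calc C * sz b y * nn (act b α n) ≤ C * (C * sz b α ^ (D - 1)) * nn (act b α n) := by gcongr
    _ = _ := by ring

end

end Pool.Agent.H10.Sar
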