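import Pool.Agent.H10.Sar.Box
set_option autoImplicit false
set_option linter.unusedSectionVars false

namespace Pool.Agent.H10.Sar

open NumberField Module Finset
open scoped Classical

noncomputable section

/-- weak type inequality for one-sided cubes (Vitali covering) -/
lemma hl_weak {D : ℕ} (f : (Fin D → ℤ) → ℝ) (T : Finset (Fin D → ℤ))
    (hf0 : ∀ n, 0 ≤ f n) (hfT : ∀ n, n ∉ T → f n = 0)
    (t : Finset (Fin D → ℤ)) (R : (Fin D → ℤ) → ℕ) (hR : ∀ y, 1 ≤ R y) (lam : ℝ)
    (h : ∀ y ∈ t, lam * (R y : ℝ) ^ D ≤ ∑ z ∈ bx D (R y), f (y + z)) (hl : 0 ≤ lam) :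
    lam * t.card ≤ 3 ^ D * ∑ n ∈ T, f n := by
  set C : (Fin D → ℤ) → Finset (Fin D → ℤ) := fun b => (bx D (R b)).image (fun z => b + z) with hC
  have hmem : ∀ b n, n ∈ C b ↔ ∀ i, b i ≤ n i ∧ n i < b i + R b := by
    intro b n
    simp only [hC, mem_image, mem_bx]
    constructor
    · rintro ⟨z, hz, rfl⟩ i
      have := hz i
      simp only [Pi.add_apply]
      constructor <;> linarith [this.1, this.2]
    · intro hn
      refine ⟨n - b, fun i => ?_, by simp⟩
      have := hn i
      simp only [Pi.sub_apply]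
      constructor <;> linarith [this.1, this.2]
  obtain ⟨u, hut, hdisj, hcov⟩ := Vitali.exists_disjoint_subfamily_covering_enlargement
    (fun b => ((C b : Finset (Fin D → ℤ)) : Set (Fin D → ℤ))) (t : Set (Fin D → ℤ))
    (fun b => (R b : ℝ)) 2 (by norm_num) (fun _ _ => Nat.cast_nonneg _)
    ((t.sup R : ℕ) : ℝ) (fun a ha => by exact_mod_cast Finset.le_sup (f := R) ha)
    (fun a _ => ⟨a, by
      rw [Finset.mem_coe, hmem]
      intro i
      have := hR a
      omega⟩)
  set U : Finset (Fin D → ℤ) := t.filter (· ∈ u) with hU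
  have hUu : ∀ b, b ∈ U ↔ b ∈ u := by
    intro b
    rw [hU, mem_filter]
    exact ⟨fun h => h.2, fun h => ⟨hut h, h⟩⟩
  -- the enlarged boxes cover
  have hcov2 : t ⊆ U.biUnion (fun b => Fintype.piFinset
      (fun i => Finset.Ioo (b i - 2 * R b) (b i + R b))) := by
    intro a ha
    obtain ⟨b, hb, ⟨n, hna, hnb⟩, hab⟩ := hcov a ha
    rw [mem_biUnion]
    refine ⟨b, (hUu b).mpr hb, ?_⟩
    rw [Fintype.mem_piFinset]
    intro i
    rw [mem_Ioo]
    rw [Finset.mem_coe, hmem] at hna hnb
    have h1 := hna i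
    have h2 := hnb i
    have h3 : (R a : ℤ) ≤ 2 * R b := by
      have : (R a : ℝ) ≤ 2 * R b := hab
      exact_mod_cast this
    constructor <;> linarith [h1.1, h1.2, h2.1, h2.2]
  have hcard : (t.card : ℝ) ≤ ∑ b ∈ U, 3 ^ D * (R b : ℝ) ^ D := by
    have h1 := (Finset.card_le_card hcov2).trans Finset.card_biUnion_le
    calc (t.card : ℝ) ≤ ((∑ b ∈ U, (Fintype.piFinset
          (fun i => Finset.Ioo (b i - 2 * R b) (b i + R b))).card : ℕ) : ℝ) := by exact_mod_cast h1
      _ = ∑ b ∈ U, ((Fintype.piFinset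
          (fun i => Finset.Ioo (b i - 2 * R b) (b i + R b))).card : ℝ) := by push_cast; rfl
      _ ≤ ∑ b ∈ U, 3 ^ D * (R b : ℝ) ^ D := by
          apply sum_le_sum
          intro b _
          rw [Fintype.card_piFinset]
          have h2 : ∀ i, (Finset.Ioo (b i - 2 * R b) (b i + R b)).card = 3 * R b - 1 := by
            intro i
            rw [Int.card_Ioo]
            omega
          simp only [h2, prod_const, card_univ, Fintype.card_fin]
          rw [← mul_pow]
          have h3 : (3 * R b - 1 : ℕ) ≤ 3 * R b := Nat.sub_le _ _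
          have h4 : ((3 * R b - 1 : ℕ) : ℝ) ≤ 3 * R b := by exact_mod_cast h3
          push_cast
          exact pow_le_pow_left₀ (Nat.cast_nonneg _) h4 D
  have hsumC : ∀ b, ∑ z ∈ bx D (R b), f (b + z) = ∑ n ∈ C b, f n := by
    intro b
    rw [hC, sum_image]
    intro x _ y _ hxy
    exact add_left_cancel hxy
  have hpd : (U : Set (Fin D → ℤ)).PairwiseDisjoint C := by
    intro a ha b hb hab
    have := hdisj ((hUu a).mp ha) ((hUu b).mp hb) hab
    exact Finset.disjoint_coe.mp this
  calc lam * t.card ≤ lam * ∑ b ∈ U, 3 ^ D * (R b : ℝ) ^ D :=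
        mul_le_mul_of_nonneg_left hcard hl
    _ = 3 ^ D * ∑ b ∈ U, lam * (R b : ℝ) ^ D := by
        rw [mul_sum, mul_sum]
        exact sum_congr rfl fun b _ => by ring
    _ ≤ 3 ^ D * ∑ b ∈ U, ∑ n ∈ C b, f n := by
        apply mul_le_mul_of_nonneg_left _ (by positivity)
        apply sum_le_sum
        intro b hb
        rw [← hsumC]
        exact h b (mem_filter.mp hb).1
    _ = 3 ^ D * ∑ n ∈ U.biUnion C, f n := by rw [sum_biUnion hpd]
    _ ≤ 3 ^ D * ∑ n ∈ T, f n := by
        apply mul_le_mul_of_nonneg_left _ (by positivity)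
        calc ∑ n ∈ U.biUnion C, f n = ∑ n ∈ (U.biUnion C).filter (· ∈ T), f n := by
              rw [sum_filter]
              refine sum_congr rfl fun n _ => ?_
              split_ifs with hn
              · rfl
              · exact hfT n hn
          _ ≤ ∑ n ∈ T, f n := by
              apply sum_le_sum_of_subset_of_nonneg
              · intro n hn
                exact (mem_filter.mp hn).2
              · intro n _ _
                exact hf0 n

lemma ii_ite (a x y : ℝ) (g : ℝ → ℝ) (hg : Continuous g) :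
    IntervalIntegrable (fun l => if l < a then g l else 0) MeasureTheory.volume x y := by
  have h := hg.intervalIntegrable (μ := MeasureTheory.volume) x y
  rw [intervalIntegrable_iff] at h ⊢
  have h2 := h.indicator (measurableSet_Iio (a := a))
  refine h2.congr (Filter.Eventually.of_forall fun l => ?_)
  rw [Set.indicator_apply]
  rfl

lemma layer0 (a Λ : ℝ) (g : ℝ → ℝ) (hg : Continuous g) (h0 : 0 ≤ a) (h1 : a ≤ Λ) :
    ∫ l in (0 : ℝ)..Λ, (if l < a then g l else 0) = ∫ l in (0 : ℝ)..a, g l := by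
  rw [← intervalIntegral.integral_add_adjacent_intervals (b := a) (ii_ite a _ _ g hg)
    (ii_ite a _ _ g hg)]
  have e1 : ∫ l in (0 : ℝ)..a, (if l < a then g l else 0) = ∫ l in (0 : ℝ)..a, g l := by
    apply intervalIntegral.integral_congr_ae
    have : ∀ᵐ l ∂(MeasureTheory.volume : MeasureTheory.Measure ℝ), l ≠ a := by
      rw [MeasureTheory.ae_iff]
      simp
    filter_upwards [this] with l hl hl2
    rw [Set.uIoc_of_le h0, Set.mem_Ioc] at hl2
    rw [if_pos (lt_of_le_of_ne hl2.2 hl)]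
  have e2 : ∫ l in a..Λ, (if l < a then g l else 0) = ∫ _l in a..Λ, (0 : ℝ) := by
    apply intervalIntegral.integral_congr
    intro l hl
    rw [Set.uIcc_of_le h1, Set.mem_Icc] at hl
    simp only
    rw [if_neg (not_lt.mpr hl.1)]
  rw [e1, e2, intervalIntegral.integral_zero, add_zero]

/-- Hardy-Littlewood maximal inequality on `ℤ^D` for one-sided cubes, linearised -/
theorem hl_max (D : ℕ) : ∃ C : ℝ, 0 ≤ C ∧ ∀ (f : (Fin D → ℤ) → ℝ) (T : Finset (Fin D → ℤ)),
    (∀ n, 0 ≤ f n) → (∀ n, n ∉ T → f n = 0) →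
    ∀ (Y : Finset (Fin D → ℤ)) (R : (Fin D → ℤ) → ℕ), (∀ y, 1 ≤ R y) →
    ∑ y ∈ Y, ((∑ z ∈ bx D (R y), f (y + z)) / (R y : ℝ) ^ D) ^ 2 ≤ C * ∑ n ∈ T, f n ^ 2 := by
  refine ⟨8 * 3 ^ D, by positivity, ?_⟩
  intro f T hf0 hfT Y R hR
  set g : (Fin D → ℤ) → ℝ := fun y => (∑ z ∈ bx D (R y), f (y + z)) / (R y : ℝ) ^ D with hg
  have hg0 : ∀ y, 0 ≤ g y := fun y =>
    div_nonneg (sum_nonneg fun z _ => hf0 _) (by positivity)
  obtain ⟨Λ, hΛ1, hΛ2⟩ : ∃ Λ : ℝ, (∀ y ∈ Y, g y ≤ Λ) ∧ (∀ n ∈ T, 2 * f n ≤ Λ) := by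
    refine ⟨∑ y ∈ Y, g y + ∑ n ∈ T, 2 * f n, fun y hy => ?_, fun n hn => ?_⟩
    · have h1 := Finset.single_le_sum (f := g) (fun i _ => hg0 i) hy
      have h2 : 0 ≤ ∑ n ∈ T, 2 * f n := sum_nonneg fun i _ => by have := hf0 i; linarith
      linarith
    · have h1 := Finset.single_le_sum (f := fun n => 2 * f n)
        (fun i _ => by have := hf0 i; linarith) hn
      have h2 : 0 ≤ ∑ y ∈ Y, g y := sum_nonneg fun i _ => hg0 i
      linarith
  -- the level sets
  have hlevel : ∀ l : ℝ, 0 ≤ l → (∑ y ∈ Y, if l < g y then 2 * l else 0) ≤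
      4 * 3 ^ D * ∑ n ∈ T, f n * (if l < 2 * f n then 1 else 0) := by
    intro l hl
    set f' : (Fin D → ℤ) → ℝ := fun n => if l < 2 * f n then f n else 0 with hf'
    have h1 := hl_weak f' T (fun n => by simp only [hf']; split_ifs; exacts [hf0 n, le_rfl])
      (fun n hn => by simp only [hf']; rw [hfT n hn]; simp) (Y.filter (fun y => l < g y)) R hR
      (l / 2) (fun y hy => ?_) (by linarith)
    · rw [← sum_filter, sum_const, nsmul_eq_mul]
      have h2 : ∑ n ∈ T, f n * (if l < 2 * f n then (1 : ℝ) else 0) = ∑ n ∈ T, f' n := by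
        refine sum_congr rfl fun n _ => ?_
        simp only [hf']
        split_ifs <;> ring
      rw [h2]
      linarith
    · have hy2 := (mem_filter.mp hy).2
      have hRpos : (0 : ℝ) < (R y : ℝ) ^ D := by
        have : (0 : ℝ) < R y := by exact_mod_cast hR y
        positivity
      have h3 : l * (R y : ℝ) ^ D < ∑ z ∈ bx D (R y), f (y + z) := by
        simp only [hg] at hy2
        rwa [lt_div_iff₀ hRpos] at hy2
      have h4 : ∑ z ∈ bx D (R y), f (y + z) ≤ ∑ z ∈ bx D (R y), (l / 2 + f' (y + z)) := by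
        apply sum_le_sum
        intro z _
        simp only [hf']
        split_ifs with h5
        · linarith
        · linarith
      rw [sum_add_distrib, sum_const, card_bx, nsmul_eq_mul] at h4
      push_cast at h4
      linarith
  -- integrate over the level
  have hI1 : ∑ y ∈ Y, g y ^ 2 = ∫ l in (0 : ℝ)..Λ, ∑ y ∈ Y, (if l < g y then 2 * l else 0) := by
    rw [intervalIntegral.integral_finsetSum (fun y _ => ii_ite _ _ _ _ (by fun_prop))]
    refine sum_congr rfl fun y hy => ?_
    rw [layer0 _ _ (fun l => 2 * l) (by fun_prop) (hg0 y) (hΛ1 y hy),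
      intervalIntegral.integral_const_mul, integral_id]
    ring
  have hI2 : ∑ n ∈ T, 2 * f n ^ 2 =
      ∫ l in (0 : ℝ)..Λ, ∑ n ∈ T, f n * (if l < 2 * f n then 1 else 0) := by
    rw [intervalIntegral.integral_finsetSum
      (fun n _ => (ii_ite _ _ _ _ (by fun_prop)).const_mul _)]
    refine sum_congr rfl fun n hn => ?_
    rw [intervalIntegral.integral_const_mul,
      layer0 _ _ (fun _ => (1 : ℝ)) (by fun_prop) (by have := hf0 n; linarith) (hΛ2 n hn)]
    simp
    ring
  have hΛ0 : Y.Nonempty → 0 ≤ Λ := fun ⟨y, hy⟩ => (hg0 y).trans (hΛ1 y hy)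
  rcases Y.eq_empty_or_nonempty with hY | hY
  · rw [hY, sum_empty]
    have : 0 ≤ ∑ n ∈ T, f n ^ 2 := sum_nonneg fun n _ => sq_nonneg _
    positivity
  · rw [hI1]
    have q1 : IntervalIntegrable (fun l : ℝ => ∑ y ∈ Y, (if l < g y then 2 * l else 0))
        MeasureTheory.volume 0 Λ := by
      have := IntervalIntegrable.sum Y (f := fun y l => if l < g y then 2 * l else 0)
        (fun y _ => ii_ite (g y) 0 Λ (fun l => 2 * l) (by fun_prop))
      have e : (fun l : ℝ => ∑ y ∈ Y, (if l < g y then 2 * l else 0)) =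
          ∑ y ∈ Y, fun l : ℝ => (if l < g y then 2 * l else 0) := by
        funext l
        rw [Finset.sum_apply]
      rw [e]
      exact this
    have q2 : IntervalIntegrable
        (fun l : ℝ => ∑ n ∈ T, f n * (if l < 2 * f n then (1 : ℝ) else 0))
        MeasureTheory.volume 0 Λ := by
      have := IntervalIntegrable.sum T
        (f := fun n l => f n * (if l < 2 * f n then (1 : ℝ) else 0))
        (fun n _ => (ii_ite (2 * f n) 0 Λ (fun _ => 1) (by fun_prop)).const_mul (f n))
      have e : (fun l : ℝ => ∑ n ∈ T, f n * (if l < 2 * f n then (1 : ℝ) else 0)) =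
          ∑ n ∈ T, fun l : ℝ => f n * (if l < 2 * f n then (1 : ℝ) else 0) := by
        funext l
        rw [Finset.sum_apply]
      rw [e]
      exact this
    calc ∫ l in (0 : ℝ)..Λ, ∑ y ∈ Y, (if l < g y then 2 * l else 0)
        ≤ ∫ l in (0 : ℝ)..Λ, 4 * 3 ^ D * ∑ n ∈ T, f n * (if l < 2 * f n then 1 else 0) := by
          apply intervalIntegral.integral_mono_on (hΛ0 hY)
          · exact q1
          · exact q2.const_mul _
          · intro l hl
            exact hlevel l hl.1
      _ = 8 * 3 ^ D * ∑ n ∈ T, f n ^ 2 := by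
          rw [intervalIntegral.integral_const_mul, ← hI2, ← mul_sum]
          ring

end

end Pool.Agent.H10.Sar
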