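import Pool.Agent.H10.Sar.Ops
import Pool.Agent.H10.Sar.ApLip
set_option autoImplicit false
set_option linter.unusedSectionVars false

namespace Pool.Agent.H10.Sar

open NumberField Module Finset
open scoped Classical

noncomputable section

/-- one frequency: rewriting the average of a modulated local Fourier coefficient -/
lemma Aop_term {D : ℕ} (X : (Fin D → ℤ) → ℂ) (H h : ℕ) (W : (Fin D → ℤ) → ℝ)
    (F : (Fin D → ℤ) → ℂ) (e : ℕ × (Fin D → ℤ)) (y : Fin D → ℤ) :
    Aop X H W (fun x => ee (dot (vec e) x) * Gl h F e x) y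
      = (1 / (H : ℂ) ^ D) * ((1 / (h : ℂ) ^ D) * ∑ v ∈ bx D (H + h),
        (ee (-dot (vec e) v) * F (y + v)) * ∑ n ∈ bx D H with v - n ∈ bx D h,
          X n * ee (dot (vec e) n) * (W n : ℂ)) := by
  unfold Aop Gl
  congr 1
  rw [mul_sum]
  have h1 : ∀ v ∈ bx D (H + h), (1 / (h : ℂ) ^ D) * ((ee (-dot (vec e) v) * F (y + v)) *
      ∑ n ∈ bx D H with v - n ∈ bx D h, X n * ee (dot (vec e) n) * (W n : ℂ))
      = ∑ n ∈ bx D H, if v - n ∈ bx D h then (1 / (h : ℂ) ^ D) * ((ee (-dot (vec e) v) * F (y + v)) *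
        (X n * ee (dot (vec e) n) * (W n : ℂ))) else 0 := by
    intro v _
    rw [mul_sum, mul_sum, sum_filter]
  rw [sum_congr rfl h1, sum_comm]
  refine sum_congr rfl (fun n hn => ?_)
  rw [← sum_filter]
  have h2 : ∑ v ∈ (bx D (H + h)).filter (fun v => v - n ∈ bx D h),
      (1 / (h : ℂ) ^ D) * ((ee (-dot (vec e) v) * F (y + v)) * (X n * ee (dot (vec e) n) * (W n : ℂ)))
      = ∑ z ∈ bx D h, (1 / (h : ℂ) ^ D) * ((ee (-dot (vec e) (n + z)) * F (y + (n + z))) *
        (X n * ee (dot (vec e) n) * (W n : ℂ))) := by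
    symm
    apply sum_bij (fun z _ => n + z)
    · intro z hz
      rw [mem_filter]
      refine ⟨?_, by rw [add_sub_cancel_left]; exact hz⟩
      rw [mem_bx] at hn hz ⊢
      intro i
      have := hn i
      have := hz i
      simp only [Pi.add_apply]
      push_cast
      constructor <;> linarith
    · intro a _ c _ hac
      exact add_left_cancel hac
    · intro v hv
      rw [mem_filter] at hv
      exact ⟨v - n, hv.2, by abel⟩
    · intro z _
      rfl
  beta_reduce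
  rw [h2, mul_left_comm (ee (dot (vec e) (y + n))), mul_sum, mul_sum, mul_sum]
  refine sum_congr rfl (fun z _ => ?_)
  have e1 : y + n + z = y + (n + z) := by abel
  rw [e1]
  have e2 : ee (dot (vec e) (y + n)) * ee (-dot (vec e) (y + (n + z)))
      = ee (-dot (vec e) (n + z)) * ee (dot (vec e) n) := by
    rw [← ee_add, ← ee_add]
    congr 1
    simp only [dot_add]
    ring
  calc (W n : ℂ) * X n * (1 / (h : ℂ) ^ D * (ee (dot (vec e) (y + n)) *
        (ee (-dot (vec e) (y + (n + z))) * F (y + (n + z)))))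
      = (W n : ℂ) * X n * (1 / (h : ℂ) ^ D) * F (y + (n + z)) *
        (ee (dot (vec e) (y + n)) * ee (-dot (vec e) (y + (n + z)))) := by ring
    _ = _ := by rw [e2]; ring

/-- low frequencies: small for all large scales -/
theorem low_bound {D : ℕ} (X : (Fin D → ℤ) → ℂ) (hX : ∀ n, ‖X n‖ ≤ 1) (hap : Aper X)
    (L1 : ℝ) (Q : ℕ) (ε : ℝ) (hε : 0 < ε) : ∃ H0 : ℕ, ∀ H : ℕ, H0 ≤ H →
    ∀ (W : (Fin D → ℤ) → ℝ), IsWt H L1 W → ∀ h : ℕ, H ≤ h → ∀ (F : (Fin D → ℤ) → ℂ),
    (∀ n, ‖F n‖ ≤ 1) → ∀ y, ‖Aop X H W (Cop (tor D 1 Q) (fun _ => h) F) y‖ ≤ ε := by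
  set N : ℝ := ((tor D 1 Q).card : ℝ) + 1 with hN
  have hN0 : 0 < N := by positivity
  set ε' : ℝ := ε / (2 ^ D * N) with hε'
  have hε'0 : 0 < ε' := by positivity
  have hex : ∀ e : ℕ × (Fin D → ℤ), ∃ H0 : ℕ, e ∈ tor D 1 Q → ∀ H : ℕ, H0 ≤ H →
      ∀ (V : (Fin D → ℤ) → ℂ), (∀ n, ‖V n‖ ≤ 1) → (∀ m n, ‖V m - V n‖ ≤ L1 / H * nn (m - n)) →
      ∀ (a lo hi : Fin D → ℤ),
      ‖∑ n ∈ bx D H with (∀ i, lo i ≤ n i ∧ n i < hi i),
        X n * ee (dot (fun i => (a i : ℝ) / e.1) n) * V n‖ ≤ ε' * H ^ D := by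
    intro e
    by_cases he : e ∈ tor D 1 Q
    · have hq : 1 ≤ e.1 := by
        unfold tor at he
        rw [mem_filter, mem_product, mem_Ico] at he
        exact he.1.1.1
      obtain ⟨H0, h0⟩ := aper_lip X hX hap e.1 hq L1 ε' hε'0
      exact ⟨H0, fun _ => h0⟩
    · exact ⟨0, fun h => absurd h he⟩
  choose H0 hH0 using hex
  refine ⟨(tor D 1 Q).sup H0 + 1, ?_⟩
  intro H hH W hW h hh F hF y
  have hHpos : 1 ≤ H := by omega
  have hlin : Aop X H W (Cop (tor D 1 Q) (fun _ => h) F) y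
      = ∑ e ∈ tor D 1 Q, Aop X H W (fun x => ee (dot (vec e) x) * Gl h F e x) y := by
    unfold Aop Cop
    rw [← mul_sum, sum_comm]
    congr 1
    refine sum_congr rfl (fun n _ => ?_)
    rw [mul_sum]
  rw [hlin]
  refine (norm_sum_le _ _).trans ?_
  have key : ∀ e ∈ tor D 1 Q, ‖Aop X H W (fun x => ee (dot (vec e) x) * Gl h F e x) y‖
      ≤ 2 ^ D * ε' := by
    intro e he
    rw [Aop_term]
    have hHH : H0 e ≤ H := by
      have := le_sup (f := H0) he
      omega
    have h1 : ∀ v ∈ bx D (H + h), ‖(ee (-dot (vec e) v) * F (y + v)) *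
        ∑ n ∈ bx D H with v - n ∈ bx D h, X n * ee (dot (vec e) n) * (W n : ℂ)‖ ≤ ε' * H ^ D := by
      intro v _
      rw [norm_mul, norm_mul, norm_ee, one_mul]
      have h2 := hH0 e he H hHH (fun n => (W n : ℂ)) (fun n => by
          rw [Complex.norm_real, Real.norm_eq_abs, abs_of_nonneg (hW.nonneg n)]
          exact hW.le_one n) (fun m n => by
          rw [← Complex.ofReal_sub, Complex.norm_real, Real.norm_eq_abs]
          exact hW.lip m n) e.2 (fun i => v i - h + 1) (fun i => v i + 1)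
      have h3 : (bx D H).filter (fun n => v - n ∈ bx D h)
          = (bx D H).filter (fun n => ∀ i, v i - h + 1 ≤ n i ∧ n i < v i + 1) := by
        ext n
        simp only [mem_filter, mem_bx, Pi.sub_apply]
        constructor
        · rintro ⟨ha, hb⟩
          exact ⟨ha, fun i => ⟨by linarith [(hb i).2], by linarith [(hb i).1]⟩⟩
        · rintro ⟨ha, hb⟩
          exact ⟨ha, fun i => ⟨by linarith [(hb i).2], by linarith [(hb i).1]⟩⟩
      rw [h3]
      calc ‖F (y + v)‖ * _ ≤ 1 * _ := mul_le_mul_of_nonneg_right (hF _) (norm_nonneg _)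
        _ ≤ ε' * H ^ D := by
            rw [one_mul]
            exact h2
    rw [norm_mul, norm_mul, norm_div, norm_div, norm_one, norm_pow, norm_pow,
      Complex.norm_natCast, Complex.norm_natCast]
    have h4 : ‖∑ v ∈ bx D (H + h), (ee (-dot (vec e) v) * F (y + v)) *
        ∑ n ∈ bx D H with v - n ∈ bx D h, X n * ee (dot (vec e) n) * (W n : ℂ)‖
        ≤ ((H : ℝ) + h) ^ D * (ε' * H ^ D) := by
      refine (norm_sum_le _ _).trans ((sum_le_sum h1).trans ?_)
      rw [sum_const, card_bx, nsmul_eq_mul]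
      push_cast
      exact le_rfl
    have hHr : (0 : ℝ) < (H : ℝ) := by exact_mod_cast hHpos
    have hhr : (0 : ℝ) < (h : ℝ) := by exact_mod_cast (by omega : 0 < h)
    have hHh : (H : ℝ) ≤ h := by exact_mod_cast hh
    calc 1 / (H : ℝ) ^ D * (1 / (h : ℝ) ^ D * _)
        ≤ 1 / (H : ℝ) ^ D * (1 / (h : ℝ) ^ D * (((H : ℝ) + h) ^ D * (ε' * H ^ D))) := by gcongr
      _ ≤ 1 / (H : ℝ) ^ D * (1 / (h : ℝ) ^ D * ((2 * h) ^ D * (ε' * H ^ D))) := by
          have : (H : ℝ) + h ≤ 2 * h := by linarith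
          gcongr
      _ = 2 ^ D * ε' := by
          rw [mul_pow]
          field_simp
  refine (sum_le_sum key).trans ?_
  rw [sum_const, nsmul_eq_mul]
  have h5 : (((tor D 1 Q).card : ℝ)) ≤ N := by rw [hN]; linarith
  calc ((tor D 1 Q).card : ℝ) * (2 ^ D * ε') ≤ N * (2 ^ D * ε') :=
        mul_le_mul_of_nonneg_right h5 (by positivity)
    _ = ε := by
        rw [hε']
        field_simp

/-- averages of the function against characters close to a rational point of small denominator -/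
theorem low_symbol {D : ℕ} (X : (Fin D → ℤ) → ℂ) (hX : ∀ n, ‖X n‖ ≤ 1) (hap : Aper X)
    (L1 : ℝ) (Q : ℕ) (Y : ℝ) (ε : ℝ) (hε : 0 < ε) : ∃ H0 : ℕ, ∀ H : ℕ, H0 ≤ H →
    ∀ (W : (Fin D → ℤ) → ℝ), IsWt H L1 W → ∀ e ∈ tor D 1 Q, ∀ (θ β : Fin D → ℝ),
    IsInt (θ - vec e - β) → (∀ i, |β i| ≤ Y / H) →
    ‖(1 / (H : ℂ) ^ D) * ∑ n ∈ bx D H, (W n : ℂ) * X n * ee (dot θ n)‖ ≤ ε := by
  have hex : ∀ e : ℕ × (Fin D → ℤ), ∃ H0 : ℕ, e ∈ tor D 1 Q → ∀ H : ℕ, H0 ≤ H →
      ∀ (V : (Fin D → ℤ) → ℂ), (∀ n, ‖V n‖ ≤ 1) →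
      (∀ m n, ‖V m - V n‖ ≤ (L1 + 7 * D * Y) / H * nn (m - n)) →
      ∀ (a lo hi : Fin D → ℤ),
      ‖∑ n ∈ bx D H with (∀ i, lo i ≤ n i ∧ n i < hi i),
        X n * ee (dot (fun i => (a i : ℝ) / e.1) n) * V n‖ ≤ ε * H ^ D := by
    intro e
    by_cases he : e ∈ tor D 1 Q
    · have hq : 1 ≤ e.1 := by
        unfold tor at he
        rw [mem_filter, mem_product, mem_Ico] at he
        exact he.1.1.1
      obtain ⟨H0, h0⟩ := aper_lip X hX hap e.1 hq (L1 + 7 * D * Y) ε hε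
      exact ⟨H0, fun _ => h0⟩
    · exact ⟨0, fun h => absurd h he⟩
  choose H0 hH0 using hex
  refine ⟨(tor D 1 Q).sup H0 + 1, ?_⟩
  intro H hH W hW e he θ β hint hβ
  have hHH : H0 e ≤ H := by
    have := le_sup (f := H0) he
    omega
  have hHpos : (0 : ℝ) < H := by exact_mod_cast (by omega : 0 < H)
  have hW1 : ∀ n, ‖(W n : ℂ)‖ ≤ 1 := fun n => by
    rw [Complex.norm_real, Real.norm_eq_abs, abs_of_nonneg (hW.nonneg n)]
    exact hW.le_one n
  have hlip : ∀ m n : Fin D → ℤ, ‖(W m : ℂ) * ee (dot β m) - (W n : ℂ) * ee (dot β n)‖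
      ≤ (L1 + 7 * D * Y) / H * nn (m - n) := by
    intro m n
    have e1 : (W m : ℂ) * ee (dot β m) - (W n : ℂ) * ee (dot β n)
        = ((W m : ℂ) - W n) * ee (dot β m) + (W n : ℂ) * (ee (dot β m) - ee (dot β n)) := by ring
    rw [e1]
    refine (norm_add_le _ _).trans ?_
    rw [norm_mul, norm_mul, norm_ee, mul_one, ← Complex.ofReal_sub, Complex.norm_real,
      Real.norm_eq_abs]
    have h1 := hW.lip m n
    have h2 : ‖ee (dot β m) - ee (dot β n)‖ ≤ 7 * D * Y / H * nn (m - n) := by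
      have e2 : ee (dot β m) - ee (dot β n) = -(ee (dot β n) * (1 - ee (dot β (m - n)))) := by
        rw [mul_sub, mul_one, ← ee_add, dot_sub]
        rw [show dot β n + (dot β m - dot β n) = dot β m by ring]
        ring
      rw [e2, norm_neg, norm_mul, norm_ee, one_mul]
      have h3 : ‖1 - ee (dot β (m - n))‖ ≤ 7 * |dot β (m - n)| := by
        unfold ee
        have h4 := Real.norm_exp_I_mul_ofReal_sub_one_le (x := 2 * Real.pi * dot β (m - n))
        have h5 : (2 * Real.pi * (dot β (m - n) : ℂ) * Complex.I : ℂ)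
            = Complex.I * ((2 * Real.pi * dot β (m - n) : ℝ) : ℂ) := by push_cast; ring
        rw [h5, norm_sub_rev]
        refine h4.trans ?_
        rw [Real.norm_eq_abs, abs_mul, abs_mul, abs_of_pos Real.pi_pos, abs_two]
        have := Real.pi_lt_d2
        apply mul_le_mul_of_nonneg_right _ (abs_nonneg _)
        linarith
      refine h3.trans ?_
      have h6 := abs_dot_le β (m - n) hβ
      calc 7 * |dot β (m - n)| ≤ 7 * (D * (Y / H) * nn (m - n)) := by linarith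
        _ = 7 * D * Y / H * nn (m - n) := by ring
    calc |W m - W n| + ‖(W n : ℂ)‖ * ‖ee (dot β m) - ee (dot β n)‖
        ≤ L1 / H * nn (m - n) + 1 * (7 * D * Y / H * nn (m - n)) := by
          apply add_le_add h1
          exact mul_le_mul (hW1 n) h2 (norm_nonneg _) zero_le_one
      _ = _ := by ring
  have h2 := hH0 e he H hHH (fun n => (W n : ℂ) * ee (dot β n)) (fun n => by
      rw [norm_mul, norm_ee, mul_one]
      exact hW1 n) hlip e.2 (fun _ => 0) (fun _ => H)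
  have h3 : (bx D H).filter (fun n => ∀ i, (0 : ℤ) ≤ n i ∧ n i < (H : ℤ)) = bx D H := by
    apply filter_true_of_mem
    intro n hn
    exact mem_bx.mp hn
  rw [h3] at h2
  have h4 : ∑ n ∈ bx D H, (W n : ℂ) * X n * ee (dot θ n)
      = ∑ n ∈ bx D H, X n * ee (dot (fun i => (e.2 i : ℝ) / e.1) n) * ((W n : ℂ) * ee (dot β n)) := by
    refine sum_congr rfl (fun n _ => ?_)
    obtain ⟨c, hc⟩ := isInt_dot hint n
    have h5 : dot θ n = dot (vec e) n + dot β n + c := by
      rw [sub_dot, sub_dot] at hc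
      linarith
    have h6 : ee (dot θ n) = ee (dot (vec e) n) * ee (dot β n) := by
      rw [h5, ee_add_int, ee_add]
    rw [h6]
    unfold vec
    ring
  rw [h4, norm_mul, norm_div, norm_one, norm_pow, Complex.norm_natCast]
  have h7 : (0 : ℝ) < (H : ℝ) ^ D := by positivity
  rw [one_div, inv_mul_le_iff₀ h7, mul_comm]
  exact h2

end

end Pool.Agent.H10.Sar
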