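import Pool.Agent.H10.Sar.Box
set_option autoImplicit false
set_option linter.unusedSectionVars false

namespace Pool.Agent.H10.Sar

open NumberField Module Finset
open scoped Classical

noncomputable section

variable {K : Type*} [Field K] [NumberField K] {D : ℕ} (b : Basis (Fin D) ℤ (𝓞 K))

/-- `θ` is major: some small multiple is close to an integer vector -/
def Major (Q : ℕ) (τ : ℝ) (θ : Fin D → ℝ) : Prop :=
  ∃ κ : 𝓞 K, κ ≠ 0 ∧ sz b κ ≤ Q ∧ Near (star b κ θ) τ

variable {b}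

lemma nn_single (j : Fin D) : nn (Pi.single j (1 : ℤ) : Fin D → ℤ) ≤ 1 := by
  rw [nn_le_iff]
  intro i
  by_cases h : i = j
  · subst h
    simp
  · rw [Pi.single_eq_of_ne h]
    simp

lemma star_bound {C0 : ℕ} (h : GeoC b C0) (α : 𝓞 K) {θ : Fin D → ℝ} {T : ℝ} {S : ℝ}
    (hT : ∀ i, |θ i| ≤ T) (hS : (sz b α : ℝ) ≤ S) (j : Fin D) :
    |star b α θ j| ≤ D * C0 * T * S := by
  have h0 : 0 ≤ T := (abs_nonneg _).trans (hT j)
  have h1 := abs_dot_le θ (act b α (Pi.single j 1)) hT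
  have h2 : nn (act b α (Pi.single j 1)) ≤ C0 * sz b α := by
    refine (h.act_le α _).trans ?_
    calc C0 * sz b α * nn (Pi.single j (1 : ℤ) : Fin D → ℤ) ≤ C0 * sz b α * 1 := by
          apply Nat.mul_le_mul_left
          exact nn_single j
      _ = C0 * sz b α := by ring
  have h3 : (nn (act b α (Pi.single j 1)) : ℝ) ≤ C0 * S := by
    calc (nn (act b α (Pi.single j 1)) : ℝ) ≤ C0 * sz b α := by exact_mod_cast h2
      _ ≤ C0 * S := by gcongr
  unfold star
  refine h1.trans ?_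
  calc (D : ℝ) * T * (nn (act b α (Pi.single j 1)) : ℝ) ≤ D * T * (C0 * S) := by gcongr
    _ = _ := by ring

/-- pigeonhole -/
lemma exists_close {A Q : ℕ} (hQ : 1 ≤ Q) (hQA : Q ≤ A) (NN : Finset (Fin D → ℤ))
    (hsub : NN ⊆ sbx D (4 * A)) (hcard : (10 : ℝ) ^ D * A ^ D / Q < NN.card) (hD : 0 < D) :
    ∃ m ∈ NN, ∃ n ∈ NN, m ≠ n ∧ nn (m - n) ≤ Q := by
  set k := 4 * A / Q with hk
  set t : Finset (Fin D → ℤ) := Fintype.piFinset (fun _ => Finset.Icc (-(k + 1 : ℤ)) k) with ht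
  have hQpos : (0 : ℤ) < Q := by exact_mod_cast hQ
  have hcardt : t.card = (2 * k + 2) ^ D := by
    rw [ht, Fintype.card_piFinset]
    have : ((k : ℤ) + 1 - -(k + 1 : ℤ)).toNat = 2 * k + 2 := by omega
    simp only [Int.card_Icc, this, prod_const, card_univ, Fintype.card_fin]
  have hlt : t.card < NN.card := by
    rw [hcardt]
    have h1 : ((2 * k + 2 : ℕ) : ℝ) ≤ 10 * A / Q := by
      have hQr : (0 : ℝ) < Q := by exact_mod_cast hQ
      rw [le_div_iff₀ hQr]
      have h2 : k * Q ≤ 4 * A := Nat.div_mul_le_self _ _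
      have h3 : (2 * k + 2) * Q ≤ 10 * A := by nlinarith
      exact_mod_cast h3
    have h4 : (((2 * k + 2) ^ D : ℕ) : ℝ) < NN.card := by
      refine lt_of_le_of_lt ?_ hcard
      push_cast
      push_cast at h1
      calc (2 * (k : ℝ) + 2) ^ D ≤ (10 * A / Q) ^ D := pow_le_pow_left₀ (by positivity) h1 D
        _ = 10 ^ D * A ^ D / Q ^ D := by rw [div_pow, mul_pow]
        _ ≤ 10 ^ D * A ^ D / Q := by
            have hQr : (1 : ℝ) ≤ Q := by exact_mod_cast hQ
            apply div_le_div_of_nonneg_left (by positivity) (by positivity)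
            exact le_self_pow₀ hQr (by omega)
    exact_mod_cast h4
  have hmaps : ∀ n ∈ NN, (fun i => n i / (Q : ℤ)) ∈ t := by
    intro n hn
    have h1 := mem_sbx.mp (hsub hn)
    rw [nn_le_iff] at h1
    rw [ht, Fintype.mem_piFinset]
    intro i
    have h2 := abs_le.mp (h1 i)
    rw [Finset.mem_Icc]
    have h3 : (k : ℤ) = (4 * A : ℤ) / Q := by
      rw [hk]
      push_cast
      rfl
    have h4 : (4 * A : ℤ) < (k + 1) * Q := by
      rw [h3]
      exact Int.lt_ediv_add_one_mul_self _ hQpos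
    push_cast at h2
    constructor
    · rw [Int.le_ediv_iff_mul_le hQpos]
      nlinarith [h2.1]
    · rw [h3]
      exact Int.ediv_le_ediv hQpos h2.2
  obtain ⟨m, hm, n, hn, hne, heq⟩ := Finset.exists_ne_map_eq_of_card_lt_of_maps_to hlt hmaps
  refine ⟨m, hm, n, hn, hne, ?_⟩
  rw [nn_le_iff]
  intro i
  have h1 : m i / (Q : ℤ) = n i / Q := congrFun heq i
  have h2 := Int.emod_add_mul_ediv (m i) Q
  have h3 := Int.emod_add_mul_ediv (n i) Q
  have h4 := Int.emod_nonneg (m i) hQpos.ne'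
  have h5 := Int.emod_lt_of_pos (m i) hQpos
  have h6 := Int.emod_nonneg (n i) hQpos.ne'
  have h7 := Int.emod_lt_of_pos (n i) hQpos
  rw [h1] at h2
  rw [Pi.sub_apply, abs_le]
  constructor <;> linarith

lemma int_set_card (S : Finset ℤ) (T : ℝ) (hT : 0 ≤ T)
    (h : ∀ x ∈ S, ∀ y ∈ S, |(x : ℝ) - y| ≤ T) : (S.card : ℝ) ≤ T + 1 := by
  rcases S.eq_empty_or_nonempty with rfl | hne
  · simp
    linarith
  · set m := S.min' hne with hm
    have hsub : S ⊆ Finset.Icc m (m + ⌊T⌋₊) := by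
      intro x hx
      rw [Finset.mem_Icc]
      refine ⟨S.min'_le x hx, ?_⟩
      have h1 := h x hx m (S.min'_mem hne)
      have h2 : (x : ℝ) - m ≤ T := (le_abs_self _).trans h1
      have h3 : 0 ≤ x - m := by linarith [S.min'_le x hx]
      have h4 : (x - m).toNat ≤ ⌊T⌋₊ := by
        apply Nat.le_floor
        have : (((x - m).toNat : ℤ) : ℝ) = ((x - m : ℤ) : ℝ) := by rw [Int.toNat_of_nonneg h3]
        have h5 : (((x - m).toNat : ℕ) : ℝ) = (x : ℝ) - m := by
          rw [← Int.cast_natCast, this]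
          push_cast
          ring
        rw [h5]
        exact h2
      omega
    have h1 := Finset.card_le_card hsub
    rw [Int.card_Icc] at h1
    have h2 : (m + (⌊T⌋₊ : ℤ) + 1 - m).toNat = ⌊T⌋₊ + 1 := by omega
    rw [h2] at h1
    have h3 : (S.card : ℝ) ≤ ⌊T⌋₊ + 1 := by exact_mod_cast h1
    have h4 := Nat.floor_le hT
    linarith

variable (b)

lemma place_count (w : InfinitePlace K) : ∃ C : ℝ, 0 ≤ C ∧ ∀ (Q A : ℕ), 1 ≤ Q → Q ≤ A →
    (((sbx D (4 * A)).filter
      (fun n => w ((b.equivFun.symm n : 𝓞 K) : K) < (A : ℝ) / Q ^ 2)).card : ℝ)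
      ≤ C * A ^ D / Q := by
  have hD := D_pos b
  set i0 : Fin D := ⟨0, hD⟩ with hi0
  set s : ℝ := w ((b i0 : 𝓞 K) : K) with hs
  have hspos : 0 < s := by
    rw [hs, InfinitePlace.pos_iff]
    exact RingOfIntegers.coe_ne_zero_iff.mpr (b.ne_zero i0)
  refine ⟨9 ^ (D - 1) * (2 / s + 1), by positivity, ?_⟩
  intro Q A hQ hQA
  have hQr : (1 : ℝ) ≤ Q := by exact_mod_cast hQ
  have hAr : (Q : ℝ) ≤ A := by exact_mod_cast hQA
  have hA1 : 1 ≤ A := hQ.trans hQA
  set F := (sbx D (4 * A)).filter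
      (fun n => w ((b.equivFun.symm n : 𝓞 K) : K) < (A : ℝ) / Q ^ 2) with hF
  set φ : (Fin D → ℤ) → (Fin D → ℤ) := fun n => Function.update n i0 0 with hφ
  set T : ℝ := 2 * A / (Q ^ 2 * s) with hT
  have hT0 : 0 ≤ T := by positivity
  have hfib : ∀ a ∈ F.image φ, (F.filter (fun x => φ x = a)).card ≤ ⌊T + 1⌋₊ := by
    intro a ha
    apply Nat.le_floor
    have hinj : Set.InjOn (fun n : Fin D → ℤ => n i0) (F.filter (fun x => φ x = a)) := by
      intro m hm n hn hmn
      rw [Finset.mem_coe, Finset.mem_filter] at hm hn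
      funext i
      by_cases h : i = i0
      · subst h
        exact hmn
      · have h1 : φ m i = φ n i := by rw [hm.2, hn.2]
        rw [hφ] at h1
        simpa [Function.update_of_ne h] using h1
    rw [← Finset.card_image_of_injOn hinj]
    apply int_set_card _ _ hT0
    intro x hx y hy
    rw [Finset.mem_image] at hx hy
    obtain ⟨m, hm, rfl⟩ := hx
    obtain ⟨n, hn, rfl⟩ := hy
    rw [Finset.mem_filter, hF, Finset.mem_filter] at hm hn
    have hmn : m - n = (m i0 - n i0) • (Pi.single i0 (1 : ℤ) : Fin D → ℤ) := by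
      funext i
      by_cases h : i = i0
      · subst h
        simp
      · have h1 : φ m i = φ n i := by rw [hm.2, hn.2]
        rw [hφ] at h1
        simp only [Function.update_of_ne h] at h1
        simp [Pi.single_eq_of_ne h, h1]
    have h2 : b.equivFun.symm m - b.equivFun.symm n = (m i0 - n i0) • b i0 := by
      rw [← map_sub, hmn, map_zsmul]
      congr 1
      rw [Basis.equivFun_symm_apply, Finset.sum_eq_single i0]
      · simp
      · intro j _ hj
        simp [Pi.single_eq_of_ne hj]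
      · simp
    have h3 : w (((b.equivFun.symm m - b.equivFun.symm n : 𝓞 K)) : K) =
        |((m i0 : ℝ)) - n i0| * s := by
      rw [h2, zsmul_eq_mul]
      have h4 : ((((m i0 - n i0 : ℤ) : 𝓞 K) * b i0 : 𝓞 K) : K) =
          ((m i0 - n i0 : ℤ) : K) * ((b i0 : 𝓞 K) : K) := by
        simp
      rw [h4, map_mul, ← hs]
      congr 1
      rw [← InfinitePlace.norm_embedding_eq, map_intCast, Complex.norm_intCast]
      push_cast
      rfl
    have h5 : w (((b.equivFun.symm m - b.equivFun.symm n : 𝓞 K)) : K) ≤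
        w ((b.equivFun.symm m : 𝓞 K) : K) + w ((b.equivFun.symm n : 𝓞 K) : K) := by
      have h6 : (((b.equivFun.symm m - b.equivFun.symm n : 𝓞 K)) : K) =
          ((b.equivFun.symm m : 𝓞 K) : K) - ((b.equivFun.symm n : 𝓞 K) : K) := by
        simp
      rw [h6, ← InfinitePlace.norm_embedding_eq, map_sub, ← InfinitePlace.norm_embedding_eq w
        ((b.equivFun.symm m : 𝓞 K) : K), ← InfinitePlace.norm_embedding_eq w
        ((b.equivFun.symm n : 𝓞 K) : K)]
      exact norm_sub_le _ _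
    rw [h3] at h5
    have h7 : |((m i0 : ℝ)) - n i0| * s ≤ 2 * A / Q ^ 2 := by
      have h8 := hm.1.2
      have h9 := hn.1.2
      have h10 : (2 : ℝ) * A / Q ^ 2 = A / Q ^ 2 + A / Q ^ 2 := by ring
      linarith
    rw [hT]
    have h11 : (2 : ℝ) * A / (Q ^ 2 * s) = 2 * A / Q ^ 2 / s := by
      rw [div_div]
    rw [h11, le_div_iff₀ hspos]
    exact h7
  have hcard := Finset.card_le_mul_card_image F ⌊T + 1⌋₊ hfib
  have himg : (F.image φ).card ≤ (8 * A + 1) ^ (D - 1) := by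
    have hsub : F.image φ ⊆ Fintype.piFinset
        (fun i => if i = i0 then ({0} : Finset ℤ) else Finset.Icc (-(4 * A : ℤ)) (4 * A)) := by
      intro x hx
      rw [Finset.mem_image] at hx
      obtain ⟨m, hm, rfl⟩ := hx
      rw [hF, Finset.mem_filter, mem_sbx, nn_le_iff] at hm
      rw [Fintype.mem_piFinset]
      intro i
      by_cases h : i = i0
      · subst h
        simp [hφ]
      · rw [if_neg h, hφ]
        simp only [Function.update_of_ne h]
        rw [Finset.mem_Icc]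
        have := abs_le.mp (hm.1 i)
        push_cast at this
        exact this
    refine (Finset.card_le_card hsub).trans ?_
    rw [Fintype.card_piFinset]
    rw [← Finset.mul_prod_erase univ _ (mem_univ i0), if_pos rfl, Finset.card_singleton, one_mul]
    have h1 : ∀ i ∈ univ.erase i0, (if i = i0 then ({0} : Finset ℤ)
        else Finset.Icc (-(4 * A : ℤ)) (4 * A)).card = 8 * A + 1 := by
      intro i hi
      rw [if_neg (Finset.ne_of_mem_erase hi), Int.card_Icc]
      omega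
    rw [Finset.prod_congr rfl h1, Finset.prod_const, Finset.card_erase_of_mem (mem_univ i0),
      card_univ, Fintype.card_fin]
  have h1 : (F.card : ℝ) ≤ (T + 1) * (8 * A + 1) ^ (D - 1) := by
    calc (F.card : ℝ) ≤ ((⌊T + 1⌋₊ * (F.image φ).card : ℕ) : ℝ) := by exact_mod_cast hcard
      _ = (⌊T + 1⌋₊ : ℝ) * ((F.image φ).card : ℝ) := by push_cast; ring
      _ ≤ (T + 1) * (8 * A + 1) ^ (D - 1) := by
          apply mul_le_mul
          · exact Nat.floor_le (by linarith)
          · exact_mod_cast himg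
          · positivity
          · linarith
  refine h1.trans ?_
  have hApos : (0 : ℝ) < A := by linarith
  have hQpos : (0 : ℝ) < Q := by linarith
  have h2 : T + 1 ≤ (2 / s + 1) * (A / Q) := by
    rw [hT, add_mul, one_mul]
    apply add_le_add
    · have : (2 : ℝ) * A / (Q ^ 2 * s) = 2 / s * (A / Q) * (1 / Q) := by
        field_simp
      rw [this]
      apply mul_le_of_le_one_right (by positivity)
      rw [div_le_one hQpos]
      exact hQr
    · rw [le_div_iff₀ hQpos]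
      linarith
  have h3 : ((8 : ℝ) * A + 1) ^ (D - 1) ≤ 9 ^ (D - 1) * A ^ (D - 1) := by
    rw [← mul_pow]
    apply pow_le_pow_left₀ (by positivity)
    linarith
  calc (T + 1) * (8 * (A : ℝ) + 1) ^ (D - 1) ≤ ((2 / s + 1) * (A / Q)) * (9 ^ (D - 1) * A ^ (D - 1)) := by
        gcongr
    _ = 9 ^ (D - 1) * (2 / s + 1) * (A ^ (D - 1) * A) / Q := by ring
    _ = 9 ^ (D - 1) * (2 / s + 1) * A ^ D / Q := by
        rw [← pow_succ]
        congr 3
        omega

/-- elements of small norm -/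
lemma small_norm_count : ∃ C : ℝ, 0 ≤ C ∧ ∀ (Q A : ℕ), 1 ≤ Q → Q ≤ A →
    (((sbx D (4 * A)).filter
      (fun n => ((Algebra.norm ℤ (b.equivFun.symm n : 𝓞 K)).natAbs : ℝ) <
        (A : ℝ) ^ D / Q ^ (2 * D))).card : ℝ)
      ≤ C * A ^ D / Q := by
  choose Cw hCw0 hCw using place_count b
  refine ⟨∑ w, Cw w, sum_nonneg (fun w _ => hCw0 w), ?_⟩
  intro Q A hQ hQA
  have hQr : (1 : ℝ) ≤ Q := by exact_mod_cast hQ
  have hsub : (sbx D (4 * A)).filter
      (fun n => ((Algebra.norm ℤ (b.equivFun.symm n : 𝓞 K)).natAbs : ℝ) <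
        (A : ℝ) ^ D / Q ^ (2 * D)) ⊆
      (univ : Finset (InfinitePlace K)).biUnion (fun w => (sbx D (4 * A)).filter
      (fun n => w ((b.equivFun.symm n : 𝓞 K) : K) < (A : ℝ) / Q ^ 2)) := by
    intro n hn
    rw [Finset.mem_filter] at hn
    rw [Finset.mem_biUnion]
    by_contra hcon
    have h1 : ∀ w : InfinitePlace K, (A : ℝ) / Q ^ 2 ≤ w ((b.equivFun.symm n : 𝓞 K) : K) := by
      intro w
      by_contra hw
      exact hcon ⟨w, mem_univ _, Finset.mem_filter.mpr ⟨hn.1, not_le.mp hw⟩⟩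
    have h2 := hn.2
    rw [abs_norm_eq] at h2
    have h3 : (A : ℝ) ^ D / Q ^ (2 * D) ≤
        ∏ w : InfinitePlace K, w ((b.equivFun.symm n : 𝓞 K) : K) ^ w.mult := by
      have h4 : (A : ℝ) ^ D / Q ^ (2 * D) = ∏ w : InfinitePlace K, ((A : ℝ) / Q ^ 2) ^ w.mult := by
        rw [prod_pow_eq_pow_sum, InfinitePlace.sum_mult_eq, ← card_eq_finrank b, div_pow, ← pow_mul]
      rw [h4]
      apply prod_le_prod
      · intro w _
        positivity
      · intro w _
        exact pow_le_pow_left₀ (by positivity) (h1 w) _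
    linarith
  have h1 := (Finset.card_le_card hsub).trans Finset.card_biUnion_le
  calc _ ≤ ((∑ w : InfinitePlace K, ((sbx D (4 * A)).filter
      (fun n => w ((b.equivFun.symm n : 𝓞 K) : K) < (A : ℝ) / Q ^ 2)).card : ℕ) : ℝ) := by
        exact_mod_cast h1
    _ ≤ ∑ w : InfinitePlace K, Cw w * A ^ D / Q := by
        push_cast
        exact sum_le_sum (fun w _ => hCw w Q A hQ hQA)
    _ = (∑ w, Cw w) * A ^ D / Q := by
        rw [sum_mul, sum_div]

/-- if `θ` is not major then few `κ` of size `≤ 4A` make `κ ⋆ θ` almost integral -/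
theorem near_count : ∃ C : ℕ, 1 ≤ C ∧ ∀ (Q A : ℕ) (H : ℝ) (θ : Fin D → ℝ), 1 ≤ Q → Q ≤ A →
    (C : ℝ) * A ^ 2 * Q ^ C ≤ H → ¬ Major b Q (C * Q ^ C / H) θ →
    (((sbx D (4 * A)).filter (fun n => Near (star b (b.equivFun.symm n) θ) (A * Q / H))).card : ℝ)
      ≤ C * A ^ D / Q := by
  obtain ⟨C0, h0⟩ := exists_geoC b
  obtain ⟨Cs, hCs0, hCs⟩ := small_norm_count b
  have hD := D_pos b
  have hDr : (1 : ℝ) ≤ D := by exact_mod_cast hD
  have hC0 : (1 : ℝ) ≤ C0 := by exact_mod_cast h0.one_le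
  obtain ⟨C, k1, k2, k3, hc4, k5⟩ : ∃ C : ℕ, 10 ^ D ≤ C ∧ ⌈Cs⌉₊ ≤ C ∧
      D ^ 2 * C0 ^ 3 * 4 ^ D ≤ C ∧ 2 * D + 2 ≤ C ∧ C0 * (1 + 8 * D ^ 2 * C0 ^ 3) < C := by
    generalize 10 ^ D = p1
    generalize ⌈Cs⌉₊ = p2
    generalize D ^ 2 * C0 ^ 3 * 4 ^ D = p3
    generalize C0 * (1 + 8 * D ^ 2 * C0 ^ 3) = p5
    exact ⟨p1 + p2 + p3 + (2 * D + 2) + p5 + 1, by omega, by omega, by omega, by omega, by omega⟩
  have hc1 : (10 : ℝ) ^ D ≤ C := by exact_mod_cast k1
  have hc2 : Cs ≤ C := by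
    refine (Nat.le_ceil Cs).trans ?_
    exact_mod_cast k2
  have hc3 : (D : ℝ) ^ 2 * C0 ^ 3 * 4 ^ D ≤ C := by exact_mod_cast k3
  have hc5 : (C0 : ℝ) * (1 + 8 * D ^ 2 * C0 ^ 3) < C := by exact_mod_cast k5
  refine ⟨C, by omega, ?_⟩
  intro Q A H θ hQ hQA hH hmaj
  have hQr : (1 : ℝ) ≤ Q := by exact_mod_cast hQ
  have hAr : (Q : ℝ) ≤ A := by exact_mod_cast hQA
  have hQpos : (0 : ℝ) < Q := by linarith
  have hApos : (0 : ℝ) < A := by linarith
  have hA1 : (1 : ℝ) ≤ A := by linarith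
  have hCpos : (0 : ℝ) < C := by
    have : 0 < C := by omega
    exact_mod_cast this
  have hHpos : 0 < H := lt_of_lt_of_le (by positivity) hH
  set NN := (sbx D (4 * A)).filter (fun n => Near (star b (b.equivFun.symm n) θ) (A * Q / H))
    with hNN
  by_cases hbig : (NN.card : ℝ) ≤ 10 ^ D * A ^ D / Q
  · refine hbig.trans ?_
    gcongr
  rw [not_le] at hbig
  obtain ⟨m, hm, n, hn, hmn, hmnQ⟩ := exists_close hQ hQA NN (Finset.filter_subset _ _) hbig hD
  set κ0 : 𝓞 K := b.equivFun.symm m - b.equivFun.symm n with hκ0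
  have hκ0ne : κ0 ≠ 0 := by
    rw [hκ0, sub_ne_zero]
    exact fun h => hmn (b.equivFun.symm.injective h)
  have hκ0sz : sz b κ0 ≤ Q := by
    rw [hκ0, ← map_sub, sz_symm]
    exact hmnQ
  have hκ0szr : (sz b κ0 : ℝ) ≤ Q := by exact_mod_cast hκ0sz
  have hκ0near : ∃ z0 : Fin D → ℤ, ∀ j, |star b κ0 θ j - z0 j| ≤ 2 * A * Q / H := by
    rw [hNN, Finset.mem_filter, near_iff] at hm hn
    obtain ⟨z1, hz1⟩ := hm.2
    obtain ⟨z2, hz2⟩ := hn.2
    refine ⟨z1 - z2, fun j => ?_⟩
    rw [hκ0, sub_star, Pi.sub_apply, Pi.sub_apply]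
    have h1 := hz1 j
    have h2 := hz2 j
    have h3 : star b (b.equivFun.symm m) θ j - star b (b.equivFun.symm n) θ j -
        ((z1 j - z2 j : ℤ) : ℝ) = (star b (b.equivFun.symm m) θ j - z1 j) -
        (star b (b.equivFun.symm n) θ j - z2 j) := by
      push_cast
      ring
    rw [h3]
    refine (abs_sub _ _).trans ?_
    have h4 : (2 : ℝ) * A * Q / H = A * Q / H + A * Q / H := by ring
    rw [h4]
    exact add_le_add h1 h2
  obtain ⟨z0, hz0⟩ := hκ0near
  set N0 : ℤ := Algebra.norm ℤ κ0 with hN0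
  have hN0ne : N0 ≠ 0 := Algebra.norm_ne_zero_iff.mpr hκ0ne
  have hN0r : (N0 : ℝ) ≠ 0 := by exact_mod_cast hN0ne
  have hN0ge : (1 : ℝ) ≤ |(N0 : ℝ)| := by
    have : 1 ≤ |N0| := Int.one_le_abs hN0ne
    exact_mod_cast this
  have hN0le : |(N0 : ℝ)| ≤ C0 * Q ^ D := by
    have h1 := h0.norm κ0
    have h2 : ((Algebra.norm ℤ κ0).natAbs : ℝ) ≤ C0 * (sz b κ0 : ℝ) ^ D := by exact_mod_cast h1
    rw [Nat.cast_natAbs] at h2
    push_cast at h2
    refine h2.trans ?_
    gcongr
  obtain ⟨y, hy, hysz⟩ := h0.cof κ0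
  rw [← hN0] at hy
  have hyszr : (sz b y : ℝ) ≤ C0 * Q ^ (D - 1) := by
    have h1 : (sz b y : ℝ) ≤ C0 * (sz b κ0 : ℝ) ^ (D - 1) := by exact_mod_cast hysz
    refine h1.trans ?_
    gcongr
  set zr : Fin D → ℝ := fun i => (z0 i : ℝ) with hzr
  have hzrint : IsInt zr := ⟨z0, rfl⟩
  set lam : Fin D → ℝ := (1 / (N0 : ℝ)) • star b y zr with hlam
  set β : Fin D → ℝ := θ - lam with hβ
  -- N0 β = y (κ0 θ - z0)
  have hβ1 : (N0 : ℝ) • β = star b y (star b κ0 θ - zr) := by
    rw [hβ, smul_sub, hlam, smul_smul, star_sub, star_star, mul_comm y κ0, hy, star_intCast]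
    rw [mul_one_div_cancel hN0r, one_smul]
  have hβ2 : ∀ j, |β j| ≤ 2 * D * C0 ^ 2 * A * Q ^ D / H := by
    intro j
    have h1 := star_bound h0 y (θ := star b κ0 θ - zr) (T := 2 * A * Q / H) (fun i => hz0 i) hyszr j
    rw [← hβ1, Pi.smul_apply, smul_eq_mul, abs_mul] at h1
    have h2 : |β j| ≤ |(N0 : ℝ)| * |β j| := le_mul_of_one_le_left (abs_nonneg _) hN0ge
    refine h2.trans (h1.trans ?_)
    apply le_of_eq
    have h3 : (Q : ℝ) ^ D = Q ^ (D - 1) * Q := by
      rw [← pow_succ]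
      congr 1
      omega
    rw [h3]
    ring
  have hκ0lam : star b κ0 lam = zr := by
    rw [hlam, star_smul, star_star, hy, star_intCast, smul_smul, one_div_mul_cancel hN0r, one_smul]
  -- all elements of NN
  have hκβ : ∀ k ∈ NN, ∀ j, |star b (b.equivFun.symm k) β j| ≤ A * Q / H := by
    intro k hk j
    rw [hNN, Finset.mem_filter, near_iff, mem_sbx] at hk
    obtain ⟨hksz, z, hz⟩ := hk
    set κ := b.equivFun.symm k with hκ
    have hκsz : (sz b κ : ℝ) ≤ 4 * A := by
      rw [hκ, sz_symm]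
      exact_mod_cast hksz
    have h1 := star_bound h0 κ hβ2 hκsz j
    have hint : IsInt (star b κ (star b y zr)) := (hzrint.star b y).star b κ
    obtain ⟨v, hv⟩ := hint
    have h2 : star b κ lam j = (v j : ℝ) / N0 := by
      rw [hlam, star_smul, hv, Pi.smul_apply, smul_eq_mul]
      ring
    have h3 : star b κ θ j = star b κ lam j + star b κ β j := by
      have : θ = lam + β := by rw [hβ]; abel
      conv_lhs => rw [this]
      rw [star_add, Pi.add_apply]
    have h4 : |(v j : ℝ) - N0 * z j| < 1 := by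
      have h5 : (v j : ℝ) - N0 * z j = N0 * ((star b κ θ j - z j) - star b κ β j) := by
        rw [h3, h2]
        field_simp
        ring
      rw [h5, abs_mul]
      have h6 : |star b κ θ j - z j - star b κ β j| ≤
          A * Q / H + D * C0 * (2 * D * C0 ^ 2 * A * Q ^ D / H) * (4 * A) :=
        (abs_sub _ _).trans (add_le_add (hz j) h1)
      calc |(N0 : ℝ)| * |star b κ θ j - z j - star b κ β j| ≤
          (C0 * Q ^ D) * (A * Q / H + D * C0 * (2 * D * C0 ^ 2 * A * Q ^ D / H) * (4 * A)) := by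
            gcongr
        _ = (C0 * Q ^ D) * (A * Q + 8 * D ^ 2 * C0 ^ 3 * A ^ 2 * Q ^ D) / H := by
            field_simp
            ring
        _ < 1 := by
            rw [div_lt_one hHpos]
            refine lt_of_lt_of_le ?_ hH
            have h7 : (A : ℝ) * Q ≤ A ^ 2 * Q ^ D := by
              have h8 : (A : ℝ) ≤ A ^ 2 := le_self_pow₀ hA1 (by norm_num)
              have h9 : (Q : ℝ) ≤ Q ^ D := le_self_pow₀ hQr (by omega)
              gcongr
            calc (C0 : ℝ) * Q ^ D * (A * Q + 8 * D ^ 2 * C0 ^ 3 * A ^ 2 * Q ^ D)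
                ≤ C0 * Q ^ D * (A ^ 2 * Q ^ D + 8 * D ^ 2 * C0 ^ 3 * A ^ 2 * Q ^ D) := by
                  gcongr
              _ = ((C0 : ℝ) * (1 + 8 * D ^ 2 * C0 ^ 3)) * (A ^ 2 * Q ^ (2 * D)) := by
                  rw [two_mul, pow_add]
                  ring
              _ < (C : ℝ) * (A ^ 2 * Q ^ (2 * D)) := by
                  apply mul_lt_mul_of_pos_right hc5
                  positivity
              _ ≤ (C : ℝ) * (A ^ 2 * Q ^ C) := by
                  have h15 : (Q : ℝ) ^ (2 * D) ≤ Q ^ C := pow_le_pow_right₀ hQr (by omega)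
                  exact mul_le_mul_of_nonneg_left
                    (mul_le_mul_of_nonneg_left h15 (by positivity)) (by positivity)
              _ = (C : ℝ) * A ^ 2 * Q ^ C := by ring
    have h10 : v j = N0 * z j := by
      have h11 : |v j - N0 * z j| < 1 := by
        have : (|v j - N0 * z j| : ℝ) < 1 := by exact_mod_cast h4
        exact_mod_cast h4
      rw [Int.abs_lt_one_iff] at h11
      linarith
    have h12 : star b κ lam j = z j := by
      rw [h2, h10]
      push_cast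
      field_simp
    have h13 : star b κ β j = star b κ θ j - z j := by
      rw [h3, h12]
      ring
    rw [h13]
    exact hz j
  by_cases hex : ∃ k ∈ NN, (A : ℝ) ^ D / Q ^ (2 * D) ≤
      ((Algebra.norm ℤ (b.equivFun.symm k : 𝓞 K)).natAbs : ℝ)
  · exfalso
    apply hmaj
    obtain ⟨k, hk, hkN⟩ := hex
    have hκβ' := hκβ k hk
    rw [hNN, Finset.mem_filter, mem_sbx] at hk
    set κ := b.equivFun.symm k with hκ
    have hκsz : (sz b κ : ℝ) ≤ 4 * A := by
      rw [hκ, sz_symm]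
      exact_mod_cast hk.1
    obtain ⟨y', hy', hysz'⟩ := h0.cof κ
    have hysz'r : (sz b y' : ℝ) ≤ C0 * (4 * A) ^ (D - 1) := by
      have h1 : (sz b y' : ℝ) ≤ C0 * (sz b κ : ℝ) ^ (D - 1) := by exact_mod_cast hysz'
      refine h1.trans ?_
      gcongr
    have hβ3 : ∀ j, |β j| ≤ D * C0 ^ 2 * 4 ^ D * Q ^ (2 * D + 1) / H := by
      intro j
      have h1 := star_bound h0 y' (θ := star b κ β) hκβ' hysz'r j
      rw [star_star, mul_comm y' κ, hy', star_intCast, Pi.smul_apply, smul_eq_mul, abs_mul] at h1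
      rw [Nat.cast_natAbs] at hkN
      push_cast at hkN
      have h2 : (A : ℝ) ^ D / Q ^ (2 * D) * |β j| ≤
          D * C0 * (A * Q / H) * (C0 * (4 * A) ^ (D - 1)) := by
        refine le_trans ?_ h1
        exact mul_le_mul_of_nonneg_right hkN (abs_nonneg _)
      have h3 : (A : ℝ) ^ D = A ^ (D - 1) * A := by
        rw [← pow_succ]
        congr 1
        omega
      have h4 : |β j| ≤ D * C0 ^ 2 * 4 ^ (D - 1) * Q ^ (2 * D + 1) / H := by
        have h5 : (0 : ℝ) < (A : ℝ) ^ D / Q ^ (2 * D) := by positivity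
        have h6 : (A : ℝ) ^ D / Q ^ (2 * D) * (D * C0 ^ 2 * 4 ^ (D - 1) * Q ^ (2 * D + 1) / H) =
            D * C0 * (A * Q / H) * (C0 * (4 * A) ^ (D - 1)) := by
          rw [h3, mul_pow, pow_succ (Q : ℝ) (2 * D)]
          field_simp
        rw [← h6] at h2
        exact le_of_mul_le_mul_left h2 h5
      refine h4.trans ?_
      gcongr
      · norm_num
      · omega
    refine ⟨κ0, hκ0ne, hκ0sz, ?_⟩
    rw [near_iff]
    refine ⟨z0, fun j => ?_⟩
    have h1 := star_bound h0 κ0 hβ3 hκ0szr j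
    have h2 : star b κ0 θ j - z0 j = star b κ0 β j := by
      rw [hβ, star_sub, hκ0lam, Pi.sub_apply]
    rw [h2]
    refine h1.trans ?_
    calc (D : ℝ) * C0 * (D * C0 ^ 2 * 4 ^ D * Q ^ (2 * D + 1) / H) * Q
        = (D ^ 2 * C0 ^ 3 * 4 ^ D) * Q ^ (2 * D + 2) / H := by
          rw [pow_succ (Q : ℝ) (2 * D + 1)]
          ring
      _ ≤ C * Q ^ C / H := by
          have : (Q : ℝ) ^ (2 * D + 2) ≤ Q ^ C := pow_le_pow_right₀ hQr hc4
          gcongr
  · have hsub : NN ⊆ (sbx D (4 * A)).filter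
      (fun n => ((Algebra.norm ℤ (b.equivFun.symm n : 𝓞 K)).natAbs : ℝ) <
        (A : ℝ) ^ D / Q ^ (2 * D)) := by
      intro k hk
      rw [Finset.mem_filter]
      refine ⟨(Finset.mem_filter.mp hk).1, ?_⟩
      by_contra hcon
      exact hex ⟨k, hk, not_lt.mp hcon⟩
    have h1 : (NN.card : ℝ) ≤ Cs * A ^ D / Q := by
      refine le_trans ?_ (hCs Q A hQ hQA)
      exact_mod_cast Finset.card_le_card hsub
    refine h1.trans ?_
    gcongr

end

end Pool.Agent.H10.Sar
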