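import Pool.Agent.H10.Sar.Trig
import Pool.Agent.H10.Sar.NearC
set_option autoImplicit false
set_option linter.unusedSectionVars false

namespace Pool.Agent.H10.Sar

open NumberField Module Finset
open scoped Classical

noncomputable section

variable {K : Type*} [Field K] [NumberField K] {D : ℕ} (b : Basis (Fin D) ℤ (𝓞 K))

/-- a finite set of multipliers with sizes in `[A0, A1]`, balanced with constant `C` -/
structure MulSet (C A0 A1 : ℕ) (𝒜 : Finset (𝓞 K)) : Prop where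
  ne_zero : ∀ α ∈ 𝒜, α ≠ 0
  ge : ∀ α ∈ 𝒜, A0 ≤ sz b α
  le : ∀ α ∈ 𝒜, sz b α ≤ A1
  bal : ∀ α ∈ 𝒜, ∀ m, sz b α * nn m ≤ C * nn (act b α m)

variable {b}

/-- the Lipschitz bound of a weight along a multiplied unit direction -/
lemma min_lip {Cg : ℕ} (hg : GeoC b Cg) {H A : ℕ} {L1 : ℝ} (hL1 : 0 ≤ L1)
    {W : (Fin D → ℤ) → ℝ} (hW : IsWt H L1 W) {α : 𝓞 K} (hα : sz b α ≤ A)
    (n : Fin D → ℤ) (i : Fin D) :
    |W (act b α n) - W (act b α (n - Pi.single i 1))| ≤ L1 / H * (Cg * A) := by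
  refine (hW.lip _ _).trans ?_
  apply mul_le_mul_of_nonneg_left _ (by positivity)
  rw [← act_sub, sub_sub_cancel]
  have h1 : nn (act b α (Pi.single i 1)) ≤ Cg * A := by
    refine (hg.act_le α _).trans ?_
    calc Cg * sz b α * nn (Pi.single i (1 : ℤ) : Fin D → ℤ) ≤ Cg * A * 1 := by
          apply Nat.mul_le_mul
          · exact Nat.mul_le_mul_left _ hα
          · exact nn_single i
      _ = Cg * A := by ring
  exact_mod_cast h1

lemma min_pair_lip {a c a' c' e : ℝ} (ha : |a| ≤ 1) (hc' : |c'| ≤ 1) (h1 : |a - c| ≤ e)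
    (h2 : |a' - c'| ≤ e) : |a * a' - c * c'| ≤ 2 * e := by
  have h : a * a' - c * c' = a * (a' - c') + (a - c) * c' := by ring
  rw [h]
  refine (abs_add_le _ _).trans ?_
  rw [abs_mul, abs_mul]
  have h3 : |a| * |a' - c'| ≤ 1 * e := mul_le_mul ha h2 (abs_nonneg _) (by norm_num)
  have h4 : |a - c| * |c'| ≤ e * 1 := mul_le_mul h1 hc' (abs_nonneg _)
    ((abs_nonneg _).trans h1)
  linarith

lemma IsWt.abs_le_one {H : ℕ} {L1 : ℝ} {W : (Fin D → ℤ) → ℝ} (hW : IsWt H L1 W)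
    (n : Fin D → ℤ) : |W n| ≤ 1 := by
  rw [abs_of_nonneg (hW.nonneg n)]
  exact hW.le_one n

/-- the bound for a pair which is not near -/
lemma min_pair {Cg : ℕ} (hg : GeoC b Cg) {H Q A R : ℕ} {L1 : ℝ} (hL1 : 0 ≤ L1)
    {W : (Fin D → ℤ) → ℝ} (hW : IsWt H L1 W) (hH : 1 ≤ H) (hQ : 1 ≤ Q) (hA : 1 ≤ A)
    {α α' : 𝓞 K} (hα : sz b α ≤ A) (hα' : sz b α' ≤ A)
    (hs : ∀ m, m ∉ sbx D R → W (act b α m) = 0) (θ : Fin D → ℝ)
    (hnear : ¬ Near (star b (α - α') θ) (A * Q / H)) :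
    ‖∑ m ∈ sbx D R, ((W (act b α m) : ℂ) * (W (act b α' m) : ℂ)) *
      ee (dot (star b (α - α') θ) m)‖ ≤ (2 * R + 3) ^ D * (L1 * Cg / (2 * Q)) := by
  unfold Near at hnear
  rw [not_forall] at hnear
  obtain ⟨i, hi⟩ := hnear
  rw [not_le] at hi
  set φ := star b (α - α') θ with hφ
  have hHr : (1 : ℝ) ≤ H := by exact_mod_cast hH
  have hQr : (1 : ℝ) ≤ Q := by exact_mod_cast hQ
  have hAr : (1 : ℝ) ≤ A := by exact_mod_cast hA
  have hHpos : (0 : ℝ) < H := by linarith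
  have hQpos : (0 : ℝ) < Q := by linarith
  have hApos : (0 : ℝ) < A := by linarith
  have key := sbp (fun m => (W (act b α m) : ℂ) * (W (act b α' m) : ℂ)) (sbx D R)
    (sbx D (R + 1)) i (2 * (L1 / H * (Cg * A)))
    (by
      intro n hn
      simp only [hs n hn, Complex.ofReal_zero, zero_mul])
    (by
      intro n hn
      rw [mem_sbx] at hn ⊢
      omega)
    (by
      intro n hn
      rw [mem_sbx] at hn ⊢
      have h1 := nn_add_le n (Pi.single i (1 : ℤ))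
      have h2 := nn_single (D := D) i
      omega)
    (by
      intro n
      have h1 := min_pair_lip (hW.abs_le_one (act b α n))
        (hW.abs_le_one (act b α' (n - Pi.single i 1))) (min_lip hg hL1 hW hα n i)
        (min_lip hg hL1 hW hα' n i)
      have h2 : ((W (act b α n) : ℂ) * (W (act b α' n) : ℂ)) -
          ((W (act b α (n - Pi.single i 1)) : ℂ) * (W (act b α' (n - Pi.single i 1)) : ℂ)) =
          ((W (act b α n) * W (act b α' n) -
          W (act b α (n - Pi.single i 1)) * W (act b α' (n - Pi.single i 1)) : ℝ) : ℂ) := by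
        push_cast
        ring
      rw [h2, Complex.norm_real, Real.norm_eq_abs]
      exact h1) φ
  set S := ‖∑ m ∈ sbx D R, ((W (act b α m) : ℂ) * (W (act b α' m) : ℂ)) * ee (dot φ m)‖ with hS
  have hS0 : 0 ≤ S := norm_nonneg _
  rw [card_sbx] at key
  have hdi : (A : ℝ) * Q / H ≤ di (φ i) := hi.le
  have h3 : 4 * ((A : ℝ) * Q / H) * S ≤
      (2 * R + 3) ^ D * (2 * (L1 / H * (Cg * A))) := by
    refine le_trans ?_ (key.trans (le_of_eq ?_))
    · apply mul_le_mul_of_nonneg_right _ hS0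
      linarith
    · push_cast
      ring
  have h4 : (2 * (R : ℝ) + 3) ^ D * (2 * (L1 / H * (Cg * A))) =
      4 * ((A : ℝ) * Q / H) * ((2 * R + 3) ^ D * (L1 * Cg / (2 * Q))) := by
    field_simp
    ring
  rw [h4] at h3
  exact le_of_mul_le_mul_left h3 (by positivity)

/-- expansion of the square -/
lemma min_square (𝒞 : Finset (𝓞 K)) (χ : 𝓞 K → ℂ) (hχ : ∀ x, ‖χ x‖ ≤ 1) (R : ℕ)
    (W : (Fin D → ℤ) → ℝ) (θ : Fin D → ℝ) :
    ∑ m ∈ sbx D R, ‖∑ α ∈ 𝒞, χ α * ((W (act b α m) : ℂ) * ee (dot θ (act b α m)))‖ ^ 2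
      ≤ ∑ α ∈ 𝒞, ∑ α' ∈ 𝒞, ‖∑ m ∈ sbx D R, ((W (act b α m) : ℂ) * (W (act b α' m) : ℂ)) *
      ee (dot (star b (α - α') θ) m)‖ := by
  have h1 : ∀ m, ((‖∑ α ∈ 𝒞, χ α * ((W (act b α m) : ℂ) * ee (dot θ (act b α m)))‖ ^ 2 : ℝ) : ℂ)
      = ∑ α ∈ 𝒞, ∑ α' ∈ 𝒞, (χ α * (starRingEnd ℂ) (χ α')) *
        (((W (act b α m) : ℂ) * (W (act b α' m) : ℂ)) * ee (dot (star b (α - α') θ) m)) := by
    intro m
    have h2 : ((‖∑ α ∈ 𝒞, χ α * ((W (act b α m) : ℂ) * ee (dot θ (act b α m)))‖ ^ 2 : ℝ) : ℂ)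
        = (∑ α ∈ 𝒞, χ α * ((W (act b α m) : ℂ) * ee (dot θ (act b α m)))) *
          (starRingEnd ℂ) (∑ α ∈ 𝒞, χ α * ((W (act b α m) : ℂ) * ee (dot θ (act b α m)))) := by
      rw [Complex.mul_conj, Complex.normSq_eq_norm_sq]
    rw [h2, map_sum, Finset.sum_mul_sum]
    refine sum_congr rfl (fun α _ => sum_congr rfl (fun α' _ => ?_))
    rw [map_mul, map_mul, Complex.conj_ofReal, ← ee_neg]
    have h3 : ee (dot (star b (α - α') θ) m) = ee (dot θ (act b α m)) *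
        ee (-(dot θ (act b α' m))) := by
      rw [← ee_add, dot_star, sub_act, dot_sub, sub_eq_add_neg]
    rw [h3]
    ring
  have h4 : ((∑ m ∈ sbx D R, ‖∑ α ∈ 𝒞, χ α * ((W (act b α m) : ℂ) *
      ee (dot θ (act b α m)))‖ ^ 2 : ℝ) : ℂ) = ∑ α ∈ 𝒞, ∑ α' ∈ 𝒞,
      (χ α * (starRingEnd ℂ) (χ α')) * ∑ m ∈ sbx D R, ((W (act b α m) : ℂ) *
      (W (act b α' m) : ℂ)) * ee (dot (star b (α - α') θ) m) := by
    rw [Complex.ofReal_sum, Finset.sum_congr rfl (fun m _ => h1 m), Finset.sum_comm]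
    refine sum_congr rfl (fun α _ => ?_)
    rw [Finset.sum_comm]
    refine sum_congr rfl (fun α' _ => ?_)
    rw [Finset.mul_sum]
  have h5 : (0 : ℝ) ≤ ∑ m ∈ sbx D R, ‖∑ α ∈ 𝒞, χ α * ((W (act b α m) : ℂ) *
      ee (dot θ (act b α m)))‖ ^ 2 := sum_nonneg (fun m _ => by positivity)
  have h6 := congrArg norm h4
  rw [Complex.norm_real, Real.norm_eq_abs, abs_of_nonneg h5] at h6
  rw [h6]
  refine (norm_sum_le _ _).trans (sum_le_sum (fun α _ => ?_))
  refine (norm_sum_le _ _).trans (sum_le_sum (fun α' _ => ?_))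
  rw [norm_mul, norm_mul, RCLike.norm_conj]
  have h7 : ‖χ α‖ * ‖χ α'‖ ≤ 1 := mul_le_one₀ (hχ α) (norm_nonneg _) (hχ α')
  exact mul_le_of_le_one_left (norm_nonneg _) h7

lemma card_le_of_sz (𝒞 : Finset (𝓞 K)) (A : ℕ) (hA : ∀ α ∈ 𝒞, sz b α ≤ A) :
    𝒞.card ≤ (2 * A + 1) ^ D := by
  rw [← card_sbx D A]
  apply Finset.card_le_card_of_injOn (fun α => b.equivFun α)
  · intro α hα
    rw [Finset.mem_coe, mem_sbx]
    exact hA α hα
  · intro x _ y _ h
    exact b.equivFun.injective h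

lemma near_card_le (𝒞 : Finset (𝓞 K)) (A : ℕ) (τ : ℝ) (θ : Fin D → ℝ) (α : 𝓞 K)
    (hα : sz b α ≤ A) (hA : ∀ α ∈ 𝒞, sz b α ≤ A) :
    (𝒞.filter (fun α' => Near (star b (α - α') θ) τ)).card ≤
      ((sbx D (4 * A)).filter (fun n => Near (star b (b.equivFun.symm n) θ) τ)).card := by
  apply Finset.card_le_card_of_injOn (fun α' => b.equivFun (α - α'))
  · intro x hx
    rw [Finset.mem_coe, Finset.mem_filter] at hx
    rw [Finset.mem_coe, Finset.mem_filter, mem_sbx]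
    constructor
    · have h1 := sz_sub_le (b := b) α x
      have h2 := hA x hx.1
      change sz b (α - x) ≤ 4 * A
      omega
    · rw [LinearEquiv.symm_apply_apply]
      exact hx.2
  · intro x _ y _ h
    have := b.equivFun.injective h
    exact sub_right_injective this

/-- bound for one dyadic class -/
lemma min_class {Cg Cn : ℕ} (hg : GeoC b Cg) {H Q A R : ℕ} {L1 : ℝ} (hL1 : 0 ≤ L1)
    {W : (Fin D → ℤ) → ℝ} (hW : IsWt H L1 W) (hH : 1 ≤ H) (hQ : 1 ≤ Q) (hA : 1 ≤ A)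
    (𝒞 : Finset (𝓞 K)) (χ : 𝓞 K → ℂ) (hχ : ∀ x, ‖χ x‖ ≤ 1)
    (β : (Fin D → ℤ) → ℂ) (hβ : ∀ n, ‖β n‖ ≤ 1)
    (hsz : ∀ α ∈ 𝒞, sz b α ≤ A) (hs : ∀ α ∈ 𝒞, ∀ m, m ∉ sbx D R → W (act b α m) = 0)
    (θ : Fin D → ℝ)
    (hnear : (((sbx D (4 * A)).filter
      (fun n => Near (star b (b.equivFun.symm n) θ) (A * Q / H))).card : ℝ) ≤ Cn * A ^ D / Q) :
    ‖∑ m ∈ sbx D R, β m * ∑ α ∈ 𝒞, χ α * ((W (act b α m) : ℂ) * ee (dot θ (act b α m)))‖ ^ 2 ≤
      (3 ^ D * (Cn + 3 ^ D * (L1 * Cg))) * ((A : ℝ) ^ D * (2 * R + 3) ^ D) ^ 2 / Q := by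
  have hQr : (1 : ℝ) ≤ Q := by exact_mod_cast hQ
  have hAr : (1 : ℝ) ≤ A := by exact_mod_cast hA
  have hQpos : (0 : ℝ) < Q := by linarith
  have hApos : (0 : ℝ) < A := by linarith
  set M : ℝ := (2 * R + 3) ^ D with hM
  have hMpos : 0 < M := by rw [hM]; positivity
  have hcardS : ((sbx D R).card : ℝ) ≤ M := by
    rw [card_sbx, hM]
    push_cast
    gcongr
    norm_num
  -- the number of elements
  have hcard : (𝒞.card : ℝ) ≤ 3 ^ D * A ^ D := by
    calc (𝒞.card : ℝ) ≤ (((2 * A + 1) ^ D : ℕ) : ℝ) := by exact_mod_cast card_le_of_sz 𝒞 A hsz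
      _ = (2 * (A : ℝ) + 1) ^ D := by push_cast; ring
      _ ≤ (3 * (A : ℝ)) ^ D := by
          gcongr
          linarith
      _ = 3 ^ D * A ^ D := by rw [mul_pow]
  -- the sum of squares
  have hsq : ∑ m ∈ sbx D R, ‖∑ α ∈ 𝒞, χ α * ((W (act b α m) : ℂ) * ee (dot θ (act b α m)))‖ ^ 2
      ≤ (3 ^ D * A ^ D) * ((Cn * A ^ D / Q) * M + (3 ^ D * A ^ D) * (M * (L1 * Cg / (2 * Q)))) := by
    refine (min_square 𝒞 χ hχ R W θ).trans ?_
    have hrow : ∀ α ∈ 𝒞, ∑ α' ∈ 𝒞, ‖∑ m ∈ sbx D R, ((W (act b α m) : ℂ) *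
        (W (act b α' m) : ℂ)) * ee (dot (star b (α - α') θ) m)‖ ≤
        (Cn * A ^ D / Q) * M + (3 ^ D * A ^ D) * (M * (L1 * Cg / (2 * Q))) := by
      intro α hα
      rw [← Finset.sum_filter_add_sum_filter_not 𝒞
        (fun α' => Near (star b (α - α') θ) (A * Q / H))]
      apply add_le_add
      · have h1 : ∀ α' ∈ 𝒞.filter (fun α' => Near (star b (α - α') θ) (A * Q / H)),
            ‖∑ m ∈ sbx D R, ((W (act b α m) : ℂ) *
            (W (act b α' m) : ℂ)) * ee (dot (star b (α - α') θ) m)‖ ≤ M := by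
          intro α' _
          refine (norm_sum_le _ _).trans (le_trans ?_ hcardS)
          rw [← nsmul_one, ← Finset.sum_const]
          refine sum_le_sum (fun m _ => ?_)
          rw [norm_mul, norm_mul, norm_ee, mul_one, Complex.norm_real, Complex.norm_real,
            Real.norm_eq_abs, Real.norm_eq_abs]
          exact mul_le_one₀ (hW.abs_le_one _) (abs_nonneg _) (hW.abs_le_one _)
        refine (Finset.sum_le_card_nsmul _ _ _ h1).trans ?_
        rw [nsmul_eq_mul]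
        apply mul_le_mul_of_nonneg_right _ hMpos.le
        refine le_trans ?_ hnear
        exact_mod_cast near_card_le 𝒞 A _ θ α (hsz α hα) hsz
      · have h1 : ∀ α' ∈ 𝒞.filter (fun α' => ¬ Near (star b (α - α') θ) (A * Q / H)),
            ‖∑ m ∈ sbx D R, ((W (act b α m) : ℂ) *
            (W (act b α' m) : ℂ)) * ee (dot (star b (α - α') θ) m)‖ ≤
            M * (L1 * Cg / (2 * Q)) := by
          intro α' hα'
          rw [Finset.mem_filter] at hα'
          exact min_pair hg hL1 hW hH hQ hA (hsz α hα) (hsz α' hα'.1) (hs α hα) θ hα'.2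
        refine (Finset.sum_le_card_nsmul _ _ _ h1).trans ?_
        rw [nsmul_eq_mul]
        apply mul_le_mul_of_nonneg_right _ (by positivity)
        refine le_trans ?_ hcard
        exact_mod_cast Finset.card_filter_le _ _
    refine (Finset.sum_le_card_nsmul _ _ _ hrow).trans ?_
    rw [nsmul_eq_mul]
    apply mul_le_mul_of_nonneg_right hcard (by positivity)
  -- Cauchy-Schwarz
  have hcs : ‖∑ m ∈ sbx D R, β m * ∑ α ∈ 𝒞, χ α *
      ((W (act b α m) : ℂ) * ee (dot θ (act b α m)))‖ ^ 2 ≤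
      M * ∑ m ∈ sbx D R, ‖∑ α ∈ 𝒞, χ α *
      ((W (act b α m) : ℂ) * ee (dot θ (act b α m)))‖ ^ 2 := by
    have h1 : ‖∑ m ∈ sbx D R, β m * ∑ α ∈ 𝒞, χ α *
      ((W (act b α m) : ℂ) * ee (dot θ (act b α m)))‖ ≤ ∑ m ∈ sbx D R, ‖∑ α ∈ 𝒞, χ α *
      ((W (act b α m) : ℂ) * ee (dot θ (act b α m)))‖ := by
      refine (norm_sum_le _ _).trans (sum_le_sum (fun m _ => ?_))
      rw [norm_mul]
      exact mul_le_of_le_one_left (norm_nonneg _) (hβ m)
    refine (pow_le_pow_left₀ (norm_nonneg _) h1 2).trans ?_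
    refine (sq_sum_le_card_mul_sum_sq).trans ?_
    apply mul_le_mul_of_nonneg_right hcardS
    exact sum_nonneg (fun m _ => by positivity)
  refine hcs.trans ?_
  refine (mul_le_mul_of_nonneg_left hsq hMpos.le).trans ?_
  have hfin : M * ((3 ^ D * A ^ D) * ((Cn * A ^ D / Q) * M +
      (3 ^ D * A ^ D) * (M * (L1 * Cg / (2 * Q))))) =
      (3 ^ D * (Cn + 3 ^ D * (L1 * Cg) / 2)) * ((A : ℝ) ^ D * M) ^ 2 / Q := by
    field_simp
  rw [hfin]
  gcongr
  have : 0 ≤ (3 : ℝ) ^ D * (L1 * Cg) := by positivity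
  linarith

lemma Major.mono {Q : ℕ} {τ τ' : ℝ} {θ : Fin D → ℝ} (h : Major b Q τ θ) (hτ : τ ≤ τ') :
    Major b Q τ' θ := by
  obtain ⟨κ, h1, h2, h3⟩ := h
  exact ⟨κ, h1, h2, fun i => (h3 i).trans hτ⟩

variable (b)

/-- minor arc bound for the bilinear form -/
theorem min_bound (C0 : ℕ) (L1 : ℝ) : ∃ C : ℕ, 1 ≤ C ∧ ∀ (𝒜 : Finset (𝓞 K)) (χ : 𝓞 K → ℂ)
    (β : (Fin D → ℤ) → ℂ) (A0 l Q H R : ℕ) (W : (Fin D → ℤ) → ℝ) (θ : Fin D → ℝ),
    MulSet b C0 A0 (2 ^ l) 𝒜 → (∀ x, ‖χ x‖ ≤ 1) → (∀ n, ‖β n‖ ≤ 1) → 1 ≤ l → 1 ≤ Q → Q ≤ A0 →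
    2 ^ (C * l) * Q ^ C ≤ H → IsWt H L1 W → C0 * H ≤ R →
    ¬ Major b Q (C * Q ^ C / H) θ →
    ‖∑ α ∈ 𝒜, χ α * ∑ m ∈ sbx D R, β m * ((W (act b α m) : ℂ) * ee (dot θ (act b α m)))‖
      ≤ C * l * H ^ D / Real.sqrt Q := by
  obtain ⟨Cg, hg⟩ := exists_geoC b
  obtain ⟨Cn, hCn1, hCn⟩ := near_count b
  set L : ℝ := max L1 0 with hL
  have hL0 : 0 ≤ L := le_max_right _ _
  set E : ℝ := 3 ^ D * (Cn + 3 ^ D * (L * Cg)) with hE
  have hE0 : 0 ≤ E := by positivity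
  set P : ℝ := 2 * (4 * C0 + 3) ^ D * Real.sqrt E with hP
  have hP0 : 0 ≤ P := by positivity
  refine ⟨Cn + 4 + ⌈P⌉₊, by omega, ?_⟩
  intro 𝒜 χ β A0 l Q H R W θ hM hχ hβ hl hQ hQA hH hW hR hmaj
  set C : ℕ := Cn + 4 + ⌈P⌉₊ with hC
  have hCP : P ≤ C := by
    refine (Nat.le_ceil P).trans ?_
    have : ⌈P⌉₊ ≤ C := by omega
    exact_mod_cast this
  have hQr : (1 : ℝ) ≤ Q := by exact_mod_cast hQ
  have hQpos : (0 : ℝ) < Q := by linarith
  have hH1 : 1 ≤ H := by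
    refine le_trans ?_ hH
    exact Nat.one_le_iff_ne_zero.mpr (by positivity)
  have hHr : (1 : ℝ) ≤ H := by exact_mod_cast hH1
  have hHpos : (0 : ℝ) < H := by linarith
  have hW' : IsWt H L W :=
    { nonneg := hW.nonneg
      le_one := hW.le_one
      supp := hW.supp
      lip := fun m n => (hW.lip m n).trans (by
        apply mul_le_mul_of_nonneg_right _ (Nat.cast_nonneg _)
        exact div_le_div_of_nonneg_right (le_max_left _ _) hHpos.le) }
  have hsQ : 0 < Real.sqrt Q := Real.sqrt_pos.mpr hQpos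
  set B : ℝ := Real.sqrt E * ((4 * C0 + 3) * H) ^ D / Real.sqrt Q with hB
  have hB0 : 0 ≤ B := by positivity
  have hmaps : ∀ α ∈ 𝒜, Nat.log 2 (sz b α) ∈ range (l + 1) := by
    intro α hα
    rw [mem_range]
    have h1 := Nat.log_mono_right (b := 2) (hM.le α hα)
    rw [Nat.log_pow (by norm_num)] at h1
    omega
  rw [← Finset.sum_fiberwise_of_maps_to hmaps]
  have hclass : ∀ a ∈ range (l + 1), ‖∑ α ∈ 𝒜 with Nat.log 2 (sz b α) = a,
      χ α * ∑ m ∈ sbx D R, β m * ((W (act b α m) : ℂ) * ee (dot θ (act b α m)))‖ ≤ B := by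
    intro a ha
    rw [mem_range] at ha
    rcases Finset.eq_empty_or_nonempty (𝒜.filter (fun α => Nat.log 2 (sz b α) = a)) with he | hne
    · rw [he]
      simpa using hB0
    have hsz : ∀ α ∈ 𝒜.filter (fun α => Nat.log 2 (sz b α) = a), 2 ^ a ≤ sz b α ∧
        sz b α < 2 ^ (a + 1) := by
      intro α hα
      rw [Finset.mem_filter] at hα
      have h0 : sz b α ≠ 0 := (sz_pos (hM.ne_zero α hα.1)).ne'
      rw [← hα.2]
      exact ⟨Nat.pow_log_le_self 2 h0, Nat.lt_pow_succ_log_self (by norm_num) _⟩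
    set A : ℕ := 2 ^ (a + 1) with hA
    set Ra : ℕ := C0 * H / 2 ^ a with hRa
    have hA1 : 1 ≤ A := Nat.one_le_two_pow
    have hsup : ∀ α ∈ 𝒜.filter (fun α => Nat.log 2 (sz b α) = a), ∀ m, m ∉ sbx D Ra →
        W (act b α m) = 0 := by
      intro α hα m hm
      apply hW.supp
      intro hmem
      apply hm
      rw [mem_sbx, hRa, Nat.le_div_iff_mul_le (by positivity)]
      have h1 := mem_sbx.mp (bx_subset_sbx D H hmem)
      have h2 := hM.bal α (Finset.mem_filter.mp hα).1 m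
      calc nn m * 2 ^ a ≤ nn m * sz b α := Nat.mul_le_mul_left _ (hsz α hα).1
        _ = sz b α * nn m := by ring
        _ ≤ C0 * nn (act b α m) := h2
        _ ≤ C0 * H := Nat.mul_le_mul_left _ h1
    have hRaR : Ra ≤ R := (Nat.div_le_self _ _).trans hR
    have hQA' : Q ≤ A := by
      obtain ⟨α, hα⟩ := hne
      have h1 := hM.ge α (Finset.mem_filter.mp hα).1
      have h2 := (hsz α hα).2
      omega
    have hAH : A ≤ H := by
      refine le_trans ?_ hH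
      calc A ≤ 2 ^ (C * l) := by
            rw [hA]
            apply Nat.pow_le_pow_right (by norm_num)
            nlinarith
        _ ≤ 2 ^ (C * l) * Q ^ C := Nat.le_mul_of_pos_right _ (by positivity)
    have hAHr : (A : ℝ) ≤ H := by exact_mod_cast hAH
    have hcond : Cn * A ^ 2 * Q ^ Cn ≤ H := by
      refine le_trans ?_ hH
      apply Nat.mul_le_mul
      · calc Cn * A ^ 2 ≤ 2 ^ Cn * (2 ^ (a + 1)) ^ 2 := by
              apply Nat.mul_le_mul_right
              exact Nat.lt_two_pow_self.le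
          _ = 2 ^ (Cn + (a + 1) * 2) := by rw [← pow_mul, ← pow_add]
          _ ≤ 2 ^ (C * l) := by
              apply Nat.pow_le_pow_right (by norm_num)
              nlinarith
      · exact Nat.pow_le_pow_right hQ (by omega)
    have hcondr : (Cn : ℝ) * A ^ 2 * Q ^ Cn ≤ H := by exact_mod_cast hcond
    have hCnC : (Cn : ℝ) ≤ C := by
      have : Cn ≤ C := by omega
      exact_mod_cast this
    have hnm : ¬ Major b Q (Cn * Q ^ Cn / H) θ := by
      intro h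
      apply hmaj
      apply h.mono
      apply div_le_div_of_nonneg_right _ hHpos.le
      apply mul_le_mul hCnC _ (by positivity) (by positivity)
      exact pow_le_pow_right₀ hQr (by omega)
    have hnc := hCn Q A (H : ℝ) θ hQ hQA' hcondr hnm
    have hmain := min_class hg hL0 hW' hH1 hQ hA1
      (𝒜.filter (fun α => Nat.log 2 (sz b α) = a)) χ hχ β hβ (fun α hα => (hsz α hα).2.le) hsup
      θ hnc
    have hswap : ∑ α ∈ 𝒜 with Nat.log 2 (sz b α) = a,
        χ α * ∑ m ∈ sbx D R, β m * ((W (act b α m) : ℂ) * ee (dot θ (act b α m))) =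
        ∑ m ∈ sbx D Ra, β m * ∑ α ∈ 𝒜 with Nat.log 2 (sz b α) = a,
          χ α * ((W (act b α m) : ℂ) * ee (dot θ (act b α m))) := by
      have h1 : ∀ α ∈ 𝒜.filter (fun α => Nat.log 2 (sz b α) = a),
          χ α * ∑ m ∈ sbx D R, β m * ((W (act b α m) : ℂ) * ee (dot θ (act b α m))) =
          ∑ m ∈ sbx D Ra, β m * (χ α * ((W (act b α m) : ℂ) * ee (dot θ (act b α m)))) := by
        intro α hα
        have hsub : sbx D Ra ⊆ sbx D R := by
          intro m hm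
          rw [mem_sbx] at hm ⊢
          omega
        rw [← Finset.sum_subset hsub (fun m _ hm => by
          rw [hsup α hα m hm]
          simp), Finset.mul_sum]
        refine sum_congr rfl (fun m _ => ?_)
        ring
      rw [Finset.sum_congr rfl h1, Finset.sum_comm]
      refine sum_congr rfl (fun m _ => ?_)
      rw [Finset.mul_sum]
    rw [hswap]
    have hsize : (A : ℝ) * (2 * Ra + 3) ≤ (4 * C0 + 3) * H := by
      have h1 : (Ra : ℝ) * 2 ^ a ≤ C0 * H := by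
        have : Ra * 2 ^ a ≤ C0 * H := Nat.div_mul_le_self _ _
        exact_mod_cast this
      have h2 : (A : ℝ) = 2 * 2 ^ a := by
        rw [hA]
        push_cast
        ring
      have h3 : (A : ℝ) * (2 * Ra + 3) = 4 * (Ra * 2 ^ a) + 3 * A := by
        rw [h2]
        ring
      rw [h3]
      nlinarith
    have hsize2 : ((A : ℝ) ^ D * (2 * Ra + 3) ^ D) ^ 2 ≤ (((4 * C0 + 3) * H) ^ D) ^ 2 := by
      apply pow_le_pow_left₀ (by positivity)
      rw [← mul_pow]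
      exact pow_le_pow_left₀ (by positivity) hsize D
    have hBsq : B ^ 2 = E * (((4 * C0 + 3) * H) ^ D) ^ 2 / Q := by
      rw [hB, div_pow, mul_pow, Real.sq_sqrt hE0, Real.sq_sqrt hQpos.le]
    refine (pow_le_pow_iff_left₀ (norm_nonneg _) hB0 two_ne_zero).mp ?_
    rw [hBsq]
    refine hmain.trans ?_
    gcongr
  refine (norm_sum_le _ _).trans ((Finset.sum_le_card_nsmul _ _ _ hclass).trans ?_)
  rw [nsmul_eq_mul, Finset.card_range]
  have hlr : (1 : ℝ) ≤ l := by exact_mod_cast hl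
  calc (((l + 1 : ℕ)) : ℝ) * B ≤ (2 * l) * B := by
        apply mul_le_mul_of_nonneg_right _ hB0
        push_cast
        linarith
    _ = P * l * H ^ D / Real.sqrt Q := by
        rw [hB, hP, mul_pow]
        ring
    _ ≤ C * l * H ^ D / Real.sqrt Q := by
        gcongr

end

end Pool.Agent.H10.Sar
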