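import Pool.Agent.H10.Sar.TorDefs
set_option autoImplicit false
set_option linter.unusedSectionVars false

namespace Pool.Agent.H10.Sar

open NumberField Module Finset
open scoped Classical

noncomputable section

lemma mem_tor {D q0 q1 : ℕ} {l : ℕ × (Fin D → ℤ)} : l ∈ tor D q0 q1 ↔
    ((q0 ≤ l.1 ∧ l.1 < q1) ∧ (∀ i, 0 ≤ l.2 i ∧ l.2 i < q1)) ∧ (∀ i, l.2 i < l.1) ∧
    ∀ d : ℕ, (∀ i, (l.1 : ℤ) ∣ d * l.2 i) → l.1 ∣ d := by
  unfold tor
  rw [mem_filter, mem_product, mem_Ico, mem_bx]

theorem card_tor_le (D q0 q1 : ℕ) : (tor D q0 q1).card ≤ q1 ^ (D + 1) := by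
  unfold tor
  refine (card_filter_le _ _).trans ?_
  rw [card_product, card_bx, Nat.card_Ico, pow_succ, mul_comm]
  exact Nat.mul_le_mul_left _ (Nat.sub_le _ _)

/-- `q t` integral and `t` not integral gives `di t` at least `1/q` -/
lemma di_ge_of {t : ℝ} {q : ℝ} (hq : 0 < q) (hm : ∃ m : ℤ, t * q = m) (hqi : ∃ m : ℤ, q = m)
    (ht : ¬ ∃ m : ℤ, t = m) : 1 / q ≤ di t := by
  obtain ⟨m, hm⟩ := hm
  obtain ⟨q', hq'⟩ := hqi
  unfold di
  rw [div_le_iff₀ hq]
  have h1 : |t - round t| * q = |((m - round t * q' : ℤ) : ℝ)| := by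
    have h0 : |t - round t| * q = |(t - round t) * q| := by
      rw [abs_mul, abs_of_pos hq]
    rw [h0]
    congr 1
    rw [sub_mul, hm, hq']
    push_cast
    ring
  rw [h1]
  have h2 : (m - round t * q' : ℤ) ≠ 0 := by
    intro h
    apply ht
    refine ⟨round t, ?_⟩
    have h3 : (t - round t) * q = 0 := by
      rw [sub_mul, hm, hq']
      have := congrArg (fun x : ℤ => (x : ℝ)) h
      push_cast at this
      exact this
    rcases mul_eq_zero.mp h3 with h4 | h4
    · linarith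
    · exact absurd h4 hq.ne'
  have h3 : (1 : ℤ) ≤ |m - round t * q'| := Int.one_le_abs h2
  exact_mod_cast h3

lemma tor_dvd {D q0 q1 : ℕ} {l l' : ℕ × (Fin D → ℤ)} (hl : l ∈ tor D q0 q1)
    (h : ∀ i, l.2 i * l'.1 = l'.2 i * l.1) : l.1 ∣ l'.1 := by
  rw [mem_tor] at hl
  apply hl.2.2 l'.1
  intro i
  refine ⟨l'.2 i, ?_⟩
  have := h i
  linarith

/-- distinct rational points are separated modulo integer vectors -/
theorem tor_sep {D q0 q1 : ℕ} (h0 : 1 ≤ q0) {l l' : ℕ × (Fin D → ℤ)} (hl : l ∈ tor D q0 q1)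
    (hl' : l' ∈ tor D q0 q1) (hne : l ≠ l') :
    ∃ i, 1 / ((l.1 : ℝ) * l'.1) ≤ di (vec l i - vec l' i) := by
  have hm := mem_tor.mp hl
  have hm' := mem_tor.mp hl'
  have hp : 0 < (l.1 : ℝ) := by
    have : 0 < l.1 := by omega
    exact_mod_cast this
  have hp' : 0 < (l'.1 : ℝ) := by
    have : 0 < l'.1 := by omega
    exact_mod_cast this
  by_contra hcon
  push Not at hcon
  have hint : ∀ i, ∃ m : ℤ, vec l i - vec l' i = m := by
    intro i
    by_contra hno
    have h1 := di_ge_of (t := vec l i - vec l' i) (q := (l.1 : ℝ) * l'.1) (mul_pos hp hp')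
      ⟨l.2 i * l'.1 - l'.2 i * l.1, by
        unfold vec
        push_cast
        field_simp⟩ ⟨(l.1 : ℤ) * l'.1, by push_cast; ring⟩ hno
    exact absurd h1 (not_le.mpr (hcon i))
  have heq : ∀ i, l.2 i * l'.1 = l'.2 i * l.1 := by
    intro i
    obtain ⟨m, hmi⟩ := hint i
    have a1 : 0 ≤ vec l i := by
      unfold vec
      have := (hm.1.2 i).1
      positivity
    have a2 : vec l i < 1 := by
      unfold vec
      rw [div_lt_one hp]
      exact_mod_cast hm.2.1 i
    have b1 : 0 ≤ vec l' i := by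
      unfold vec
      have := (hm'.1.2 i).1
      positivity
    have b2 : vec l' i < 1 := by
      unfold vec
      rw [div_lt_one hp']
      exact_mod_cast hm'.2.1 i
    have c1 : (m : ℝ) < 1 := by rw [← hmi]; linarith
    have c2 : (-1 : ℝ) < m := by rw [← hmi]; linarith
    have c3 : m < 1 := by exact_mod_cast c1
    have c4 : -1 < m := by exact_mod_cast c2
    have c5 : m = 0 := by omega
    rw [c5] at hmi
    have h2 : vec l i = vec l' i := by
      push_cast at hmi
      linarith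
    unfold vec at h2
    rw [div_eq_div_iff hp.ne' hp'.ne'] at h2
    exact_mod_cast h2
  have d1 : l.1 ∣ l'.1 := tor_dvd hl heq
  have d2 : l'.1 ∣ l.1 := tor_dvd hl' (fun i => (heq i).symm)
  have e1 : l.1 = l'.1 := Nat.dvd_antisymm d1 d2
  apply hne
  refine Prod.ext e1 (funext fun i => ?_)
  have h3 := heq i
  rw [← e1] at h3
  have h4 : (l.1 : ℤ) ≠ 0 := by
    have : 0 < l.1 := by omega
    omega
  exact mul_right_cancel₀ h4 h3

/-- every rational point is represented -/
theorem exists_tor {D : ℕ} (z : Fin D → ℤ) (N : ℕ) (hN : 1 ≤ N) :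
    ∃ l ∈ tor D 1 (N + 1), IsInt ((fun i => (z i : ℝ) / N) - vec l) := by
  have hex : ∃ d : ℕ, 0 < d ∧ ∀ i, (N : ℤ) ∣ d * z i := ⟨N, hN, fun i => dvd_mul_right _ _⟩
  set q := Nat.find hex with hq
  have hq1 : 0 < q := (Nat.find_spec hex).1
  have hq2 : ∀ i, (N : ℤ) ∣ q * z i := (Nat.find_spec hex).2
  have hqN : q ≤ N := Nat.find_min' hex ⟨hN, fun i => dvd_mul_right _ _⟩
  have hdiv : ∀ d : ℕ, (∀ i, (N : ℤ) ∣ d * z i) → q ∣ d := by
    intro d hd
    by_contra hnd
    have h1 : 0 < d % q := Nat.pos_of_ne_zero (fun h => hnd (Nat.dvd_of_mod_eq_zero h))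
    have h2 : d % q < q := Nat.mod_lt _ hq1
    refine Nat.find_min hex h2 ⟨h1, fun i => ?_⟩
    have h3 : ((d % q : ℕ) : ℤ) * z i = d * z i - (d / q : ℕ) * (q * z i) := by
      have h4 : ((q * (d / q) + d % q : ℕ) : ℤ) = d := congrArg Nat.cast (Nat.div_add_mod d q)
      rw [Nat.cast_add, Nat.cast_mul] at h4
      linear_combination (z i) * h4
    rw [h3]
    exact dvd_sub (hd i) (Dvd.dvd.mul_left (hq2 i) _)
  choose w hw using hq2
  -- `q z_i = N w_i`
  refine ⟨(q, fun i => w i % q), ?_, ?_⟩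
  · rw [mem_tor]
    have hq0 : (q : ℤ) ≠ 0 := by omega
    have hqpos : (0 : ℤ) < q := by omega
    refine ⟨⟨⟨hq1, by simp only; omega⟩, fun i => ⟨Int.emod_nonneg _ hq0, ?_⟩⟩, fun i => Int.emod_lt_of_pos _ hqpos, ?_⟩
    · have := Int.emod_lt_of_pos (w i) hqpos
      simp only
      push_cast
      omega
    · intro d hd
      simp only at hd ⊢
      apply hdiv
      intro i
      have h1 : (q : ℤ) ∣ d * w i := by
        have h2 : (d : ℤ) * w i = d * (w i % q) + q * (d * (w i / q)) := by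
          have := Int.emod_add_mul_ediv (w i) q
          linear_combination (-(d : ℤ)) * this
        rw [h2]
        exact dvd_add (hd i) (dvd_mul_right _ _)
      obtain ⟨c, hc⟩ := h1
      refine ⟨c, ?_⟩
      have h3 : (q : ℤ) * (d * z i) = q * (N * c) := by
        have h4 := hw i
        linear_combination (d : ℤ) * h4 + (N : ℤ) * hc
      exact mul_left_cancel₀ hq0 h3
  · refine ⟨fun i => w i / q, funext fun i => ?_⟩
    have hNr : (N : ℝ) ≠ 0 := by
      have : 0 < N := hN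
      positivity
    have hqr : (q : ℝ) ≠ 0 := by positivity
    simp only [Pi.sub_apply, vec]
    have h4 : (q : ℝ) * z i = N * w i := by exact_mod_cast hw i
    have h5 : ((w i % q : ℤ) : ℝ) = w i - q * ((w i / q : ℤ) : ℝ) := by
      have := Int.emod_add_mul_ediv (w i) q
      have h6 : (w i % q : ℤ) = w i - q * (w i / q) := by linarith
      rw [h6]
      push_cast
      ring
    rw [h5]
    have h7 : (z i : ℝ) / N = w i / q := by
      rw [div_eq_div_iff hNr hqr]
      linarith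
    rw [h7]
    field_simp
    ring

variable {K : Type*} [Field K] [NumberField K] {D : ℕ} (b : Basis (Fin D) ℤ (𝓞 K))

/-- an integer multiple of a rational point is integral only if the denominator divides -/
lemma tor_dvd_of_isInt {q0 q1 : ℕ} (h0 : 1 ≤ q0) {l : ℕ × (Fin D → ℤ)} (hl : l ∈ tor D q0 q1)
    (c : ℤ) (hint : IsInt ((c : ℝ) • vec l)) : l.1 ∣ c.natAbs := by
  have hm := mem_tor.mp hl
  have hp : (l.1 : ℝ) ≠ 0 := by
    have : 0 < l.1 := by omega
    positivity
  apply hm.2.2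
  intro i
  obtain ⟨z, hz⟩ := hint
  have h1 := congrFun hz i
  simp only [Pi.smul_apply, smul_eq_mul, vec] at h1
  have h2 : (c : ℝ) * l.2 i = l.1 * z i := by
    field_simp at h1
    linarith
  have h3 : c * l.2 i = l.1 * z i := by exact_mod_cast h2
  have h4 : (l.1 : ℤ) ∣ c * l.2 i := ⟨z i, h3⟩
  rw [← Int.dvd_natAbs, Int.natAbs_mul] at h4 ⊢
  simpa using h4

theorem tor_le_norm {q0 q1 : ℕ} (h0 : 1 ≤ q0) {l : ℕ × (Fin D → ℤ)} (hl : l ∈ tor D q0 q1)
    {κ : 𝓞 K} (hκ : κ ≠ 0) (hint : IsInt (star b κ (vec l))) :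
    l.1 ≤ (Algebra.norm ℤ κ).natAbs := by
  obtain ⟨y, hy, _⟩ := exists_cofactor b (x := κ)
  have h1 : IsInt (star b y (star b κ (vec l))) := hint.star b y
  rw [star_star, mul_comm, hy, star_intCast] at h1
  have h2 := tor_dvd_of_isInt h0 hl _ h1
  apply Nat.le_of_dvd _ h2
  rw [Nat.pos_iff_ne_zero, Ne, Int.natAbs_eq_zero]
  exact Algebra.norm_ne_zero_iff.mpr hκ

/-- few `κ` of a box annihilate a rational point of denominator `q` -/
theorem tor_count : ∃ C : ℕ, ∀ (q0 q1 X : ℕ), 1 ≤ q0 → ∀ l ∈ tor D q0 q1, l.1 ≤ X →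
    ∀ a : Fin D → ℤ,
    (((bx D X).filter (fun n => IsInt (star b (b.equivFun.symm (a + n)) (vec l)))).card : ℝ)
      ≤ C * X ^ D / l.1 := by
  set e : Fin D → ℤ := b.equivFun 1 with he
  set s : ℕ := nn e with hs
  refine ⟨(2 * s + 3) ^ D, ?_⟩
  intro q0 q1 X h0 l hl hlX a
  have hm := mem_tor.mp hl
  have hl1 : 1 ≤ l.1 := by omega
  set S := (bx D X).filter (fun n => IsInt (star b (b.equivFun.symm (a + n)) (vec l))) with hS
  have hcard : (S ×ˢ Finset.range l.1).card ≤ (sbx D ((1 + s) * X)).card := by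
    apply Finset.card_le_card_of_injOn (fun p => p.1 + (p.2 : ℤ) • e)
    · intro p hp
      rw [mem_coe, mem_product] at hp
      rw [mem_coe, mem_sbx]
      have h1 : p.1 ∈ sbx D X := bx_subset_sbx D X (mem_filter.mp hp.1).1
      rw [mem_sbx] at h1
      have h2 : p.2 < l.1 := mem_range.mp hp.2
      refine (nn_add_le _ _).trans ?_
      rw [nn_zsmul, Int.natAbs_natCast, ← hs]
      have h3 : p.2 * s ≤ X * s := Nat.mul_le_mul_right _ (by omega)
      nlinarith
    · intro p hp p' hp' h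
      rw [mem_coe, mem_product] at hp hp'
      simp only at h
      have h2 : p.2 < l.1 := mem_range.mp hp.2
      have h2' : p'.2 < l.1 := mem_range.mp hp'.2
      have i1 := (mem_filter.mp hp.1).2
      have i2 := (mem_filter.mp hp'.1).2
      have h3 : b.equivFun.symm (a + p.1) - b.equivFun.symm (a + p'.1) = (((p'.2 : ℤ) - p.2 : ℤ) : 𝓞 K) := by
        have h4 : (a + p.1) - (a + p'.1) = ((p'.2 : ℤ) - p.2) • e := by
          have h5 : p.1 - p'.1 = ((p'.2 : ℤ) - p.2) • e := by
            rw [sub_smul]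
            have := h
            rw [← sub_eq_zero] at this ⊢
            rw [← this]
            abel
          rw [← h5]
          abel
        rw [← map_sub, h4, map_zsmul, he, LinearEquiv.symm_apply_apply, zsmul_eq_mul, mul_one]
      have h6 : IsInt ((((p'.2 : ℤ) - p.2 : ℤ) : ℝ) • vec l) := by
        rw [← star_intCast b, ← h3, sub_star]
        exact i1.sub i2
      have h7 := tor_dvd_of_isInt h0 hl _ h6
      have h8 : ((p'.2 : ℤ) - p.2).natAbs < l.1 := by omega
      have h9 : ((p'.2 : ℤ) - p.2).natAbs = 0 := Nat.eq_zero_of_dvd_of_lt h7 h8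
      have h10 : p.2 = p'.2 := by omega
      rw [h10] at h
      exact Prod.ext (add_right_cancel h) h10
  rw [card_product, card_range, card_sbx] at hcard
  have hb : 2 * ((1 + s) * X) + 1 ≤ (2 * s + 3) * X := by nlinarith
  have hcard2 : S.card * l.1 ≤ (2 * s + 3) ^ D * X ^ D := by
    refine hcard.trans ?_
    rw [← mul_pow]
    exact Nat.pow_le_pow_left hb D
  have hp : (0 : ℝ) < l.1 := by exact_mod_cast hl1
  rw [le_div_iff₀ hp]
  exact_mod_cast hcard2

end

end Pool.Agent.H10.Sar
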