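import Pool.Agent.H10.Sar.TorDefs
set_option autoImplicit false
set_option linter.unusedSectionVars false

namespace Pool.Agent.H10.Sar

open NumberField Module Finset
open scoped Classical

noncomputable section

lemma norm_one_sub_ee_eq (t : ℝ) : ‖1 - ee t‖ = 2 * |Real.sin (Real.pi * t)| := by
  have h := Complex.norm_exp_I_mul_ofReal_sub_one (2 * Real.pi * t)
  have h1 : ee t = Complex.exp (Complex.I * ((2 * Real.pi * t : ℝ) : ℂ)) := by
    unfold ee
    congr 1
    push_cast
    ring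
  rw [norm_sub_rev, h1, h, Real.norm_eq_abs, abs_mul, abs_of_pos (by norm_num : (0 : ℝ) < 2)]
  congr 3
  ring

theorem norm_one_sub_ee (t : ℝ) : 4 * di t ≤ ‖1 - ee t‖ := by
  have h0 : ee t = ee (t - round t) := by
    have := ee_add_int (t - round t) (round t)
    rw [sub_add_cancel] at this
    exact this
  rw [h0, norm_one_sub_ee_eq]
  unfold di
  have h1 : |t - round t| ≤ 1 / 2 := abs_sub_round t
  have h2 : |Real.pi * (t - round t)| ≤ Real.pi / 2 := by
    rw [abs_mul, abs_of_pos Real.pi_pos]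
    nlinarith [Real.pi_pos]
  have h3 := Real.mul_abs_le_abs_sin h2
  rw [abs_mul, abs_of_pos Real.pi_pos] at h3
  have h4 : 2 / Real.pi * (Real.pi * |t - round t|) = 2 * |t - round t| := by
    field_simp
  rw [h4] at h3
  linarith

theorem norm_one_sub_ee_le (t : ℝ) : ‖1 - ee t‖ ≤ 7 * |t| := by
  rw [norm_one_sub_ee_eq]
  have h1 : |Real.sin (Real.pi * t)| ≤ |Real.pi * t| := Real.abs_sin_le_abs
  rw [abs_mul, abs_of_pos Real.pi_pos] at h1
  have h2 := Real.pi_lt_d2
  nlinarith [abs_nonneg t]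

/-- summation by parts for a function with finite support -/
theorem sbp {D : ℕ} (f : (Fin D → ℤ) → ℂ) (S T : Finset (Fin D → ℤ)) (i : Fin D) (L : ℝ)
    (hS : ∀ n, n ∉ S → f n = 0) (hST : S ⊆ T) (hT : ∀ n ∈ S, n + Pi.single i 1 ∈ T)
    (hL : ∀ n, ‖f n - f (n - Pi.single i 1)‖ ≤ L) (φ : Fin D → ℝ) :
    4 * di (φ i) * ‖∑ n ∈ S, f n * ee (dot φ n)‖ ≤ T.card * L := by
  have h1 : ∑ n ∈ T, f n * ee (dot φ n) = ∑ n ∈ S, f n * ee (dot φ n) := by
    symm
    apply sum_subset hST
    intro n _ hn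
    rw [hS n hn, zero_mul]
  have h2 : ∑ n ∈ T, f (n - Pi.single i 1) * ee (dot φ n)
      = ee (φ i) * ∑ n ∈ S, f n * ee (dot φ n) := by
    rw [mul_sum]
    have hinj : Function.Injective (fun n : Fin D → ℤ => n + Pi.single i 1) :=
      add_left_injective _
    have h3 : ∑ n ∈ S.map ⟨fun n : Fin D → ℤ => n + Pi.single i 1, hinj⟩,
        f (n - Pi.single i 1) * ee (dot φ n) = ∑ n ∈ S, ee (φ i) * (f n * ee (dot φ n)) := by
      rw [sum_map]
      refine sum_congr rfl (fun n _ => ?_)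
      simp only [Function.Embedding.coeFn_mk, add_sub_cancel_right]
      rw [dot_add, dot_single, ee_add]
      ring
    rw [← h3]
    symm
    apply sum_subset
    · intro n hn
      rw [mem_map] at hn
      obtain ⟨m, hm, rfl⟩ := hn
      exact hT m hm
    · intro n _ hn
      have : n - Pi.single i 1 ∉ S := by
        intro h
        apply hn
        rw [mem_map]
        exact ⟨n - Pi.single i 1, h, by simp⟩
      rw [hS _ this, zero_mul]
  have h4 : (1 - ee (φ i)) * ∑ n ∈ S, f n * ee (dot φ n)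
      = ∑ n ∈ T, (f n - f (n - Pi.single i 1)) * ee (dot φ n) := by
    rw [sub_mul, one_mul, ← h2, ← h1, ← sum_sub_distrib]
    refine sum_congr rfl (fun n _ => ?_)
    ring
  calc 4 * di (φ i) * ‖∑ n ∈ S, f n * ee (dot φ n)‖
      ≤ ‖1 - ee (φ i)‖ * ‖∑ n ∈ S, f n * ee (dot φ n)‖ :=
        mul_le_mul_of_nonneg_right (norm_one_sub_ee _) (norm_nonneg _)
    _ = ‖∑ n ∈ T, (f n - f (n - Pi.single i 1)) * ee (dot φ n)‖ := by rw [← norm_mul, h4]
    _ ≤ ∑ n ∈ T, L := by
        refine (norm_sum_le _ _).trans (sum_le_sum (fun n _ => ?_))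
        rw [norm_mul, norm_ee, mul_one]
        exact hL n
    _ = T.card * L := by rw [sum_const, nsmul_eq_mul]

lemma card_bx_slice (D N : ℕ) (i : Fin D) (c : ℤ) :
    ((bx D N).filter (fun n => n i = c)).card ≤ N ^ (D - 1) := by
  have h1 : (bx D N).filter (fun n => n i = c)
      ⊆ Fintype.piFinset (Function.update (fun _ => Finset.Ico (0 : ℤ) N) i {c}) := by
    intro n hn
    rw [mem_filter, mem_bx] at hn
    rw [Fintype.mem_piFinset]
    intro j
    by_cases hj : j = i
    · subst hj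
      rw [Function.update_self, mem_singleton]
      exact hn.2
    · rw [Function.update_of_ne hj, mem_Ico]
      exact hn.1 j
  refine (card_le_card h1).trans (le_of_eq ?_)
  rw [Fintype.card_piFinset, ← mul_prod_erase univ _ (mem_univ i)]
  rw [Function.update_self, card_singleton, one_mul]
  have h2 : ∏ j ∈ univ.erase i, (Function.update (fun _ : Fin D => Finset.Ico (0 : ℤ) N) i {c} j).card
      = ∏ _j ∈ univ.erase i, N := by
    refine prod_congr rfl (fun j hj => ?_)
    rw [Function.update_of_ne (ne_of_mem_erase hj)]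
    simp
  rw [h2, prod_const, card_erase_of_mem (mem_univ i), card_univ, Fintype.card_fin]

theorem sum_bx_ee_le {D : ℕ} (θ : Fin D → ℝ) (y : Fin D → ℤ) (N : ℕ) (i : Fin D) :
    2 * di (θ i) * ‖∑ n ∈ bx D N, ee (dot θ (y + n))‖ ≤ (N : ℝ) ^ (D - 1) := by
  set A := bx D N with hA
  set g : (Fin D → ℤ) → ℂ := fun n => ee (dot θ (y + n)) with hg
  have hinj : Function.Injective (fun n : Fin D → ℤ => n + Pi.single i 1) :=
    add_left_injective _
  set B := A.map ⟨fun n : Fin D → ℤ => n + Pi.single i 1, hinj⟩ with hB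
  have hcard : B.card = A.card := card_map _
  have hsum : ∑ n ∈ B, g n = ee (θ i) * ∑ n ∈ A, g n := by
    rw [hB, sum_map, mul_sum]
    refine sum_congr rfl (fun n _ => ?_)
    simp only [Function.Embedding.coeFn_mk, hg]
    rw [← add_assoc, dot_add, dot_single, ee_add]
    ring
  have h1 : ∑ n ∈ A, g n - ∑ n ∈ B, g n = ∑ n ∈ A \ B, g n - ∑ n ∈ B \ A, g n := by
    have e1 := sum_inter_add_sum_sdiff A B g
    have e2 := sum_inter_add_sum_sdiff B A g
    rw [inter_comm B A] at e2
    rw [← e1, ← e2]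
    ring
  have hAB : (A \ B).card ≤ N ^ (D - 1) := by
    refine (card_le_card ?_).trans (card_bx_slice D N i 0)
    intro n hn
    rw [mem_sdiff] at hn
    rw [mem_filter]
    refine ⟨hn.1, ?_⟩
    by_contra hne
    apply hn.2
    rw [hB, mem_map]
    refine ⟨n - Pi.single i 1, ?_, by simp⟩
    have hn1 := mem_bx.mp hn.1
    rw [hA, mem_bx]
    intro j
    by_cases hj : j = i
    · subst hj
      simp only [Pi.sub_apply, Pi.single_eq_same]
      have := hn1 j
      omega
    · simp only [Pi.sub_apply, Pi.single_eq_of_ne hj, sub_zero]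
      exact hn1 j
  have hBA : (B \ A).card ≤ N ^ (D - 1) := by
    rw [card_sdiff_comm hcard]
    exact hAB
  have hnorm : ∀ U : Finset (Fin D → ℤ), ‖∑ n ∈ U, g n‖ ≤ U.card := by
    intro U
    refine (norm_sum_le _ _).trans ?_
    rw [card_eq_sum_ones]
    push_cast
    exact sum_le_sum (fun n _ => by simp only [hg]; rw [norm_ee])
  have hAB' : ((A \ B).card : ℝ) ≤ (N : ℝ) ^ (D - 1) := by exact_mod_cast hAB
  have hBA' : ((B \ A).card : ℝ) ≤ (N : ℝ) ^ (D - 1) := by exact_mod_cast hBA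
  have h2 : ‖1 - ee (θ i)‖ * ‖∑ n ∈ A, g n‖ ≤ 2 * (N : ℝ) ^ (D - 1) := by
    rw [← norm_mul, sub_mul, one_mul, ← hsum, h1]
    refine (norm_sub_le _ _).trans ?_
    linarith [hnorm (A \ B), hnorm (B \ A)]
  have h3 := mul_le_mul_of_nonneg_right (norm_one_sub_ee (θ i)) (norm_nonneg (∑ n ∈ A, g n))
  have h4 : ‖∑ n ∈ A, g n‖ = ‖∑ n ∈ A, ee (dot θ (y + n))‖ := rfl
  rw [← h4]
  linarith

end

end Pool.Agent.H10.Sar
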