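import Pool.Agent.H10.Sar.Mul
import Pool.Agent.H10.Sar.Tor
import Pool.Agent.H10.Sar.Trig
import Pool.Agent.H10.Sar.NearC
set_option autoImplicit false
set_option linter.unusedSectionVars false

namespace Pool.Agent.H10.Sar

open NumberField Module Finset
open scoped Classical

noncomputable section

lemma di_nonneg (t : ℝ) : 0 ≤ di t := abs_nonneg _

lemma di_le_abs_sub (t : ℝ) (n : ℤ) : di t ≤ |t - n| := round_le t n

lemma di_sub_le (s t : ℝ) : di (s - t) ≤ di s + di t := by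
  have h := di_le_abs_sub (s - t) (round s - round t)
  refine h.trans ?_
  push_cast
  have : s - t - ((round s : ℝ) - round t) = (s - round s) - (t - round t) := by ring
  rw [this]
  exact abs_sub _ _

lemma tor_pos {D q0 q1 : ℕ} (h0 : 1 ≤ q0) {e : ℕ × (Fin D → ℤ)} (he : e ∈ tor D q0 q1) :
    1 ≤ e.1 ∧ e.1 < q1 := by
  unfold tor at he
  rw [mem_filter, mem_product, mem_Ico] at he
  exact ⟨h0.trans he.1.1.1, he.1.1.2⟩

/-- local symbol -/
def lsym {D : ℕ} (h : ℕ) (φ : Fin D → ℝ) : ℂ := (1 / (h : ℂ) ^ D) * ∑ z ∈ bx D h, ee (dot φ z)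

lemma csym_eq {D : ℕ} (Λ : Finset (ℕ × (Fin D → ℤ))) (hl : ℕ × (Fin D → ℤ) → ℕ) (θ : Fin D → ℝ) :
    csym Λ hl θ = ∑ e ∈ Λ, lsym (hl e) (θ - vec e) := rfl

lemma norm_lsym_le {D h : ℕ} (hh : 1 ≤ h) (φ : Fin D → ℝ) : ‖lsym h φ‖ ≤ 1 := by
  unfold lsym
  rw [norm_mul, norm_div, norm_one, norm_pow, Complex.norm_natCast]
  have h2 : (0 : ℝ) < (h : ℝ) ^ D := by
    have : (0 : ℝ) < h := by exact_mod_cast hh
    positivity
  rw [one_div, inv_mul_le_iff₀ h2, mul_one]
  refine (norm_sum_le _ _).trans ?_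
  simp_rw [norm_ee]
  rw [sum_const, card_bx, nsmul_eq_mul, mul_one, Nat.cast_pow]

/-- far away from the frequency -/
lemma norm_lsym_far {D h : ℕ} (hh : 1 ≤ h) (φ : Fin D → ℝ) (i : Fin D) {x : ℝ} (hx : 0 < x)
    (hi : x ≤ di (φ i)) : ‖lsym h φ‖ ≤ 1 / (2 * x * h) := by
  unfold lsym
  rw [norm_mul, norm_div, norm_one, norm_pow, Complex.norm_natCast]
  have hh' : (0 : ℝ) < h := by exact_mod_cast hh
  have h1 := sum_bx_ee_le φ 0 h i
  simp only [zero_add] at h1
  have h2 : 2 * x * ‖∑ n ∈ bx D h, ee (dot φ n)‖ ≤ (h : ℝ) ^ (D - 1) := by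
    refine le_trans ?_ h1
    apply mul_le_mul_of_nonneg_right _ (norm_nonneg _)
    linarith
  have hD : 0 < D := i.pos
  have h3 : (h : ℝ) ^ D = h ^ (D - 1) * h := by
    rw [← pow_succ]
    congr 1
    omega
  have h4 : ‖∑ n ∈ bx D h, ee (dot φ n)‖ ≤ (h : ℝ) ^ (D - 1) / (2 * x) := by
    rw [le_div_iff₀ (by positivity)]
    linarith
  calc 1 / (h : ℝ) ^ D * ‖∑ n ∈ bx D h, ee (dot φ n)‖
      ≤ 1 / (h : ℝ) ^ D * ((h : ℝ) ^ (D - 1) / (2 * x)) := by gcongr
    _ = 1 / (2 * x * h) := by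
        rw [h3]
        field_simp

/-- close to the frequency -/
lemma norm_lsym_near {D h : ℕ} (hh : 1 ≤ h) (φ : Fin D → ℝ) {x : ℝ}
    (hi : ∀ i, di (φ i) ≤ x) : ‖1 - lsym h φ‖ ≤ 7 * D * h * x := by
  unfold lsym
  have hh' : (0 : ℝ) < h := by exact_mod_cast hh
  have hpos : (0 : ℝ) < (h : ℝ) ^ D := by positivity
  have hne : (h : ℂ) ^ D ≠ 0 := by
    have : (h : ℂ) ≠ 0 := by exact_mod_cast hh'.ne'
    positivity
  have h1 : (1 : ℂ) - (1 / (h : ℂ) ^ D) * ∑ z ∈ bx D h, ee (dot φ z)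
      = (1 / (h : ℂ) ^ D) * ∑ z ∈ bx D h, (1 - ee (dot φ z)) := by
    rw [sum_sub_distrib, sum_const, card_bx, nsmul_eq_mul, mul_one, mul_sub, Nat.cast_pow,
      one_div, inv_mul_cancel₀ hne]
  rw [h1, norm_mul, norm_div, norm_one, norm_pow, Complex.norm_natCast, one_div, inv_mul_le_iff₀ hpos]
  refine (norm_sum_le _ _).trans ?_
  have h2 : ∀ z ∈ bx D h, ‖1 - ee (dot φ z)‖ ≤ 7 * D * h * x := by
    intro z hz
    have h3 : ee (dot φ z) = ee (dot (fun i => φ i - round (φ i)) z) := by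
      have : dot φ z = dot (fun i => φ i - round (φ i)) z + ((∑ i, round (φ i) * z i : ℤ) : ℝ) := by
        unfold dot
        push_cast
        rw [← sum_add_distrib]
        exact sum_congr rfl (fun i _ => by ring)
      rw [this, ee_add_int]
    rw [h3]
    refine (norm_one_sub_ee_le _).trans ?_
    have h4 := abs_dot_le (fun i => φ i - round (φ i)) z hi
    have h5 : (nn z : ℝ) ≤ h := by exact_mod_cast mem_sbx.mp (bx_subset_sbx D h hz)
    rcases Nat.eq_zero_or_pos D with hD | hD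
    · subst hD
      have : dot (fun i => φ i - round (φ i)) z = 0 := by unfold dot; simp
      rw [this]
      simp
    · have hx0 : 0 ≤ x := (di_nonneg _).trans (hi ⟨0, hD⟩)
      calc 7 * |dot (fun i => φ i - round (φ i)) z| ≤ 7 * (D * x * nn z) := by linarith
        _ ≤ 7 * (D * x * h) := by gcongr
        _ = 7 * D * h * x := by ring
  refine (sum_le_sum h2).trans ?_
  rw [sum_const, card_bx, nsmul_eq_mul, Nat.cast_pow]

/-- bound for the complementary symbol -/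
lemma rho_bound {D Q H : ℕ} (hQ : 1 ≤ Q) (hH : 1 ≤ H) (hl : ℕ × (Fin D → ℤ) → ℕ)
    (hhl : ∀ e ∈ tor D 1 Q, H ≤ hl e) (θ : Fin D → ℝ) {e : ℕ × (Fin D → ℤ)} (he : e ∈ tor D 1 Q)
    {x : ℝ} (hx : ∀ i, di (θ i - vec e i) ≤ x) (hxQ : 2 * x * Q ^ 2 ≤ 1) :
    ‖1 - csym (tor D 1 Q) hl θ‖ ≤ min 2 (7 * D * hl e * x) + (Q : ℝ) ^ (D + 3) / H := by
  rw [csym_eq, ← add_sum_erase _ _ he]
  have h1 : (1 : ℂ) - (lsym (hl e) (θ - vec e) + ∑ e' ∈ (tor D 1 Q).erase e, lsym (hl e') (θ - vec e'))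
      = (1 - lsym (hl e) (θ - vec e)) - ∑ e' ∈ (tor D 1 Q).erase e, lsym (hl e') (θ - vec e') := by
    ring
  rw [h1]
  refine (norm_sub_le _ _).trans (add_le_add ?_ ?_)
  · have hhe : 1 ≤ hl e := hH.trans (hhl e he)
    apply le_min
    · refine (norm_sub_le _ _).trans ?_
      rw [norm_one]
      have := norm_lsym_le hhe (θ - vec e)
      linarith
    · exact norm_lsym_near hhe _ hx
  · have hQr : (1 : ℝ) ≤ Q := by exact_mod_cast hQ
    have hHr : (1 : ℝ) ≤ H := by exact_mod_cast hH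
    have h2 : ∀ e' ∈ (tor D 1 Q).erase e, ‖lsym (hl e') (θ - vec e')‖ ≤ (Q : ℝ) ^ 2 / H := by
      intro e' he'
      obtain ⟨hne, he't⟩ := mem_erase.mp he'
      obtain ⟨i, hi⟩ := tor_sep le_rfl he he't hne.symm
      have hp1 := tor_pos le_rfl he
      have hp2 := tor_pos le_rfl he't
      have h3 : 1 / ((Q : ℝ) ^ 2) ≤ di (vec e i - vec e' i) := by
        refine le_trans ?_ hi
        have h4 : (1 : ℝ) ≤ e.1 := by exact_mod_cast hp1.1
        have h5 : (1 : ℝ) ≤ e'.1 := by exact_mod_cast hp2.1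
        have h6 : (e.1 : ℝ) ≤ Q := by exact_mod_cast hp1.2.le
        have h7 : (e'.1 : ℝ) ≤ Q := by exact_mod_cast hp2.2.le
        apply one_div_le_one_div_of_le (by positivity)
        rw [pow_two]
        gcongr
      have h4 : di (vec e i - vec e' i) ≤ di (θ i - vec e' i) + di (θ i - vec e i) := by
        have := di_sub_le (θ i - vec e' i) (θ i - vec e i)
        rwa [show θ i - vec e' i - (θ i - vec e i) = vec e i - vec e' i by ring] at this
      have h5 : 1 / (2 * (Q : ℝ) ^ 2) ≤ di ((θ - vec e') i) := by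
        have h6 := hx i
        have h7 : x ≤ 1 / (2 * (Q : ℝ) ^ 2) := by
          rw [le_div_iff₀ (by positivity)]
          linarith
        have h8 : 1 / ((Q : ℝ) ^ 2) = 1 / (2 * (Q : ℝ) ^ 2) + 1 / (2 * (Q : ℝ) ^ 2) := by
          field_simp
          ring
        rw [Pi.sub_apply]
        linarith
      have hhe' : H ≤ hl e' := hhl e' he't
      have h6 := norm_lsym_far (hH.trans hhe') (θ - vec e') i (by positivity) h5
      refine h6.trans ?_
      have h7 : (H : ℝ) ≤ hl e' := by exact_mod_cast hhe'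
      rw [show 2 * (1 / (2 * (Q : ℝ) ^ 2)) * (hl e' : ℝ) = (hl e' : ℝ) / Q ^ 2 by field_simp,
        one_div_div]
      gcongr
    refine (norm_sum_le _ _).trans ((sum_le_sum h2).trans ?_)
    rw [sum_const, nsmul_eq_mul]
    have h3 : (((tor D 1 Q).erase e).card : ℝ) ≤ (Q : ℝ) ^ (D + 1) := by
      have := (card_le_card (erase_subset e (tor D 1 Q))).trans (card_tor_le D 1 Q)
      exact_mod_cast this
    calc (((tor D 1 Q).erase e).card : ℝ) * ((Q : ℝ) ^ 2 / H) ≤ (Q : ℝ) ^ (D + 1) * ((Q : ℝ) ^ 2 / H) := by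
          gcongr
      _ = (Q : ℝ) ^ (D + 3) / H := by
          rw [show D + 3 = (D + 1) + 2 by ring, pow_add (Q : ℝ) (D + 1) 2]
          ring

/-- general bound for the complementary symbol -/
lemma rho_bound_all {D Q H : ℕ} (hQ : 1 ≤ Q) (hH : 1 ≤ H) (hl : ℕ × (Fin D → ℤ) → ℕ)
    (hhl : ∀ e ∈ tor D 1 Q, H ≤ hl e) (θ : Fin D → ℝ) :
    ‖1 - csym (tor D 1 Q) hl θ‖ ≤ 2 + (Q : ℝ) ^ (D + 3) / H := by
  have hQr : (1 : ℝ) ≤ Q := by exact_mod_cast hQ
  have hHr : (1 : ℝ) ≤ H := by exact_mod_cast hH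
  by_cases hex : ∃ e ∈ tor D 1 Q, ∀ i, di (θ i - vec e i) ≤ 1 / (2 * (Q : ℝ) ^ 2)
  · obtain ⟨e, he, hx⟩ := hex
    refine (rho_bound hQ hH hl hhl θ he hx (by
      apply le_of_eq
      field_simp)).trans ?_
    have := min_le_left (2 : ℝ) (7 * D * hl e * (1 / (2 * (Q : ℝ) ^ 2)))
    linarith
  · push Not at hex
    refine (norm_sub_le _ _).trans ?_
    rw [norm_one, csym_eq]
    have h2 : ∀ e' ∈ tor D 1 Q, ‖lsym (hl e') (θ - vec e')‖ ≤ (Q : ℝ) ^ 2 / H := by
      intro e' he'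
      obtain ⟨i, hi⟩ := hex e' he'
      have hhe' : H ≤ hl e' := hhl e' he'
      have h6 := norm_lsym_far (hH.trans hhe') (θ - vec e') i (x := 1 / (2 * (Q : ℝ) ^ 2))
        (by positivity) hi.le
      refine h6.trans ?_
      have h7 : (H : ℝ) ≤ hl e' := by exact_mod_cast hhe'
      rw [show 2 * (1 / (2 * (Q : ℝ) ^ 2)) * (hl e' : ℝ) = (hl e' : ℝ) / Q ^ 2 by field_simp,
        one_div_div]
      gcongr
    have h3 : ‖∑ e ∈ tor D 1 Q, lsym (hl e) (θ - vec e)‖ ≤ (Q : ℝ) ^ (D + 3) / H := by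
      refine (norm_sum_le _ _).trans ((sum_le_sum h2).trans ?_)
      rw [sum_const, nsmul_eq_mul]
      have h3 : ((tor D 1 Q).card : ℝ) ≤ (Q : ℝ) ^ (D + 1) := by
        exact_mod_cast card_tor_le D 1 Q
      calc ((tor D 1 Q).card : ℝ) * ((Q : ℝ) ^ 2 / H) ≤ (Q : ℝ) ^ (D + 1) * ((Q : ℝ) ^ 2 / H) := by
            gcongr
        _ = (Q : ℝ) ^ (D + 3) / H := by
            rw [show D + 3 = (D + 1) + 2 by ring, pow_add (Q : ℝ) (D + 1) 2]
            ring
    linarith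

/-- geometric counting -/
lemma geo_count (s : Finset ℕ) (t Y : ℝ) (ht : 0 ≤ t) (hY : 1 ≤ Y)
    (h : ∀ k ∈ s, t * 2 ^ k ≤ Y) : ∑ k ∈ s, min 1 (t * 2 ^ k) ≤ Real.logb 2 Y + 3 := by
  have hlog : 0 ≤ Real.logb 2 Y := Real.logb_nonneg (by norm_num) hY
  rw [← sum_filter_add_sum_filter_not s (fun k => 1 ≤ t * 2 ^ k)]
  have h1 : ∑ k ∈ s.filter (fun k => 1 ≤ t * 2 ^ k), min 1 (t * 2 ^ k) ≤ Real.logb 2 Y + 1 := by
    rcases (s.filter (fun k => 1 ≤ t * 2 ^ k)).eq_empty_or_nonempty with h0 | h0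
    · rw [h0, sum_empty]
      linarith
    · set s1 := s.filter (fun k => 1 ≤ t * 2 ^ k) with hs1
      have hmin := min'_mem s1 h0
      have hmax := max'_mem s1 h0
      set a := s1.min' h0 with ha
      set c := s1.max' h0 with hc
      have h2 : (1 : ℝ) ≤ t * 2 ^ a := (mem_filter.mp hmin).2
      have h3 : t * 2 ^ c ≤ Y := h c (mem_filter.mp hmax).1
      have hac : a ≤ c := min'_le_max' s1 h0
      have h4 : (2 : ℝ) ^ (c - a) ≤ Y := by
        have h5 : (2 : ℝ) ^ c = 2 ^ a * 2 ^ (c - a) := by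
          rw [← pow_add]
          congr 1
          omega
        rw [h5, ← mul_assoc] at h3
        calc (2 : ℝ) ^ (c - a) = 1 * 2 ^ (c - a) := (one_mul _).symm
          _ ≤ t * 2 ^ a * 2 ^ (c - a) := mul_le_mul_of_nonneg_right h2 (by positivity)
          _ ≤ Y := h3
      have h5 : ((c - a : ℕ) : ℝ) ≤ Real.logb 2 Y := by
        rw [Real.le_logb_iff_rpow_le (by norm_num) (by linarith), Real.rpow_natCast]
        exact h4
      have h6 : s1 ⊆ Icc a c := by
        intro k hk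
        rw [mem_Icc]
        exact ⟨min'_le s1 k hk, le_max' s1 k hk⟩
      calc ∑ k ∈ s1, min 1 (t * 2 ^ k) ≤ ∑ _k ∈ s1, (1 : ℝ) := sum_le_sum (fun k _ => min_le_left _ _)
        _ = s1.card := by rw [sum_const, nsmul_eq_mul, mul_one]
        _ ≤ ((c - a : ℕ) : ℝ) + 1 := by
            have := card_le_card h6
            rw [Nat.card_Icc] at this
            have h7 : s1.card ≤ (c - a) + 1 := by omega
            exact_mod_cast h7
        _ ≤ Real.logb 2 Y + 1 := by linarith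
  have h2 : ∑ k ∈ s.filter (fun k => ¬ 1 ≤ t * 2 ^ k), min 1 (t * 2 ^ k) ≤ 2 := by
    rcases (s.filter (fun k => ¬ 1 ≤ t * 2 ^ k)).eq_empty_or_nonempty with h0 | h0
    · rw [h0, sum_empty]
      norm_num
    · set s1 := s.filter (fun k => ¬ 1 ≤ t * 2 ^ k) with hs1
      have hmax := max'_mem s1 h0
      set c := s1.max' h0 with hc
      have h3 : t * 2 ^ c < 1 := not_le.mp (mem_filter.mp hmax).2
      have h6 : s1 ⊆ range (c + 1) := by
        intro k hk
        rw [mem_range]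
        have := le_max' s1 k hk
        omega
      calc ∑ k ∈ s1, min 1 (t * 2 ^ k) ≤ ∑ k ∈ s1, t * 2 ^ k := sum_le_sum (fun k _ => min_le_right _ _)
        _ ≤ ∑ k ∈ range (c + 1), t * 2 ^ k := by
            apply sum_le_sum_of_subset_of_nonneg h6
            intro k _ _
            positivity
        _ = t * (2 ^ (c + 1) - 1) := by
            rw [← mul_sum, geom_sum_eq (by norm_num)]
            ring
        _ ≤ 2 * (t * 2 ^ c) := by
            rw [pow_succ]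
            nlinarith
        _ ≤ 2 := by linarith
  linarith

variable {K : Type*} [Field K] [NumberField K] {D : ℕ} (b : Basis (Fin D) ℤ (𝓞 K))

/-- major points are close to rational points of small denominator -/
lemma major_approx {Cg : ℕ} (hg : GeoC b Cg) {Q : ℕ} {τ : ℝ} {θ : Fin D → ℝ}
    (hM : Major b Q τ θ) :
    ∃ e ∈ tor D 1 (Cg * Q ^ D + 1), ∃ β : Fin D → ℝ, IsInt (θ - vec e - β) ∧
      ∀ i, |β i| ≤ D * (Cg ^ 2 * Q ^ (D - 1)) * τ := by
  obtain ⟨κ, hκ0, hκ, hnear⟩ := hM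
  rw [near_iff] at hnear
  obtain ⟨z, hz⟩ := hnear
  obtain ⟨y, hy, hys⟩ := hg.cof κ
  set N := Algebra.norm ℤ κ with hN
  have hN0 : N ≠ 0 := Algebra.norm_ne_zero_iff.mpr hκ0
  have hNr : (N : ℝ) ≠ 0 := by exact_mod_cast hN0
  set ε : Fin D → ℝ := fun i => star b κ θ i - z i with hε
  have hεle : ∀ i, |ε i| ≤ τ := hz
  have h1 : (N : ℝ) • θ = star b y (fun i => (z i : ℝ)) + star b y ε := by
    rw [← star_add, ← star_intCast b N θ, ← hy, mul_comm κ y, ← star_star]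
    congr 1
    funext i
    rw [Pi.add_apply, hε]
    ring
  have h2 : IsInt (star b y (fun i => (z i : ℝ))) := IsInt.star b ⟨z, rfl⟩ y
  obtain ⟨z', hz'⟩ := h2
  -- sign normalisation
  obtain ⟨s, hs⟩ : ∃ s : ℤ, s * N = N.natAbs ∧ (s = 1 ∨ s = -1) := by
    rcases Int.natAbs_eq N with h | h
    · exact ⟨1, by rw [one_mul]; exact h, Or.inl rfl⟩
    · exact ⟨-1, by linarith, Or.inr rfl⟩
  have hsN : (s : ℝ) * N = (N.natAbs : ℝ) := by
    have h := congrArg (fun t : ℤ => (t : ℝ)) hs.1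
    simp only [Int.cast_mul, Int.cast_natCast] at h
    exact h
  have hs0 : (s : ℝ) ≠ 0 := by
    rcases hs.2 with h | h <;> rw [h] <;> norm_num
  have hN1 : 1 ≤ N.natAbs := Int.natAbs_pos.mpr hN0
  obtain ⟨e, he, hint⟩ := exists_tor (fun i => s * z' i) N.natAbs hN1
  have hNle : N.natAbs ≤ Cg * Q ^ D := (hg.norm κ).trans
    (Nat.mul_le_mul_left _ (Nat.pow_le_pow_left hκ _))
  have he' : e ∈ tor D 1 (Cg * Q ^ D + 1) := by
    unfold tor at he ⊢
    rw [mem_filter, mem_product, mem_Ico, mem_bx] at he ⊢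
    refine ⟨⟨⟨he.1.1.1, by omega⟩, fun i => ⟨(he.1.2 i).1, ?_⟩⟩, he.2⟩
    have h3 := (he.1.2 i).2
    have h4 : ((N.natAbs + 1 : ℕ) : ℤ) ≤ ((Cg * Q ^ D + 1 : ℕ) : ℤ) := by exact_mod_cast (by omega)
    linarith
  refine ⟨e, he', fun i => star b y ε i / N, ?_, ?_⟩
  · have h3 : θ - vec e - (fun i => star b y ε i / N) = (fun i => ((s * z' i : ℤ) : ℝ) / (N.natAbs : ℝ)) - vec e := by
      funext i
      have h4 := congrFun h1 i
      rw [hz'] at h4
      simp only [Pi.smul_apply, Pi.add_apply, smul_eq_mul] at h4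
      simp only [Pi.sub_apply]
      rw [← hsN]
      push_cast
      have h5 : (s : ℝ) * z' i / (s * N) = z' i / N := mul_div_mul_left _ _ hs0
      rw [h5]
      have h6 : θ i = (z' i : ℝ) / N + star b y ε i / N := by
        rw [← add_div, ← h4]
        field_simp
      linarith
    rw [h3]
    exact hint
  · intro i
    rw [abs_div]
    have h3 : (1 : ℝ) ≤ |(N : ℝ)| := by
      have : (1 : ℤ) ≤ |N| := Int.one_le_abs hN0
      exact_mod_cast this
    have hτ : 0 ≤ τ := (abs_nonneg _).trans (hz i)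
    have h4 : |star b y ε i| ≤ D * (Cg ^ 2 * Q ^ (D - 1)) * τ := by
      unfold star
      have h5 := abs_dot_le ε (act b y (Pi.single i 1)) hεle
      refine h5.trans ?_
      have h6 : nn (Pi.single i 1 : Fin D → ℤ) ≤ 1 := by
        rw [nn_le_iff]
        intro k
        by_cases hk : k = i
        · subst hk; simp
        · simp [Pi.single_eq_of_ne hk]
      have h7 : nn (act b y (Pi.single i 1)) ≤ Cg ^ 2 * Q ^ (D - 1) := by
        calc nn (act b y (Pi.single i 1)) ≤ Cg * sz b y * nn (Pi.single i 1 : Fin D → ℤ) := hg.act_le y _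
          _ ≤ Cg * (Cg * sz b κ ^ (D - 1)) * 1 := by gcongr
          _ ≤ Cg * (Cg * Q ^ (D - 1)) * 1 := by gcongr
          _ = Cg ^ 2 * Q ^ (D - 1) := by ring
      have h8 : (nn (act b y (Pi.single i 1)) : ℝ) ≤ Cg ^ 2 * Q ^ (D - 1) := by exact_mod_cast h7
      calc D * τ * (nn (act b y (Pi.single i 1)) : ℝ) ≤ D * τ * (Cg ^ 2 * Q ^ (D - 1)) := by gcongr
        _ = _ := by ring
    calc |star b y ε i| / |(N : ℝ)| ≤ |star b y ε i| / 1 := by gcongr
      _ = |star b y ε i| := div_one _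
      _ ≤ _ := h4

end

end Pool.Agent.H10.Sar
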