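import Pool.Agent.H10.Sar.Ait
import Pool.Agent.H10.Sar.MinB
import Pool.Agent.H10.Sar.Rem1
import Pool.Agent.H10.Sar.Low
set_option autoImplicit false
set_option linter.unusedSectionVars false

namespace Pool.Agent.H10.Sar

open NumberField Module Finset
open scoped Classical

noncomputable section

variable {K : Type*} [Field K] [NumberField K] {D : ℕ} (b : Basis (Fin D) ℤ (𝓞 K))

/-- the arithmetic data at all levels -/
structure Lev (χ : 𝓞 K → ℂ) (σ B C : ℕ) where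
  A : ℕ → Finset (𝓞 K)
  β : ℕ → (Fin D → ℤ) → ℂ
  E : ℕ → Set (Fin D → ℤ)
  hβ : ∀ j, C ≤ j → ∀ n, ‖β j n‖ ≤ 1
  hA : ∀ j, C ≤ j → MulSet b C (2 ^ (B * j)) (2 ^ (C * 2 ^ (σ * j))) (A j)
  hE : ∀ j, C ≤ j → ∀ H : ℕ, 2 ^ (C * 2 ^ (2 * σ * j)) ≤ H →
    (((bx D H).filter (fun n => n ∈ E j)).card : ℝ) ≤ C * (1 / 2) ^ j * H ^ D
  hdec : ∀ j, C ≤ j → ∀ H : ℕ, ∀ G : (Fin D → ℤ) → ℂ, (∀ n, n ∉ bx D H → G n = 0) →
    ‖∑ n ∈ bx D H, χ (b.equivFun.symm n) * G n - ∑ α ∈ A j, χ α *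
      ∑ m ∈ sbx D (C * H), β j m * G (act b α m)‖ ≤ 2 * ∑ n ∈ (bx D H).filter (fun n => n ∈ E j), ‖G n‖

theorem exists_lev (χ : 𝓞 K → ℂ)
    (hmul : ∀ m n : 𝓞 K, IsCoprime (Algebra.norm ℤ m) (Algebra.norm ℤ n) →
      χ (m * n) = χ m * χ n) (hχ : ∀ x, ‖χ x‖ ≤ 1) :
    ∃ σ : ℕ, 1 ≤ σ ∧ ∀ B : ℕ, ∃ C : ℕ, 1 ≤ C ∧ Nonempty (Lev b χ σ B C) := by
  obtain ⟨σ, hσ, h⟩ := ait b χ hmul hχ
  refine ⟨σ, hσ, fun B => ?_⟩
  obtain ⟨C, hC, h⟩ := h B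
  refine ⟨C, hC, ?_⟩
  have h' : ∀ j, ∃ (𝒜 : Finset (𝓞 K)) (β : (Fin D → ℤ) → ℂ) (𝓔 : Set (Fin D → ℤ)), C ≤ j →
        (∀ n, ‖β n‖ ≤ 1) ∧
        (∀ α ∈ 𝒜, α ≠ 0 ∧ 2 ^ (B * j) ≤ sz b α ∧ sz b α ≤ 2 ^ (C * 2 ^ (σ * j)) ∧
          ∀ m, sz b α * nn m ≤ C * nn (act b α m)) ∧
        (∀ H : ℕ, 2 ^ (C * 2 ^ (2 * σ * j)) ≤ H →
          (((bx D H).filter (fun n => n ∈ 𝓔)).card : ℝ) ≤ C * (1 / 2) ^ j * H ^ D) ∧
        (∀ H : ℕ, ∀ G : (Fin D → ℤ) → ℂ, (∀ n, n ∉ bx D H → G n = 0) → ∀ R, C * H ≤ R →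
          ‖∑ n ∈ bx D H, χ (b.equivFun.symm n) * G n - ∑ α ∈ 𝒜, χ α *
            ∑ m ∈ sbx D R, β m * G (act b α m)‖
            ≤ 2 * ∑ n ∈ (bx D H).filter (fun n => n ∈ 𝓔), ‖G n‖) := by
    intro j
    by_cases hj : C ≤ j
    · obtain ⟨𝒜, β, 𝓔, h1⟩ := h j hj
      exact ⟨𝒜, β, 𝓔, fun _ => h1⟩
    · exact ⟨∅, fun _ => 0, ∅, fun h => absurd h hj⟩
  choose A β E hall using h'
  exact ⟨{
    A := A
    β := β
    E := E
    hβ := fun j hj => (hall j hj).1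
    hA := fun j hj => ⟨fun α hα => ((hall j hj).2.1 α hα).1, fun α hα => ((hall j hj).2.1 α hα).2.1,
      fun α hα => ((hall j hj).2.1 α hα).2.2.1, fun α hα => ((hall j hj).2.1 α hα).2.2.2⟩
    hE := fun j hj => (hall j hj).2.2.1
    hdec := fun j hj H G hG => (hall j hj).2.2.2 H G hG _ le_rfl }⟩

variable {b} {χ : 𝓞 K → ℂ} {σ B C : ℕ}

/-- the bilinear operator of level `j` -/
def Bop (L : Lev b χ σ B C) (j H : ℕ) (W : (Fin D → ℤ) → ℝ) (F : (Fin D → ℤ) → ℂ)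
    (y : Fin D → ℤ) : ℂ :=
  (1 / (H : ℂ) ^ D) * ∑ α ∈ L.A j, χ α * ∑ m ∈ sbx D (C * H), L.β j m *
    ((W (act b α m) : ℂ) * F (y + act b α m))

/-- its symbol -/
def bsym (L : Lev b χ σ B C) (j H : ℕ) (W : (Fin D → ℤ) → ℝ) (θ : Fin D → ℝ) : ℂ :=
  (1 / (H : ℂ) ^ D) * ∑ α ∈ L.A j, χ α * ∑ m ∈ sbx D (C * H), L.β j m *
    ((W (act b α m) : ℂ) * ee (dot θ (act b α m)))

/-- symbol of the averaging operator -/
def msym (χ : 𝓞 K → ℂ) (b : Basis (Fin D) ℤ (𝓞 K)) (H : ℕ) (W : (Fin D → ℤ) → ℝ)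
    (θ : Fin D → ℝ) : ℂ :=
  (1 / (H : ℂ) ^ D) * ∑ n ∈ bx D H, (W n : ℂ) * χ (b.equivFun.symm n) * ee (dot θ n)

lemma isMul_Bop (L : Lev b χ σ B C) (j H : ℕ) (W : (Fin D → ℤ) → ℝ) :
    IsMul (Bop L j H W) (bsym L j H W) := by
  have key : IsMul (fun (F : (Fin D → ℤ) → ℂ) y => (1 / (H : ℂ) ^ D) * ∑ α ∈ L.A j, χ α *
      ∑ m ∈ sbx D (C * H), (L.β j m * (W (act b α m) : ℂ)) * F (y + act b α m))
      (fun θ => (1 / (H : ℂ) ^ D) * ∑ α ∈ L.A j, χ α *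
      ∑ m ∈ sbx D (C * H), (L.β j m * (W (act b α m) : ℂ)) * ee (dot θ (act b α m))) :=
    (IsMul.sum (L.A j) (fun α _ => (IsMul.sum (sbx D (C * H))
      (fun m _ => IsMul.shift (L.β j m * (W (act b α m) : ℂ)) (act b α m))).smul (χ α))).smul _
  refine key.congr ?_ ?_
  · intro F y
    unfold Bop
    congr 1
    refine sum_congr rfl (fun α _ => ?_)
    congr 1
    exact sum_congr rfl (fun m _ => by ring)
  · intro θ
    unfold bsym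
    congr 1
    refine sum_congr rfl (fun α _ => ?_)
    congr 1
    exact sum_congr rfl (fun m _ => by ring)

/-- the averaging operator is the bilinear operator up to the exceptional set -/
lemma dec (L : Lev b χ σ B C) {j H : ℕ} (hj : C ≤ j) {L1 : ℝ} {W : (Fin D → ℤ) → ℝ}
    (hW : IsWt H L1 W) (F : (Fin D → ℤ) → ℂ) (y : Fin D → ℤ) :
    ‖Aop (fun n => χ (b.equivFun.symm n)) H W F y - Bop L j H W F y‖
      ≤ 2 / (H : ℝ) ^ D * ∑ n ∈ (bx D H).filter (fun n => n ∈ L.E j), ‖F (y + n)‖ := by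
  have h1 := L.hdec j hj H (fun n => (W n : ℂ) * F (y + n)) (fun n hn => by
    rw [hW.supp n hn]; simp)
  unfold Aop Bop
  have h2 : ∑ n ∈ bx D H, (W n : ℂ) * χ (b.equivFun.symm n) * F (y + n)
      = ∑ n ∈ bx D H, χ (b.equivFun.symm n) * ((W n : ℂ) * F (y + n)) :=
    sum_congr rfl (fun n _ => by ring)
  rw [h2, ← mul_sub, norm_mul, norm_div, norm_one, norm_pow, Complex.norm_natCast]
  have h3 : ∑ n ∈ (bx D H).filter (fun n => n ∈ L.E j), ‖(W n : ℂ) * F (y + n)‖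
      ≤ ∑ n ∈ (bx D H).filter (fun n => n ∈ L.E j), ‖F (y + n)‖ := by
    apply sum_le_sum
    intro n _
    rw [norm_mul, Complex.norm_real, Real.norm_eq_abs, abs_of_nonneg (hW.nonneg n)]
    exact mul_le_of_le_one_left (norm_nonneg _) (hW.le_one n)
  calc 1 / (H : ℝ) ^ D * _ ≤ 1 / (H : ℝ) ^ D * (2 * ∑ n ∈ (bx D H).filter (fun n => n ∈ L.E j),
        ‖(W n : ℂ) * F (y + n)‖) := mul_le_mul_of_nonneg_left h1 (by positivity)
    _ ≤ 1 / (H : ℝ) ^ D * (2 * ∑ n ∈ (bx D H).filter (fun n => n ∈ L.E j), ‖F (y + n)‖) := by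
        gcongr
    _ = _ := by ring

lemma dec_sym (L : Lev b χ σ B C) {j H : ℕ} (hj : C ≤ j) (hH : 2 ^ (C * 2 ^ (2 * σ * j)) ≤ H)
    {L1 : ℝ} {W : (Fin D → ℤ) → ℝ} (hW : IsWt H L1 W) (θ : Fin D → ℝ) :
    ‖msym χ b H W θ - bsym L j H W θ‖ ≤ 2 * C * (1 / 2) ^ j := by
  have h1 := dec L hj hW (fun y => ee (dot θ y)) 0
  simp only [norm_ee, sum_const, nsmul_eq_mul, mul_one] at h1
  have h2 : Aop (fun n => χ (b.equivFun.symm n)) H W (fun y => ee (dot θ y)) 0 = msym χ b H W θ := by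
    unfold Aop msym
    simp only [zero_add]
  have h3 : Bop L j H W (fun y => ee (dot θ y)) 0 = bsym L j H W θ := by
    unfold Bop bsym
    simp only [zero_add]
  rw [h2, h3] at h1
  refine h1.trans ?_
  have h4 := L.hE j hj H hH
  have hH1 : 1 ≤ H := Nat.one_le_two_pow.trans hH
  have h5 : (0 : ℝ) < (H : ℝ) ^ D := by
    have : (0 : ℝ) < H := by exact_mod_cast hH1
    positivity
  calc 2 / (H : ℝ) ^ D * _ ≤ 2 / (H : ℝ) ^ D * (C * (1 / 2) ^ j * H ^ D) :=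
        mul_le_mul_of_nonneg_left h4 (by positivity)
    _ = 2 * C * (1 / 2) ^ j := by field_simp

/-- exponents -/
def cc (σ : ℕ) : ℕ := 2 * σ + 3
def rr (σ : ℕ) : ℕ := 4 * cc σ
def EE (D σ : ℕ) : ℕ := rr σ * D + 1
def topl (σ k : ℕ) : ℕ := Nat.log 2 k / cc σ

lemma le_topl_iff {σ k j : ℕ} (hk : 1 ≤ k) : j ≤ topl σ k ↔ 2 ^ (cc σ * j) ≤ k := by
  unfold topl
  rw [Nat.le_div_iff_mul_le (by unfold cc; omega), mul_comm j]
  exact Nat.le_log_iff_pow_le (by norm_num) (by omega)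

lemma topl_lt {σ k : ℕ} (hk : 1 ≤ k) : k < 2 ^ (cc σ * (topl σ k + 1)) := by
  by_contra h
  rw [not_lt] at h
  have := (le_topl_iff hk).mpr h
  omega

lemma growth0 (P : ℕ) : ∃ j1 : ℕ, ∀ j, j1 ≤ j → P * (j + 1) ≤ 2 ^ j := by
  refine ⟨2 * P + 10, ?_⟩
  have key : ∀ d, P * (2 * P + 10 + d + 1) ≤ 2 ^ (2 * P + 10 + d) := by
    intro d
    induction d with
    | zero =>
      have h1 : P < 2 ^ P := Nat.lt_two_pow_self
      have h2 : 2 ^ (2 * P + 10 + 0) = 2 ^ P * 2 ^ P * 1024 := by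
        rw [add_zero, pow_add, two_mul, pow_add]
        norm_num
      rw [h2]
      nlinarith
    | succ d ih =>
      have : 2 ^ (2 * P + 10 + (d + 1)) = 2 * 2 ^ (2 * P + 10 + d) := by
        rw [← add_assoc, pow_succ]
        ring
      rw [this]
      have h3 : P ≤ 2 ^ (2 * P + 10 + d) := by nlinarith
      nlinarith
  intro j hj
  obtain ⟨d, rfl⟩ := Nat.exists_eq_add_of_le hj
  exact key d

/-- all exponents occurring at level `j` are dominated by `2 ^ (cc σ * j)` -/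
lemma growth (σ P : ℕ) : ∃ j1 : ℕ, ∀ j, j1 ≤ j →
    P * (j + 1) * 2 ^ ((cc σ - 1) * j) ≤ 2 ^ (cc σ * j) := by
  obtain ⟨j1, h⟩ := growth0 P
  refine ⟨j1, fun j hj => ?_⟩
  have h1 : 2 ^ (cc σ * j) = 2 ^ j * 2 ^ ((cc σ - 1) * j) := by
    rw [← pow_add]
    congr 1
    have : cc σ = (cc σ - 1) + 1 := by unfold cc; omega
    conv_lhs => rw [this]
    ring
  rw [h1]
  exact Nat.mul_le_mul_right _ (h j hj)

end

end Pool.Agent.H10.Sar
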