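import Pool.Agent.H10.Sar.Tor
import Pool.Agent.H10.Sar.Trig
set_option autoImplicit false
set_option linter.unusedSectionVars false

namespace Pool.Agent.H10.Sar

open NumberField Module Finset
open scoped Classical

noncomputable section

/-- off-diagonal character sums -/
lemma orth_off {D : ℕ} {q0 q1 N : ℕ} (hD : 1 ≤ D) (h0 : 1 ≤ q0)
    {l l' : ℕ × (Fin D → ℤ)} (hl : l ∈ tor D q0 q1) (hl' : l' ∈ tor D q0 q1) (hne : l ≠ l')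
    (y : Fin D → ℤ) :
    ‖∑ n ∈ bx D N, ee (dot (vec l - vec l') (y + n))‖ ≤ (q1 : ℝ) ^ 2 / 2 * (N : ℝ) ^ (D - 1) := by
  obtain ⟨i, hi⟩ := tor_sep h0 hl hl' hne
  have h1 := sum_bx_ee_le (vec l - vec l') y N i
  simp only [Pi.sub_apply] at h1
  have hq : ∀ m : ℕ × (Fin D → ℤ), m ∈ tor D q0 q1 → (1 : ℝ) ≤ m.1 ∧ (m.1 : ℝ) ≤ q1 := by
    intro m hm
    unfold tor at hm
    rw [mem_filter, mem_product, mem_Ico] at hm
    constructor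
    · have : 1 ≤ m.1 := h0.trans hm.1.1.1
      exact_mod_cast this
    · have : m.1 ≤ q1 := hm.1.1.2.le
      exact_mod_cast this
  obtain ⟨ha1, ha2⟩ := hq l hl
  obtain ⟨hb1, hb2⟩ := hq l' hl'
  have hpos : (0 : ℝ) < (l.1 : ℝ) * l'.1 := by positivity
  have hle : (l.1 : ℝ) * l'.1 ≤ (q1 : ℝ) ^ 2 := by
    rw [pow_two]
    exact mul_le_mul ha2 hb2 (by linarith) (by linarith)
  have hq1 : (0 : ℝ) < (q1 : ℝ) ^ 2 := lt_of_lt_of_le hpos hle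
  have h2 : 1 / (q1 : ℝ) ^ 2 ≤ di (vec l i - vec l' i) :=
    (one_div_le_one_div_of_le hpos hle).trans hi
  set S := ‖∑ n ∈ bx D N, ee (dot (vec l - vec l') (y + n))‖ with hS
  have hS0 : 0 ≤ S := norm_nonneg _
  have h3 : 2 * (1 / (q1 : ℝ) ^ 2) * S ≤ (N : ℝ) ^ (D - 1) := by
    refine le_trans ?_ h1
    apply mul_le_mul_of_nonneg_right _ hS0
    linarith
  have h4 : S = (q1 : ℝ) ^ 2 / 2 * (2 * (1 / (q1 : ℝ) ^ 2) * S) := by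
    have h5 : (q1 : ℝ) ^ 2 * (1 / (q1 : ℝ) ^ 2) = 1 := by
      rw [mul_one_div, div_self hq1.ne']
    calc S = 1 * S := (one_mul S).symm
      _ = ((q1 : ℝ) ^ 2 * (1 / (q1 : ℝ) ^ 2)) * S := by rw [h5]
      _ = _ := by ring
  rw [h4]
  exact mul_le_mul_of_nonneg_left h3 (by positivity)

/-- almost orthogonality of the characters of `tor` on boxes -/
theorem orth1 {D : ℕ} {q0 q1 N : ℕ} (hD : 1 ≤ D) (h0 : 1 ≤ q0) (hN : q1 ^ (D + 3) ≤ N)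
    (v : ℕ × (Fin D → ℤ) → ℂ) (y : Fin D → ℤ) :
    ∑ n ∈ bx D N, ‖Fv (tor D q0 q1) v (y + n)‖ ^ 2 ≤ 2 * N ^ D * ∑ l ∈ tor D q0 q1, ‖v l‖ ^ 2 := by
  set Λ := tor D q0 q1 with hΛ
  -- expand the square
  have hexp : ∀ n, ((‖Fv Λ v (y + n)‖ ^ 2 : ℝ) : ℂ)
      = ∑ l ∈ Λ, ∑ l' ∈ Λ, v l * (starRingEnd ℂ) (v l') * ee (dot (vec l - vec l') (y + n)) := by
    intro n
    rw [Complex.ofReal_pow, ← Complex.mul_conj']
    unfold Fv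
    rw [map_sum, sum_mul_sum]
    refine sum_congr rfl (fun l _ => sum_congr rfl (fun l' _ => ?_))
    rw [map_mul, ← ee_neg, sub_dot, sub_eq_add_neg, ee_add]
    ring
  have hsum : ((∑ n ∈ bx D N, ‖Fv Λ v (y + n)‖ ^ 2 : ℝ) : ℂ)
      = ∑ l ∈ Λ, ∑ l' ∈ Λ, v l * (starRingEnd ℂ) (v l') *
          ∑ n ∈ bx D N, ee (dot (vec l - vec l') (y + n)) := by
    push_cast
    have : ∀ n ∈ bx D N, ((‖Fv Λ v (y + n)‖ : ℝ) : ℂ) ^ 2
        = ∑ l ∈ Λ, ∑ l' ∈ Λ, v l * (starRingEnd ℂ) (v l') * ee (dot (vec l - vec l') (y + n)) := by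
      intro n _
      rw [← hexp n]
      push_cast
      rfl
    rw [sum_congr rfl this, sum_comm]
    refine sum_congr rfl (fun l _ => ?_)
    rw [sum_comm]
    refine sum_congr rfl (fun l' _ => ?_)
    rw [mul_sum]
  have hnn : 0 ≤ ∑ n ∈ bx D N, ‖Fv Λ v (y + n)‖ ^ 2 := sum_nonneg (fun n _ => by positivity)
  have hV : 0 ≤ ∑ l ∈ Λ, ‖v l‖ ^ 2 := sum_nonneg (fun n _ => by positivity)
  -- bound of the norm
  have hterm : ∀ l ∈ Λ, ∀ l' ∈ Λ, ‖v l * (starRingEnd ℂ) (v l') *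
      ∑ n ∈ bx D N, ee (dot (vec l - vec l') (y + n))‖
      ≤ (if l = l' then (N : ℝ) ^ D * ‖v l‖ ^ 2 else 0)
        + (q1 : ℝ) ^ 2 / 2 * (N : ℝ) ^ (D - 1) * (‖v l‖ * ‖v l'‖) := by
    intro l hl l' hl'
    rw [norm_mul, norm_mul, RCLike.norm_conj]
    by_cases h : l = l'
    · subst h
      rw [if_pos rfl]
      have h1 : ‖∑ n ∈ bx D N, ee (dot (vec l - vec l) (y + n))‖ ≤ (N : ℝ) ^ D := by
        refine (norm_sum_le _ _).trans ?_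
        have : ∀ n ∈ bx D N, ‖ee (dot (vec l - vec l) (y + n))‖ = 1 := fun n _ => norm_ee _
        rw [sum_congr rfl this, sum_const, card_bx, nsmul_eq_mul, mul_one]
        push_cast
        exact le_rfl
      have h2 : ‖v l‖ * ‖v l‖ * ‖∑ n ∈ bx D N, ee (dot (vec l - vec l) (y + n))‖
          ≤ ‖v l‖ * ‖v l‖ * (N : ℝ) ^ D := mul_le_mul_of_nonneg_left h1 (by positivity)
      have h3 : 0 ≤ (q1 : ℝ) ^ 2 / 2 * (N : ℝ) ^ (D - 1) * (‖v l‖ * ‖v l‖) := by positivity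
      nlinarith
    · rw [if_neg h, zero_add]
      have h1 := orth_off (N := N) hD h0 hl hl' h y
      calc ‖v l‖ * ‖v l'‖ * ‖∑ n ∈ bx D N, ee (dot (vec l - vec l') (y + n))‖
          ≤ ‖v l‖ * ‖v l'‖ * ((q1 : ℝ) ^ 2 / 2 * (N : ℝ) ^ (D - 1)) :=
            mul_le_mul_of_nonneg_left h1 (by positivity)
        _ = _ := by ring
  have hmain : ∑ n ∈ bx D N, ‖Fv Λ v (y + n)‖ ^ 2
      ≤ (N : ℝ) ^ D * ∑ l ∈ Λ, ‖v l‖ ^ 2
        + (q1 : ℝ) ^ 2 / 2 * (N : ℝ) ^ (D - 1) * (∑ l ∈ Λ, ‖v l‖) ^ 2 := by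
    have e1 : ∑ n ∈ bx D N, ‖Fv Λ v (y + n)‖ ^ 2
        = ‖((∑ n ∈ bx D N, ‖Fv Λ v (y + n)‖ ^ 2 : ℝ) : ℂ)‖ := by
      rw [Complex.norm_real, Real.norm_of_nonneg hnn]
    rw [e1, hsum]
    refine (norm_sum_le _ _).trans ?_
    refine (sum_le_sum (fun l hl => (norm_sum_le _ _).trans
      (sum_le_sum (fun l' hl' => hterm l hl l' hl')))).trans (le_of_eq ?_)
    simp only [sum_add_distrib]
    congr 1
    · rw [mul_sum]
      refine sum_congr rfl (fun l hl => ?_)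
      rw [sum_ite_eq, if_pos hl]
    · simp only [← mul_sum]
      rw [← sum_mul]
      ring
  have hCS : (∑ l ∈ Λ, ‖v l‖) ^ 2 ≤ (q1 : ℝ) ^ (D + 1) * ∑ l ∈ Λ, ‖v l‖ ^ 2 := by
    have h1 := sq_sum_le_card_mul_sum_sq (s := Λ) (f := fun l => ‖v l‖)
    refine h1.trans (mul_le_mul_of_nonneg_right ?_ hV)
    exact_mod_cast card_tor_le D q0 q1
  have hNN : (q1 : ℝ) ^ 2 / 2 * (N : ℝ) ^ (D - 1) * (q1 : ℝ) ^ (D + 1) ≤ (N : ℝ) ^ D := by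
    have h1 : ((q1 : ℝ)) ^ (D + 3) ≤ N := by exact_mod_cast hN
    have h2 : (N : ℝ) ^ D = (N : ℝ) ^ (D - 1) * N := by
      rw [← pow_succ]
      congr 1
      omega
    rw [h2]
    calc (q1 : ℝ) ^ 2 / 2 * (N : ℝ) ^ (D - 1) * (q1 : ℝ) ^ (D + 1)
        = (N : ℝ) ^ (D - 1) * (q1 : ℝ) ^ (D + 3) / 2 := by ring
      _ ≤ (N : ℝ) ^ (D - 1) * (q1 : ℝ) ^ (D + 3) := by
          have : 0 ≤ (N : ℝ) ^ (D - 1) * (q1 : ℝ) ^ (D + 3) := by positivity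
          linarith
      _ ≤ (N : ℝ) ^ (D - 1) * N := mul_le_mul_of_nonneg_left h1 (by positivity)
  have hfin : (q1 : ℝ) ^ 2 / 2 * (N : ℝ) ^ (D - 1) * (∑ l ∈ Λ, ‖v l‖) ^ 2
      ≤ (N : ℝ) ^ D * ∑ l ∈ Λ, ‖v l‖ ^ 2 := by
    calc (q1 : ℝ) ^ 2 / 2 * (N : ℝ) ^ (D - 1) * (∑ l ∈ Λ, ‖v l‖) ^ 2
        ≤ (q1 : ℝ) ^ 2 / 2 * (N : ℝ) ^ (D - 1) * ((q1 : ℝ) ^ (D + 1) * ∑ l ∈ Λ, ‖v l‖ ^ 2) :=
          mul_le_mul_of_nonneg_left hCS (by positivity)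
      _ = ((q1 : ℝ) ^ 2 / 2 * (N : ℝ) ^ (D - 1) * (q1 : ℝ) ^ (D + 1)) * ∑ l ∈ Λ, ‖v l‖ ^ 2 := by ring
      _ ≤ _ := mul_le_mul_of_nonneg_right hNN hV
  linarith

/-- the dual inequality (large sieve) -/
theorem orth2 {D : ℕ} {q0 q1 N : ℕ} (hD : 1 ≤ D) (h0 : 1 ≤ q0) (hN : q1 ^ (D + 3) ≤ N)
    (h1 : 1 ≤ N) (F : (Fin D → ℤ) → ℂ) (y : Fin D → ℤ) :
    ∑ l ∈ tor D q0 q1, ‖(1 / (N : ℂ) ^ D) * ∑ z ∈ bx D N, ee (-dot (vec l) (y + z)) * F (y + z)‖ ^ 2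
      ≤ 2 / (N : ℝ) ^ D * ∑ z ∈ bx D N, ‖F (y + z)‖ ^ 2 := by
  set Λ := tor D q0 q1 with hΛ
  set u : ℕ × (Fin D → ℤ) → ℂ :=
    fun l => (1 / (N : ℂ) ^ D) * ∑ z ∈ bx D N, ee (-dot (vec l) (y + z)) * F (y + z) with hu
  set U : ℝ := ∑ l ∈ Λ, ‖u l‖ ^ 2 with hU
  set G : ℝ := ∑ z ∈ bx D N, ‖F (y + z)‖ ^ 2 with hG
  have hU0 : 0 ≤ U := sum_nonneg (fun l _ => by positivity)
  have hG0 : 0 ≤ G := sum_nonneg (fun l _ => by positivity)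
  have hNpos : (0 : ℝ) < (N : ℝ) ^ D := by
    have : (0 : ℝ) < N := by exact_mod_cast h1
    positivity
  change U ≤ 2 / (N : ℝ) ^ D * G
  have key : ((U : ℝ) : ℂ) = (1 / (N : ℂ) ^ D) * ∑ z ∈ bx D N,
      F (y + z) * (starRingEnd ℂ) (Fv Λ u (y + z)) := by
    have e1 : ((U : ℝ) : ℂ) = ∑ l ∈ Λ, u l * (starRingEnd ℂ) (u l) := by
      rw [hU]
      push_cast
      refine sum_congr rfl (fun l _ => ?_)
      rw [Complex.mul_conj']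
    rw [e1]
    have e2 : ∀ l ∈ Λ, u l * (starRingEnd ℂ) (u l) = (1 / (N : ℂ) ^ D) *
        ∑ z ∈ bx D N, F (y + z) * ((starRingEnd ℂ) (u l) * ee (-dot (vec l) (y + z))) := by
      intro l _
      conv_lhs => rw [hu]
      simp only
      rw [mul_assoc, sum_mul]
      congr 1
      refine sum_congr rfl (fun z _ => ?_)
      ring
    rw [sum_congr rfl e2, ← mul_sum, sum_comm]
    congr 1
    refine sum_congr rfl (fun z _ => ?_)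
    unfold Fv
    rw [map_sum, ← mul_sum]
    congr 1
    refine sum_congr rfl (fun l _ => ?_)
    rw [ee_neg]
    exact (map_mul _ _ _).symm
  have hb : U ≤ (1 / (N : ℝ) ^ D) * ∑ z ∈ bx D N, ‖F (y + z)‖ * ‖Fv Λ u (y + z)‖ := by
    have e1 : U = ‖((U : ℝ) : ℂ)‖ := by
      rw [Complex.norm_real, Real.norm_of_nonneg hU0]
    rw [e1, key, norm_mul]
    have e2 : ‖(1 / (N : ℂ) ^ D)‖ = 1 / (N : ℝ) ^ D := by
      rw [norm_div, norm_one, norm_pow, Complex.norm_natCast]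
    rw [e2]
    apply mul_le_mul_of_nonneg_left _ (by positivity)
    refine (norm_sum_le _ _).trans (sum_le_sum (fun z _ => ?_))
    rw [norm_mul, RCLike.norm_conj]
  have hCS := sum_mul_sq_le_sq_mul_sq (bx D N) (fun z => ‖F (y + z)‖) (fun z => ‖Fv Λ u (y + z)‖)
  have ho := orth1 (q0 := q0) (q1 := q1) hD h0 hN u y
  rw [← hΛ, ← hU] at ho
  set P : ℝ := ∑ z ∈ bx D N, ‖F (y + z)‖ * ‖Fv Λ u (y + z)‖ with hP
  have hP0 : 0 ≤ P := sum_nonneg (fun l _ => by positivity)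
  have hP2 : P ^ 2 ≤ G * (2 * (N : ℝ) ^ D * U) :=
    hCS.trans (mul_le_mul_of_nonneg_left ho hG0)
  have hUP : (N : ℝ) ^ D * U ≤ P := by
    have := mul_le_mul_of_nonneg_left hb hNpos.le
    have e : (N : ℝ) ^ D * ((1 / (N : ℝ) ^ D) * P) = P := by field_simp
    linarith
  have h2 : ((N : ℝ) ^ D * U) ^ 2 ≤ G * (2 * (N : ℝ) ^ D * U) :=
    (pow_le_pow_left₀ (by positivity) hUP 2).trans hP2
  rcases hU0.lt_or_eq with hUp | hUz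
  · have h3 : (N : ℝ) ^ D * U ≤ 2 * G := by
      have hpos : 0 < (N : ℝ) ^ D * U := by positivity
      have h4 : ((N : ℝ) ^ D * U) * ((N : ℝ) ^ D * U) ≤ (2 * G) * ((N : ℝ) ^ D * U) := by
        nlinarith
      exact le_of_mul_le_mul_right h4 hpos
    rw [div_mul_eq_mul_div, le_div_iff₀ hNpos]
    linarith
  · rw [← hUz]
    positivity

end

end Pool.Agent.H10.Sar
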