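import Pool.Agent.H10.Sar.Rem2
import Pool.Agent.H10.Sar.Orth
set_option autoImplicit false
set_option linter.unusedSectionVars false

namespace Pool.Agent.H10.Sar

open NumberField Module Finset
open scoped Classical

noncomputable section

/-- length of the groups of consecutive denominators at level `j` -/
def Gj (σ j : ℕ) : ℕ := 2 ^ ((cc σ - 1) * j)

/-- the basic cell side at level `j` -/
def Sj (D σ j : ℕ) : ℕ := 2 ^ (EE D σ * (D + 3) * (j + 1))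

/-- the cofactor of the modulus of group `g` -/
def Mj' (σ j g : ℕ) : ℕ := ∏ x ∈ Ico (g * Gj σ j) (g * Gj σ j + Gj σ j), x

/-- the modulus of group `g` at level `j` -/
def Mj (D σ j g : ℕ) : ℕ := Sj D σ j * Mj' σ j g

/-- the length of the smoothing cube -/
def hlen (D σ Ch j H : ℕ) (e : ℕ × (Fin D → ℤ)) : ℕ :=
  Mj D σ j (e.1 / Gj σ j) * (H * 2 ^ (Ch * j) / Mj D σ j (e.1 / Gj σ j))

/-- frequencies of level `j` -/
def Tj (D σ j : ℕ) : Finset (ℕ × (Fin D → ℤ)) := tor D (2 ^ (EE D σ * j)) (2 ^ (EE D σ * (j + 1)))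

lemma Gj_pos (σ j : ℕ) : 0 < Gj σ j := pow_pos (by norm_num) _

lemma Sj_pos (D σ j : ℕ) : 0 < Sj D σ j := pow_pos (by norm_num) _

lemma cc_le_EE {D σ : ℕ} (hD : 0 < D) : cc σ - 1 ≤ EE D σ := by
  unfold EE rr
  have : cc σ ≤ 4 * cc σ * D := by nlinarith
  omega

lemma mem_Tj {D σ j : ℕ} {e : ℕ × (Fin D → ℤ)} (he : e ∈ Tj D σ j) :
    2 ^ (EE D σ * j) ≤ e.1 ∧ e.1 < 2 ^ (EE D σ * (j + 1)) := by
  unfold Tj tor at he
  rw [mem_filter, mem_product, mem_Ico] at he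
  exact he.1.1

lemma group_pos {D σ j : ℕ} (hD : 0 < D) {q : ℕ} (h1 : 2 ^ (EE D σ * j) ≤ q) : 1 ≤ q / Gj σ j := by
  rw [Nat.one_le_div_iff (Gj_pos σ j)]
  refine le_trans ?_ h1
  unfold Gj
  apply Nat.pow_le_pow_right (by norm_num)
  exact Nat.mul_le_mul_right _ (cc_le_EE hD)

lemma group_lt {D σ j : ℕ} (hD : 0 < D) {q : ℕ} (h2 : q < 2 ^ (EE D σ * (j + 1))) :
    q / Gj σ j * Gj σ j + Gj σ j ≤ 2 ^ (EE D σ * (j + 1)) := by
  have h3 : Gj σ j ∣ 2 ^ (EE D σ * (j + 1)) := by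
    unfold Gj
    apply pow_dvd_pow
    exact Nat.mul_le_mul (cc_le_EE hD) (by omega)
  obtain ⟨c, hc⟩ := h3
  have h4 : q / Gj σ j < c := by
    rw [Nat.div_lt_iff_lt_mul (Gj_pos σ j), mul_comm, ← hc]
    exact h2
  calc q / Gj σ j * Gj σ j + Gj σ j = (q / Gj σ j + 1) * Gj σ j := by ring
    _ ≤ c * Gj σ j := Nat.mul_le_mul_right _ h4
    _ = 2 ^ (EE D σ * (j + 1)) := by rw [hc, mul_comm]

lemma Mj'_pos {σ j g : ℕ} (hg : 1 ≤ g) : 0 < Mj' σ j g := by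
  unfold Mj'
  apply prod_pos
  intro x hx
  rw [mem_Ico] at hx
  have : 1 * 1 ≤ g * Gj σ j := Nat.mul_le_mul hg (Gj_pos σ j)
  omega

lemma Mj_pos {D σ j g : ℕ} (hg : 1 ≤ g) : 0 < Mj D σ j g := Nat.mul_pos (Sj_pos D σ j) (Mj'_pos hg)

lemma dvd_Mj' {σ j q : ℕ} : q ∣ Mj' σ j (q / Gj σ j) := by
  unfold Mj'
  apply dvd_prod_of_mem (fun x => x)
  rw [mem_Ico]
  have h1 := Nat.div_add_mod q (Gj σ j)
  have h2 := Nat.mod_lt q (Gj_pos σ j)
  have h3 : Gj σ j * (q / Gj σ j) = q / Gj σ j * Gj σ j := mul_comm _ _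
  constructor <;> omega

lemma isInt_Mj {D σ j : ℕ} {e : ℕ × (Fin D → ℤ)} (he : e ∈ Tj D σ j) :
    IsInt (((Mj D σ j (e.1 / Gj σ j) : ℕ) : ℝ) • vec e) := by
  have h1 := mem_Tj he
  have hq : 0 < e.1 := lt_of_lt_of_le (pow_pos (by norm_num) _) h1.1
  obtain ⟨c, hc⟩ : e.1 ∣ Mj D σ j (e.1 / Gj σ j) := dvd_mul_of_dvd_right dvd_Mj' _
  refine ⟨fun i => c * e.2 i, ?_⟩
  funext i
  simp only [Pi.smul_apply, smul_eq_mul]
  rw [hc]
  unfold vec
  have : (e.1 : ℝ) ≠ 0 := by exact_mod_cast hq.ne'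
  push_cast
  field_simp

lemma Mj_le {D σ j g : ℕ} (h : g * Gj σ j + Gj σ j ≤ 2 ^ (EE D σ * (j + 1))) :
    Mj D σ j g ≤ 2 ^ (EE D σ * (D + 4) * (j + 1) * 2 ^ ((cc σ - 1) * j)) := by
  have h1 : Mj' σ j g ≤ (2 ^ (EE D σ * (j + 1))) ^ (Gj σ j) := by
    unfold Mj'
    calc ∏ x ∈ Ico (g * Gj σ j) (g * Gj σ j + Gj σ j), x
        ≤ ∏ _x ∈ Ico (g * Gj σ j) (g * Gj σ j + Gj σ j), 2 ^ (EE D σ * (j + 1)) := by
          apply prod_le_prod'
          intro x hx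
          rw [mem_Ico] at hx
          omega
      _ = _ := by
          rw [prod_const, Nat.card_Ico]
          congr 1
          omega
  calc Mj D σ j g ≤ Sj D σ j * (2 ^ (EE D σ * (j + 1))) ^ (Gj σ j) := Nat.mul_le_mul_left _ h1
    _ = 2 ^ (EE D σ * (D + 3) * (j + 1) + EE D σ * (j + 1) * Gj σ j) := by
        unfold Sj
        rw [← pow_mul, ← pow_add]
    _ ≤ 2 ^ (EE D σ * (D + 4) * (j + 1) * 2 ^ ((cc σ - 1) * j)) := by
        apply Nat.pow_le_pow_right (by norm_num)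
        have h2 : 1 ≤ Gj σ j := Gj_pos σ j
        change _ ≤ EE D σ * (D + 4) * (j + 1) * Gj σ j
        calc EE D σ * (D + 3) * (j + 1) + EE D σ * (j + 1) * Gj σ j
            ≤ EE D σ * (D + 3) * (j + 1) * Gj σ j + EE D σ * (j + 1) * Gj σ j := by
              apply Nat.add_le_add_right
              exact Nat.le_mul_of_pos_right _ h2
          _ = EE D σ * (D + 4) * (j + 1) * Gj σ j := by ring

/-- everything at level `j` is much smaller than the scale -/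
lemma Mj_small (D σ P : ℕ) (hD : 0 < D) : ∃ j1 : ℕ, ∀ j, j1 ≤ j → ∀ H : ℕ,
    2 ^ (2 ^ (cc σ * j)) ≤ H → ∀ q, q < 2 ^ (EE D σ * (j + 1)) →
    2 ^ (P * (j + 1) * 2 ^ ((cc σ - 1) * j)) * Mj D σ j (q / Gj σ j) ≤ H := by
  obtain ⟨j1, h⟩ := exp_dom σ (P + EE D σ * (D + 4))
  refine ⟨j1, fun j hj H hH q hq => ?_⟩
  refine le_trans ?_ (h j hj H hH)
  calc 2 ^ (P * (j + 1) * 2 ^ ((cc σ - 1) * j)) * Mj D σ j (q / Gj σ j)
      ≤ 2 ^ (P * (j + 1) * 2 ^ ((cc σ - 1) * j)) *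
        2 ^ (EE D σ * (D + 4) * (j + 1) * 2 ^ ((cc σ - 1) * j)) :=
        Nat.mul_le_mul_left _ (Mj_le (group_lt hD hq))
    _ = _ := by
        rw [← pow_add]
        congr 1
        ring

end

end Pool.Agent.H10.Sar
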