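import Pool.Agent.H10.Sar.Rem2
set_option autoImplicit false
set_option linter.unusedSectionVars false

namespace Pool.Agent.H10.Sar

open NumberField Module Finset
open scoped Classical

noncomputable section

variable {K : Type*} [Field K] [NumberField K] {D : ℕ} {b : Basis (Fin D) ℤ (𝓞 K)}
variable {χ : 𝓞 K → ℂ} {σ B C : ℕ}

lemma tor_mono {D q0 q1 q2 : ℕ} (h : q1 ≤ q2) : tor D q0 q1 ⊆ tor D q0 q2 := by
  intro l hl
  unfold tor at hl ⊢
  rw [mem_filter, mem_product, mem_Ico, mem_bx] at hl ⊢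
  refine ⟨⟨⟨hl.1.1.1, by omega⟩, fun i => ⟨(hl.1.2 i).1, ?_⟩⟩, hl.2⟩
  have h3 := (hl.1.2 i).2
  have h4 : (q1 : ℤ) ≤ q2 := by exact_mod_cast h
  linarith

/-- exponent for the size of the error at major points -/
def P0 (D σ Cg C2 : ℕ) : ℕ := D * Cg ^ 2 * C2 + rr σ * (D - 1 + C2)

lemma maj_pt {Cg C2 : ℕ} (hg : GeoC b Cg) {i H : ℕ} {θ : Fin D → ℝ} (hi : Cg ≤ i)
    (hM : MajI b σ C2 i H θ) :
    ∃ e ∈ tor D 1 (2 ^ (EE D σ * (i + 1))), ∃ β : Fin D → ℝ, IsInt (θ - vec e - β) ∧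
      ∀ l, |β l| ≤ 2 ^ (P0 D σ Cg C2 * (i + 1)) / H := by
  obtain ⟨e, he, β, hint, hβ⟩ := major_approx b hg hM
  refine ⟨e, ?_, β, hint, ?_⟩
  · refine tor_mono ?_ he
    have h1 : Cg + 1 ≤ 2 ^ Cg := Nat.lt_two_pow_self
    calc Cg * (2 ^ (rr σ * i)) ^ D + 1 ≤ Cg * (2 ^ (rr σ * i)) ^ D + 1 * (2 ^ (rr σ * i)) ^ D := by
          have : 1 ≤ (2 ^ (rr σ * i)) ^ D := Nat.one_le_pow _ _ (pow_pos (by norm_num) _)
          omega
      _ = (Cg + 1) * (2 ^ (rr σ * i)) ^ D := by ring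
      _ ≤ 2 ^ Cg * (2 ^ (rr σ * i)) ^ D := Nat.mul_le_mul_right _ h1
      _ = 2 ^ (Cg + rr σ * i * D) := by rw [← pow_mul, ← pow_add]
      _ ≤ 2 ^ (EE D σ * (i + 1)) := by
          apply Nat.pow_le_pow_right (by norm_num)
          unfold EE
          nlinarith
  · intro l
    refine (hβ l).trans ?_
    rw [mul_div_assoc']
    apply div_le_div_of_nonneg_right _ (Nat.cast_nonneg _)
    have h1 : D * (Cg ^ 2 * (2 ^ (rr σ * i)) ^ (D - 1)) * (C2 * (2 ^ (rr σ * i)) ^ C2)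
        ≤ 2 ^ (P0 D σ Cg C2 * (i + 1)) := by
      calc D * (Cg ^ 2 * (2 ^ (rr σ * i)) ^ (D - 1)) * (C2 * (2 ^ (rr σ * i)) ^ C2)
          = (D * Cg ^ 2 * C2) * 2 ^ (rr σ * i * (D - 1) + rr σ * i * C2) := by
            rw [pow_add, pow_mul 2 (rr σ * i) (D - 1), pow_mul 2 (rr σ * i) C2]
            ring
        _ ≤ 2 ^ (D * Cg ^ 2 * C2) * 2 ^ (rr σ * i * (D - 1) + rr σ * i * C2) :=
            Nat.mul_le_mul_right _ Nat.lt_two_pow_self.le
        _ = 2 ^ (D * Cg ^ 2 * C2 + (rr σ * i * (D - 1) + rr σ * i * C2)) := by rw [← pow_add]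
        _ ≤ 2 ^ (P0 D σ Cg C2 * (i + 1)) := by
            apply Nat.pow_le_pow_right (by norm_num)
            unfold P0
            have e1 : rr σ * i * (D - 1) + rr σ * i * C2 = rr σ * (D - 1 + C2) * i := by ring
            rw [e1, add_mul]
            apply add_le_add
            · exact Nat.le_mul_of_pos_right _ (by omega)
            · exact Nat.mul_le_mul_left _ (by omega)
    exact_mod_cast h1

lemma di_le_of_isInt {D : ℕ} {θ v β : Fin D → ℝ} (h : IsInt (θ - v - β)) (l : Fin D) :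
    di (θ l - v l) ≤ |β l| := by
  obtain ⟨z, hz⟩ := h
  have h1 := congrFun hz l
  simp only [Pi.sub_apply] at h1
  refine (di_le_abs_sub _ (z l)).trans (le_of_eq ?_)
  congr 1
  linarith

lemma min_two_sq (u : ℝ) (hu : 0 ≤ u) : (min 2 u) ^ 2 ≤ 4 * min 1 u := by
  rcases le_total u 1 with h | h
  · rw [min_eq_right (by linarith), min_eq_right h]
    nlinarith
  · rw [min_eq_left h]
    have h1 : min 2 u ≤ 2 := min_le_left _ _
    have h2 : 0 ≤ min 2 u := le_min (by norm_num) hu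
    nlinarith

/-- the complementary symbols at the scales where the level of the major point is `i` -/
lemma rho_sum {Cg C2 : ℕ} (hg : GeoC b Cg) (hCg : 1 ≤ Cg) (m Ch : ℕ) (hm : 1 ≤ m) :
    ∃ j1 P2 : ℕ, ∀ (js i : ℕ), js ≤ i → j1 ≤ i → Cg ≤ i →
    ∀ (hl : ℕ → ℕ × (Fin D → ℤ) → ℕ) (𝒦 : Finset ℕ) (θ : Fin D → ℝ),
    (∀ k ∈ 𝒦, 1 ≤ k ∧ i ≤ topl σ k ∧ MajI b σ C2 i (m * 2 ^ k) θ) →
    (∀ k ∈ 𝒦, ∀ e ∈ tor D 1 (2 ^ (EE D σ * (topl σ k + 1))), m * 2 ^ k ≤ hl k e ∧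
      ∀ i, js ≤ i → e.1 < 2 ^ (EE D σ * (i + 1)) → hl k e ≤ m * 2 ^ k * 2 ^ (Ch * i)) →
    (∀ k ∈ 𝒦, ‖1 - csym (tor D 1 (2 ^ (EE D σ * (topl σ k + 1)))) (hl k) θ‖ ≤ 2 + 1 / k) ∧
    ∑ k ∈ 𝒦, ‖1 - csym (tor D 1 (2 ^ (EE D σ * (topl σ k + 1)))) (hl k) θ‖ ^ 2
      ≤ P2 * (i + 1) + 2 * ∑ k ∈ 𝒦, (1 : ℝ) / k ^ 2 := by
  have hD : 0 < D := D_pos b
  set E := EE D σ with hE
  set p0 := P0 D σ Cg C2 with hp0
  set P := 1 + p0 + 2 * E + E * (D + 3) + cc σ with hP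
  obtain ⟨j1, hj1⟩ := exp_dom σ P
  set P1 := 7 * D + Ch + p0 with hP1
  refine ⟨j1, 8 * P1 + 24, ?_⟩
  intro js i hjs hji hCgi hl 𝒦 θ hmaj hhl
  -- basic growth facts
  have hgrow : ∀ k ∈ 𝒦, 2 ^ (P * (topl σ k + 1)) ≤ 2 ^ k := by
    intro k hk
    obtain ⟨hk1, hik, _⟩ := hmaj k hk
    have h1 := hj1 (topl σ k) (hji.trans hik) (1 * 2 ^ k) (scale_ge le_rfl hk1 le_rfl)
    rw [one_mul] at h1
    refine le_trans ?_ h1
    apply Nat.pow_le_pow_right (by norm_num)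
    exact Nat.le_mul_of_pos_right _ (pow_pos (by norm_num) _)
  have htiny : ∀ k ∈ 𝒦, (((2 ^ (E * (topl σ k + 1)) : ℕ) : ℝ)) ^ (D + 3) / ((m * 2 ^ k : ℕ) : ℝ)
      ≤ 1 / k := by
    intro k hk
    obtain ⟨hk1, hik, _⟩ := hmaj k hk
    have hk0 : (0 : ℝ) < k := by exact_mod_cast hk1
    have hHpos : (0 : ℝ) < ((m * 2 ^ k : ℕ) : ℝ) := by
      have : 0 < m * 2 ^ k := Nat.mul_pos hm (pow_pos (by norm_num) _)
      exact_mod_cast this
    rw [div_le_div_iff₀ hHpos hk0, one_mul]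
    have h1 : (2 ^ (E * (topl σ k + 1))) ^ (D + 3) * k ≤ m * 2 ^ k := by
      calc (2 ^ (E * (topl σ k + 1))) ^ (D + 3) * k
          ≤ (2 ^ (E * (topl σ k + 1))) ^ (D + 3) * 2 ^ (cc σ * (topl σ k + 1)) :=
            Nat.mul_le_mul_left _ (topl_lt hk1).le
        _ = 2 ^ ((E * (D + 3) + cc σ) * (topl σ k + 1)) := by
            rw [← pow_mul, ← pow_add]
            congr 1
            ring
        _ ≤ 2 ^ (P * (topl σ k + 1)) := by
            apply Nat.pow_le_pow_right (by norm_num)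
            apply Nat.mul_le_mul_right
            omega
        _ ≤ 2 ^ k := hgrow k hk
        _ ≤ m * 2 ^ k := Nat.le_mul_of_pos_left _ hm
    exact_mod_cast h1
  constructor
  · intro k hk
    have hH1 : 1 ≤ m * 2 ^ k := Nat.mul_pos hm (pow_pos (by norm_num) _)
    refine (rho_bound_all (Nat.one_le_two_pow) hH1 (hl k) (fun e he => (hhl k hk e he).1) θ).trans ?_
    have := htiny k hk
    linarith
  rcases 𝒦.eq_empty_or_nonempty with hemp | hne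
  · rw [hemp]
    simp only [sum_empty, mul_zero, add_zero]
    positivity
  obtain ⟨k0, hk0⟩ := hne
  -- points
  have hpt : ∀ k ∈ 𝒦, ∃ e ∈ tor D 1 (2 ^ (E * (i + 1))), ∀ l, di (θ l - vec e l)
      ≤ 2 ^ (p0 * (i + 1)) / ((m * 2 ^ k : ℕ) : ℝ) := by
    intro k hk
    obtain ⟨e, he, β, hint, hβ⟩ := maj_pt hg hCgi (hmaj k hk).2.2
    exact ⟨e, he, fun l => (di_le_of_isInt hint l).trans (hβ l)⟩
  have hsmall : ∀ k ∈ 𝒦, (2 : ℝ) ^ (p0 * (i + 1)) / ((m * 2 ^ k : ℕ) : ℝ)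
      < 1 / (2 * (2 ^ (E * (topl σ k + 1))) ^ 2) := by
    intro k hk
    obtain ⟨hk1, hik, _⟩ := hmaj k hk
    have hHpos : (0 : ℝ) < ((m * 2 ^ k : ℕ) : ℝ) := by
      have : 0 < m * 2 ^ k := Nat.mul_pos hm (pow_pos (by norm_num) _)
      exact_mod_cast this
    rw [div_lt_div_iff₀ hHpos (by positivity), one_mul]
    have h5 : 2 ^ (p0 * (i + 1)) * (2 * (2 ^ (E * (topl σ k + 1))) ^ 2) < m * 2 ^ k := by
      calc 2 ^ (p0 * (i + 1)) * (2 * (2 ^ (E * (topl σ k + 1))) ^ 2)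
          = 2 ^ (p0 * (i + 1) + 1 + E * (topl σ k + 1) * 2) := by
            rw [pow_add, pow_add, pow_mul 2 (E * (topl σ k + 1)) 2]
            ring
        _ < 2 ^ (P * (topl σ k + 1)) := by
            apply Nat.pow_lt_pow_right (by norm_num)
            have h6 : p0 * (i + 1) ≤ p0 * (topl σ k + 1) :=
              Nat.mul_le_mul_left _ (by omega)
            have h7 : P * (topl σ k + 1) = (topl σ k + 1) + p0 * (topl σ k + 1)
                + 2 * E * (topl σ k + 1)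
                + (E * (D + 3) + cc σ) * (topl σ k + 1) := by rw [hP]; ring
            have h8 : 1 ≤ (E * (D + 3) + cc σ) * (topl σ k + 1) := by
              apply Nat.mul_pos
              · unfold cc; omega
              · omega
            nlinarith
        _ ≤ 2 ^ k := hgrow k hk
        _ ≤ m * 2 ^ k := Nat.le_mul_of_pos_left _ hm
    exact_mod_cast h5
  have hsmall' : ∀ k ∈ 𝒦, (2 : ℝ) ^ (p0 * (i + 1)) / ((m * 2 ^ k : ℕ) : ℝ)
      < 1 / (2 * (2 ^ (E * (i + 1))) ^ 2) := by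
    intro k hk
    refine (hsmall k hk).trans_le ?_
    have h1 : (2 : ℝ) ^ (E * (i + 1)) ≤ 2 ^ (E * (topl σ k + 1)) :=
      pow_le_pow_right₀ (by norm_num) (Nat.mul_le_mul_left _ (by have := (hmaj k hk).2.1; omega))
    gcongr
  -- uniqueness of the point
  have huniq : ∀ k ∈ 𝒦, ∀ k' ∈ 𝒦, ∀ e ∈ tor D 1 (2 ^ (E * (i + 1))), ∀ e' ∈ tor D 1 (2 ^ (E * (i + 1))),
      (∀ l, di (θ l - vec e l) ≤ 2 ^ (p0 * (i + 1)) / ((m * 2 ^ k : ℕ) : ℝ)) →
      (∀ l, di (θ l - vec e' l) ≤ 2 ^ (p0 * (i + 1)) / ((m * 2 ^ k' : ℕ) : ℝ)) → e = e' := by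
    intro k hk k' hk' e he e' he' h1 h2
    by_contra hne
    obtain ⟨l, hl'⟩ := tor_sep le_rfl he he' hne
    have hp := tor_pos le_rfl he
    have hp' := tor_pos le_rfl he'
    have h3 : di (vec e l - vec e' l) ≤ di (θ l - vec e' l) + di (θ l - vec e l) := by
      have := di_sub_le (θ l - vec e' l) (θ l - vec e l)
      rwa [show θ l - vec e' l - (θ l - vec e l) = vec e l - vec e' l by ring] at this
    have h4 := hsmall' k hk
    have h5 := hsmall' k' hk'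
    have h6 : 1 / ((2 : ℝ) ^ (E * (i + 1))) ^ 2 ≤ 1 / ((e.1 : ℝ) * e'.1) := by
      have a1 : (0 : ℝ) < e.1 := by exact_mod_cast hp.1
      have a2 : (0 : ℝ) < e'.1 := by exact_mod_cast hp'.1
      have a3 : (e.1 : ℝ) ≤ 2 ^ (E * (i + 1)) := by exact_mod_cast hp.2.le
      have a4 : (e'.1 : ℝ) ≤ 2 ^ (E * (i + 1)) := by exact_mod_cast hp'.2.le
      apply one_div_le_one_div_of_le (by positivity)
      rw [pow_two]
      gcongr
    have h7 : 1 / ((2 : ℝ) ^ (E * (i + 1))) ^ 2 = 1 / (2 * (2 ^ (E * (i + 1))) ^ 2)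
        + 1 / (2 * (2 ^ (E * (i + 1))) ^ 2) := by
      field_simp
      ring
    have h8 := h1 l
    have h9 := h2 l
    linarith
  obtain ⟨e, he, he0⟩ := hpt k0 hk0
  have hall : ∀ k ∈ 𝒦, ∀ l, di (θ l - vec e l) ≤ 2 ^ (p0 * (i + 1)) / ((m * 2 ^ k : ℕ) : ℝ) := by
    intro k hk
    obtain ⟨e1, he1, h1⟩ := hpt k hk
    have h2 := huniq k hk k0 hk0 e1 he1 e he h1 he0
    rw [← h2]
    exact h1
  have hnon : (univ : Finset (Fin D)).Nonempty := ⟨⟨0, hD⟩, mem_univ _⟩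
  set x : ℝ := univ.sup' hnon (fun l => di (θ l - vec e l)) with hx
  have hx0 : 0 ≤ x := (di_nonneg _).trans
    (le_sup' (fun l => di (θ l - vec e l)) (mem_univ (⟨0, hD⟩ : Fin D)))
  have hxl : ∀ l, di (θ l - vec e l) ≤ x := fun l =>
    le_sup' (fun l => di (θ l - vec e l)) (mem_univ l)
  have hxk : ∀ k ∈ 𝒦, x ≤ 2 ^ (p0 * (i + 1)) / ((m * 2 ^ k : ℕ) : ℝ) := by
    intro k hk
    rw [hx]
    apply sup'_le
    intro l _
    exact hall k hk l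
  set t : ℝ := 7 * D * 2 ^ (Ch * i) * x * m with ht
  have ht0 : 0 ≤ t := by positivity
  set Y : ℝ := 7 * D * 2 ^ (Ch * i) * 2 ^ (p0 * (i + 1)) with hY
  have hDr : (1 : ℝ) ≤ D := by exact_mod_cast hD
  have hY1 : 1 ≤ Y := by
    have a1 : (1 : ℝ) ≤ 2 ^ (Ch * i) := one_le_pow₀ (by norm_num)
    have a2 : (1 : ℝ) ≤ 2 ^ (p0 * (i + 1)) := one_le_pow₀ (by norm_num)
    have a3 : (1 : ℝ) ≤ 7 * D := by linarith
    calc (1 : ℝ) = 1 * 1 * 1 := by norm_num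
      _ ≤ 7 * D * 2 ^ (Ch * i) * 2 ^ (p0 * (i + 1)) := by gcongr
  have htY : ∀ k ∈ 𝒦, t * 2 ^ k ≤ Y := by
    intro k hk
    have hHpos : (0 : ℝ) < ((m * 2 ^ k : ℕ) : ℝ) := by
      have : 0 < m * 2 ^ k := Nat.mul_pos hm (pow_pos (by norm_num) _)
      exact_mod_cast this
    have h1 := hxk k hk
    rw [le_div_iff₀ hHpos] at h1
    push_cast at h1
    calc t * 2 ^ k = 7 * D * 2 ^ (Ch * i) * (x * (m * 2 ^ k)) := by rw [ht]; ring
      _ ≤ 7 * D * 2 ^ (Ch * i) * 2 ^ (p0 * (i + 1)) := by gcongr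
  have hlog : Real.logb 2 Y ≤ P1 * (i + 1) := by
    have h1 : Y ≤ 2 ^ (P1 * (i + 1)) := by
      have h2 : 7 * D * 2 ^ (Ch * i) * 2 ^ (p0 * (i + 1)) ≤ 2 ^ (P1 * (i + 1)) := by
        calc 7 * D * 2 ^ (Ch * i) * 2 ^ (p0 * (i + 1))
            ≤ 2 ^ (7 * D) * 2 ^ (Ch * i) * 2 ^ (p0 * (i + 1)) := by
              gcongr
              exact Nat.lt_two_pow_self.le
          _ = 2 ^ (7 * D + Ch * i + p0 * (i + 1)) := by rw [← pow_add, ← pow_add]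
          _ ≤ 2 ^ (P1 * (i + 1)) := by
              apply Nat.pow_le_pow_right (by norm_num)
              rw [hP1]
              nlinarith
      rw [hY]
      exact_mod_cast h2
    rw [Real.logb_le_iff_le_rpow (by norm_num) (by linarith)]
    refine h1.trans (le_of_eq ?_)
    rw [← Real.rpow_natCast]
    push_cast
    rfl
  have hterm : ∀ k ∈ 𝒦, ‖1 - csym (tor D 1 (2 ^ (E * (topl σ k + 1)))) (hl k) θ‖ ^ 2
      ≤ 8 * min 1 (t * 2 ^ k) + 2 * (1 / (k : ℝ) ^ 2) := by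
    intro k hk
    obtain ⟨hk1, hik, _⟩ := hmaj k hk
    have hH1 : 1 ≤ m * 2 ^ k := Nat.mul_pos hm (pow_pos (by norm_num) _)
    have hHpos : (0 : ℝ) < ((m * 2 ^ k : ℕ) : ℝ) := by exact_mod_cast hH1
    have heQ : e ∈ tor D 1 (2 ^ (E * (topl σ k + 1))) :=
      tor_mono (Nat.pow_le_pow_right (by norm_num) (Nat.mul_le_mul_left _ (by omega))) he
    have h1 : 2 * x * (((2 ^ (E * (topl σ k + 1)) : ℕ) : ℝ)) ^ 2 ≤ 1 := by
      have h2 := (hxk k hk).trans (hsmall k hk).le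
      rw [le_div_iff₀ (by positivity)] at h2
      push_cast
      linarith
    have h2 := rho_bound (Nat.one_le_two_pow) hH1 (hl k) (fun e he => (hhl k hk e he).1) θ heQ hxl h1
    have h3 := htiny k hk
    have h4 : (7 : ℝ) * D * hl k e * x ≤ t * 2 ^ k := by
      have h5 := (hhl k hk e heQ).2 i hjs (tor_pos le_rfl he).2
      have h6 : (hl k e : ℝ) ≤ m * 2 ^ k * 2 ^ (Ch * i) := by exact_mod_cast h5
      calc (7 : ℝ) * D * hl k e * x ≤ 7 * D * (m * 2 ^ k * 2 ^ (Ch * i)) * x := by gcongr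
        _ = t * 2 ^ k := by rw [ht]; ring
    have h5 : min 2 ((7 : ℝ) * D * hl k e * x) ≤ min 2 (t * 2 ^ k) := min_le_min le_rfl h4
    have h6 : ‖1 - csym (tor D 1 (2 ^ (E * (topl σ k + 1)))) (hl k) θ‖ ≤ min 2 (t * 2 ^ k) + 1 / k := by
      linarith
    have h7 : 0 ≤ t * 2 ^ k := by positivity
    have h8 := min_two_sq (t * 2 ^ k) h7
    calc ‖1 - csym (tor D 1 (2 ^ (E * (topl σ k + 1)))) (hl k) θ‖ ^ 2
        ≤ (min 2 (t * 2 ^ k) + 1 / k) ^ 2 := pow_le_pow_left₀ (norm_nonneg _) h6 2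
      _ ≤ 2 * (min 2 (t * 2 ^ k)) ^ 2 + 2 * (1 / (k : ℝ)) ^ 2 := by
          nlinarith [sq_nonneg (min 2 (t * 2 ^ k) - 1 / (k : ℝ))]
      _ ≤ 8 * min 1 (t * 2 ^ k) + 2 * (1 / (k : ℝ) ^ 2) := by
          rw [one_div_pow]
          linarith
  refine (sum_le_sum hterm).trans ?_
  rw [sum_add_distrib, ← mul_sum, ← mul_sum]
  have h1 := geo_count 𝒦 t Y ht0 hY1 htY
  have h2 : 8 * ∑ k ∈ 𝒦, min 1 (t * 2 ^ k) ≤ ((8 * P1 + 24 : ℕ) : ℝ) * (i + 1) := by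
    push_cast
    have h3 : (0 : ℝ) ≤ i := Nat.cast_nonneg _
    nlinarith
  linarith

end

end Pool.Agent.H10.Sar
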