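import Pool.Agent.H10.Sar.LevA
import Pool.Agent.H10.Sar.Rem3
set_option autoImplicit false
set_option linter.unusedSectionVars false

namespace Pool.Agent.H10.Sar

open NumberField Module Finset
open scoped Classical

noncomputable section

/-- coordinatewise quotient -/
def qt {D : ℕ} (M : ℕ) (y : Fin D → ℤ) : Fin D → ℤ := fun i => y i / (M : ℤ)

/-- coordinatewise remainder -/
def rm {D : ℕ} (M : ℕ) (y : Fin D → ℤ) : Fin D → ℤ := fun i => y i % (M : ℤ)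

lemma qt_rm {D : ℕ} (M : ℕ) (y : Fin D → ℤ) : (M : ℤ) • qt M y + rm M y = y := by
  funext i
  simp only [Pi.add_apply, Pi.smul_apply, smul_eq_mul]
  exact Int.mul_ediv_add_emod _ _

lemma rm_mem {D M : ℕ} (hM : 0 < M) (y : Fin D → ℤ) : rm M y ∈ bx D M := by
  rw [mem_bx]
  intro i
  have hM' : (0 : ℤ) < M := by exact_mod_cast hM
  exact ⟨Int.emod_nonneg _ hM'.ne', Int.emod_lt_of_pos _ hM'⟩

/-- the frozen coefficients -/
def vv (D σ Ch j H : ℕ) (F : (Fin D → ℤ) → ℂ) (y : Fin D → ℤ) (e : ℕ × (Fin D → ℤ)) : ℂ :=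
  Gl (hlen D σ Ch j H e) F e
    (((Mj D σ j (e.1 / Gj σ j) : ℕ) : ℤ) • qt (Mj D σ j (e.1 / Gj σ j)) y)

/-- size facts for the smoothing lengths -/
lemma hlen_facts (D σ Ch P : ℕ) (hD : 0 < D) (hCh : 1 ≤ Ch) : ∃ j1 : ℕ, ∀ j, j1 ≤ j → ∀ H : ℕ,
    2 ^ (2 ^ (cc σ * j)) ≤ H → ∀ e ∈ Tj D σ j,
    0 < Mj D σ j (e.1 / Gj σ j) ∧ 2 ^ (P * (j + 1)) * Mj D σ j (e.1 / Gj σ j) ≤ H ∧
    hlen D σ Ch j H e ≤ H * 2 ^ (Ch * j) ∧ H * 2 ^ (Ch * j) ≤ 2 * hlen D σ Ch j H e ∧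
    H ≤ hlen D σ Ch j H e ∧ 1 ≤ H * 2 ^ (Ch * j) / Mj D σ j (e.1 / Gj σ j) := by
  obtain ⟨j1, h⟩ := Mj_small D σ (P + 1) hD
  refine ⟨j1 + 1, ?_⟩
  intro j hj H hH e he
  have hq := mem_Tj he
  have h1 := h j (by omega) H hH e.1 hq.2
  have hM := Mj_pos (D := D) (σ := σ) (j := j) (group_pos hD hq.1)
  set M := Mj D σ j (e.1 / Gj σ j) with hMdef
  have h2 : 2 ^ ((P + 1) * (j + 1)) * M ≤ H := by
    refine le_trans ?_ h1
    apply Nat.mul_le_mul_right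
    apply Nat.pow_le_pow_right (by norm_num)
    exact Nat.le_mul_of_pos_right _ (pow_pos (by norm_num) _)
  have h3 : 2 ^ (P * (j + 1)) * M ≤ H := by
    refine le_trans ?_ h2
    apply Nat.mul_le_mul_right
    apply Nat.pow_le_pow_right (by norm_num)
    exact Nat.mul_le_mul_right _ (by omega)
  have h4 : 2 * M ≤ H := by
    refine le_trans ?_ h2
    apply Nat.mul_le_mul_right
    calc 2 = 2 ^ 1 := by norm_num
      _ ≤ 2 ^ ((P + 1) * (j + 1)) := Nat.pow_le_pow_right (by norm_num)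
          (Nat.mul_pos (by omega) (by omega))
  have hX : 2 * H ≤ H * 2 ^ (Ch * j) := by
    rw [mul_comm]
    apply Nat.mul_le_mul_left
    calc 2 = 2 ^ 1 := by norm_num
      _ ≤ 2 ^ (Ch * j) := Nat.pow_le_pow_right (by norm_num) (Nat.mul_pos hCh (by omega))
  have h5 : H * 2 ^ (Ch * j) < hlen D σ Ch j H e + M := by
    unfold hlen
    rw [← hMdef]
    have := Nat.lt_div_mul_add (a := H * 2 ^ (Ch * j)) hM
    rw [mul_comm M]
    exact this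
  have h6 : hlen D σ Ch j H e ≤ H * 2 ^ (Ch * j) := by
    unfold hlen
    rw [← hMdef]
    exact Nat.mul_div_le _ _
  refine ⟨hM, h3, h6, by omega, by omega, ?_⟩
  rw [Nat.one_le_div_iff hM]
  omega

lemma nn_le_of_mem_bx {D H : ℕ} {n : Fin D → ℤ} (hn : n ∈ bx D H) : nn n ≤ H :=
  mem_sbx.mp (bx_subset_sbx D H hn)

lemma card_Tj_le (D σ j : ℕ) : (Tj D σ j).card ≤ 2 ^ (EE D σ * (D + 1) * (j + 1)) := by
  refine (card_tor_le D _ _).trans (le_of_eq ?_)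
  rw [← pow_mul]
  congr 1
  ring

/-- constants -/
def CD (D : ℕ) : ℝ := 2 ^ (D + 2) + 2

/-- replacing the core by a trigonometric polynomial -/
lemma core_replace (D σ Ch : ℕ) (hD : 0 < D) (hCh : 1 ≤ Ch) : ∃ j1 : ℕ, ∀ j, j1 ≤ j → ∀ H : ℕ,
    2 ^ (2 ^ (cc σ * j)) ≤ H → ∀ F : (Fin D → ℤ) → ℂ, (∀ n, ‖F n‖ ≤ 1) → ∀ y, ∀ n ∈ bx D H,
    ‖Cop (Tj D σ j) (hlen D σ Ch j H) F (y + n) - Fv (Tj D σ j) (vv D σ Ch j H F y) (y + n)‖
      ≤ 8 * D * 2 ^ (EE D σ * (D + 1) * (j + 1)) / 2 ^ (Ch * j) := by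
  obtain ⟨j1, h⟩ := hlen_facts D σ Ch 0 hD hCh
  refine ⟨j1, ?_⟩
  intro j hj H hH F hF y n hn
  have hH1 : 1 ≤ H := Nat.one_le_two_pow.trans hH
  unfold Cop Fv
  rw [← sum_sub_distrib]
  refine (norm_sum_le _ _).trans ?_
  have key : ∀ e ∈ Tj D σ j, ‖ee (dot (vec e) (y + n)) * Gl (hlen D σ Ch j H e) F e (y + n)
      - vv D σ Ch j H F y e * ee (dot (vec e) (y + n))‖ ≤ 8 * D / 2 ^ (Ch * j) := by
    intro e he
    obtain ⟨hM, hM2, hle, hge, hHle, _⟩ := h j hj H hH e he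
    set M := Mj D σ j (e.1 / Gj σ j) with hMdef
    have e1 : ee (dot (vec e) (y + n)) * Gl (hlen D σ Ch j H e) F e (y + n)
      - vv D σ Ch j H F y e * ee (dot (vec e) (y + n))
      = ee (dot (vec e) (y + n)) * (Gl (hlen D σ Ch j H e) F e (y + n) - vv D σ Ch j H F y e) := by
      ring
    rw [e1, norm_mul, norm_ee, one_mul]
    unfold vv
    rw [← hMdef]
    have e2 : y + n = (M : ℤ) • qt M y + (rm M y + n) := by
      rw [← add_assoc, qt_rm]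
    have h1 := Gl_lip (hH1.trans hHle) hF e ((M : ℤ) • qt M y) (rm M y + n)
    rw [← e2] at h1
    refine h1.trans ?_
    have h2 : nn (rm M y + n) ≤ 2 * H := by
      refine (nn_add_le _ _).trans ?_
      have h3 := nn_le_of_mem_bx (rm_mem hM y)
      have h4 := nn_le_of_mem_bx hn
      simp only [zero_mul, pow_zero, one_mul] at hM2
      omega
    have h3 : (nn (rm M y + n) : ℝ) ≤ 2 * H := by exact_mod_cast h2
    have h4 : (H : ℝ) * 2 ^ (Ch * j) ≤ 2 * hlen D σ Ch j H e := by exact_mod_cast hge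
    have h5 : (0 : ℝ) < hlen D σ Ch j H e := by exact_mod_cast (hH1.trans hHle)
    have h6 : (0 : ℝ) < H := by exact_mod_cast hH1
    rw [div_le_div_iff₀ h5 (by positivity)]
    calc 2 * (D : ℝ) * nn (rm M y + n) * 2 ^ (Ch * j) ≤ 2 * D * (2 * H) * 2 ^ (Ch * j) := by gcongr
      _ = 4 * D * (H * 2 ^ (Ch * j)) := by ring
      _ ≤ 4 * D * (2 * hlen D σ Ch j H e) := by gcongr
      _ = 8 * D * hlen D σ Ch j H e := by ring
  refine (sum_le_sum key).trans ?_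
  rw [sum_const, nsmul_eq_mul]
  have h1 : ((Tj D σ j).card : ℝ) ≤ 2 ^ (EE D σ * (D + 1) * (j + 1)) := by
    exact_mod_cast card_Tj_le D σ j
  calc ((Tj D σ j).card : ℝ) * (8 * D / 2 ^ (Ch * j))
      ≤ 2 ^ (EE D σ * (D + 1) * (j + 1)) * (8 * D / 2 ^ (Ch * j)) := by gcongr
    _ = _ := by ring

lemma norm_avg_sq_le {ι : Type*} (S : Finset ι) (N : ℝ) (hN : 0 < N) (hS : (S.card : ℝ) ≤ N)
    (f : ι → ℂ) : ‖(1 / (N : ℂ)) * ∑ z ∈ S, f z‖ ^ 2 ≤ 1 / N * ∑ z ∈ S, ‖f z‖ ^ 2 := by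
  rw [norm_mul, norm_div, norm_one, Complex.norm_real, Real.norm_eq_abs, abs_of_pos hN, mul_pow]
  have h1 : ‖∑ z ∈ S, f z‖ ^ 2 ≤ N * ∑ z ∈ S, ‖f z‖ ^ 2 := by
    calc ‖∑ z ∈ S, f z‖ ^ 2 ≤ (∑ z ∈ S, ‖f z‖) ^ 2 :=
          pow_le_pow_left₀ (norm_nonneg _) (norm_sum_le _ _) 2
      _ ≤ S.card * ∑ z ∈ S, ‖f z‖ ^ 2 := sq_sum_le_card_mul_sum_sq
      _ ≤ N * ∑ z ∈ S, ‖f z‖ ^ 2 := mul_le_mul_of_nonneg_right hS (by positivity)
  calc (1 / N) ^ 2 * ‖∑ z ∈ S, f z‖ ^ 2 ≤ (1 / N) ^ 2 * (N * ∑ z ∈ S, ‖f z‖ ^ 2) := by gcongr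
    _ = 1 / N * ∑ z ∈ S, ‖f z‖ ^ 2 := by
        field_simp

/-- the frozen coefficients are square summable -/
lemma vv_sq_le (D σ Ch : ℕ) (hD : 0 < D) (hCh : 1 ≤ Ch) : ∃ j1 : ℕ, ∀ j, j1 ≤ j → ∀ H : ℕ,
    2 ^ (2 ^ (cc σ * j)) ≤ H → ∀ F : (Fin D → ℤ) → ℂ, (∀ n, ‖F n‖ ≤ 1) → ∀ y,
    ∑ e ∈ Tj D σ j, ‖vv D σ Ch j H F y e‖ ^ 2 ≤ CD D := by
  set P := EE D σ * (D + 1) + 2 * D + 2 with hP
  obtain ⟨j1, h⟩ := hlen_facts D σ Ch P hD hCh
  refine ⟨j1, ?_⟩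
  intro j hj H hH F hF y
  have hH1 : 1 ≤ H := Nat.one_le_two_pow.trans hH
  have hHr : (0 : ℝ) < H := by exact_mod_cast hH1
  set X := H * 2 ^ (Ch * j) with hX
  have hXpos : 0 < X := Nat.mul_pos hH1 (pow_pos (by norm_num) _)
  set S := Sj D σ j with hS
  have hSpos : 0 < S := Sj_pos D σ j
  have hSr : (0 : ℝ) < S := by exact_mod_cast hSpos
  have hXr : (0 : ℝ) < X := by exact_mod_cast hXpos
  -- comparison with the coefficients at `y`
  have h1 : ∀ e ∈ Tj D σ j, ‖vv D σ Ch j H F y e‖ ^ 2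
      ≤ 2 * ‖Gl (hlen D σ Ch j H e) F e y‖ ^ 2 + 2 * (1 / 2 ^ (EE D σ * (D + 1) * (j + 1))) := by
    intro e he
    obtain ⟨hM, hM2, hle, hge, hHle, _⟩ := h j hj H hH e he
    set M := Mj D σ j (e.1 / Gj σ j) with hMdef
    have h2 := Gl_lip (hH1.trans hHle) hF e ((M : ℤ) • qt M y) (rm M y)
    rw [qt_rm] at h2
    have h3 : 2 * (D : ℝ) * nn (rm M y) / hlen D σ Ch j H e ≤ 1 / 2 ^ (EE D σ * (D + 1) * (j + 1)) := by
      have h5 : (0 : ℝ) < hlen D σ Ch j H e := by exact_mod_cast (hH1.trans hHle)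
      rw [div_le_div_iff₀ h5 (by positivity), one_mul]
      have h6 : 2 * D * nn (rm M y) * 2 ^ (EE D σ * (D + 1) * (j + 1)) ≤ hlen D σ Ch j H e := by
        calc 2 * D * nn (rm M y) * 2 ^ (EE D σ * (D + 1) * (j + 1))
            ≤ 2 ^ (2 * D) * M * 2 ^ (EE D σ * (D + 1) * (j + 1)) := by
              gcongr
              · exact Nat.lt_two_pow_self.le
              · exact nn_le_of_mem_bx (rm_mem hM y)
          _ = 2 ^ (2 * D + EE D σ * (D + 1) * (j + 1)) * M := by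
              rw [pow_add]
              ring
          _ ≤ 2 ^ (P * (j + 1)) * M := by
              apply Nat.mul_le_mul_right
              apply Nat.pow_le_pow_right (by norm_num)
              rw [hP]
              nlinarith
          _ ≤ H := hM2
          _ ≤ hlen D σ Ch j H e := hHle
      exact_mod_cast h6
    have h4 : ‖vv D σ Ch j H F y e‖ ≤ ‖Gl (hlen D σ Ch j H e) F e y‖
        + 1 / 2 ^ (EE D σ * (D + 1) * (j + 1)) := by
      have h5 : vv D σ Ch j H F y e = Gl (hlen D σ Ch j H e) F e y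
          - (Gl (hlen D σ Ch j H e) F e y - Gl (hlen D σ Ch j H e) F e ((M : ℤ) • qt M y)) := by
        unfold vv
        rw [← hMdef]
        ring
      rw [h5]
      refine (norm_sub_le _ _).trans ?_
      linarith
    have h5 : (1 : ℝ) / 2 ^ (EE D σ * (D + 1) * (j + 1)) ≤ 1 := by
      rw [div_le_one (by positivity)]
      exact one_le_pow₀ (by norm_num)
    have h6 : (0 : ℝ) ≤ 1 / 2 ^ (EE D σ * (D + 1) * (j + 1)) := by positivity
    set u := ‖Gl (hlen D σ Ch j H e) F e y‖ with hu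
    set δ : ℝ := 1 / 2 ^ (EE D σ * (D + 1) * (j + 1)) with hδ
    calc ‖vv D σ Ch j H F y e‖ ^ 2 ≤ (u + δ) ^ 2 := pow_le_pow_left₀ (norm_nonneg _) h4 2
      _ ≤ 2 * u ^ 2 + 2 * δ ^ 2 := by nlinarith [sq_nonneg (u - δ)]
      _ ≤ 2 * u ^ 2 + 2 * δ := by nlinarith
  -- the coefficients at `y` are averages over cells of side `S`
  have h2 : ∀ e ∈ Tj D σ j, ‖Gl (hlen D σ Ch j H e) F e y‖ ^ 2
      ≤ (2 * S / X) ^ D * ∑ Z ∈ bx D (X / S), ‖Gl S F e (y + (S : ℤ) • Z)‖ ^ 2 := by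
    intro e he
    obtain ⟨hM, hM2, hle, hge, hHle, hR1⟩ := h j hj H hH e he
    set g := e.1 / Gj σ j with hg
    have hg1 : 1 ≤ g := group_pos hD (mem_Tj he).1
    set R := X / Mj D σ j g with hR
    set N := Mj' σ j g * R with hN
    have hlenS : hlen D σ Ch j H e = S * N := by
      unfold hlen
      rw [← hg, ← hX, ← hR, hN]
      unfold Mj
      ring
    have hNpos : 0 < N := Nat.mul_pos (Mj'_pos hg1) hR1
    have hNr : (0 : ℝ) < N := by exact_mod_cast hNpos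
    rw [hlenS, Gl_avg]
    have h3 := norm_avg_sq_le (bx D N) ((N : ℝ) ^ D) (by positivity) (by
      rw [card_bx]; push_cast; exact le_rfl) (fun Z => Gl S F e (y + (S : ℤ) • Z))
    push_cast at h3
    refine h3.trans ?_
    rw [hlenS] at hge hle
    have hge' : (X : ℝ) ≤ 2 * (S * N) := by exact_mod_cast hge
    have h4 : 1 / (N : ℝ) ^ D ≤ (2 * S / X) ^ D := by
      rw [one_div, ← inv_pow]
      apply pow_le_pow_left₀ (by positivity)
      rw [inv_eq_one_div, div_le_div_iff₀ hNr hXr]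
      linarith
    have h5 : bx D N ⊆ bx D (X / S) := by
      intro Z hZ
      rw [mem_bx] at hZ ⊢
      intro i
      refine ⟨(hZ i).1, ?_⟩
      have h6 : N ≤ X / S := by
        rw [Nat.le_div_iff_mul_le hSpos, mul_comm]
        exact hle
      have h7 : (N : ℤ) ≤ ((X / S : ℕ) : ℤ) := by exact_mod_cast h6
      linarith [(hZ i).2]
    apply mul_le_mul h4 _ (by positivity) (by positivity)
    exact sum_le_sum_of_subset_of_nonneg h5 (fun _ _ _ => by positivity)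
  have hSN : (2 ^ (EE D σ * (j + 1))) ^ (D + 3) ≤ S := by
    rw [hS]
    unfold Sj
    rw [← pow_mul]
    apply le_of_eq
    congr 1
    ring
  have h3 : ∀ Z : Fin D → ℤ, ∑ e ∈ Tj D σ j, ‖Gl S F e (y + (S : ℤ) • Z)‖ ^ 2 ≤ 2 := by
    intro Z
    have h4 := orth2 (D := D) (q0 := 2 ^ (EE D σ * j)) (q1 := 2 ^ (EE D σ * (j + 1))) (N := S)
      hD Nat.one_le_two_pow hSN hSpos F (y + (S : ℤ) • Z)
    have h5 : ∑ z ∈ bx D S, ‖F (y + (S : ℤ) • Z + z)‖ ^ 2 ≤ (S : ℝ) ^ D := by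
      calc ∑ z ∈ bx D S, ‖F (y + (S : ℤ) • Z + z)‖ ^ 2 ≤ ∑ _z ∈ bx D S, (1 : ℝ) := by
            apply sum_le_sum
            intro z _
            have := hF (y + (S : ℤ) • Z + z)
            exact pow_le_one₀ (norm_nonneg _) this
        _ = (S : ℝ) ^ D := by rw [sum_const, card_bx, nsmul_eq_mul, mul_one, Nat.cast_pow]
    calc ∑ e ∈ Tj D σ j, ‖Gl S F e (y + (S : ℤ) • Z)‖ ^ 2
        ≤ 2 / (S : ℝ) ^ D * ∑ z ∈ bx D S, ‖F (y + (S : ℤ) • Z + z)‖ ^ 2 := h4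
      _ ≤ 2 / (S : ℝ) ^ D * (S : ℝ) ^ D := by gcongr
      _ = 2 := by field_simp
  have h4 : ∑ e ∈ Tj D σ j, ‖Gl (hlen D σ Ch j H e) F e y‖ ^ 2 ≤ 2 ^ (D + 1) := by
    refine (sum_le_sum h2).trans ?_
    rw [← mul_sum, sum_comm]
    have h5 : ∑ Z ∈ bx D (X / S), ∑ e ∈ Tj D σ j, ‖Gl S F e (y + (S : ℤ) • Z)‖ ^ 2
        ≤ ((X : ℝ) / S) ^ D * 2 := by
      refine (sum_le_sum (fun Z _ => h3 Z)).trans ?_
      rw [sum_const, card_bx, nsmul_eq_mul]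
      apply mul_le_mul_of_nonneg_right _ (by norm_num)
      push_cast
      apply pow_le_pow_left₀ (by positivity)
      exact Nat.cast_div_le
    calc (2 * (S : ℝ) / X) ^ D * _ ≤ (2 * S / X) ^ D * (((X : ℝ) / S) ^ D * 2) := by gcongr
      _ = 2 ^ (D + 1) := by
          rw [← mul_assoc, ← mul_pow, pow_succ]
          congr 2
          field_simp
  calc ∑ e ∈ Tj D σ j, ‖vv D σ Ch j H F y e‖ ^ 2
      ≤ ∑ e ∈ Tj D σ j, (2 * ‖Gl (hlen D σ Ch j H e) F e y‖ ^ 2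
        + 2 * (1 / 2 ^ (EE D σ * (D + 1) * (j + 1)))) := sum_le_sum h1
    _ = 2 * ∑ e ∈ Tj D σ j, ‖Gl (hlen D σ Ch j H e) F e y‖ ^ 2
        + 2 * ((Tj D σ j).card * (1 / 2 ^ (EE D σ * (D + 1) * (j + 1)))) := by
        rw [sum_add_distrib, ← mul_sum, sum_const, nsmul_eq_mul]
        ring
    _ ≤ 2 * 2 ^ (D + 1) + 2 * 1 := by
        have h6 : ((Tj D σ j).card : ℝ) ≤ 2 ^ (EE D σ * (D + 1) * (j + 1)) := by
          exact_mod_cast card_Tj_le D σ j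
        have h7 : ((Tj D σ j).card : ℝ) * (1 / 2 ^ (EE D σ * (D + 1) * (j + 1))) ≤ 1 := by
          rw [mul_one_div, div_le_one (by positivity)]
          exact h6
        linarith
    _ = CD D := by
        unfold CD
        rw [show D + 2 = (D + 1) + 1 by ring, pow_succ 2 (D + 1)]
        ring

/-- sums over small exceptional sets -/
lemma exc_core (D σ Ch : ℕ) (hD : 0 < D) (hCh : 1 ≤ Ch) : ∃ j1 : ℕ, ∀ j, j1 ≤ j → ∀ H : ℕ,
    2 ^ (2 ^ (cc σ * j)) ≤ H → ∀ F : (Fin D → ℤ) → ℂ, (∀ n, ‖F n‖ ≤ 1) → ∀ y,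
    ∀ (T : Finset (Fin D → ℤ)) (d : ℝ), T ⊆ bx D H → 0 ≤ d → (T.card : ℝ) ≤ d * H ^ D →
    ∑ n ∈ T, ‖Fv (Tj D σ j) (vv D σ Ch j H F y) (y + n)‖ ≤ Real.sqrt (2 * CD D * d) * H ^ D := by
  obtain ⟨j1, h1⟩ := vv_sq_le D σ Ch hD hCh
  obtain ⟨j2, h2⟩ := exp_dom σ (EE D σ * (D + 3))
  refine ⟨j1 + j2, ?_⟩
  intro j hj H hH F hF y T d hT hd hcard
  have hH1 : 1 ≤ H := Nat.one_le_two_pow.trans hH
  have hHr : (0 : ℝ) < H := by exact_mod_cast hH1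
  have hSN : (2 ^ (EE D σ * (j + 1))) ^ (D + 3) ≤ H := by
    refine le_trans ?_ (h2 j (by omega) H hH)
    rw [← pow_mul]
    apply Nat.pow_le_pow_right (by norm_num)
    calc EE D σ * (j + 1) * (D + 3) = EE D σ * (D + 3) * (j + 1) * 1 := by ring
      _ ≤ EE D σ * (D + 3) * (j + 1) * 2 ^ ((cc σ - 1) * j) :=
        Nat.mul_le_mul_left _ Nat.one_le_two_pow
  have h3 := orth1 (D := D) (q0 := 2 ^ (EE D σ * j)) (q1 := 2 ^ (EE D σ * (j + 1))) (N := H)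
      hD Nat.one_le_two_pow hSN (vv D σ Ch j H F y) y
  have h4 := h1 j (by omega) H hH F hF y
  have h5 : ∑ n ∈ T, ‖Fv (Tj D σ j) (vv D σ Ch j H F y) (y + n)‖ ^ 2 ≤ 2 * H ^ D * CD D := by
    refine (sum_le_sum_of_subset_of_nonneg hT (fun _ _ _ => by positivity)).trans ?_
    refine h3.trans ?_
    gcongr
    exact h4
  have h6 : (∑ n ∈ T, ‖Fv (Tj D σ j) (vv D σ Ch j H F y) (y + n)‖) ^ 2
      ≤ (d * H ^ D) * (2 * H ^ D * CD D) := by
    refine (sq_sum_le_card_mul_sum_sq).trans ?_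
    apply mul_le_mul hcard h5 (by positivity) (by positivity)
  have hCD : 0 ≤ CD D := by unfold CD; positivity
  have h7 : (d * H ^ D) * (2 * H ^ D * CD D) = (Real.sqrt (2 * CD D * d) * H ^ D) ^ 2 := by
    rw [mul_pow, Real.sq_sqrt (by positivity)]
    ring
  rw [h7] at h6
  exact le_of_sq_le_sq h6 (by positivity)

end

end Pool.Agent.H10.Sar
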