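import Pool.Agent.H10.Sar.TorDefs
set_option autoImplicit false
set_option linter.unusedSectionVars false

namespace Pool.Agent.H10.Sar

open NumberField Module Finset
open scoped Classical

noncomputable section

/-- local Fourier coefficient at the frequency `e` on the cube `y + [0,h)^D` -/
def Gl {D : ℕ} (h : ℕ) (F : (Fin D → ℤ) → ℂ) (e : ℕ × (Fin D → ℤ)) (y : Fin D → ℤ) : ℂ :=
  (1 / (h : ℂ) ^ D) * ∑ z ∈ bx D h, ee (-dot (vec e) (y + z)) * F (y + z)

/-- core operator -/
def Cop {D : ℕ} (Λ : Finset (ℕ × (Fin D → ℤ))) (hl : ℕ × (Fin D → ℤ) → ℕ)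
    (F : (Fin D → ℤ) → ℂ) (y : Fin D → ℤ) : ℂ :=
  ∑ e ∈ Λ, ee (dot (vec e) y) * Gl (hl e) F e y

lemma norm_Gl_le {D h : ℕ} {F : (Fin D → ℤ) → ℂ} (hF : ∀ n, ‖F n‖ ≤ 1)
    (e : ℕ × (Fin D → ℤ)) (y : Fin D → ℤ) : ‖Gl h F e y‖ ≤ 1 := by
  unfold Gl
  rw [norm_mul, norm_div, norm_one, norm_pow, Complex.norm_natCast]
  rcases Nat.eq_zero_or_pos h with h0 | h0
  · subst h0
    rcases Nat.eq_zero_or_pos D with hD | hD
    · subst hD
      have : bx 0 0 = {0} := by
        ext n
        rw [mem_bx, mem_singleton]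
        exact ⟨fun _ => Subsingleton.elim _ _, fun _ i => i.elim0⟩
      rw [this, sum_singleton, norm_mul, norm_ee]
      simp only [pow_zero, div_one, one_mul]
      exact hF _
    · rw [Nat.cast_zero, zero_pow (by omega), div_zero, zero_mul]
      exact zero_le_one
  · have h1 : ‖∑ z ∈ bx D h, ee (-dot (vec e) (y + z)) * F (y + z)‖ ≤ (h : ℝ) ^ D := by
      refine (norm_sum_le _ _).trans ?_
      calc ∑ z ∈ bx D h, ‖ee (-dot (vec e) (y + z)) * F (y + z)‖ ≤ ∑ _z ∈ bx D h, (1 : ℝ) := by
            apply sum_le_sum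
            intro z _
            rw [norm_mul, norm_ee, one_mul]
            exact hF _
        _ = (h : ℝ) ^ D := by rw [sum_const, card_bx, nsmul_eq_mul, mul_one, Nat.cast_pow]
    have h2 : (0 : ℝ) < (h : ℝ) ^ D := by positivity
    rw [one_div, inv_mul_le_iff₀ h2, mul_one]
    exact h1

/-- few points of a cube leave it after a shift -/
lemma card_shift_le {D : ℕ} (h : ℕ) (n : Fin D → ℤ) :
    ((bx D h).filter (fun z => z + n ∉ bx D h)).card ≤ D * nn n * h ^ (D - 1) := by
  have h1 : (bx D h).filter (fun z => z + n ∉ bx D h)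
      ⊆ univ.biUnion (fun i : Fin D => (bx D h).filter (fun z => ¬ (0 ≤ z i + n i ∧ z i + n i < h))) := by
    intro z hz
    rw [mem_filter] at hz
    rw [mem_biUnion]
    have h2 := hz.2
    rw [mem_bx, not_forall] at h2
    obtain ⟨i, hi⟩ := h2
    exact ⟨i, mem_univ i, mem_filter.mpr ⟨hz.1, hi⟩⟩
  have h3 : ∀ i : Fin D, ((bx D h).filter (fun z => ¬ (0 ≤ z i + n i ∧ z i + n i < h))).card
      ≤ nn n * h ^ (D - 1) := by
    intro i
    have h4 : (bx D h).filter (fun z => ¬ (0 ≤ z i + n i ∧ z i + n i < h))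
        = Fintype.piFinset (fun k => if k = i then (Ico (0:ℤ) h).filter
            (fun t => ¬ (0 ≤ t + n i ∧ t + n i < h)) else Ico (0:ℤ) h) := by
      ext z
      rw [mem_filter, Fintype.mem_piFinset, mem_bx]
      constructor
      · rintro ⟨hz, hi⟩ k
        by_cases hk : k = i
        · subst hk
          rw [if_pos rfl, mem_filter, mem_Ico]
          exact ⟨hz k, hi⟩
        · rw [if_neg hk, mem_Ico]
          exact hz k
      · intro hz
        constructor
        · intro k
          have := hz k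
          by_cases hk : k = i
          · subst hk
            rw [if_pos rfl, mem_filter, mem_Ico] at this
            exact this.1
          · rw [if_neg hk, mem_Ico] at this
            exact this
        · have := hz i
          rw [if_pos rfl, mem_filter] at this
          exact this.2
    rw [h4, Fintype.card_piFinset, ← mul_prod_erase univ _ (mem_univ i), if_pos rfl]
    have h5 : ∏ k ∈ univ.erase i, (if k = i then (Ico (0:ℤ) h).filter
            (fun t => ¬ (0 ≤ t + n i ∧ t + n i < h)) else Ico (0:ℤ) h).card = h ^ (D - 1) := by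
      rw [prod_congr rfl (g := fun _ => h)]
      · rw [prod_const, card_erase_of_mem (mem_univ i), card_univ, Fintype.card_fin]
      · intro k hk
        rw [if_neg (ne_of_mem_erase hk)]
        simp
    rw [h5]
    apply Nat.mul_le_mul_right
    have h6 : (Ico (0:ℤ) h).filter (fun t => ¬ (0 ≤ t + n i ∧ t + n i < h))
        ⊆ if 0 ≤ n i then Ico ((h:ℤ) - n i) h else Ico 0 (-n i) := by
      intro t ht
      rw [mem_filter, mem_Ico] at ht
      obtain ⟨⟨ht1, ht2⟩, ht3⟩ := ht
      split_ifs with hn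
      · rw [mem_Ico]
        constructor
        · by_contra hc
          exact ht3 ⟨by omega, by omega⟩
        · exact ht2
      · rw [mem_Ico]
        refine ⟨ht1, ?_⟩
        by_contra hc
        exact ht3 ⟨by omega, by omega⟩
    have h7 := abs_le_nn n i
    refine (card_le_card h6).trans ?_
    split_ifs with hn
    · rw [Int.card_Ico]
      rw [abs_of_nonneg hn] at h7
      omega
    · rw [Int.card_Ico]
      rw [abs_of_neg (by omega)] at h7
      omega
  calc ((bx D h).filter (fun z => z + n ∉ bx D h)).card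
      ≤ ∑ i : Fin D, ((bx D h).filter (fun z => ¬ (0 ≤ z i + n i ∧ z i + n i < h))).card :=
        (card_le_card h1).trans card_biUnion_le
    _ ≤ ∑ _i : Fin D, nn n * h ^ (D - 1) := sum_le_sum (fun i _ => h3 i)
    _ = D * nn n * h ^ (D - 1) := by
        rw [sum_const, card_univ, Fintype.card_fin, smul_eq_mul]
        ring

lemma box_shift {D : ℕ} (h : ℕ) (n : Fin D → ℤ) (f : (Fin D → ℤ) → ℂ) (hf : ∀ x, ‖f x‖ ≤ 1) :
    ‖∑ z ∈ bx D h, f (n + z) - ∑ z ∈ bx D h, f z‖ ≤ 2 * (D * nn n * h ^ (D - 1)) := by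
  -- write both sums over a common index
  have h1 : ∑ z ∈ bx D h, f (n + z) = ∑ z ∈ (bx D h).filter (fun z => z + n ∈ bx D h), f (n + z)
      + ∑ z ∈ (bx D h).filter (fun z => z + n ∉ bx D h), f (n + z) :=
    (sum_filter_add_sum_filter_not _ _ _).symm
  have h2 : ∑ z ∈ bx D h, f z = ∑ z ∈ (bx D h).filter (fun z => z + (-n) ∈ bx D h), f z
      + ∑ z ∈ (bx D h).filter (fun z => z + (-n) ∉ bx D h), f z :=
    (sum_filter_add_sum_filter_not _ _ _).symm
  have h3 : ∑ z ∈ (bx D h).filter (fun z => z + n ∈ bx D h), f (n + z)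
      = ∑ z ∈ (bx D h).filter (fun z => z + (-n) ∈ bx D h), f z := by
    apply sum_bij (fun z _ => n + z)
    · intro z hz
      rw [mem_filter] at hz ⊢
      refine ⟨by rw [add_comm]; exact hz.2, ?_⟩
      have : n + z + -n = z := by abel
      rw [this]
      exact hz.1
    · intro a _ c _ hac
      exact add_left_cancel hac
    · intro z hz
      rw [mem_filter] at hz
      refine ⟨z + -n, mem_filter.mpr ⟨hz.2, ?_⟩, by abel⟩
      have : z + -n + n = z := by abel
      rw [this]
      exact hz.1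
    · intro z _
      rfl
  rw [h1, h2, h3, add_sub_add_left_eq_sub]
  have h4 : ∀ (S : Finset (Fin D → ℤ)) (g : (Fin D → ℤ) → ℂ), (∀ x, ‖g x‖ ≤ 1) →
      ‖∑ z ∈ S, g z‖ ≤ S.card := by
    intro S g hg
    refine (norm_sum_le _ _).trans ?_
    calc ∑ z ∈ S, ‖g z‖ ≤ ∑ _z ∈ S, (1 : ℝ) := sum_le_sum (fun z _ => hg z)
      _ = S.card := by rw [sum_const, nsmul_eq_mul, mul_one]
  refine (norm_sub_le _ _).trans ?_
  have h5 := h4 ((bx D h).filter (fun z => z + n ∉ bx D h)) (fun z => f (n + z)) (fun x => hf _)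
  have h6 := h4 ((bx D h).filter (fun z => z + (-n) ∉ bx D h)) f hf
  have h7 : (((bx D h).filter (fun z => z + n ∉ bx D h)).card : ℝ) ≤ D * nn n * h ^ (D - 1) := by
    exact_mod_cast card_shift_le h n
  have h8 : (((bx D h).filter (fun z => z + (-n) ∉ bx D h)).card : ℝ) ≤ D * nn n * h ^ (D - 1) := by
    have := card_shift_le h (-n)
    rw [nn_neg] at this
    exact_mod_cast this
  linarith

lemma Gl_lip {D h : ℕ} (hh : 1 ≤ h) {F : (Fin D → ℤ) → ℂ} (hF : ∀ n, ‖F n‖ ≤ 1)
    (e : ℕ × (Fin D → ℤ)) (y n : Fin D → ℤ) :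
    ‖Gl h F e (y + n) - Gl h F e y‖ ≤ 2 * D * nn n / h := by
  unfold Gl
  rw [← mul_sub, norm_mul, norm_div, norm_one, norm_pow, Complex.norm_natCast]
  have h1 := box_shift h n (fun x => ee (-dot (vec e) (y + x)) * F (y + x)) (fun x => by
    rw [norm_mul, norm_ee, one_mul]
    exact hF _)
  have h2 : ∀ z, y + (n + z) = y + n + z := fun z => by abel
  simp only [h2] at h1
  have h3 : (0 : ℝ) < (h : ℝ) := by exact_mod_cast hh
  rcases Nat.eq_zero_or_pos D with hD | hD
  · subst hD
    have h4 : (2 : ℝ) * ((0 : ℕ) * nn n * h ^ (0 - 1)) = 0 := by push_cast; ring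
    rw [h4] at h1
    have h5 := le_antisymm h1 (norm_nonneg _)
    rw [h5]
    simp
  · calc 1 / (h : ℝ) ^ D * ‖∑ z ∈ bx D h, ee (-dot (vec e) (y + n + z)) * F (y + n + z) -
        ∑ z ∈ bx D h, ee (-dot (vec e) (y + z)) * F (y + z)‖
        ≤ 1 / (h : ℝ) ^ D * (2 * (D * nn n * h ^ (D - 1))) :=
          mul_le_mul_of_nonneg_left h1 (by positivity)
      _ = 2 * D * nn n / h := by
          have h6 : (h : ℝ) ^ D = h ^ (D - 1) * h := by
            rw [← pow_succ]
            congr 1
            omega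
          rw [h6]
          field_simp

/-- `(Y, t) ↦ M Y + t` is a bijection from `[0,N)^D × [0,M)^D` to `[0,MN)^D` -/
lemma sum_cells {D : ℕ} {A : Type*} [AddCommMonoid A] (M N : ℕ) (f : (Fin D → ℤ) → A) :
    ∑ Y ∈ bx D N, ∑ t ∈ bx D M, f ((M : ℤ) • Y + t) = ∑ x ∈ bx D (M * N), f x := by
  rcases Nat.eq_zero_or_pos M with hM | hM
  · subst hM
    rcases Nat.eq_zero_or_pos D with hD | hD
    · subst hD
      have : ∀ n, bx 0 n = {0} := by
        intro n
        ext x
        rw [mem_bx, mem_singleton]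
        exact ⟨fun _ => Subsingleton.elim _ _, fun _ i => i.elim0⟩
      rw [this, this, this, sum_singleton, sum_singleton, sum_singleton]
      congr 1
    · have h0 : bx D 0 = ∅ := by
        rw [eq_empty_iff_forall_notMem]
        intro x hx
        rw [mem_bx] at hx
        have := hx ⟨0, hD⟩
        push_cast at this
        omega
      rw [zero_mul, h0]
      simp
  rw [← sum_product']
  have hM' : (0 : ℤ) < M := by exact_mod_cast hM
  apply sum_bij (fun p _ => (M : ℤ) • p.1 + p.2)
  · rintro ⟨Y, t⟩ hp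
    rw [mem_product, mem_bx, mem_bx] at hp
    rw [mem_bx]
    intro i
    have h1 := hp.1 i
    have h2 := hp.2 i
    simp only [Pi.add_apply, Pi.smul_apply, smul_eq_mul]
    push_cast
    constructor
    · have := mul_nonneg hM'.le h1.1
      linarith [h2.1]
    · have : (M : ℤ) * Y i ≤ M * (N - 1) := mul_le_mul_of_nonneg_left (by linarith [h1.2]) hM'.le
      have h3 : (M : ℤ) * (N - 1) = M * N - M := by ring
      linarith [h2.2]
  · rintro ⟨Y, t⟩ hp ⟨Y', t'⟩ hp' heq
    rw [mem_product, mem_bx, mem_bx] at hp hp'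
    have key : ∀ i, Y i = Y' i ∧ t i = t' i := by
      intro i
      have h1 := congrFun heq i
      simp only [Pi.add_apply, Pi.smul_apply, smul_eq_mul] at h1
      have h2 := hp.2 i
      have h3 := hp'.2 i
      simp only at h2 h3
      have h4 : Y i = Y' i := by
        have e1 : (M * Y i + t i) / (M : ℤ) = Y i := by
          rw [add_comm, Int.add_mul_ediv_left _ _ hM'.ne', Int.ediv_eq_zero_of_lt h2.1 h2.2, zero_add]
        have e2 : (M * Y' i + t' i) / (M : ℤ) = Y' i := by
          rw [add_comm, Int.add_mul_ediv_left _ _ hM'.ne', Int.ediv_eq_zero_of_lt h3.1 h3.2, zero_add]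
        rw [← e1, ← e2, h1]
      refine ⟨h4, ?_⟩
      rw [h4] at h1
      linarith
    rw [Prod.mk.injEq]
    exact ⟨funext (fun i => (key i).1), funext (fun i => (key i).2)⟩
  · intro x hx
    rw [mem_bx] at hx
    refine ⟨(fun i => x i / M, fun i => x i % M), ?_, ?_⟩
    · rw [mem_product, mem_bx, mem_bx]
      constructor
      · intro i
        have := hx i
        push_cast at this
        refine ⟨Int.ediv_nonneg this.1 hM'.le, ?_⟩
        apply Int.ediv_lt_of_lt_mul hM'
        rw [mul_comm]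
        exact this.2
      · intro i
        exact ⟨Int.emod_nonneg _ hM'.ne', Int.emod_lt_of_pos _ hM'⟩
    · funext i
      simp only [Pi.add_apply, Pi.smul_apply, smul_eq_mul]
      exact Int.mul_ediv_add_emod _ _
  · intro p _
    rfl

/-- averaging property: the coefficient on a cube of side `M R` is the mean of the coefficients
on the cubes of side `M` -/
lemma Gl_avg {D : ℕ} (M R : ℕ) (F : (Fin D → ℤ) → ℂ) (e : ℕ × (Fin D → ℤ)) (y : Fin D → ℤ) :
    Gl (M * R) F e y = (1 / (R : ℂ) ^ D) * ∑ Z ∈ bx D R, Gl M F e (y + (M : ℤ) • Z) := by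
  unfold Gl
  rw [← sum_cells M R (fun z => ee (-dot (vec e) (y + z)) * F (y + z)), ← mul_sum, ← mul_assoc]
  congr 1
  · push_cast
    rw [mul_pow]
    ring
  · refine sum_congr rfl (fun Z _ => sum_congr rfl (fun t _ => ?_))
    have : y + ((M : ℤ) • Z + t) = y + (M : ℤ) • Z + t := by abel
    rw [this]

end

end Pool.Agent.H10.Sar
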