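import Pool.Agent.H10.Sar.NsemDefs
import Pool.Agent.H10.Sar.Ops
set_option autoImplicit false
set_option linter.unusedSectionVars false

namespace Pool.Agent.H10.Sar

open NumberField Module Finset
open scoped Classical

noncomputable section

/-- Minkowski inequality for finite sums -/
lemma l2_sum {ι κ : Type*} (S : Finset ι) (T : Finset κ) (w : κ → ι → ℂ) :
    Real.sqrt (∑ s ∈ S, ‖∑ z ∈ T, w z s‖ ^ 2) ≤ ∑ z ∈ T, Real.sqrt (∑ s ∈ S, ‖w z s‖ ^ 2) := by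
  set x : κ → EuclideanSpace ℂ S := fun z => WithLp.toLp 2 (fun s => w z s) with hx
  have h1 : ∀ z, ‖x z‖ = Real.sqrt (∑ s ∈ S, ‖w z s‖ ^ 2) := by
    intro z
    rw [EuclideanSpace.norm_eq, ← sum_coe_sort S]
  have h2 : ‖∑ z ∈ T, x z‖ = Real.sqrt (∑ s ∈ S, ‖∑ z ∈ T, w z s‖ ^ 2) := by
    rw [EuclideanSpace.norm_eq, ← sum_coe_sort S]
    congr 1
    refine sum_congr rfl (fun s _ => ?_)
    congr 2
    rw [hx]
    simp
  rw [← h2]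
  refine (norm_sum_le _ _).trans (le_of_eq ?_)
  exact sum_congr rfl (fun z _ => h1 z)

variable {K : Type*} [Field K] [NumberField K] {D : ℕ} (b : Basis (Fin D) ℤ (𝓞 K))

lemma Nsem_nonneg (χ : 𝓞 K → ℂ) (𝒜 : Finset (𝓞 K)) (l p M : ℕ) (Λ : Finset (ℕ × (Fin D → ℤ)))
    (v : ℕ × (Fin D → ℤ) → ℂ) (y : Fin D → ℤ) : 0 ≤ Nsem b χ 𝒜 l p M Λ v y := by
  unfold Nsem
  exact sum_nonneg (fun a _ => sum_nonneg (fun β _ => by positivity))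

lemma Fv_congr {Λ : Finset (ℕ × (Fin D → ℤ))} {v w : ℕ × (Fin D → ℤ) → ℂ}
    (h : ∀ e ∈ Λ, v e = w e) (y : Fin D → ℤ) : Fv Λ v y = Fv Λ w y := by
  unfold Fv
  exact sum_congr rfl (fun e he => by rw [h e he])

lemma Nsem_congr (χ : 𝓞 K → ℂ) (𝒜 : Finset (𝓞 K)) (l p M : ℕ) {Λ : Finset (ℕ × (Fin D → ℤ))}
    {v w : ℕ × (Fin D → ℤ) → ℂ} (h : ∀ e ∈ Λ, v e = w e) (y : Fin D → ℤ) :
    Nsem b χ 𝒜 l p M Λ v y = Nsem b χ 𝒜 l p M Λ w y := by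
  unfold Nsem
  simp only [Fv_congr h]

lemma Nsem_zero (χ : 𝓞 K → ℂ) (𝒜 : Finset (𝓞 K)) (l p M : ℕ) {Λ : Finset (ℕ × (Fin D → ℤ))}
    {v : ℕ × (Fin D → ℤ) → ℂ} (h : ∀ e ∈ Λ, v e = 0) (y : Fin D → ℤ) :
    Nsem b χ 𝒜 l p M Λ v y = 0 := by
  have h1 : ∀ x, Fv Λ v x = 0 := by
    intro x
    unfold Fv
    exact sum_eq_zero (fun e he => by rw [h e he, zero_mul])
  unfold Nsem
  simp [h1]

/-- convexity of the seminorm -/
lemma Nsem_avg (χ : 𝓞 K → ℂ) (𝒜 : Finset (𝓞 K)) (l p M : ℕ) (Λ : Finset (ℕ × (Fin D → ℤ)))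
    {κ : Type*} (T : Finset κ) (c : ℝ) (hc : 0 ≤ c) (u : κ → ℕ × (Fin D → ℤ) → ℂ)
    (y : Fin D → ℤ) :
    Nsem b χ 𝒜 l p M Λ (fun e => (c : ℂ) * ∑ z ∈ T, u z e) y
      ≤ c * ∑ z ∈ T, Nsem b χ 𝒜 l p M Λ (u z) y := by
  have hF : ∀ x, Fv Λ (fun e => (c : ℂ) * ∑ z ∈ T, u z e) x = ∑ z ∈ T, (c : ℂ) * Fv Λ (u z) x := by
    intro x
    unfold Fv
    have h1 : ∀ z ∈ T, (c : ℂ) * ∑ l ∈ Λ, u z l * ee (dot (vec l) x)
        = ∑ l ∈ Λ, (c : ℂ) * (u z l * ee (dot (vec l) x)) := fun z _ => mul_sum _ _ _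
    rw [sum_congr rfl h1, sum_comm]
    refine sum_congr rfl (fun e _ => ?_)
    beta_reduce
    rw [mul_sum, sum_mul]
    exact sum_congr rfl (fun z _ => by ring)
  unfold Nsem
  simp only [hF]
  rw [mul_sum]
  simp_rw [mul_sum]
  rw [sum_comm (s := T)]
  apply sum_le_sum
  intro a _
  rw [sum_comm (s := T)]
  apply sum_le_sum
  intro β _
  have h2 : Real.sqrt (∑ s ∈ bx D M, 1 / (M : ℝ) ^ D *
      ‖∑ α ∈ (dya b 𝒜 a).filter (fun α => blk b (2 ^ (a - p)) α = β),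
        ∑ z ∈ T, χ α * ((c : ℂ) * Fv Λ (u z) (y + act b α s))‖ ^ 2)
      ≤ ∑ z ∈ T, c * Real.sqrt (∑ s ∈ bx D M, 1 / (M : ℝ) ^ D *
      ‖∑ α ∈ (dya b 𝒜 a).filter (fun α => blk b (2 ^ (a - p)) α = β),
        χ α * Fv Λ (u z) (y + act b α s)‖ ^ 2) := by
    simp_rw [← mul_sum (bx D M)]
    rw [Real.sqrt_mul (by positivity)]
    have h3 := l2_sum (bx D M) T (fun z s => ∑ α ∈ (dya b 𝒜 a).filter
      (fun α => blk b (2 ^ (a - p)) α = β), χ α * ((c : ℂ) * Fv Λ (u z) (y + act b α s)))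
    have h4 : ∀ s, ∑ α ∈ (dya b 𝒜 a).filter (fun α => blk b (2 ^ (a - p)) α = β),
        ∑ z ∈ T, χ α * ((c : ℂ) * Fv Λ (u z) (y + act b α s))
        = ∑ z ∈ T, ∑ α ∈ (dya b 𝒜 a).filter (fun α => blk b (2 ^ (a - p)) α = β),
          χ α * ((c : ℂ) * Fv Λ (u z) (y + act b α s)) := fun s => sum_comm
    simp only [h4]
    refine (mul_le_mul_of_nonneg_left h3 (Real.sqrt_nonneg _)).trans (le_of_eq ?_)
    rw [mul_sum]
    refine sum_congr rfl (fun z _ => ?_)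
    have h5 : ∀ s, ∑ α ∈ (dya b 𝒜 a).filter (fun α => blk b (2 ^ (a - p)) α = β),
        χ α * ((c : ℂ) * Fv Λ (u z) (y + act b α s))
        = (c : ℂ) * ∑ α ∈ (dya b 𝒜 a).filter (fun α => blk b (2 ^ (a - p)) α = β),
          χ α * Fv Λ (u z) (y + act b α s) := by
      intro s
      rw [mul_sum]
      exact sum_congr rfl (fun α _ => by ring)
    simp only [h5, norm_mul, Complex.norm_real, Real.norm_eq_abs, abs_of_nonneg hc, mul_pow]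
    rw [← mul_sum, Real.sqrt_mul (by positivity), Real.sqrt_sq hc, Real.sqrt_mul (by positivity)]
    ring
  calc (1 / (2 : ℝ) ^ a) ^ D * Real.sqrt (∑ s ∈ bx D M, 1 / (M : ℝ) ^ D *
      ‖∑ α ∈ (dya b 𝒜 a).filter (fun α => blk b (2 ^ (a - p)) α = β),
        ∑ z ∈ T, χ α * ((c : ℂ) * Fv Λ (u z) (y + act b α s))‖ ^ 2)
      ≤ (1 / (2 : ℝ) ^ a) ^ D * ∑ z ∈ T, c * Real.sqrt (∑ s ∈ bx D M, 1 / (M : ℝ) ^ D *
      ‖∑ α ∈ (dya b 𝒜 a).filter (fun α => blk b (2 ^ (a - p)) α = β),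
        χ α * Fv Λ (u z) (y + act b α s)‖ ^ 2) := mul_le_mul_of_nonneg_left h2 (by positivity)
    _ = _ := by
        rw [mul_sum]
        exact sum_congr rfl (fun z _ => by ring)

lemma isInt_ee {M : ℕ} {v : Fin D → ℝ} (h : IsInt ((M : ℝ) • v)) (z : Fin D → ℤ) :
    ee (dot v ((M : ℤ) • z)) = 1 := by
  obtain ⟨c, hc⟩ := isInt_dot h z
  rw [smul_dot] at hc
  rw [dot_zsmul]
  push_cast
  rw [hc, ee_int]

/-- periodicity of the seminorm in the base point -/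
lemma Nsem_periodic (χ : 𝓞 K → ℂ) (𝒜 : Finset (𝓞 K)) (l p M : ℕ)
    {Λ : Finset (ℕ × (Fin D → ℤ))} (hM : ∀ e ∈ Λ, IsInt ((M : ℝ) • vec e))
    (v : ℕ × (Fin D → ℤ) → ℂ) (Y t : Fin D → ℤ) :
    Nsem b χ 𝒜 l p M Λ v ((M : ℤ) • Y + t) = Nsem b χ 𝒜 l p M Λ v t := by
  have h1 : ∀ x, Fv Λ v ((M : ℤ) • Y + t + x) = Fv Λ v (t + x) := by
    intro x
    unfold Fv
    refine sum_congr rfl (fun e he => ?_)
    rw [add_assoc, dot_add (vec e) ((M : ℤ) • Y), ee_add, isInt_ee (hM e he), one_mul]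
  unfold Nsem
  simp only [h1]

end

end Pool.Agent.H10.Sar
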