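import Pool.Agent.H10.Sar.LevB
import Pool.Agent.H10.Sar.NProps
import Pool.Agent.H10.Sar.BilN
set_option autoImplicit false
set_option linter.unusedSectionVars false

namespace Pool.Agent.H10.Sar

open NumberField Module Finset
open scoped Classical

noncomputable section

variable {K : Type*} [Field K] [NumberField K] {D : ℕ} {b : Basis (Fin D) ℤ (𝓞 K)}
variable {χ : 𝓞 K → ℂ} {σ B C : ℕ}

/-- exponent of the smoothing length -/
def Chh (D σ : ℕ) : ℕ := EE D σ * (D + 1) + 1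

/-- exponent of the block fineness -/
def pp (D σ : ℕ) : ℕ := σ + EE D σ * (D + 1) + 1

/-- the groups of level `j` -/
def Gs (D σ j : ℕ) : Finset ℕ := (Tj D σ j).image (fun e => e.1 / Gj σ j)

/-- the frequencies of group `g` -/
def Lg (D σ j g : ℕ) : Finset (ℕ × (Fin D → ℤ)) := (Tj D σ j).filter (fun e => e.1 / Gj σ j = g)

/-- the seminorm of the cell coefficients -/
def fg (L : Lev b χ σ B C) (F : (Fin D → ℤ) → ℂ) (j g : ℕ) (t Y : Fin D → ℤ) : ℝ :=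
  Nsem b χ (L.A j) (C * 2 ^ (σ * j)) (pp D σ * j) (Mj D σ j g) (Lg D σ j g)
    (fun e => Gl (Mj D σ j g) F e (((Mj D σ j g : ℕ) : ℤ) • Y)) t

/-- number of cells -/
def Rg (D σ j g H : ℕ) : ℕ := H * 2 ^ (Chh D σ * j) / Mj D σ j g

/-- averaged seminorm -/
def Xg (L : Lev b χ σ B C) (F : (Fin D → ℤ) → ℂ) (j g H : ℕ) (y : Fin D → ℤ) : ℝ :=
  (∑ Z ∈ bx D (Rg D σ j g H), fg L F j g (rm (Mj D σ j g) y) (qt (Mj D σ j g) y + Z))
    / (Rg D σ j g H : ℝ) ^ D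

lemma fg_nonneg (L : Lev b χ σ B C) (F : (Fin D → ℤ) → ℂ) (j g : ℕ) (t Y : Fin D → ℤ) :
    0 ≤ fg L F j g t Y := Nsem_nonneg _ _ _ _ _ _ _ _ _

lemma Fv_split (D σ j : ℕ) (v : ℕ × (Fin D → ℤ) → ℂ) (y : Fin D → ℤ) :
    Fv (Tj D σ j) v y = ∑ g ∈ Gs D σ j, Fv (Lg D σ j g) v y := by
  unfold Fv Gs Lg
  rw [← sum_fiberwise_of_maps_to (t := (Tj D σ j).image (fun e => e.1 / Gj σ j))
    (g := fun e => e.1 / Gj σ j)]
  intro e he
  exact mem_image_of_mem _ he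

lemma sum_split (D σ j : ℕ) (f : ℕ × (Fin D → ℤ) → ℝ) :
    ∑ g ∈ Gs D σ j, ∑ e ∈ Lg D σ j g, f e = ∑ e ∈ Tj D σ j, f e := by
  unfold Gs Lg
  rw [sum_fiberwise_of_maps_to]
  intro e he
  exact mem_image_of_mem _ he

lemma norm_Aop_le {X : (Fin D → ℤ) → ℂ} (hX : ∀ n, ‖X n‖ ≤ 1) {H : ℕ} (hH : 1 ≤ H) {L1 : ℝ}
    {W : (Fin D → ℤ) → ℝ} (hW : IsWt H L1 W) {F : (Fin D → ℤ) → ℂ} {c : ℝ}
    (y : Fin D → ℤ) (hF : ∀ n ∈ bx D H, ‖F (y + n)‖ ≤ c) : ‖Aop X H W F y‖ ≤ c := by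
  unfold Aop
  rw [norm_mul, norm_div, norm_one, norm_pow, Complex.norm_natCast]
  have h2 : (0 : ℝ) < (H : ℝ) ^ D := by
    have : (0 : ℝ) < H := by exact_mod_cast hH
    positivity
  rw [one_div, inv_mul_le_iff₀ h2]
  refine (norm_sum_le _ _).trans ?_
  have h3 : ∀ n ∈ bx D H, ‖(W n : ℂ) * X n * F (y + n)‖ ≤ c := by
    intro n hn
    rw [norm_mul, norm_mul, Complex.norm_real, Real.norm_eq_abs, abs_of_nonneg (hW.nonneg n)]
    have h4 := hF n hn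
    have h5 : W n * ‖X n‖ ≤ 1 := mul_le_one₀ (hW.le_one n) (norm_nonneg _) (hX n)
    calc W n * ‖X n‖ * ‖F (y + n)‖ ≤ 1 * ‖F (y + n)‖ := mul_le_mul_of_nonneg_right h5 (norm_nonneg _)
      _ ≤ c := by rw [one_mul]; exact h4
  refine (sum_le_sum h3).trans ?_
  rw [sum_const, card_bx, nsmul_eq_mul, Nat.cast_pow]

lemma Aop_sub (X : (Fin D → ℤ) → ℂ) (H : ℕ) (W : (Fin D → ℤ) → ℝ) (F G : (Fin D → ℤ) → ℂ)
    (y : Fin D → ℤ) : Aop X H W F y - Aop X H W G y = Aop X H W (fun x => F x - G x) y := by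
  unfold Aop
  rw [← mul_sub, ← sum_sub_distrib]
  congr 1
  exact sum_congr rfl (fun n _ => by ring)

/-- pointwise bound for the core of level `j` -/
theorem point_bound (L : Lev b χ σ B C) (hχ : ∀ x, ‖χ x‖ ≤ 1) (hC : 1 ≤ C)
    (hB : pp D σ ≤ B) (L1 : ℝ) :
    ∃ C5 : ℕ, ∀ j, C5 ≤ j → ∀ k m : ℕ, 1 ≤ k → 1 ≤ m → j ≤ topl σ k →
    ∀ W : (Fin D → ℤ) → ℝ, IsWt (m * 2 ^ k) L1 W → ∀ F : (Fin D → ℤ) → ℂ, (∀ n, ‖F n‖ ≤ 1) → ∀ y,
    ‖Aop (fun n => χ (b.equivFun.symm n)) (m * 2 ^ k) W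
      (Cop (Tj D σ j) (hlen D σ (Chh D σ) j (m * 2 ^ k)) F) y‖
      ≤ C5 * Real.sqrt ((1 / 2) ^ j) + C5 * ∑ g ∈ Gs D σ j, Xg L F j g (m * 2 ^ k) y := by
  have hD : 0 < D := D_pos b
  have hCh1 : 1 ≤ Chh D σ := by unfold Chh; omega
  obtain ⟨j1, hrep⟩ := core_replace D σ (Chh D σ) hD hCh1
  obtain ⟨j2, hvv⟩ := vv_sq_le D σ (Chh D σ) hD hCh1
  obtain ⟨j3, hexc⟩ := exc_core D σ (Chh D σ) hD hCh1
  obtain ⟨j4, hfac⟩ := hlen_facts D σ (Chh D σ) 0 hD hCh1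
  obtain ⟨j5, hms⟩ := Mj_small D σ C hD
  obtain ⟨j6, hexp⟩ := exp_dom σ C
  obtain ⟨C5, hbil⟩ := bil_le_Nsem b C L1
  have hCDpos : 0 ≤ CD D := by unfold CD; positivity
  set E := EE D σ with hE
  set a1 : ℝ := 8 * D * 2 ^ (E * (D + 1)) with ha1
  set a2 : ℝ := 2 * Real.sqrt (2 * CD D * C) with ha2
  set a3 : ℝ := C5 * ((C + 1) * 2 ^ (E * (D + 1))) with ha3
  refine ⟨j1 + j2 + j3 + j4 + j5 + j6 + C + C5 + ⌈a1 + a2 + a3⌉₊, ?_⟩
  intro j hj k m hk hm hjt W hW F hF y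
  set H := m * 2 ^ k with hH
  have hHge : 2 ^ (2 ^ (cc σ * j)) ≤ H := scale_ge hm hk hjt
  have hH1 : 1 ≤ H := Nat.one_le_two_pow.trans hHge
  have hHr : (0 : ℝ) < H := by exact_mod_cast hH1
  have hHD : (0 : ℝ) < (H : ℝ) ^ D := by positivity
  have hCj : C ≤ j := by omega
  set v := vv D σ (Chh D σ) j H F y with hv
  have hhalf : ((1 : ℝ) / 2) ^ j ≤ Real.sqrt ((1 / 2) ^ j) := by
    apply Real.le_sqrt_of_sq_le
    have h1 : (0 : ℝ) ≤ (1 / 2) ^ j := by positivity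
    have h2 : ((1 : ℝ) / 2) ^ j ≤ 1 := pow_le_one₀ (by norm_num) (by norm_num)
    nlinarith
  -- replacement
  have s1 : ‖Aop (fun n => χ (b.equivFun.symm n)) H W (Cop (Tj D σ j) (hlen D σ (Chh D σ) j H) F) y
      - Aop (fun n => χ (b.equivFun.symm n)) H W (Fv (Tj D σ j) v) y‖ ≤ a1 * (1 / 2) ^ j := by
    rw [Aop_sub]
    refine (norm_Aop_le (fun n => hχ _) hH1 hW y (fun n hn =>
      hrep j (by omega) H hHge F hF y n hn)).trans (le_of_eq ?_)
    rw [ha1]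
    have e1 : E * (D + 1) * (j + 1) = E * (D + 1) * j + E * (D + 1) := by ring
    have e2 : Chh D σ * j = E * (D + 1) * j + j := by unfold Chh; ring
    rw [e1, e2, pow_add, pow_add, one_div_pow]
    field_simp
  -- decomposition
  have s2 : ‖Aop (fun n => χ (b.equivFun.symm n)) H W (Fv (Tj D σ j) v) y
      - Bop L j H W (Fv (Tj D σ j) v) y‖ ≤ a2 * Real.sqrt ((1 / 2) ^ j) := by
    refine (dec L hCj hW _ y).trans ?_
    have h1 := hexc j (by omega) H hHge F hF y ((bx D H).filter (fun n => n ∈ L.E j))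
      (C * (1 / 2) ^ j) (filter_subset _ _) (by positivity) (L.hE j hCj H (by
        refine le_trans ?_ (hexp j (by omega) H hHge)
        apply Nat.pow_le_pow_right (by norm_num)
        calc C * 2 ^ (2 * σ * j) = C * 1 * 2 ^ (2 * σ * j) := by ring
          _ ≤ C * (j + 1) * 2 ^ ((cc σ - 1) * j) := by
            gcongr
            · omega
            · norm_num
            · unfold cc; omega))
    calc 2 / (H : ℝ) ^ D * _ ≤ 2 / (H : ℝ) ^ D * (Real.sqrt (2 * CD D * (C * (1 / 2) ^ j)) * H ^ D) :=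
          mul_le_mul_of_nonneg_left h1 (by positivity)
      _ = a2 * Real.sqrt ((1 / 2) ^ j) := by
          rw [ha2, ← mul_assoc (2 * CD D), Real.sqrt_mul (by positivity)]
          field_simp
  -- splitting into groups
  have s3 : Bop L j H W (Fv (Tj D σ j) v) y = ∑ g ∈ Gs D σ j, Bop L j H W (Fv (Lg D σ j g) v) y := by
    unfold Bop
    rw [← mul_sum, sum_comm]
    congr 1
    refine sum_congr rfl (fun α _ => ?_)
    rw [← mul_sum, sum_comm]
    congr 1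
    refine sum_congr rfl (fun n _ => ?_)
    rw [← mul_sum, ← mul_sum, Fv_split]
  have s4 : ∀ g ∈ Gs D σ j, ‖Bop L j H W (Fv (Lg D σ j g) v) y‖
      ≤ C5 * Xg L F j g H y + C5 * (((C * 2 ^ (σ * j) : ℕ) : ℝ) + 1) / 2 ^ (pp D σ * j) *
        ∑ e ∈ Lg D σ j g, ‖v e‖ := by
    intro g hg
    obtain ⟨e0, he0, hge0⟩ := mem_image.mp hg
    have hq0 := mem_Tj he0
    set M := Mj D σ j g with hM
    have hMpos : 0 < M := by
      rw [hM, ← hge0]
      exact Mj_pos (group_pos hD hq0.1)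
    have hint : ∀ e ∈ Lg D σ j g, IsInt ((M : ℝ) • vec e) := by
      intro e he
      unfold Lg at he
      rw [mem_filter] at he
      have := isInt_Mj he.1
      rw [he.2] at this
      exact this
    have hset : MulSet b C (2 ^ (pp D σ * j)) (2 ^ (C * 2 ^ (σ * j))) (L.A j) := by
      have h1 := L.hA j hCj
      refine ⟨h1.ne_zero, fun α hα => le_trans ?_ (h1.ge α hα), h1.le, h1.bal⟩
      exact Nat.pow_le_pow_right (by norm_num) (Nat.mul_le_mul_right _ hB)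
    have hMH : 2 ^ (C * 2 ^ (σ * j)) * M ≤ H := by
      have h1 := hms j (by omega) H hHge e0.1 hq0.2
      rw [hge0] at h1
      refine le_trans ?_ h1
      apply Nat.mul_le_mul_right
      apply Nat.pow_le_pow_right (by norm_num)
      calc C * 2 ^ (σ * j) = C * 1 * 2 ^ (σ * j) := by ring
        _ ≤ C * (j + 1) * 2 ^ ((cc σ - 1) * j) := by
            gcongr
            · omega
            · norm_num
            · unfold cc; omega
    have h1 := hbil (L.A j) χ (L.β j) (pp D σ * j) (C * 2 ^ (σ * j)) M H (C * H) W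
      (Lg D σ j g) v y hset hχ (L.hβ j hCj) hMpos hMH hW le_rfl hint
    have h2 : ‖Bop L j H W (Fv (Lg D σ j g) v) y‖ ≤ C5 * (Nsem b χ (L.A j) (C * 2 ^ (σ * j))
        (pp D σ * j) M (Lg D σ j g) v y + (((C * 2 ^ (σ * j) : ℕ) : ℝ) + 1) / 2 ^ (pp D σ * j) *
          ∑ e ∈ Lg D σ j g, ‖v e‖) := by
      unfold Bop
      rw [norm_mul, norm_div, norm_one, norm_pow, Complex.norm_natCast, one_div,
        inv_mul_le_iff₀ hHD]
      refine h1.trans (le_of_eq ?_)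
      ring
    -- convexity
    have hRpos : 1 ≤ Rg D σ j g H := by
      have h3 := (hfac j (by omega) H hHge e0 he0).2.2.2.2.2
      rw [hge0] at h3
      exact h3
    have hRr : (0 : ℝ) < (Rg D σ j g H : ℝ) := by exact_mod_cast hRpos
    have h3 : Nsem b χ (L.A j) (C * 2 ^ (σ * j)) (pp D σ * j) M (Lg D σ j g) v y ≤ Xg L F j g H y := by
      have e1 : Nsem b χ (L.A j) (C * 2 ^ (σ * j)) (pp D σ * j) M (Lg D σ j g) v y
          = Nsem b χ (L.A j) (C * 2 ^ (σ * j)) (pp D σ * j) M (Lg D σ j g) v (rm M y) := by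
        conv_lhs => rw [← qt_rm M y]
        exact Nsem_periodic b χ _ _ _ _ hint _ _ _
      have e2 : Nsem b χ (L.A j) (C * 2 ^ (σ * j)) (pp D σ * j) M (Lg D σ j g) v (rm M y)
          = Nsem b χ (L.A j) (C * 2 ^ (σ * j)) (pp D σ * j) M (Lg D σ j g)
            (fun e => ((1 / (Rg D σ j g H : ℝ) ^ D : ℝ) : ℂ) * ∑ Z ∈ bx D (Rg D σ j g H),
              Gl M F e ((M : ℤ) • (qt M y + Z))) (rm M y) := by
        apply Nsem_congr
        intro e he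
        unfold Lg at he
        rw [mem_filter] at he
        rw [hv]
        unfold vv hlen
        rw [he.2, ← hM]
        change Gl (M * Rg D σ j g H) F e ((M : ℤ) • qt M y) = _
        rw [Gl_avg]
        push_cast
        congr 1
        refine sum_congr rfl (fun Z _ => ?_)
        rw [smul_add]
      rw [e1, e2]
      refine (Nsem_avg b χ _ _ _ _ _ _ _ (by positivity) _ _).trans (le_of_eq ?_)
      unfold Xg fg
      rw [← hM]
      rw [one_div, inv_mul_eq_div]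
    calc ‖Bop L j H W (Fv (Lg D σ j g) v) y‖ ≤ _ := h2
      _ ≤ C5 * (Xg L F j g H y + (((C * 2 ^ (σ * j) : ℕ) : ℝ) + 1) / 2 ^ (pp D σ * j) *
          ∑ e ∈ Lg D σ j g, ‖v e‖) := by gcongr
      _ = _ := by ring
  have s5 : ‖Bop L j H W (Fv (Tj D σ j) v) y‖ ≤ C5 * ∑ g ∈ Gs D σ j, Xg L F j g H y + a3 * (1 / 2) ^ j := by
    rw [s3]
    refine (norm_sum_le _ _).trans ((sum_le_sum s4).trans ?_)
    rw [sum_add_distrib, ← mul_sum, ← mul_sum, sum_split]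
    have h1 : ∑ e ∈ Tj D σ j, ‖v e‖ ≤ 2 ^ (E * (D + 1) * (j + 1)) := by
      calc ∑ e ∈ Tj D σ j, ‖v e‖ ≤ ∑ _e ∈ Tj D σ j, (1 : ℝ) := by
            apply sum_le_sum
            intro e _
            exact norm_Gl_le hF _ _
        _ = (Tj D σ j).card := by rw [sum_const, nsmul_eq_mul, mul_one]
        _ ≤ 2 ^ (E * (D + 1) * (j + 1)) := by exact_mod_cast card_Tj_le D σ j
    have h2 : (C5 : ℝ) * (((C * 2 ^ (σ * j) : ℕ) : ℝ) + 1) / 2 ^ (pp D σ * j) *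
        ∑ e ∈ Tj D σ j, ‖v e‖ ≤ a3 * (1 / 2) ^ j := by
      have h3 : (((C * 2 ^ (σ * j) : ℕ) : ℝ) + 1) ≤ (C + 1) * 2 ^ (σ * j) := by
        push_cast
        have : (1 : ℝ) ≤ 2 ^ (σ * j) := one_le_pow₀ (by norm_num)
        linarith
      calc (C5 : ℝ) * (((C * 2 ^ (σ * j) : ℕ) : ℝ) + 1) / 2 ^ (pp D σ * j) * ∑ e ∈ Tj D σ j, ‖v e‖
          ≤ C5 * ((C + 1) * 2 ^ (σ * j)) / 2 ^ (pp D σ * j) * 2 ^ (E * (D + 1) * (j + 1)) := by gcongr
        _ = a3 * (1 / 2) ^ j := by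
            rw [ha3]
            have e1 : E * (D + 1) * (j + 1) = E * (D + 1) * j + E * (D + 1) := by ring
            have e2 : pp D σ * j = σ * j + E * (D + 1) * j + j := by unfold pp; ring
            rw [e1, e2, pow_add, pow_add, pow_add, one_div_pow]
            field_simp
    linarith
  have hX0 : 0 ≤ ∑ g ∈ Gs D σ j, Xg L F j g H y := by
    apply sum_nonneg
    intro g _
    unfold Xg
    exact div_nonneg (sum_nonneg (fun Z _ => fg_nonneg _ _ _ _ _ _)) (by positivity)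
  have hsq0 : 0 ≤ Real.sqrt ((1 / 2) ^ j) := Real.sqrt_nonneg _
  have ha10 : 0 ≤ a1 := by positivity
  have ha20 : 0 ≤ a2 := by positivity
  have ha30 : 0 ≤ a3 := by positivity
  have hfin1 : a1 + a2 + a3 ≤ ((j1 + j2 + j3 + j4 + j5 + j6 + C + C5 + ⌈a1 + a2 + a3⌉₊ : ℕ) : ℝ) := by
    refine (Nat.le_ceil _).trans ?_
    exact_mod_cast (by omega)
  have hfin2 : (C5 : ℝ) ≤ ((j1 + j2 + j3 + j4 + j5 + j6 + C + C5 + ⌈a1 + a2 + a3⌉₊ : ℕ) : ℝ) := by
    exact_mod_cast (by omega)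
  set T := ((j1 + j2 + j3 + j4 + j5 + j6 + C + C5 + ⌈a1 + a2 + a3⌉₊ : ℕ) : ℝ) with hT
  have htri : ‖Aop (fun n => χ (b.equivFun.symm n)) H W (Cop (Tj D σ j) (hlen D σ (Chh D σ) j H) F) y‖
      ≤ a1 * (1 / 2) ^ j + a2 * Real.sqrt ((1 / 2) ^ j)
        + (C5 * ∑ g ∈ Gs D σ j, Xg L F j g H y + a3 * (1 / 2) ^ j) := by
    have e1 : Aop (fun n => χ (b.equivFun.symm n)) H W (Cop (Tj D σ j) (hlen D σ (Chh D σ) j H) F) y
        = (Aop (fun n => χ (b.equivFun.symm n)) H W (Cop (Tj D σ j) (hlen D σ (Chh D σ) j H) F) y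
          - Aop (fun n => χ (b.equivFun.symm n)) H W (Fv (Tj D σ j) v) y)
        + (Aop (fun n => χ (b.equivFun.symm n)) H W (Fv (Tj D σ j) v) y
          - Bop L j H W (Fv (Tj D σ j) v) y) + Bop L j H W (Fv (Tj D σ j) v) y := by ring
    rw [e1]
    refine (norm_add_le _ _).trans (add_le_add ((norm_add_le _ _).trans (add_le_add s1 s2)) s5)
  refine htri.trans ?_
  have g1 : a1 * (1 / 2) ^ j ≤ a1 * Real.sqrt ((1 / 2) ^ j) := mul_le_mul_of_nonneg_left hhalf ha10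
  have g3 : a3 * (1 / 2) ^ j ≤ a3 * Real.sqrt ((1 / 2) ^ j) := mul_le_mul_of_nonneg_left hhalf ha30
  have g4 : (a1 + a2 + a3) * Real.sqrt ((1 / 2) ^ j) ≤ T * Real.sqrt ((1 / 2) ^ j) :=
    mul_le_mul_of_nonneg_right hfin1 hsq0
  have g5 : C5 * ∑ g ∈ Gs D σ j, Xg L F j g H y ≤ T * ∑ g ∈ Gs D σ j, Xg L F j g H y :=
    mul_le_mul_of_nonneg_right hfin2 hX0
  linarith

end

end Pool.Agent.H10.Sar
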