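import Pool.Agent.H10.Sar.NsemDefs
import Pool.Agent.H10.Sar.Tor
set_option autoImplicit false
set_option linter.unusedSectionVars false

namespace Pool.Agent.H10.Sar

open NumberField Module Finset
open scoped Classical

noncomputable section

namespace NSq

/-! ### Orthogonality -/

lemma ee_nat_mul (θ : ℝ) (j : ℕ) : ee (θ * j) = ee θ ^ j := by
  induction j with
  | zero => simp
  | succ j ih =>
    rw [pow_succ, ← ih, ← ee_add]
    congr 1
    push_cast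
    ring

lemma ee_eq_one {θ : ℝ} (h : ee θ = 1) : ∃ c : ℤ, θ = c := by
  unfold ee at h
  rw [Complex.exp_eq_one_iff] at h
  obtain ⟨n, hn⟩ := h
  refine ⟨n, ?_⟩
  have hpi : (2 * (Real.pi : ℂ) * Complex.I) ≠ 0 := by
    simp [Real.pi_ne_zero]
  have h1 : (θ : ℂ) * (2 * (Real.pi : ℂ) * Complex.I) = n * (2 * (Real.pi : ℂ) * Complex.I) := by
    rw [← hn]
    ring
  have h2 := mul_right_cancel₀ hpi h1
  exact_mod_cast h2

lemma sum_Ico_int (M : ℕ) (f : ℤ → ℂ) : ∑ j ∈ Finset.Ico (0 : ℤ) M, f j = ∑ j ∈ range M, f j := by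
  apply Finset.sum_nbij' (fun j : ℤ => j.toNat) (fun j : ℕ => (j : ℤ))
  · intro j hj
    rw [mem_Ico] at hj
    rw [mem_range]
    omega
  · intro j hj
    rw [mem_range] at hj
    rw [mem_Ico]
    omega
  · intro j hj
    rw [mem_Ico] at hj
    exact Int.toNat_of_nonneg hj.1
  · intro j _
    exact Int.toNat_natCast j
  · intro j hj
    rw [mem_Ico] at hj
    rw [Int.toNat_of_nonneg hj.1]

/-- one-dimensional orthogonality -/
lemma sum_ee_one {θ : ℝ} {M : ℕ} (h : ∃ c : ℤ, (M : ℝ) * θ = c) (hθ : ¬ ∃ c : ℤ, θ = c) :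
    ∑ j ∈ Finset.Ico (0 : ℤ) M, ee (θ * j) = 0 := by
  rw [sum_Ico_int]
  have h1 : ∀ j ∈ range M, ee (θ * ((j : ℕ) : ℤ)) = ee θ ^ j := by
    intro j _
    rw [← ee_nat_mul]
    congr 1
  rw [sum_congr rfl h1]
  have hne : ee θ ≠ 1 := fun hh => hθ (ee_eq_one hh)
  rw [geom_sum_eq hne]
  obtain ⟨c, hc⟩ := h
  rw [← ee_nat_mul, mul_comm, hc, ee_int, sub_self, zero_div]

/-- orthogonality over a period -/
lemma sum_bx_ee_zero {D M : ℕ} {θ : Fin D → ℝ} (h : IsInt ((M : ℝ) • θ)) (hθ : ¬ IsInt θ) :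
    ∑ s ∈ bx D M, ee (dot θ s) = 0 := by
  have h1 : ∃ i, ¬ ∃ c : ℤ, θ i = c := by
    by_contra hcon
    push Not at hcon
    choose z hz using hcon
    exact hθ ⟨z, funext hz⟩
  obtain ⟨i, hi⟩ := h1
  have h2 : ∀ s : Fin D → ℤ, ee (dot θ s) = ∏ i, ee (θ i * s i) := by
    intro s
    unfold dot
    have : ∀ t : Finset (Fin D), ee (∑ i ∈ t, θ i * s i) = ∏ i ∈ t, ee (θ i * s i) := by
      intro t
      induction t using Finset.induction_on with
      | empty => simp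
      | insert a t ha ih => rw [sum_insert ha, prod_insert ha, ee_add, ih]
    exact this univ
  simp only [h2]
  unfold bx
  rw [← Finset.prod_univ_sum (fun _ : Fin D => Finset.Ico (0 : ℤ) M) (fun i j => ee (θ i * j))]
  apply Finset.prod_eq_zero (mem_univ i)
  apply sum_ee_one _ hi
  obtain ⟨z, hz⟩ := h
  exact ⟨z i, by simpa using congrFun hz i⟩

lemma norm_sum_bx_ee_le {D M : ℕ} {θ : Fin D → ℝ} (h : IsInt ((M : ℝ) • θ)) :
    ‖∑ s ∈ bx D M, ee (dot θ s)‖ ≤ if IsInt θ then (M : ℝ) ^ D else 0 := by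
  split_ifs with hθ
  · refine (norm_sum_le _ _).trans ?_
    rw [sum_congr rfl (fun s _ => norm_ee _), sum_const, card_bx, nsmul_eq_mul, mul_one]
    push_cast
    exact le_rfl
  · rw [sum_bx_ee_zero h hθ, norm_zero]

/-- expansion of a square -/
lemma sq_expand {ι : Type*} (s : Finset ι) (f : ι → ℂ) :
    ((‖∑ e ∈ s, f e‖ ^ 2 : ℝ) : ℂ) = ∑ e ∈ s, ∑ e' ∈ s, f e * (starRingEnd ℂ) (f e') := by
  push_cast
  rw [← Complex.mul_conj', map_sum, Finset.sum_mul_sum]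

/-- mean square of a sum of characters with coefficients -/
lemma sum_sq_le {ι : Type*} {D M : ℕ} (B : Finset ι) (c : ι → ℂ) (hc : ∀ x, ‖c x‖ ≤ 1)
    (θ : ι → Fin D → ℝ) (h : ∀ x ∈ B, IsInt ((M : ℝ) • θ x)) :
    ∑ s ∈ bx D M, ‖∑ x ∈ B, c x * ee (dot (θ x) s)‖ ^ 2 ≤
      (M : ℝ) ^ D * ∑ x ∈ B, ((B.filter (fun x' => IsInt (θ x' - θ x))).card : ℝ) := by
  have h1 : ((∑ s ∈ bx D M, ‖∑ x ∈ B, c x * ee (dot (θ x) s)‖ ^ 2 : ℝ) : ℂ) =
      ∑ x ∈ B, ∑ x' ∈ B, (c x' * (starRingEnd ℂ) (c x)) *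
        ∑ s ∈ bx D M, ee (dot (θ x' - θ x) s) := by
    rw [Complex.ofReal_sum]
    simp only [sq_expand]
    rw [Finset.sum_comm]
    rw [Finset.sum_congr rfl (fun x _ => Finset.sum_comm)]
    rw [Finset.sum_comm]
    apply sum_congr rfl
    intro x _
    apply sum_congr rfl
    intro x' _
    rw [mul_sum]
    apply sum_congr rfl
    intro s _
    rw [map_mul, ← ee_neg, sub_dot, sub_eq_add_neg, ee_add]
    ring
  have h2 : ∑ s ∈ bx D M, ‖∑ x ∈ B, c x * ee (dot (θ x) s)‖ ^ 2 ≤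
      ∑ x ∈ B, ∑ x' ∈ B, (if IsInt (θ x' - θ x) then (M : ℝ) ^ D else 0) := by
    have h3 : ∑ s ∈ bx D M, ‖∑ x ∈ B, c x * ee (dot (θ x) s)‖ ^ 2 =
        ‖((∑ s ∈ bx D M, ‖∑ x ∈ B, c x * ee (dot (θ x) s)‖ ^ 2 : ℝ) : ℂ)‖ := by
      rw [Complex.norm_real, Real.norm_of_nonneg]
      exact sum_nonneg fun s _ => by positivity
    rw [h3, h1]
    refine (norm_sum_le _ _).trans (sum_le_sum fun x hx => (norm_sum_le _ _).trans
      (sum_le_sum fun x' hx' => ?_))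
    rw [norm_mul, norm_mul, RCLike.norm_conj]
    have h4 : IsInt ((M : ℝ) • (θ x' - θ x)) := by
      rw [smul_sub]
      exact (h x' hx').sub (h x hx)
    have h5 := norm_sum_bx_ee_le h4
    have h6 : ‖c x'‖ * ‖c x‖ ≤ 1 := mul_le_one₀ (hc x') (norm_nonneg _) (hc x)
    calc ‖c x'‖ * ‖c x‖ * ‖∑ s ∈ bx D M, ee (dot (θ x' - θ x) s)‖
        ≤ 1 * ‖∑ s ∈ bx D M, ee (dot (θ x' - θ x) s)‖ :=
          mul_le_mul_of_nonneg_right h6 (norm_nonneg _)
      _ ≤ _ := by rw [one_mul]; exact h5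
  refine h2.trans (le_of_eq ?_)
  rw [mul_sum]
  apply sum_congr rfl
  intro x _
  rw [← sum_filter, sum_const, nsmul_eq_mul, mul_comm]

/-- exact orthogonality for distinct frequencies -/
lemma sum_sq_eq {ι : Type*} {D M : ℕ} (Λ : Finset ι) (a : ι → ℂ)
    (θ : ι → Fin D → ℝ) (h : ∀ x ∈ Λ, IsInt ((M : ℝ) • θ x))
    (hd : ∀ x ∈ Λ, ∀ x' ∈ Λ, x ≠ x' → ¬ IsInt (θ x - θ x')) :
    ∑ t ∈ bx D M, ‖∑ x ∈ Λ, a x * ee (dot (θ x) t)‖ ^ 2 =
      (M : ℝ) ^ D * ∑ x ∈ Λ, ‖a x‖ ^ 2 := by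
  have h1 : ((∑ t ∈ bx D M, ‖∑ x ∈ Λ, a x * ee (dot (θ x) t)‖ ^ 2 : ℝ) : ℂ) =
      (((M : ℝ) ^ D * ∑ x ∈ Λ, ‖a x‖ ^ 2 : ℝ) : ℂ) := by
    rw [Complex.ofReal_sum]
    simp only [sq_expand]
    rw [Finset.sum_comm]
    rw [Complex.ofReal_mul, Complex.ofReal_sum, mul_sum]
    apply sum_congr rfl
    intro x hx
    rw [Finset.sum_comm, Finset.sum_eq_single x]
    · have e1 : ∀ t ∈ bx D M, a x * ee (dot (θ x) t) *
          (starRingEnd ℂ) (a x * ee (dot (θ x) t)) = ((‖a x‖ ^ 2 : ℝ) : ℂ) := by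
        intro t _
        rw [map_mul]
        have e2 := ee_mul_conj (dot (θ x) t)
        have e3 : a x * (starRingEnd ℂ) (a x) = ((‖a x‖ ^ 2 : ℝ) : ℂ) := by
          rw [Complex.mul_conj']
          push_cast
          rfl
        calc a x * ee (dot (θ x) t) * ((starRingEnd ℂ) (a x) * (starRingEnd ℂ) (ee (dot (θ x) t)))
            = (a x * (starRingEnd ℂ) (a x)) * (ee (dot (θ x) t) *
              (starRingEnd ℂ) (ee (dot (θ x) t))) := by ring
          _ = _ := by rw [e2, e3, mul_one]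
      rw [sum_congr rfl e1, sum_const, card_bx, nsmul_eq_mul]
      push_cast
      rfl
    · intro x' hx' hne
      have e1 : ∀ t ∈ bx D M, a x * ee (dot (θ x) t) *
          (starRingEnd ℂ) (a x' * ee (dot (θ x') t)) =
          (a x * (starRingEnd ℂ) (a x')) * ee (dot (θ x - θ x') t) := by
        intro t _
        rw [map_mul, ← ee_neg, sub_dot, sub_eq_add_neg, ee_add]
        ring
      rw [sum_congr rfl e1, ← mul_sum, sum_bx_ee_zero, mul_zero]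
      · rw [smul_sub]
        exact (h x hx).sub (h x' hx')
      · exact hd x hx x' hx' hne.symm
    · intro hh
      exact absurd hx hh
  exact_mod_cast h1

end NSq

open NSq

variable {K : Type*} [Field K] [NumberField K] {D : ℕ} (b : Basis (Fin D) ℤ (𝓞 K))

/-- number of pairs in a block which act alike on a rational point -/
theorem NSq.block_count : ∃ C : ℕ, ∀ (B : Finset (𝓞 K)) (w q0 q1 : ℕ) (β : Fin D → ℤ)
    (e : ℕ × (Fin D → ℤ)), 1 ≤ w → (∀ α ∈ B, blk b w α = β) → 1 ≤ q0 → e ∈ tor D q0 q1 →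
    q1 ≤ 2 * w →
    ∑ x ∈ B, ((B.filter (fun x' => IsInt (star b x' (vec e) - star b x (vec e)))).card : ℝ) ≤
      C * (w : ℝ) ^ (2 * D) / q0 := by
  obtain ⟨C, hC⟩ := tor_count b
  refine ⟨C * 2 ^ D, ?_⟩
  intro B w q0 q1 β e hw hB hq0 he hq1
  have hw0 : (0 : ℤ) < w := by exact_mod_cast hw
  have hq0' : (0 : ℝ) < q0 := by exact_mod_cast hq0
  have heq : q0 ≤ e.1 ∧ e.1 < q1 := by
    unfold tor at he
    rw [mem_filter, mem_product, mem_Ico] at he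
    exact he.1.1
  -- coordinates in a block
  have hcoord : ∀ α ∈ B, ∀ i, β i * w ≤ b.equivFun α i ∧ b.equivFun α i < β i * w + w := by
    intro α hα i
    have h1 := congrFun (hB α hα) i
    unfold blk at h1
    have h2 := Int.mul_ediv_add_emod (b.equivFun α i) (w : ℤ)
    have h3 := Int.emod_nonneg (b.equivFun α i) hw0.ne'
    have h4 := Int.emod_lt_of_pos (b.equivFun α i) hw0
    rw [h1, mul_comm] at h2
    constructor <;> linarith
  -- the number of elements of the block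
  have hBcard : (B.card : ℝ) ≤ (w : ℝ) ^ D := by
    have h1 : B.card ≤ (bx D w).card := by
      apply Finset.card_le_card_of_injOn (fun α i => b.equivFun α i - β i * w)
      · intro α hα
        have hα' : α ∈ B := hα
        rw [Finset.mem_coe, mem_bx]
        intro i
        have := hcoord α hα' i
        constructor <;> linarith [this.1, this.2]
      · intro α _ α' _ hαα'
        apply b.equivFun.injective
        funext i
        have := congrFun hαα' i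
        simp only at this
        linarith
    rw [card_bx] at h1
    exact_mod_cast h1
  have hone : ∀ x ∈ B, ((B.filter (fun x' => IsInt (star b x' (vec e) - star b x (vec e)))).card : ℝ)
      ≤ C * (2 * w : ℕ) ^ D / q0 := by
    intro x hx
    have h1 : (B.filter (fun x' => IsInt (star b x' (vec e) - star b x (vec e)))).card ≤
        ((bx D (2 * w)).filter (fun n => IsInt (star b (b.equivFun.symm
          ((fun _ => -(w : ℤ)) + n)) (vec e)))).card := by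
      apply Finset.card_le_card_of_injOn
        (fun x' i => b.equivFun x' i - b.equivFun x i + w)
      · intro x' hx'
        rw [Finset.mem_coe, mem_filter] at hx'
        rw [Finset.mem_coe, mem_filter, mem_bx]
        constructor
        · intro i
          have h2 := hcoord x' hx'.1 i
          have h3 := hcoord x hx i
          push_cast
          constructor <;> linarith [h2.1, h2.2, h3.1, h3.2]
        · have h2 : ((fun _ => -(w : ℤ)) + fun i => b.equivFun x' i - b.equivFun x i + w) =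
              b.equivFun (x' - x) := by
            funext i
            simp only [Pi.add_apply, map_sub, Pi.sub_apply]
            ring
          rw [h2, LinearEquiv.symm_apply_apply, sub_star]
          exact hx'.2
      · intro x' _ x'' _ hxx
        apply b.equivFun.injective
        funext i
        have := congrFun hxx i
        simp only at this
        linarith
    have h2 := hC q0 q1 (2 * w) hq0 e he (by omega) (fun _ => -(w : ℤ))
    calc ((B.filter (fun x' => IsInt (star b x' (vec e) - star b x (vec e)))).card : ℝ)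
        ≤ (((bx D (2 * w)).filter (fun n => IsInt (star b (b.equivFun.symm
          ((fun _ => -(w : ℤ)) + n)) (vec e)))).card : ℝ) := by exact_mod_cast h1
      _ ≤ C * (2 * w : ℕ) ^ D / e.1 := h2
      _ ≤ C * (2 * w : ℕ) ^ D / q0 := by
        apply div_le_div_of_nonneg_left (by positivity) hq0'
        exact_mod_cast heq.1
  refine (sum_le_sum hone).trans ?_
  rw [sum_const, nsmul_eq_mul]
  calc (B.card : ℝ) * (C * (2 * w : ℕ) ^ D / q0)
      ≤ (w : ℝ) ^ D * (C * (2 * w : ℕ) ^ D / q0) := mul_le_mul_of_nonneg_right hBcard (by positivity)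
    _ = ((C * 2 ^ D : ℕ) : ℝ) * (w : ℝ) ^ (2 * D) / q0 := by
      push_cast
      rw [mul_pow, two_mul, pow_add]
      ring

/-- the contribution of one block -/
theorem NSq.block_bound : ∃ C : ℕ, ∀ (B : Finset (𝓞 K)) (χ : 𝓞 K → ℂ) (w M q0 q1 : ℕ)
    (β : Fin D → ℤ) (Λ : Finset (ℕ × (Fin D → ℤ))) (v : ℕ × (Fin D → ℤ) → ℂ),
    1 ≤ w → (∀ α ∈ B, blk b w α = β) → (∀ x, ‖χ x‖ ≤ 1) → 1 ≤ M → 1 ≤ q0 →
    Λ ⊆ tor D q0 q1 → (∀ e ∈ Λ, IsInt ((M : ℝ) • vec e)) → q1 ≤ 2 * w →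
    ∑ t ∈ bx D M, (1 / (M : ℝ) ^ D) * ∑ s ∈ bx D M,
      ‖∑ α ∈ B, χ α * Fv Λ v (t + act b α s)‖ ^ 2 ≤
      C * (w : ℝ) ^ (2 * D) / q0 * M ^ D * ∑ e ∈ Λ, ‖v e‖ ^ 2 := by
  obtain ⟨C, hC⟩ := NSq.block_count b
  refine ⟨C, ?_⟩
  intro B χ w M q0 q1 β Λ v hw hB hχ hM hq0 hΛ hint hq1
  have hM0 : (0 : ℝ) < (M : ℝ) ^ D := by positivity
  -- the coefficients
  set cc : ℕ × (Fin D → ℤ) → (Fin D → ℤ) → ℂ := fun e s =>
    ∑ α ∈ B, χ α * ee (dot (star b α (vec e)) s) with hcc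
  have hrew : ∀ t s, ∑ α ∈ B, χ α * Fv Λ v (t + act b α s) =
      ∑ e ∈ Λ, (v e * cc e s) * ee (dot (vec e) t) := by
    intro t s
    simp only [Fv, hcc, mul_sum, sum_mul]
    rw [Finset.sum_comm]
    apply sum_congr rfl
    intro e _
    apply sum_congr rfl
    intro α _
    rw [dot_add, ee_add, dot_star]
    ring
  have hdist : ∀ x ∈ Λ, ∀ x' ∈ Λ, x ≠ x' → ¬ IsInt (vec x - vec x') := by
    intro x hx x' hx' hne hI
    obtain ⟨i, hi⟩ := tor_sep hq0 (hΛ hx) (hΛ hx') hne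
    obtain ⟨z, hz⟩ := hI
    have h1 := congrFun hz i
    simp only [Pi.sub_apply] at h1
    rw [h1] at hi
    have h2 : di (z i : ℝ) = 0 := by
      unfold di
      rw [round_intCast, sub_self, abs_zero]
    rw [h2] at hi
    have hq : ∀ y ∈ Λ, (0 : ℝ) < (y.1 : ℝ) := by
      intro y hy
      have := hΛ hy
      unfold tor at this
      rw [mem_filter, mem_product, mem_Ico] at this
      have h3 : 0 < y.1 := by omega
      exact_mod_cast h3
    have := hq x hx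
    have := hq x' hx'
    have h4 : 0 < 1 / ((x.1 : ℝ) * x'.1) := by positivity
    linarith
  have hswap : ∑ t ∈ bx D M, (1 / (M : ℝ) ^ D) * ∑ s ∈ bx D M,
      ‖∑ α ∈ B, χ α * Fv Λ v (t + act b α s)‖ ^ 2 =
      ∑ e ∈ Λ, ‖v e‖ ^ 2 * ∑ s ∈ bx D M, ‖cc e s‖ ^ 2 := by
    rw [← mul_sum, Finset.sum_comm]
    have h1 : ∀ s ∈ bx D M, ∑ t ∈ bx D M, ‖∑ α ∈ B, χ α * Fv Λ v (t + act b α s)‖ ^ 2 =
        (M : ℝ) ^ D * ∑ e ∈ Λ, ‖v e‖ ^ 2 * ‖cc e s‖ ^ 2 := by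
      intro s _
      simp only [hrew]
      rw [sum_sq_eq Λ (fun e => v e * cc e s) (fun e => vec e) hint hdist]
      simp only [norm_mul, mul_pow]
    rw [sum_congr rfl h1, ← mul_sum, ← mul_assoc, one_div_mul_cancel hM0.ne', one_mul,
      Finset.sum_comm]
    simp only [mul_sum]
  rw [hswap]
  have hcs : ∀ e ∈ Λ, ∑ s ∈ bx D M, ‖cc e s‖ ^ 2 ≤ (M : ℝ) ^ D * (C * (w : ℝ) ^ (2 * D) / q0) := by
    intro e he
    refine (sum_sq_le B χ hχ (fun α => star b α (vec e)) ?_).trans ?_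
    · intro α _
      rw [← star_smul]
      exact (hint e he).star b α
    · exact mul_le_mul_of_nonneg_left (hC B w q0 q1 β e hw hB hq0 (hΛ he) hq1) hM0.le
  calc ∑ e ∈ Λ, ‖v e‖ ^ 2 * ∑ s ∈ bx D M, ‖cc e s‖ ^ 2
      ≤ ∑ e ∈ Λ, ‖v e‖ ^ 2 * ((M : ℝ) ^ D * (C * (w : ℝ) ^ (2 * D) / q0)) :=
        sum_le_sum fun e he => mul_le_mul_of_nonneg_left (hcs e he) (by positivity)
    _ = C * (w : ℝ) ^ (2 * D) / q0 * M ^ D * ∑ e ∈ Λ, ‖v e‖ ^ 2 := by
      rw [← sum_mul]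
      ring

/-- the number of blocks of a dyadic class -/
theorem NSq.card_blocks (𝒜 : Finset (𝓞 K)) (a p : ℕ) (hpa : p ≤ a) :
    (((dya b 𝒜 a).image (blk b (2 ^ (a - p)))).card : ℝ) ≤ ((2 : ℝ) ^ (p + 2)) ^ D := by
  have h1 : ((dya b 𝒜 a).image (blk b (2 ^ (a - p)))).card ≤ (bx D (2 ^ (p + 2))).card := by
    apply Finset.card_le_card_of_injOn (fun β i => β i + 2 ^ (p + 1))
    · intro β hβ
      rw [Finset.mem_coe, mem_image] at hβ
      obtain ⟨α, hα, rfl⟩ := hβ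
      rw [Finset.mem_coe, mem_bx]
      intro i
      unfold dya at hα
      rw [mem_filter] at hα
      have h2 : |b.equivFun α i| ≤ ((2 ^ (a + 1) : ℕ) : ℤ) - 1 := by
        have h3 := abs_le_nn (b.equivFun α) i
        have h4 : nn (b.equivFun α) < 2 ^ (a + 1) := hα.2.2
        have h5 : ((nn (b.equivFun α) : ℕ) : ℤ) < ((2 ^ (a + 1) : ℕ) : ℤ) := by exact_mod_cast h4
        linarith
      have hw : (0 : ℤ) < 2 ^ (a - p) := by positivity
      have hsplit : ((2 ^ (a + 1) : ℕ) : ℤ) = 2 ^ (p + 1) * 2 ^ (a - p) := by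
        push_cast
        rw [← pow_add]
        congr 1
        omega
      rw [hsplit, abs_le] at h2
      unfold blk
      push_cast
      have h6 : -(2 ^ (p + 1) : ℤ) ≤ b.equivFun α i / 2 ^ (a - p) := by
        rw [Int.le_ediv_iff_mul_le hw]
        linarith [h2.1]
      have h7 : b.equivFun α i / 2 ^ (a - p) < (2 ^ (p + 1) : ℤ) := by
        rw [Int.ediv_lt_iff_lt_mul hw]
        linarith [h2.2]
      have h8 : (2 : ℤ) ^ (p + 2) = 2 ^ (p + 1) + 2 ^ (p + 1) := by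
        rw [show p + 2 = (p + 1) + 1 by ring, pow_succ]
        ring
      rw [h8]
      constructor <;> linarith
    · intro β _ β' _ hβ
      funext i
      have := congrFun hβ i
      simp only at this
      linarith
  rw [card_bx] at h1
  exact_mod_cast h1

/-- mean square of the seminorm over a period -/
theorem Nsem_sq_le : ∃ C : ℕ, ∀ (𝒜 : Finset (𝓞 K)) (χ : 𝓞 K → ℂ) (p l M q0 q1 : ℕ)
    (Λ : Finset (ℕ × (Fin D → ℤ))) (v : ℕ × (Fin D → ℤ) → ℂ),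
    (∀ α ∈ 𝒜, 2 ^ p * q1 ≤ sz b α ∧ sz b α ≤ 2 ^ l) →
    (∀ x, ‖χ x‖ ≤ 1) → 1 ≤ M → 1 ≤ q0 → Λ ⊆ tor D q0 q1 →
    (∀ e ∈ Λ, IsInt ((M : ℝ) • vec e)) →
    ∑ t ∈ bx D M, Nsem b χ 𝒜 l p M Λ v t ^ 2
      ≤ C * (l + 1) ^ 2 / q0 * M ^ D * ∑ e ∈ Λ, ‖v e‖ ^ 2 := by
  obtain ⟨C, hC⟩ := NSq.block_bound b
  refine ⟨C * 16 ^ D, ?_⟩
  intro 𝒜 χ p l M q0 q1 Λ v h𝒜 hχ hM hq0 hΛ hint
  have hq0' : (0 : ℝ) < q0 := by exact_mod_cast hq0
  have hM0 : (0 : ℝ) < (M : ℝ) ^ D := by positivity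
  rcases Λ.eq_empty_or_nonempty with hemp | ⟨e0, he0⟩
  · subst hemp
    have h1 : ∀ t, Nsem b χ 𝒜 l p M ∅ v t = 0 := by
      intro t
      unfold Nsem Fv
      simp
    simp [h1]
  have hq1 : 2 ≤ q1 := by
    have := hΛ he0
    unfold tor at this
    rw [mem_filter, mem_product, mem_Ico] at this
    omega
  -- the dyadic classes are empty for small `a`
  have hdya : ∀ a, (dya b 𝒜 a).Nonempty → p ≤ a ∧ q1 ≤ 2 * 2 ^ (a - p) := by
    rintro a ⟨α, hα⟩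
    unfold dya at hα
    rw [mem_filter] at hα
    have h1 := (h𝒜 α hα.1).1
    have h2 := hα.2.2
    have h3 : 2 ^ p * q1 < 2 ^ (a + 1) := lt_of_le_of_lt h1 h2
    have h4 : p ≤ a := by
      by_contra hcon
      have h5 : 2 ^ (a + 1) ≤ 2 ^ p := Nat.pow_le_pow_right (by norm_num) (by omega)
      have h6 : 2 ^ p ≤ 2 ^ p * q1 := Nat.le_mul_of_pos_right _ (by omega)
      omega
    refine ⟨h4, ?_⟩
    have h5 : 2 ^ (a + 1) = 2 ^ p * (2 * 2 ^ (a - p)) := by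
      rw [← pow_succ', ← pow_add]
      congr 1
      omega
    rw [h5] at h3
    exact (Nat.lt_of_mul_lt_mul_left h3).le
  -- Cauchy-Schwarz
  set I : Finset (Σ _ : ℕ, (Fin D → ℤ)) :=
    (range (l + 1)).sigma (fun a => (dya b 𝒜 a).image (blk b (2 ^ (a - p)))) with hI
  set Y : (Σ _ : ℕ, (Fin D → ℤ)) → (Fin D → ℤ) → ℝ := fun z t =>
    (1 / (M : ℝ) ^ D) * ∑ s ∈ bx D M,
      ‖∑ α ∈ (dya b 𝒜 z.1).filter (fun α => blk b (2 ^ (z.1 - p)) α = z.2),
        χ α * Fv Λ v (t + act b α s)‖ ^ 2 with hY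
  have hY0 : ∀ z t, 0 ≤ Y z t := by
    intro z t
    rw [hY]
    positivity
  have hNsem : ∀ t, Nsem b χ 𝒜 l p M Λ v t =
      ∑ z ∈ I, (1 / (2 : ℝ) ^ z.1) ^ D * Real.sqrt (Y z t) := by
    intro t
    unfold Nsem
    rw [hI, Finset.sum_sigma]
  have hIcard : (I.card : ℝ) ≤ (l + 1) * ((2 : ℝ) ^ (p + 2)) ^ D := by
    rw [hI, Finset.card_sigma]
    push_cast
    have h1 : ∀ a ∈ range (l + 1), (((dya b 𝒜 a).image (blk b (2 ^ (a - p)))).card : ℝ) ≤
        ((2 : ℝ) ^ (p + 2)) ^ D := by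
      intro a _
      rcases (dya b 𝒜 a).eq_empty_or_nonempty with he | hne
      · rw [he]
        simp only [image_empty, card_empty, Nat.cast_zero]
        positivity
      · exact NSq.card_blocks b 𝒜 a p (hdya a hne).1
    refine (sum_le_sum h1).trans ?_
    rw [sum_const, card_range, nsmul_eq_mul]
    push_cast
    exact le_rfl
  have hCS : ∀ t, Nsem b χ 𝒜 l p M Λ v t ^ 2 ≤
      I.card * ∑ z ∈ I, ((1 / (2 : ℝ) ^ z.1) ^ D) ^ 2 * Y z t := by
    intro t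
    rw [hNsem t]
    refine (sq_sum_le_card_mul_sum_sq (s := I)
      (f := fun z => (1 / (2 : ℝ) ^ z.1) ^ D * Real.sqrt (Y z t))).trans (le_of_eq ?_)
    congr 1
    apply sum_congr rfl
    intro z _
    rw [mul_pow, Real.sq_sqrt (hY0 z t)]
  have hblock : ∀ z ∈ I, ∑ t ∈ bx D M, ((1 / (2 : ℝ) ^ z.1) ^ D) ^ 2 * Y z t ≤
      (1 / ((2 : ℝ) ^ p) ^ (2 * D)) * (C / q0 * M ^ D * ∑ e ∈ Λ, ‖v e‖ ^ 2) := by
    intro z hz
    rw [hI, mem_sigma, mem_image] at hz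
    obtain ⟨_, α, hα, hαβ⟩ := hz
    obtain ⟨hpa, hq1a⟩ := hdya z.1 ⟨α, hα⟩
    rw [← mul_sum]
    have h1 := hC ((dya b 𝒜 z.1).filter (fun α => blk b (2 ^ (z.1 - p)) α = z.2)) χ
      (2 ^ (z.1 - p)) M q0 q1 z.2 Λ v (Nat.one_le_two_pow) (fun α hα => (mem_filter.mp hα).2)
      hχ hM hq0 hΛ hint hq1a
    have h2 : ∑ t ∈ bx D M, Y z t ≤
        C * ((2 ^ (z.1 - p) : ℕ) : ℝ) ^ (2 * D) / q0 * M ^ D * ∑ e ∈ Λ, ‖v e‖ ^ 2 := h1
    refine (mul_le_mul_of_nonneg_left h2 (by positivity)).trans (le_of_eq ?_)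
    have h3 : (2 : ℝ) ^ z.1 = 2 ^ p * 2 ^ (z.1 - p) := by
      rw [← pow_add]
      congr 1
      omega
    have h4 : ((1 / (2 : ℝ) ^ z.1) ^ D) ^ 2 * (((2 ^ (z.1 - p) : ℕ) : ℝ) ^ (2 * D)) =
        1 / ((2 : ℝ) ^ p) ^ (2 * D) := by
      rw [h3]
      push_cast
      rw [← pow_mul, mul_comm D 2, div_pow, one_pow, mul_pow]
      field_simp
    calc ((1 / (2 : ℝ) ^ z.1) ^ D) ^ 2 * (C * ((2 ^ (z.1 - p) : ℕ) : ℝ) ^ (2 * D) / q0 * M ^ D *
          ∑ e ∈ Λ, ‖v e‖ ^ 2)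
        = (((1 / (2 : ℝ) ^ z.1) ^ D) ^ 2 * (((2 ^ (z.1 - p) : ℕ) : ℝ) ^ (2 * D))) *
          (C / q0 * M ^ D * ∑ e ∈ Λ, ‖v e‖ ^ 2) := by ring
      _ = _ := by rw [h4]
  have hV : 0 ≤ ∑ e ∈ Λ, ‖v e‖ ^ 2 := sum_nonneg fun e _ => by positivity
  calc ∑ t ∈ bx D M, Nsem b χ 𝒜 l p M Λ v t ^ 2
      ≤ ∑ t ∈ bx D M, (I.card : ℝ) * ∑ z ∈ I, ((1 / (2 : ℝ) ^ z.1) ^ D) ^ 2 * Y z t :=
        sum_le_sum fun t _ => hCS t
    _ = (I.card : ℝ) * ∑ z ∈ I, ∑ t ∈ bx D M, ((1 / (2 : ℝ) ^ z.1) ^ D) ^ 2 * Y z t := by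
        rw [← mul_sum, Finset.sum_comm]
    _ ≤ (I.card : ℝ) * ∑ z ∈ I, (1 / ((2 : ℝ) ^ p) ^ (2 * D)) *
          (C / q0 * M ^ D * ∑ e ∈ Λ, ‖v e‖ ^ 2) :=
        mul_le_mul_of_nonneg_left (sum_le_sum hblock) (by positivity)
    _ = (I.card : ℝ) ^ 2 * ((1 / ((2 : ℝ) ^ p) ^ (2 * D)) *
          (C / q0 * M ^ D * ∑ e ∈ Λ, ‖v e‖ ^ 2)) := by
        rw [sum_const, nsmul_eq_mul]
        ring
    _ ≤ ((l + 1) * ((2 : ℝ) ^ (p + 2)) ^ D) ^ 2 * ((1 / ((2 : ℝ) ^ p) ^ (2 * D)) *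
          (C / q0 * M ^ D * ∑ e ∈ Λ, ‖v e‖ ^ 2)) := by
        apply mul_le_mul_of_nonneg_right
        · exact pow_le_pow_left₀ (by positivity) hIcard 2
        · positivity
    _ = ((C * 16 ^ D : ℕ) : ℝ) * (l + 1) ^ 2 / q0 * M ^ D * ∑ e ∈ Λ, ‖v e‖ ^ 2 := by
        have h1 : (((2 : ℝ) ^ (p + 2)) ^ D) ^ 2 = 16 ^ D * ((2 : ℝ) ^ p) ^ (2 * D) := by
          have h4 : (4 : ℝ) ^ (2 * D) = 16 ^ D := by
            rw [pow_mul]
            norm_num
          calc (((2 : ℝ) ^ (p + 2)) ^ D) ^ 2 = ((2 : ℝ) ^ p * 4) ^ (2 * D) := by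
                rw [← pow_mul, mul_comm D 2, pow_add]
                norm_num
            _ = _ := by rw [mul_pow, h4, mul_comm]
        rw [mul_pow, h1]
        push_cast
        have h2 : ((2 : ℝ) ^ p) ^ (2 * D) ≠ 0 := by positivity
        field_simp

end

end Pool.Agent.H10.Sar
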