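import Pool.Agent.H10.Sar.LevC
import Pool.Agent.H10.Sar.HL
import Pool.Agent.H10.Sar.NSq
set_option autoImplicit false
set_option linter.unusedSectionVars false

namespace Pool.Agent.H10.Sar

open NumberField Module Finset
open scoped Classical

noncomputable section

lemma qt_cell {D M : ℕ} {Y t : Fin D → ℤ} (ht : t ∈ bx D M) : qt M ((M : ℤ) • Y + t) = Y := by
  rw [mem_bx] at ht
  funext i
  have h1 := ht i
  have hM : (0 : ℤ) < M := by linarith [h1.1, h1.2]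
  unfold qt
  simp only [Pi.add_apply, Pi.smul_apply, smul_eq_mul]
  rw [Int.mul_add_ediv_left _ _ hM.ne', Int.ediv_eq_zero_of_lt h1.1 h1.2, add_zero]

lemma rm_cell {D M : ℕ} {Y t : Fin D → ℤ} (ht : t ∈ bx D M) : rm M ((M : ℤ) • Y + t) = t := by
  rw [mem_bx] at ht
  funext i
  have h1 := ht i
  unfold rm
  simp only [Pi.add_apply, Pi.smul_apply, smul_eq_mul]
  rw [Int.mul_add_emod_self_left, Int.emod_eq_of_lt h1.1 h1.2]

/-- the box of side `N` is covered by the cells of side `M` with index in the box of side `N/M+1` -/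
lemma cell_out {D M N : ℕ} {Y z : Fin D → ℤ} (hY : Y ∉ bx D (N / M + 1)) (hz : z ∈ bx D M) :
    (M : ℤ) • Y + z ∉ bx D N := by
  intro h
  apply hY
  rw [mem_bx] at h hz ⊢
  intro i
  have h1 := h i
  have h2 := hz i
  simp only [Pi.add_apply, Pi.smul_apply, smul_eq_mul] at h1
  have hM : (0 : ℤ) < M := by linarith [h2.1, h2.2]
  constructor
  · by_contra h3
    rw [not_le] at h3
    have h4 : Y i ≤ -1 := by omega
    nlinarith [h1.1, h2.2]
  · push_cast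
    rw [Int.lt_add_one_iff, Int.le_ediv_iff_mul_le hM, mul_comm]
    linarith [h1.2, h2.1]

lemma Gl_out {D M N : ℕ} {F : (Fin D → ℤ) → ℂ} (hF : ∀ n, n ∉ bx D N → F n = 0)
    (e : ℕ × (Fin D → ℤ)) {Y : Fin D → ℤ} (hY : Y ∉ bx D (N / M + 1)) :
    Gl M F e ((M : ℤ) • Y) = 0 := by
  unfold Gl
  rw [sum_eq_zero, mul_zero]
  intro z hz
  rw [hF _ (cell_out hY hz), mul_zero]

/-- sum over a box by cells, with zero extension -/
lemma sum_box_le {D M N : ℕ} (hM : 0 < M) {f : (Fin D → ℤ) → ℝ} (hf : ∀ n, 0 ≤ f n) :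
    ∑ y ∈ bx D N, f y ≤ ∑ Y ∈ bx D (N / M + 1), ∑ t ∈ bx D M, f ((M : ℤ) • Y + t) := by
  rw [sum_cells]
  apply sum_le_sum_of_subset_of_nonneg _ (fun _ _ _ => hf _)
  intro y hy
  rw [mem_bx] at hy ⊢
  intro i
  refine ⟨(hy i).1, lt_of_lt_of_le (hy i).2 ?_⟩
  have h1 := Nat.lt_div_mul_add (a := N) hM
  have h2 : N ≤ M * (N / M + 1) := by
    rw [mul_add, mul_one, mul_comm]
    omega
  exact_mod_cast h2

/-- energy of the cell coefficients -/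
lemma cell_energy {D S R N : ℕ} {F : (Fin D → ℤ) → ℂ} (hS : 0 < S) (hR : 0 < R)
    (hF : ∀ n, n ∉ bx D N → F n = 0) (e : ℕ × (Fin D → ℤ)) :
    ((S * R : ℕ) : ℝ) ^ D * ∑ Y ∈ bx D (N / (S * R) + 1), ‖Gl (S * R) F e (((S * R : ℕ) : ℤ) • Y)‖ ^ 2
      ≤ (S : ℝ) ^ D * ∑ X ∈ bx D (N / S + 1), ‖Gl S F e ((S : ℤ) • X)‖ ^ 2 := by
  have hSr : (0 : ℝ) < S := by exact_mod_cast hS
  have hRr : (0 : ℝ) < R := by exact_mod_cast hR
  have h1 : ∀ Y : Fin D → ℤ, ‖Gl (S * R) F e (((S * R : ℕ) : ℤ) • Y)‖ ^ 2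
      ≤ 1 / (R : ℝ) ^ D * ∑ Z ∈ bx D R, ‖Gl S F e ((S : ℤ) • ((R : ℤ) • Y + Z))‖ ^ 2 := by
    intro Y
    rw [Gl_avg]
    have h3 := norm_avg_sq_le (bx D R) ((R : ℝ) ^ D) (by positivity) (by
      rw [card_bx]; push_cast; exact le_rfl)
      (fun Z => Gl S F e (((S * R : ℕ) : ℤ) • Y + (S : ℤ) • Z))
    push_cast at h3
    push_cast
    refine h3.trans (le_of_eq ?_)
    congr 1
    refine sum_congr rfl (fun Z _ => ?_)
    have : ((S : ℤ) * (R : ℤ)) • Y + (S : ℤ) • Z = (S : ℤ) • ((R : ℤ) • Y + Z) := by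
      rw [smul_add, smul_smul]
    rw [this]
  calc ((S * R : ℕ) : ℝ) ^ D * ∑ Y ∈ bx D (N / (S * R) + 1), ‖Gl (S * R) F e (((S * R : ℕ) : ℤ) • Y)‖ ^ 2
      ≤ ((S * R : ℕ) : ℝ) ^ D * ∑ Y ∈ bx D (N / (S * R) + 1),
        (1 / (R : ℝ) ^ D * ∑ Z ∈ bx D R, ‖Gl S F e ((S : ℤ) • ((R : ℤ) • Y + Z))‖ ^ 2) :=
        mul_le_mul_of_nonneg_left (sum_le_sum (fun Y _ => h1 Y)) (by positivity)
    _ = (S : ℝ) ^ D * ∑ Y ∈ bx D (N / (S * R) + 1), ∑ Z ∈ bx D R,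
          ‖Gl S F e ((S : ℤ) • ((R : ℤ) • Y + Z))‖ ^ 2 := by
        rw [← mul_sum, ← mul_assoc]
        congr 1
        push_cast
        rw [mul_pow]
        field_simp
    _ = (S : ℝ) ^ D * ∑ X ∈ bx D (R * (N / (S * R) + 1)), ‖Gl S F e ((S : ℤ) • X)‖ ^ 2 := by
        rw [sum_cells R (N / (S * R) + 1) (fun X => ‖Gl S F e ((S : ℤ) • X)‖ ^ 2)]
    _ ≤ (S : ℝ) ^ D * ∑ X ∈ bx D (N / S + 1), ‖Gl S F e ((S : ℤ) • X)‖ ^ 2 := by
        apply mul_le_mul_of_nonneg_left _ (by positivity)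
        rw [← sum_filter_add_sum_filter_not (bx D (R * (N / (S * R) + 1)))
          (fun X => X ∈ bx D (N / S + 1))]
        have h2 : ∑ X ∈ (bx D (R * (N / (S * R) + 1))).filter (fun X => ¬ X ∈ bx D (N / S + 1)),
            ‖Gl S F e ((S : ℤ) • X)‖ ^ 2 = 0 := by
          apply sum_eq_zero
          intro X hX
          rw [mem_filter] at hX
          rw [Gl_out hF e hX.2, norm_zero]
          norm_num
        rw [h2, add_zero]
        apply sum_le_sum_of_subset_of_nonneg _ (fun _ _ _ => by positivity)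
        intro X hX
        exact (mem_filter.mp hX).2

/-- total energy of all coefficients at level `j` -/
lemma total_energy {D σ j N : ℕ} (hD : 0 < D) {F : (Fin D → ℤ) → ℂ} (hF1 : ∀ n, ‖F n‖ ≤ 1)
    (hF : ∀ n, n ∉ bx D N → F n = 0) :
    ∑ e ∈ Tj D σ j, ((Sj D σ j : ℕ) : ℝ) ^ D * ∑ X ∈ bx D (N / Sj D σ j + 1),
      ‖Gl (Sj D σ j) F e (((Sj D σ j : ℕ) : ℤ) • X)‖ ^ 2 ≤ 2 * N ^ D := by
  set S := Sj D σ j with hS
  have hSpos : 0 < S := Sj_pos D σ j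
  have hSr : (0 : ℝ) < S := by exact_mod_cast hSpos
  have hSN : (2 ^ (EE D σ * (j + 1))) ^ (D + 3) ≤ S := by
    rw [hS]
    unfold Sj
    rw [← pow_mul]
    apply le_of_eq
    congr 1
    ring
  rw [← mul_sum, sum_comm]
  have h1 : ∀ X : Fin D → ℤ, ∑ e ∈ Tj D σ j, ‖Gl S F e ((S : ℤ) • X)‖ ^ 2
      ≤ 2 / (S : ℝ) ^ D * ∑ z ∈ bx D S, ‖F ((S : ℤ) • X + z)‖ ^ 2 := fun X =>
    orth2 (D := D) (q0 := 2 ^ (EE D σ * j)) (q1 := 2 ^ (EE D σ * (j + 1))) (N := S)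
      hD Nat.one_le_two_pow hSN hSpos F ((S : ℤ) • X)
  calc (S : ℝ) ^ D * ∑ X ∈ bx D (N / S + 1), ∑ e ∈ Tj D σ j, ‖Gl S F e ((S : ℤ) • X)‖ ^ 2
      ≤ (S : ℝ) ^ D * ∑ X ∈ bx D (N / S + 1),
        (2 / (S : ℝ) ^ D * ∑ z ∈ bx D S, ‖F ((S : ℤ) • X + z)‖ ^ 2) :=
        mul_le_mul_of_nonneg_left (sum_le_sum (fun X _ => h1 X)) (by positivity)
    _ = 2 * ∑ X ∈ bx D (N / S + 1), ∑ z ∈ bx D S, ‖F ((S : ℤ) • X + z)‖ ^ 2 := by
        rw [← mul_sum, ← mul_assoc]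
        congr 1
        field_simp
    _ = 2 * ∑ x ∈ bx D (S * (N / S + 1)), ‖F x‖ ^ 2 := by
        rw [sum_cells S (N / S + 1) (fun x => ‖F x‖ ^ 2)]
    _ ≤ 2 * N ^ D := by
        apply mul_le_mul_of_nonneg_left _ (by norm_num)
        rw [← sum_filter_add_sum_filter_not (bx D (S * (N / S + 1))) (fun X => X ∈ bx D N)]
        have h2 : ∑ X ∈ (bx D (S * (N / S + 1))).filter (fun X => ¬ X ∈ bx D N), ‖F X‖ ^ 2 = 0 := by
          apply sum_eq_zero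
          intro X hX
          rw [mem_filter] at hX
          rw [hF _ hX.2, norm_zero]
          norm_num
        rw [h2, add_zero]
        calc ∑ x ∈ (bx D (S * (N / S + 1))).filter (fun X => X ∈ bx D N), ‖F x‖ ^ 2
            ≤ ∑ _x ∈ bx D N, (1 : ℝ) := by
              refine (sum_le_sum_of_subset_of_nonneg (t := bx D N) (fun X hX => (mem_filter.mp hX).2)
                (fun _ _ _ => by positivity)).trans ?_
              apply sum_le_sum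
              intro x _
              exact pow_le_one₀ (norm_nonneg _) (hF1 x)
          _ = (N : ℝ) ^ D := by rw [sum_const, card_bx, nsmul_eq_mul, mul_one, Nat.cast_pow]

/-- number of groups -/
lemma card_Gs_le {D σ j : ℕ} (hD : 0 < D) :
    ((Gs D σ j).card : ℝ) * 2 ^ ((cc σ - 1) * j) ≤ 2 ^ (EE D σ * (j + 1)) := by
  have h0 : (cc σ - 1) * j ≤ EE D σ * (j + 1) := Nat.mul_le_mul (cc_le_EE hD) (by omega)
  have h1 : Gs D σ j ⊆ range (2 ^ (EE D σ * (j + 1) - (cc σ - 1) * j)) := by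
    intro g hg
    obtain ⟨e, he, rfl⟩ := mem_image.mp hg
    rw [mem_range, Nat.div_lt_iff_lt_mul (Gj_pos σ j)]
    unfold Gj
    rw [← pow_add, Nat.sub_add_cancel h0]
    exact (mem_Tj he).2
  have h2 := card_le_card h1
  rw [card_range] at h2
  have h3 : (Gs D σ j).card * 2 ^ ((cc σ - 1) * j) ≤ 2 ^ (EE D σ * (j + 1)) := by
    calc (Gs D σ j).card * 2 ^ ((cc σ - 1) * j)
        ≤ 2 ^ (EE D σ * (j + 1) - (cc σ - 1) * j) * 2 ^ ((cc σ - 1) * j) := Nat.mul_le_mul_right _ h2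
      _ = 2 ^ (EE D σ * (j + 1)) := by rw [← pow_add, Nat.sub_add_cancel h0]
  exact_mod_cast h3

end

end Pool.Agent.H10.Sar
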