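import Pool.Agent.H10.Sar.LevD
set_option autoImplicit false
set_option linter.unusedSectionVars false

namespace Pool.Agent.H10.Sar

open NumberField Module Finset
open scoped Classical

noncomputable section

variable {K : Type*} [Field K] [NumberField K] {D : ℕ} {b : Basis (Fin D) ℤ (𝓞 K)}
variable {χ : 𝓞 K → ℂ} {σ B C : ℕ}

/-- maximal bound for one group -/
lemma group_bound (L : Lev b χ σ B C) (hχ : ∀ x, ‖χ x‖ ≤ 1) (hC : 1 ≤ C)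
    (hB : pp D σ + 2 * EE D σ ≤ B) :
    ∃ C7 : ℝ, 0 ≤ C7 ∧ ∃ j0 : ℕ, ∀ j, j0 ≤ j → ∀ m : ℕ, 1 ≤ m → ∀ (N : ℕ) (F : (Fin D → ℤ) → ℂ),
    (∀ n, n ∉ bx D N → F n = 0) → ∀ κ : (Fin D → ℤ) → ℕ, (∀ y, 1 ≤ κ y) → ∀ g ∈ Gs D σ j,
    ∑ y ∈ (bx D N).filter (fun y => j ≤ topl σ (κ y)), Xg L F j g (m * 2 ^ κ y) y ^ 2
      ≤ C7 * (2 ^ (σ * j)) ^ 2 / 2 ^ (EE D σ * j) * ∑ e ∈ Lg D σ j g,
        (((Sj D σ j : ℕ) : ℝ) ^ D * ∑ X ∈ bx D (N / Sj D σ j + 1),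
          ‖Gl (Sj D σ j) F e (((Sj D σ j : ℕ) : ℤ) • X)‖ ^ 2) := by
  have hD : 0 < D := D_pos b
  have hCh1 : 1 ≤ Chh D σ := by unfold Chh; omega
  obtain ⟨c1, hc1, hHL⟩ := hl_max D
  obtain ⟨c2, hNS⟩ := Nsem_sq_le b
  obtain ⟨j4, hfac⟩ := hlen_facts D σ (Chh D σ) 0 hD hCh1
  refine ⟨c1 * (c2 * (C + 1) ^ 2), by positivity, j4 + C + 1, ?_⟩
  intro j hj m hm N F hF κ hκ g hg
  have hCj : C ≤ j := by omega
  have hj1 : 1 ≤ j := by omega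
  obtain ⟨e0, he0, hge0⟩ := mem_image.mp hg
  have hq0 := mem_Tj he0
  have hg1 : 1 ≤ g := by rw [← hge0]; exact group_pos hD hq0.1
  set S := Sj D σ j with hS
  set M' := Mj' σ j g with hM'
  have hSpos : 0 < S := Sj_pos D σ j
  have hM'pos : 0 < M' := Mj'_pos hg1
  set M := Mj D σ j g with hM
  have hMS : M = S * M' := rfl
  have hMpos : 0 < M := Mj_pos hg1
  have hMr : (0 : ℝ) < M := by exact_mod_cast hMpos
  have hint : ∀ e ∈ Lg D σ j g, IsInt ((M : ℝ) • vec e) := by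
    intro e he
    unfold Lg at he
    rw [mem_filter] at he
    have := isInt_Mj he.1
    rw [he.2] at this
    exact this
  have hsub : Lg D σ j g ⊆ tor D (2 ^ (EE D σ * j)) (2 ^ (EE D σ * (j + 1))) := filter_subset _ _
  have hA : ∀ α ∈ L.A j, 2 ^ (pp D σ * j) * 2 ^ (EE D σ * (j + 1)) ≤ sz b α ∧
      sz b α ≤ 2 ^ (C * 2 ^ (σ * j)) := by
    intro α hα
    refine ⟨le_trans ?_ ((L.hA j hCj).ge α hα), (L.hA j hCj).le α hα⟩
    rw [← pow_add]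
    apply Nat.pow_le_pow_right (by norm_num)
    calc pp D σ * j + EE D σ * (j + 1) ≤ pp D σ * j + EE D σ * (j + j) := by
          gcongr
      _ = (pp D σ + 2 * EE D σ) * j := by ring
      _ ≤ B * j := Nat.mul_le_mul_right _ hB
  -- the function summed over a cell
  set Φ : (Fin D → ℤ) → ℝ := fun y => if j ≤ topl σ (κ y) then Xg L F j g (m * 2 ^ κ y) y ^ 2 else 0
    with hΦ
  have hΦ0 : ∀ y, 0 ≤ Φ y := by
    intro y
    rw [hΦ]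
    beta_reduce
    split_ifs
    · positivity
    · exact le_rfl
  rw [sum_filter]
  refine (sum_box_le hMpos hΦ0).trans ?_
  rw [sum_comm]
  -- maximal inequality
  have s1 : ∀ t ∈ bx D M, ∑ Y ∈ bx D (N / M + 1), Φ ((M : ℤ) • Y + t)
      ≤ c1 * ∑ Y ∈ bx D (N / M + 1), fg L F j g t Y ^ 2 := by
    intro t ht
    set R : (Fin D → ℤ) → ℕ := fun Y => max 1 (Rg D σ j g (m * 2 ^ κ ((M : ℤ) • Y + t))) with hR
    have h1 := hHL (fg L F j g t) (bx D (N / M + 1)) (fun Y => fg_nonneg _ _ _ _ _ _) (by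
      intro Y hY
      unfold fg
      exact Nsem_zero b χ _ _ _ _ (fun e _ => Gl_out hF e hY) _) (bx D (N / M + 1)) R
      (fun Y => le_max_left _ _)
    refine le_trans (sum_le_sum (fun Y _ => ?_)) h1
    rw [hΦ]
    beta_reduce
    split_ifs with hgood
    · apply le_of_eq
      have hH1 := scale_ge (σ := σ) hm (hκ ((M : ℤ) • Y + t)) hgood
      have h3 := (hfac j (by omega) _ hH1 e0 he0).2.2.2.2.2
      rw [hge0] at h3
      have h4 : R Y = Rg D σ j g (m * 2 ^ κ ((M : ℤ) • Y + t)) := by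
        rw [hR]
        exact max_eq_right h3
      unfold Xg
      rw [← hM, rm_cell ht, qt_cell ht, h4]
    · positivity
  refine (sum_le_sum s1).trans ?_
  rw [← mul_sum, sum_comm]
  have s2 : ∀ Y ∈ bx D (N / M + 1), ∑ t ∈ bx D M, fg L F j g t Y ^ 2
      ≤ c2 * ((C + 1) ^ 2 * (2 ^ (σ * j)) ^ 2) / 2 ^ (EE D σ * j) * M ^ D *
        ∑ e ∈ Lg D σ j g, ‖Gl M F e ((M : ℤ) • Y)‖ ^ 2 := by
    intro Y _
    have h1 := hNS (L.A j) χ (pp D σ * j) (C * 2 ^ (σ * j)) M (2 ^ (EE D σ * j))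
      (2 ^ (EE D σ * (j + 1))) (Lg D σ j g) (fun e => Gl M F e ((M : ℤ) • Y)) hA hχ hMpos
      Nat.one_le_two_pow hsub hint
    refine h1.trans ?_
    have h2 : (((C * 2 ^ (σ * j) : ℕ) : ℝ) + 1) ^ 2 ≤ (C + 1) ^ 2 * (2 ^ (σ * j)) ^ 2 := by
      rw [← mul_pow]
      apply pow_le_pow_left₀ (by positivity)
      push_cast
      have : (1 : ℝ) ≤ 2 ^ (σ * j) := one_le_pow₀ (by norm_num)
      linarith
    push_cast at h2 ⊢
    gcongr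
  refine (mul_le_mul_of_nonneg_left (sum_le_sum s2) hc1).trans ?_
  rw [← mul_sum, sum_comm]
  have s3 : ∀ e ∈ Lg D σ j g, (M : ℝ) ^ D * ∑ Y ∈ bx D (N / M + 1), ‖Gl M F e ((M : ℤ) • Y)‖ ^ 2
      ≤ (S : ℝ) ^ D * ∑ X ∈ bx D (N / S + 1), ‖Gl S F e ((S : ℤ) • X)‖ ^ 2 := by
    intro e _
    have := cell_energy hSpos hM'pos hF e
    rw [← hMS] at this
    exact this
  calc c1 * (c2 * ((C + 1) ^ 2 * (2 ^ (σ * j)) ^ 2) / 2 ^ (EE D σ * j) * M ^ D *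
        ∑ e ∈ Lg D σ j g, ∑ Y ∈ bx D (N / M + 1), ‖Gl M F e ((M : ℤ) • Y)‖ ^ 2)
      = c1 * (c2 * (C + 1) ^ 2) * (2 ^ (σ * j)) ^ 2 / 2 ^ (EE D σ * j) *
        ∑ e ∈ Lg D σ j g, ((M : ℝ) ^ D * ∑ Y ∈ bx D (N / M + 1), ‖Gl M F e ((M : ℤ) • Y)‖ ^ 2) := by
        rw [← mul_sum]
        ring
    _ ≤ _ := mul_le_mul_of_nonneg_left (sum_le_sum s3) (by positivity)

/-- bound for the core of level `j`, in mean square with a variable scale -/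
theorem level_bound (L : Lev b χ σ B C) (hχ : ∀ x, ‖χ x‖ ≤ 1) (hC : 1 ≤ C)
    (hB : pp D σ + 2 * EE D σ ≤ B) (L1 : ℝ) :
    ∃ C8 : ℕ, ∀ j, C8 ≤ j → ∀ m : ℕ, 1 ≤ m → ∀ W : ℕ → (Fin D → ℤ) → ℝ,
    (∀ k, IsWt (m * 2 ^ k) L1 (W k)) → ∀ (N : ℕ) (F : (Fin D → ℤ) → ℂ), (∀ n, ‖F n‖ ≤ 1) →
    (∀ n, n ∉ bx D N → F n = 0) → ∀ κ : (Fin D → ℤ) → ℕ, (∀ y, 1 ≤ κ y) →
    ∑ y ∈ (bx D N).filter (fun y => j ≤ topl σ (κ y)),
      ‖Aop (fun n => χ (b.equivFun.symm n)) (m * 2 ^ κ y) (W (κ y))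
        (Cop (Tj D σ j) (hlen D σ (Chh D σ) j (m * 2 ^ κ y)) F) y‖ ^ 2
      ≤ C8 * (1 / 2) ^ j * N ^ D := by
  have hD : 0 < D := D_pos b
  obtain ⟨C5, hpt⟩ := point_bound L hχ hC (by omega) L1
  obtain ⟨C7, hC7, j0, hgb⟩ := group_bound L hχ hC hB
  set c : ℝ := 2 * C5 ^ 2 + 2 * C5 ^ 2 * (C7 * 2 ^ (EE D σ) * 2) with hc
  refine ⟨C5 + j0 + ⌈c⌉₊, ?_⟩
  intro j hj m hm W hW N F hF1 hF κ hκ
  have hpt' := hpt j (by omega)
  have hgb' := hgb j (by omega) m hm N F hF κ hκ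
  set Y := (bx D N).filter (fun y => j ≤ topl σ (κ y)) with hY
  have hYcard : (Y.card : ℝ) ≤ N ^ D := by
    have h1 : Y.card ≤ (bx D N).card := card_le_card (filter_subset _ _)
    rw [card_bx] at h1
    exact_mod_cast h1
  have s1 : ∀ y ∈ Y, ‖Aop (fun n => χ (b.equivFun.symm n)) (m * 2 ^ κ y) (W (κ y))
        (Cop (Tj D σ j) (hlen D σ (Chh D σ) j (m * 2 ^ κ y)) F) y‖ ^ 2
      ≤ 2 * C5 ^ 2 * (1 / 2) ^ j + 2 * C5 ^ 2 * ((Gs D σ j).card *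
        ∑ g ∈ Gs D σ j, Xg L F j g (m * 2 ^ κ y) y ^ 2) := by
    intro y hy
    rw [hY, mem_filter] at hy
    have h1 := hpt' (κ y) m (hκ y) hm hy.2 (W (κ y)) (hW (κ y)) F hF1 y
    have h2 := pow_le_pow_left₀ (norm_nonneg _) h1 2
    refine h2.trans ?_
    have h3 : (∑ g ∈ Gs D σ j, Xg L F j g (m * 2 ^ κ y) y) ^ 2
        ≤ (Gs D σ j).card * ∑ g ∈ Gs D σ j, Xg L F j g (m * 2 ^ κ y) y ^ 2 := sq_sum_le_card_mul_sum_sq
    have h4 : Real.sqrt ((1 / 2) ^ j) ^ 2 = (1 / 2) ^ j := Real.sq_sqrt (by positivity)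
    set u := Real.sqrt ((1 / 2) ^ j) with hu
    set v := ∑ g ∈ Gs D σ j, Xg L F j g (m * 2 ^ κ y) y with hv
    calc (C5 * u + C5 * v) ^ 2 ≤ 2 * C5 ^ 2 * u ^ 2 + 2 * C5 ^ 2 * v ^ 2 := by
          nlinarith [sq_nonneg ((C5 : ℝ) * u - C5 * v)]
      _ ≤ _ := by
          rw [h4]
          gcongr
  refine (sum_le_sum s1).trans ?_
  rw [sum_add_distrib, sum_const, nsmul_eq_mul, ← mul_sum, ← mul_sum, sum_comm]
  have s2 : ∑ g ∈ Gs D σ j, ∑ y ∈ Y, Xg L F j g (m * 2 ^ κ y) y ^ 2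
      ≤ C7 * (2 ^ (σ * j)) ^ 2 / 2 ^ (EE D σ * j) * (2 * N ^ D) := by
    refine (sum_le_sum (fun g hg => hgb' g hg)).trans ?_
    rw [← mul_sum, sum_split D σ j (fun e => (((Sj D σ j : ℕ) : ℝ) ^ D *
      ∑ X ∈ bx D (N / Sj D σ j + 1), ‖Gl (Sj D σ j) F e (((Sj D σ j : ℕ) : ℤ) • X)‖ ^ 2))]
    exact mul_le_mul_of_nonneg_left (total_energy hD hF1 hF) (by positivity)
  have s3 : ((Gs D σ j).card : ℝ) * (C7 * (2 ^ (σ * j)) ^ 2 / 2 ^ (EE D σ * j) * (2 * N ^ D))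
      ≤ C7 * 2 ^ (EE D σ) * 2 * (1 / 2) ^ j * N ^ D := by
    have h1 := card_Gs_le (σ := σ) (j := j) hD
    have h2 : ((Gs D σ j).card : ℝ) ≤ 2 ^ (EE D σ * (j + 1)) / 2 ^ ((cc σ - 1) * j) := by
      rw [le_div_iff₀ (by positivity)]
      exact h1
    have e1 : (2 : ℝ) ^ (EE D σ * (j + 1)) = 2 ^ (EE D σ * j) * 2 ^ (EE D σ) := by
      rw [← pow_add]
      congr 1
    have e2 : (2 : ℝ) ^ ((cc σ - 1) * j) = (2 ^ (σ * j)) ^ 2 * (2 ^ j * 2 ^ j) := by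
      rw [← pow_mul, ← pow_add, ← pow_add]
      congr 1
      unfold cc
      have : 2 * σ + 3 - 1 = 2 * σ + 2 := by omega
      rw [this]
      ring
    calc ((Gs D σ j).card : ℝ) * (C7 * (2 ^ (σ * j)) ^ 2 / 2 ^ (EE D σ * j) * (2 * N ^ D))
        ≤ 2 ^ (EE D σ * (j + 1)) / 2 ^ ((cc σ - 1) * j) *
          (C7 * (2 ^ (σ * j)) ^ 2 / 2 ^ (EE D σ * j) * (2 * N ^ D)) := by gcongr
      _ = C7 * 2 ^ (EE D σ) * 2 * ((1 / 2) ^ j * (1 / 2) ^ j) * N ^ D := by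
          rw [e1, e2, one_div_pow]
          field_simp
      _ ≤ C7 * 2 ^ (EE D σ) * 2 * ((1 / 2) ^ j * 1) * N ^ D := by
          gcongr
          exact pow_le_one₀ (by norm_num) (by norm_num)
      _ = _ := by ring
  have hfin : c ≤ ((C5 + j0 + ⌈c⌉₊ : ℕ) : ℝ) := by
    refine (Nat.le_ceil _).trans ?_
    exact_mod_cast (by omega)
  calc (Y.card : ℝ) * (2 * C5 ^ 2 * (1 / 2) ^ j)
        + 2 * C5 ^ 2 * ((Gs D σ j).card * ∑ g ∈ Gs D σ j, ∑ y ∈ Y, Xg L F j g (m * 2 ^ κ y) y ^ 2)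
      ≤ N ^ D * (2 * C5 ^ 2 * (1 / 2) ^ j)
        + 2 * C5 ^ 2 * (C7 * 2 ^ (EE D σ) * 2 * (1 / 2) ^ j * N ^ D) := by
        have s4 := (mul_le_mul_of_nonneg_left s2 (Nat.cast_nonneg (Gs D σ j).card)).trans s3
        exact add_le_add (mul_le_mul_of_nonneg_right hYcard (by positivity))
          (mul_le_mul_of_nonneg_left s4 (by positivity))
    _ = c * (1 / 2) ^ j * N ^ D := by
        rw [hc]
        ring
    _ ≤ _ := by gcongr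

end

end Pool.Agent.H10.Sar
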