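import Pool.Agent.H10.Sar.LevE
set_option autoImplicit false
set_option linter.unusedSectionVars false

namespace Pool.Agent.H10.Sar

open NumberField Module Finset
open scoped Classical

noncomputable section

variable {K : Type*} [Field K] [NumberField K] {D : ℕ} {b : Basis (Fin D) ℤ (𝓞 K)}
variable {χ : 𝓞 K → ℂ} {σ B C : ℕ}

/-- the exceptional set of the top level against the core of level `j` -/
lemma exc_level (L : Lev b χ σ B C) (hC : 1 ≤ C) :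
    ∃ C9 : ℕ, ∀ j, C9 ≤ j → ∀ k m : ℕ, 1 ≤ k → 1 ≤ m → j ≤ topl σ k →
    ∀ F : (Fin D → ℤ) → ℂ, (∀ n, ‖F n‖ ≤ 1) → ∀ y,
    2 / ((m * 2 ^ k : ℕ) : ℝ) ^ D * ∑ n ∈ (bx D (m * 2 ^ k)).filter (fun n => n ∈ L.E (topl σ k)),
      ‖Cop (Tj D σ j) (hlen D σ (Chh D σ) j (m * 2 ^ k)) F (y + n)‖
      ≤ C9 * Real.sqrt ((1 / 2) ^ (topl σ k)) := by
  have hD : 0 < D := D_pos b
  have hCh1 : 1 ≤ Chh D σ := by unfold Chh; omega
  obtain ⟨j1, hrep⟩ := core_replace D σ (Chh D σ) hD hCh1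
  obtain ⟨j3, hexc⟩ := exc_core D σ (Chh D σ) hD hCh1
  obtain ⟨j6, hexp⟩ := exp_dom σ C
  have hCDpos : 0 ≤ CD D := by unfold CD; positivity
  set a1 : ℝ := 2 * Real.sqrt (2 * CD D * C) with ha1
  set a2 : ℝ := 2 * (C * (8 * D * 2 ^ (EE D σ * (D + 1)))) with ha2
  refine ⟨j1 + j3 + j6 + C + ⌈a1 + a2⌉₊, ?_⟩
  intro j hj k m hk hm hjt F hF y
  set H := m * 2 ^ k with hH
  set t := topl σ k with ht
  have hHt : 2 ^ (2 ^ (cc σ * t)) ≤ H := scale_ge hm hk le_rfl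
  have hHj : 2 ^ (2 ^ (cc σ * j)) ≤ H := scale_ge hm hk hjt
  have hH1 : 1 ≤ H := Nat.one_le_two_pow.trans hHt
  have hHr : (0 : ℝ) < H := by exact_mod_cast hH1
  have hHD : (0 : ℝ) < (H : ℝ) ^ D := by positivity
  have hcard := L.hE t (by omega) H (by
        refine le_trans ?_ (hexp t (by omega) H hHt)
        apply Nat.pow_le_pow_right (by norm_num)
        calc C * 2 ^ (2 * σ * t) = C * 1 * 2 ^ (2 * σ * t) := by ring
          _ ≤ C * (t + 1) * 2 ^ ((cc σ - 1) * t) := by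
            gcongr
            · omega
            · norm_num
            · unfold cc; omega)
  set T := (bx D H).filter (fun n => n ∈ L.E t) with hT
  set v := vv D σ (Chh D σ) j H F y with hv
  have h1 := hexc j (by omega) H hHj F hF y T (C * (1 / 2) ^ t) (filter_subset _ _) (by positivity) hcard
  have hr : 8 * (D : ℝ) * 2 ^ (EE D σ * (D + 1) * (j + 1)) / 2 ^ (Chh D σ * j)
      ≤ 8 * D * 2 ^ (EE D σ * (D + 1)) := by
    rw [div_le_iff₀ (by positivity)]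
    have e1 : EE D σ * (D + 1) * (j + 1) = EE D σ * (D + 1) + EE D σ * (D + 1) * j := by ring
    rw [e1, pow_add, ← mul_assoc]
    gcongr
    · norm_num
    · unfold Chh; omega
  have h2 : ∀ n ∈ T, ‖Cop (Tj D σ j) (hlen D σ (Chh D σ) j H) F (y + n)‖
      ≤ ‖Fv (Tj D σ j) v (y + n)‖ + 8 * D * 2 ^ (EE D σ * (D + 1)) := by
    intro n hn
    have h3 := hrep j (by omega) H hHj F hF y n (mem_filter.mp hn).1
    have h4 : Cop (Tj D σ j) (hlen D σ (Chh D σ) j H) F (y + n)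
        = Fv (Tj D σ j) v (y + n) + (Cop (Tj D σ j) (hlen D σ (Chh D σ) j H) F (y + n)
          - Fv (Tj D σ j) v (y + n)) := by ring
    rw [h4]
    refine (norm_add_le _ _).trans ?_
    have := h3.trans hr
    linarith
  have h3 : ∑ n ∈ T, ‖Cop (Tj D σ j) (hlen D σ (Chh D σ) j H) F (y + n)‖
      ≤ Real.sqrt (2 * CD D * (C * (1 / 2) ^ t)) * H ^ D
        + (C * (1 / 2) ^ t * H ^ D) * (8 * D * 2 ^ (EE D σ * (D + 1))) := by
    refine (sum_le_sum h2).trans ?_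
    rw [sum_add_distrib, sum_const, nsmul_eq_mul]
    gcongr
  have hhalf : ((1 : ℝ) / 2) ^ t ≤ Real.sqrt ((1 / 2) ^ t) := by
    apply Real.le_sqrt_of_sq_le
    have h1 : (0 : ℝ) ≤ (1 / 2) ^ t := by positivity
    have h2 : ((1 : ℝ) / 2) ^ t ≤ 1 := pow_le_one₀ (by norm_num) (by norm_num)
    nlinarith
  have hfin : a1 + a2 ≤ ((j1 + j3 + j6 + C + ⌈a1 + a2⌉₊ : ℕ) : ℝ) := by
    refine (Nat.le_ceil _).trans ?_
    exact_mod_cast (by omega)
  calc 2 / (H : ℝ) ^ D * ∑ n ∈ T, ‖Cop (Tj D σ j) (hlen D σ (Chh D σ) j H) F (y + n)‖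
      ≤ 2 / (H : ℝ) ^ D * (Real.sqrt (2 * CD D * (C * (1 / 2) ^ t)) * H ^ D
        + (C * (1 / 2) ^ t * H ^ D) * (8 * D * 2 ^ (EE D σ * (D + 1)))) :=
        mul_le_mul_of_nonneg_left h3 (by positivity)
    _ = a1 * Real.sqrt ((1 / 2) ^ t) + a2 * (1 / 2) ^ t := by
        rw [ha1, ha2, ← mul_assoc (2 * CD D), Real.sqrt_mul (by positivity)]
        field_simp
    _ ≤ a1 * Real.sqrt ((1 / 2) ^ t) + a2 * Real.sqrt ((1 / 2) ^ t) := by gcongr
    _ = (a1 + a2) * Real.sqrt ((1 / 2) ^ t) := by ring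
    _ ≤ _ := mul_le_mul_of_nonneg_right hfin (Real.sqrt_nonneg _)

/-- smoothing lengths for all frequencies -/
def hll (D σ js H : ℕ) (e : ℕ × (Fin D → ℤ)) : ℕ :=
  if e.1 < 2 ^ (EE D σ * js) then H * 2 ^ (Chh D σ * js)
  else hlen D σ (Chh D σ) (Nat.log 2 e.1 / EE D σ) H e

lemma EE_pos (D σ : ℕ) : 0 < EE D σ := by unfold EE; omega

lemma mem_tor' {D q0 q1 : ℕ} {e : ℕ × (Fin D → ℤ)} : e ∈ tor D q0 q1 ↔
    (q0 ≤ e.1 ∧ e.1 < q1) ∧ e.2 ∈ bx D q1 ∧ (∀ i, e.2 i < e.1) ∧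
      ∀ d : ℕ, (∀ i, (e.1 : ℤ) ∣ d * e.2 i) → e.1 ∣ d := by
  unfold tor
  rw [mem_filter, mem_product, mem_Ico, and_assoc]

lemma tor_union {D q0 q1 q2 : ℕ} (h1 : q0 ≤ q1) (h2 : q1 ≤ q2) :
    tor D q0 q2 = tor D q0 q1 ∪ tor D q1 q2 := by
  ext e
  rw [mem_union, mem_tor', mem_tor', mem_tor']
  constructor
  · rintro ⟨h3, h4, h5, h6⟩
    by_cases h : e.1 < q1
    · left
      refine ⟨⟨h3.1, h⟩, ?_, h5, h6⟩
      rw [mem_bx] at h4 ⊢
      intro i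
      refine ⟨(h4 i).1, (h5 i).trans (by exact_mod_cast h)⟩
    · right
      exact ⟨⟨by omega, h3.2⟩, h4, h5, h6⟩
  · rintro (⟨h3, h4, h5, h6⟩ | ⟨h3, h4, h5, h6⟩)
    · refine ⟨⟨h3.1, by omega⟩, ?_, h5, h6⟩
      rw [mem_bx] at h4 ⊢
      intro i
      have : (q1 : ℤ) ≤ q2 := by exact_mod_cast h2
      exact ⟨(h4 i).1, by linarith [(h4 i).2]⟩
    · exact ⟨⟨by omega, h3.2⟩, h4, h5, h6⟩

lemma tor_disj {D q0 q1 q2 : ℕ} : Disjoint (tor D q0 q1) (tor D q1 q2) := by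
  rw [disjoint_left]
  intro e h1 h2
  rw [mem_tor'] at h1 h2
  omega

lemma sum_levels {D σ js : ℕ} {A : Type*} [AddCommMonoid A] (f : ℕ × (Fin D → ℤ) → A) :
    ∀ t, js ≤ t → ∑ e ∈ tor D 1 (2 ^ (EE D σ * t)), f e
      = ∑ e ∈ tor D 1 (2 ^ (EE D σ * js)), f e + ∑ j ∈ Ico js t, ∑ e ∈ Tj D σ j, f e := by
  intro t ht
  induction t, ht using Nat.le_induction with
  | base => simp
  | succ t ht ih =>
    rw [sum_Ico_succ_top ht, ← add_assoc, ← ih]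
    rw [tor_union (q1 := 2 ^ (EE D σ * t)) Nat.one_le_two_pow
      (Nat.pow_le_pow_right (by norm_num) (Nat.mul_le_mul_left _ (by omega))), sum_union tor_disj]
    rfl

lemma level_of {D σ j q : ℕ} (h1 : 2 ^ (EE D σ * j) ≤ q) (h2 : q < 2 ^ (EE D σ * (j + 1))) :
    Nat.log 2 q / EE D σ = j := by
  have hq : q ≠ 0 := by
    have : 0 < 2 ^ (EE D σ * j) := pow_pos (by norm_num) _
    omega
  have h3 : EE D σ * j ≤ Nat.log 2 q := Nat.le_log_of_pow_le (by norm_num) h1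
  have h4 : Nat.log 2 q < EE D σ * (j + 1) := Nat.log_lt_of_lt_pow hq h2
  have h5 := EE_pos D σ
  apply Nat.div_eq_of_lt_le
  · rw [mul_comm]; exact h3
  · rw [mul_comm (j + 1)]; exact h4

lemma hll_of_mem {D σ js j H : ℕ} (hj : js ≤ j) {e : ℕ × (Fin D → ℤ)} (he : e ∈ Tj D σ j) :
    hll D σ js H e = hlen D σ (Chh D σ) j H e := by
  have h1 := mem_Tj he
  have h2 : ¬ e.1 < 2 ^ (EE D σ * js) := by
    rw [not_lt]
    refine le_trans ?_ h1.1
    exact Nat.pow_le_pow_right (by norm_num) (Nat.mul_le_mul_left _ hj)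
  unfold hll
  rw [if_neg h2, level_of h1.1 h1.2]

lemma hll_low {D σ js H : ℕ} {e : ℕ × (Fin D → ℤ)} (he : e ∈ tor D 1 (2 ^ (EE D σ * js))) :
    hll D σ js H e = H * 2 ^ (Chh D σ * js) := by
  rw [mem_tor'] at he
  unfold hll
  rw [if_pos he.1.2]

lemma Cop_split {D σ js H t : ℕ} (ht : js ≤ t) (F : (Fin D → ℤ) → ℂ) (y : Fin D → ℤ) :
    Cop (tor D 1 (2 ^ (EE D σ * t))) (hll D σ js H) F y
      = Cop (tor D 1 (2 ^ (EE D σ * js))) (fun _ => H * 2 ^ (Chh D σ * js)) F y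
        + ∑ j ∈ Ico js t, Cop (Tj D σ j) (hlen D σ (Chh D σ) j H) F y := by
  unfold Cop
  rw [sum_levels _ t ht]
  congr 1
  · refine sum_congr rfl (fun e he => ?_)
    rw [hll_low he]
  · refine sum_congr rfl (fun j hj => sum_congr rfl (fun e he => ?_))
    rw [mem_Ico] at hj
    rw [hll_of_mem hj.1 he]

/-- conditions of the remainder bound -/
lemma hll_cond (D σ : ℕ) (hD : 0 < D) : ∃ j1 : ℕ, ∀ js, j1 ≤ js → ∀ m k : ℕ, 1 ≤ m → 1 ≤ k →
    ∀ e ∈ tor D 1 (2 ^ (EE D σ * (topl σ k + 1))), m * 2 ^ k ≤ hll D σ js (m * 2 ^ k) e ∧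
      ∀ i, js ≤ i → e.1 < 2 ^ (EE D σ * (i + 1)) →
        hll D σ js (m * 2 ^ k) e ≤ m * 2 ^ k * 2 ^ (Chh D σ * i) := by
  obtain ⟨j1, h⟩ := hlen_facts D σ (Chh D σ) 0 hD (by unfold Chh; omega)
  refine ⟨j1, ?_⟩
  intro js hjs m k hm hk e he
  have he' := he
  rw [mem_tor'] at he'
  by_cases hlow : e.1 < 2 ^ (EE D σ * js)
  · have h1 : hll D σ js (m * 2 ^ k) e = m * 2 ^ k * 2 ^ (Chh D σ * js) := by
      unfold hll
      rw [if_pos hlow]
    rw [h1]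
    refine ⟨Nat.le_mul_of_pos_right _ (pow_pos (by norm_num) _), ?_⟩
    intro i hi _
    apply Nat.mul_le_mul_left
    exact Nat.pow_le_pow_right (by norm_num) (Nat.mul_le_mul_left _ hi)
  · have hE := EE_pos D σ
    set j := Nat.log 2 e.1 / EE D σ with hj
    have hlow' := not_lt.mp hlow
    have hq1 : 1 ≤ e.1 := he'.1.1
    have hj1 : 2 ^ (EE D σ * j) ≤ e.1 := by
      apply Nat.pow_le_of_le_log (by omega)
      rw [hj]
      exact Nat.mul_div_le _ _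
    have hj2 : e.1 < 2 ^ (EE D σ * (j + 1)) := by
      apply Nat.lt_pow_of_log_lt (by norm_num)
      rw [hj]
      exact Nat.lt_mul_div_succ _ hE
    have hjs' : js ≤ j := by
      rw [hj, Nat.le_div_iff_mul_le hE, mul_comm]
      exact Nat.le_log_of_pow_le (by norm_num) hlow'
    have hjt : j ≤ topl σ k := by
      by_contra hcon
      rw [not_le] at hcon
      have h2 : 2 ^ (EE D σ * (topl σ k + 1)) ≤ e.1 := by
        refine le_trans ?_ hj1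
        exact Nat.pow_le_pow_right (by norm_num) (Nat.mul_le_mul_left _ hcon)
      omega
    have heT : e ∈ Tj D σ j := by
      unfold Tj
      rw [mem_tor']
      refine ⟨⟨hj1, hj2⟩, ?_, he'.2.2⟩
      rw [mem_bx]
      intro i
      have h3 := he'.2.1
      rw [mem_bx] at h3
      exact ⟨(h3 i).1, (he'.2.2.1 i).trans (by exact_mod_cast hj2)⟩
    obtain ⟨_, _, hle, _, hge, _⟩ := h j (by omega) (m * 2 ^ k) (scale_ge hm hk hjt) e heT
    rw [hll_of_mem hjs' heT]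
    refine ⟨hge, ?_⟩
    intro i _ hi
    refine hle.trans ?_
    apply Nat.mul_le_mul_left
    apply Nat.pow_le_pow_right (by norm_num)
    apply Nat.mul_le_mul_left
    by_contra hcon
    rw [not_le] at hcon
    have h2 : 2 ^ (EE D σ * (i + 1)) ≤ e.1 := by
      refine le_trans ?_ hj1
      exact Nat.pow_le_pow_right (by norm_num) (Nat.mul_le_mul_left _ hcon)
    omega

lemma Aop_add_sum {D : ℕ} (X : (Fin D → ℤ) → ℂ) (H : ℕ) (W : (Fin D → ℤ) → ℝ) {ι : Type*}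
    (s : Finset ι) (f : (Fin D → ℤ) → ℂ) (g : ι → (Fin D → ℤ) → ℂ) (y : Fin D → ℤ) :
    Aop X H W (fun x => f x + ∑ i ∈ s, g i x) y = Aop X H W f y + ∑ i ∈ s, Aop X H W (g i) y := by
  unfold Aop
  rw [← mul_sum, ← mul_add]
  congr 1
  rw [sum_comm, ← sum_add_distrib]
  refine sum_congr rfl (fun n _ => ?_)
  rw [mul_add, mul_sum]

end

end Pool.Agent.H10.Sar
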