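import Pool.Agent.H10.Sar.Rem3
set_option autoImplicit false
set_option linter.unusedSectionVars false

namespace Pool.Agent.H10.Sar

open NumberField Module Finset
open scoped Classical

noncomputable section

variable {K : Type*} [Field K] [NumberField K] {D : ℕ} {b : Basis (Fin D) ℤ (𝓞 K)}
variable {χ : 𝓞 K → ℂ} {σ B C : ℕ}

lemma rho_top (D σ m : ℕ) (hm : 1 ≤ m) : ∃ j1 : ℕ, ∀ k, 1 ≤ k → j1 ≤ topl σ k →
    ∀ (hl : ℕ × (Fin D → ℤ) → ℕ),
    (∀ e ∈ tor D 1 (2 ^ (EE D σ * (topl σ k + 1))), m * 2 ^ k ≤ hl e) → ∀ θ,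
    ‖1 - csym (tor D 1 (2 ^ (EE D σ * (topl σ k + 1)))) hl θ‖ ≤ 2 + 1 / k := by
  set E := EE D σ with hE
  set P := E * (D + 3) + cc σ with hP
  obtain ⟨j1, hj1⟩ := exp_dom σ P
  refine ⟨j1, ?_⟩
  intro k hk1 hjk hl hhl θ
  have hH1 : 1 ≤ m * 2 ^ k := Nat.mul_pos hm (pow_pos (by norm_num) _)
  refine (rho_bound_all (Nat.one_le_two_pow) hH1 hl hhl θ).trans ?_
  have hk0 : (0 : ℝ) < k := by exact_mod_cast hk1
  have hHpos : (0 : ℝ) < ((m * 2 ^ k : ℕ) : ℝ) := by exact_mod_cast hH1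
  have htiny : (((2 ^ (E * (topl σ k + 1)) : ℕ) : ℝ)) ^ (D + 3) / ((m * 2 ^ k : ℕ) : ℝ) ≤ 1 / k := by
    rw [div_le_div_iff₀ hHpos hk0, one_mul]
    have h0 := hj1 (topl σ k) hjk (1 * 2 ^ k) (scale_ge le_rfl hk1 le_rfl)
    rw [one_mul] at h0
    have h1 : (2 ^ (E * (topl σ k + 1))) ^ (D + 3) * k ≤ m * 2 ^ k := by
      calc (2 ^ (E * (topl σ k + 1))) ^ (D + 3) * k
          ≤ (2 ^ (E * (topl σ k + 1))) ^ (D + 3) * 2 ^ (cc σ * (topl σ k + 1)) :=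
            Nat.mul_le_mul_left _ (topl_lt hk1).le
        _ = 2 ^ (P * (topl σ k + 1)) := by
            rw [← pow_mul, ← pow_add]
            congr 1
            rw [hP]
            ring
        _ ≤ 2 ^ (P * (topl σ k + 1) * 2 ^ ((cc σ - 1) * topl σ k)) := by
            apply Nat.pow_le_pow_right (by norm_num)
            exact Nat.le_mul_of_pos_right _ (pow_pos (by norm_num) _)
        _ ≤ 2 ^ k := h0
        _ ≤ m * 2 ^ k := Nat.le_mul_of_pos_left _ hm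
    exact_mod_cast h1
  linarith

lemma geom_Ioc (a N : ℕ) : ∑ i ∈ Ioc a N, ((1 : ℝ) / 2) ^ i ≤ (1 / 2) ^ a := by
  have key : ∀ d, ∑ i ∈ Ioc a (a + d), ((1 : ℝ) / 2) ^ i = (1 / 2) ^ a - (1 / 2) ^ (a + d) := by
    intro d
    induction d with
    | zero => simp
    | succ d ih =>
      rw [← add_assoc, sum_Ioc_succ_top (by omega), ih, pow_succ]
      ring
  rcases le_total a N with h | h
  · obtain ⟨d, rfl⟩ := Nat.exists_eq_add_of_le h
    rw [key]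
    have : (0 : ℝ) ≤ (1 / 2) ^ (a + d) := by positivity
    linarith
  · rw [Ioc_eq_empty (by omega)]
    simp

/-- the remainder estimate -/
theorem rem_bound (hap : Aper (fun n => χ (b.equivFun.symm n))) (L : Lev b χ σ B C)
    (hχ : ∀ x, ‖χ x‖ ≤ 1) (hC : 1 ≤ C) (hB : rr σ ≤ B) (L1 : ℝ) (m Ch : ℕ) (hm : 1 ≤ m)
    (ε : ℝ) (hε : 0 < ε) :
    ∃ js0 : ℕ, ∀ js, js0 ≤ js → ∃ k0 : ℕ, ∀ (W : ℕ → (Fin D → ℤ) → ℝ),
    (∀ k, IsWt (m * 2 ^ k) L1 (W k)) → ∀ (hl : ℕ → ℕ × (Fin D → ℤ) → ℕ),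
    (∀ k, k0 ≤ k → ∀ e ∈ tor D 1 (2 ^ (EE D σ * (topl σ k + 1))), m * 2 ^ k ≤ hl k e ∧
      ∀ i, js ≤ i → e.1 < 2 ^ (EE D σ * (i + 1)) → hl k e ≤ m * 2 ^ k * 2 ^ (Ch * i)) →
    ∀ (𝒦 : Finset ℕ), (∀ k ∈ 𝒦, k0 ≤ k) → ∀ θ,
    ∑ k ∈ 𝒦, ‖bsym L (topl σ k) (m * 2 ^ k) (W k) θ *
      (1 - csym (tor D 1 (2 ^ (EE D σ * (topl σ k + 1)))) (hl k) θ)‖ ^ 2 ≤ ε := by
  obtain ⟨C2, C4, hC2, hC4, hsm1, hsm2, hsm3⟩ := bsym_small L hχ hC hB L1
  obtain ⟨Cg, hg⟩ := exists_geoC b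
  have hCg := hg.one_le
  obtain ⟨j1, P2, hrho⟩ := rho_sum (σ := σ) (C2 := C2) hg hCg m Ch hm
  obtain ⟨j1', hrt⟩ := rho_top D σ m hm
  set E := EE D σ with hE
  set c : ℝ := 4 * C4 ^ 2 * (P2 + 2) with hc
  have hc0 : 0 < c := by
    have : (0 : ℝ) < C4 := by exact_mod_cast hC4
    positivity
  obtain ⟨n0, hn0⟩ := exists_pow_lt_of_lt_one (show (0 : ℝ) < ε / (3 * c) by positivity)
    (show (1 : ℝ) / 2 < 1 by norm_num)
  refine ⟨n0 + C4 + j1 + j1' + Cg + 2, ?_⟩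
  intro js hjs
  have hjsn : n0 ≤ js := by omega
  have hjs4 : C4 + 1 ≤ js := by omega
  set ε1 : ℝ := min 1 (ε / (3 * ((P2 + 2) * (js + 1)))) with hε1
  have hε10 : 0 < ε1 := lt_min one_pos (by positivity)
  have hε11 : ε1 ^ 2 * ((P2 + 2) * (js + 1)) ≤ ε / 3 := by
    have h1 : ε1 ≤ 1 := min_le_left _ _
    have h2 : ε1 ≤ ε / (3 * ((P2 + 2) * (js + 1))) := min_le_right _ _
    have h3 : ε1 ^ 2 ≤ ε1 := by nlinarith
    calc ε1 ^ 2 * ((P2 + 2) * (js + 1)) ≤ ε / (3 * ((P2 + 2) * (js + 1))) * ((P2 + 2) * (js + 1)) := by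
          apply mul_le_mul_of_nonneg_right (h3.trans h2) (by positivity)
      _ = ε / 3 := by field_simp
  obtain ⟨H0, hH0⟩ := low_symbol (fun n => χ (b.equivFun.symm n)) (fun n => hχ _) hap L1
    (2 ^ (E * (js + 1))) (2 ^ (P0 D σ Cg C2 * (js + 1))) (ε1 / 2) (by positivity)
  obtain ⟨j2, hj2⟩ := exists_pow_lt_of_lt_one (show (0 : ℝ) < ε1 / (2 * C4) by
    have : (0 : ℝ) < C4 := by exact_mod_cast hC4
    positivity) (show (1 : ℝ) / 2 < 1 by norm_num)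
  obtain ⟨T2, hT2⟩ : ∃ T2 : ℕ, T2 = 2 ^ (cc σ * (js + j2)) := ⟨_, rfl⟩
  set k0 := H0 + T2 + ⌈27 * C4 / ε⌉₊ + 3 with hk0
  refine ⟨k0, ?_⟩
  intro W hW hl hhl 𝒦 h𝒦 θ
  have hk1 : ∀ k ∈ 𝒦, 1 ≤ k := fun k hk => by have := h𝒦 k hk; omega
  have htop : ∀ k ∈ 𝒦, js + j2 ≤ topl σ k := by
    intro k hk
    rw [le_topl_iff (hk1 k hk), ← hT2]
    have := h𝒦 k hk
    omega
  have hrec : ∀ S ⊆ 𝒦, ∑ k ∈ S, (1 : ℝ) / (k : ℝ) ^ 2 ≤ 1 / ((k0 - 1 : ℕ) : ℝ) := by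
    intro S hS
    apply sum_recip_sq_le
    · omega
    · intro k hk
      have := h𝒦 k (hS hk)
      omega
  have hk0r : (2 : ℝ) ≤ ((k0 - 1 : ℕ) : ℝ) := by
    have : 2 ≤ k0 - 1 := by omega
    exact_mod_cast this
  have hrec1 : ∀ S ⊆ 𝒦, ∑ k ∈ S, (1 : ℝ) / (k : ℝ) ^ 2 ≤ 1 := by
    intro S hS
    refine (hrec S hS).trans ?_
    rw [div_le_one (by linarith)]
    linarith
  have hC4r : (1 : ℝ) ≤ C4 := by exact_mod_cast hC4
  set f : ℕ → ℝ := fun k => ‖bsym L (topl σ k) (m * 2 ^ k) (W k) θ *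
      (1 - csym (tor D 1 (2 ^ (E * (topl σ k + 1)))) (hl k) θ)‖ ^ 2 with hf
  have hf' : ∀ k, f k = ‖bsym L (topl σ k) (m * 2 ^ k) (W k) θ‖ ^ 2 *
      ‖1 - csym (tor D 1 (2 ^ (E * (topl σ k + 1)))) (hl k) θ‖ ^ 2 := by
    intro k
    rw [hf]
    beta_reduce
    rw [norm_mul, mul_pow]
  change ∑ k ∈ 𝒦, f k ≤ ε
  set 𝒦M := 𝒦.filter (fun k => MajI b σ C2 (topl σ k) (m * 2 ^ k) θ) with h𝒦M
  rw [← sum_filter_add_sum_filter_not 𝒦 (fun k => MajI b σ C2 (topl σ k) (m * 2 ^ k) θ)]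
  -- minor scales
  have hminor : ∑ k ∈ 𝒦.filter (fun k => ¬ MajI b σ C2 (topl σ k) (m * 2 ^ k) θ), f k ≤ ε / 3 := by
    have h1 : ∀ k ∈ 𝒦.filter (fun k => ¬ MajI b σ C2 (topl σ k) (m * 2 ^ k) θ),
        f k ≤ 9 * C4 * (1 / (k : ℝ) ^ 2) := by
      intro k hk
      rw [mem_filter] at hk
      have h2 := hsm2 k m (hk1 k hk.1) hm (W k) (hW k) θ (by have := htop k hk.1; omega) hk.2
      have h3 := hrt k (hk1 k hk.1) (by have := htop k hk.1; omega) (hl k)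
        (fun e he => (hhl k (h𝒦 k hk.1) e he).1) θ
      have hkr : (1 : ℝ) ≤ k := by exact_mod_cast hk1 k hk.1
      have h4 : (1 : ℝ) / k ≤ 1 := by
        rw [div_le_one (by linarith)]
        exact hkr
      have h5 : ‖1 - csym (tor D 1 (2 ^ (E * (topl σ k + 1)))) (hl k) θ‖ ^ 2 ≤ 3 ^ 2 :=
        pow_le_pow_left₀ (norm_nonneg _) (by linarith) 2
      rw [hf']
      calc _ ≤ C4 / (k : ℝ) ^ 2 * 3 ^ 2 := mul_le_mul h2 h5 (by positivity) (by positivity)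
        _ = 9 * C4 * (1 / (k : ℝ) ^ 2) := by ring
    refine (sum_le_sum h1).trans ?_
    rw [← mul_sum]
    have h2 := hrec _ (filter_subset (fun k => ¬ MajI b σ C2 (topl σ k) (m * 2 ^ k) θ) 𝒦)
    have h3 : 27 * C4 / ε ≤ ((k0 - 1 : ℕ) : ℝ) := by
      refine (Nat.le_ceil _).trans ?_
      have : ⌈27 * (C4 : ℝ) / ε⌉₊ ≤ k0 - 1 := by omega
      exact_mod_cast this
    calc 9 * (C4 : ℝ) * _ ≤ 9 * C4 * (1 / ((k0 - 1 : ℕ) : ℝ)) := by gcongr
      _ ≤ ε / 3 := by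
          rw [mul_one_div, div_le_div_iff₀ (by linarith) (by norm_num)]
          rw [div_le_iff₀ hε] at h3
          linarith
  -- major scales
  have hmajor : ∑ k ∈ 𝒦.filter (fun k => MajI b σ C2 (topl σ k) (m * 2 ^ k) θ), f k
      ≤ ε / 3 + ε / 3 := by
    set g : ℕ → ℕ := fun k => if h : ∃ i, js ≤ i ∧ MajI b σ C2 i (m * 2 ^ k) θ then Nat.find h else 0
      with hgdef
    have hgs : ∀ k ∈ 𝒦M, js ≤ g k ∧ g k ≤ topl σ k ∧ MajI b σ C2 (g k) (m * 2 ^ k) θ ∧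
        (js < g k → ¬ MajI b σ C2 (g k - 1) (m * 2 ^ k) θ) := by
      intro k hk
      rw [h𝒦M, mem_filter] at hk
      have hex : ∃ i, js ≤ i ∧ MajI b σ C2 i (m * 2 ^ k) θ :=
        ⟨topl σ k, by have := htop k hk.1; omega, hk.2⟩
      have hgk : g k = Nat.find hex := by
        rw [hgdef]
        beta_reduce
        rw [dif_pos hex]
      have h1 := Nat.find_spec hex
      have h2 : Nat.find hex ≤ topl σ k := Nat.find_min' hex ⟨by have := htop k hk.1; omega, hk.2⟩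
      rw [← hgk] at h1 h2
      refine ⟨h1.1, h2, h1.2, ?_⟩
      intro hlt hM
      have h3 : g k - 1 < Nat.find hex := by omega
      exact Nat.find_min hex h3 ⟨by omega, hM⟩
    set N := 𝒦M.sup (topl σ) with hN
    have hmaps : ∀ k ∈ 𝒦M, g k ∈ Icc js N := by
      intro k hk
      rw [mem_Icc]
      exact ⟨(hgs k hk).1, (hgs k hk).2.1.trans (le_sup (f := topl σ) hk)⟩
    have hM𝒦 : 𝒦M ⊆ 𝒦 := filter_subset _ _
    change ∑ k ∈ 𝒦M, f k ≤ ε / 3 + ε / 3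
    rw [← sum_fiberwise_of_maps_to hmaps]
    have hper : ∀ i, js ≤ i → ∀ Bi : ℝ, 0 ≤ Bi →
        (∀ k ∈ 𝒦M.filter (fun k => g k = i), ‖bsym L (topl σ k) (m * 2 ^ k) (W k) θ‖ ≤ Bi) →
        ∑ k ∈ 𝒦M.filter (fun k => g k = i), f k ≤ Bi ^ 2 * ((P2 + 2) * (i + 1)) := by
      intro i hi Bi hBi hb
      have hsub : 𝒦M.filter (fun k => g k = i) ⊆ 𝒦 := (filter_subset _ _).trans hM𝒦
      have h1 := (hrho js i hi (by omega) (by omega) hl (𝒦M.filter (fun k => g k = i)) θ (by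
        intro k hk
        rw [mem_filter] at hk
        obtain ⟨hk, rfl⟩ := hk
        exact ⟨hk1 k (hM𝒦 hk), (hgs k hk).2.1, (hgs k hk).2.2.1⟩) (by
        intro k hk
        exact hhl k (h𝒦 k (hsub hk)))).2
      have h2 := hrec1 _ hsub
      have h3 : ∀ k ∈ 𝒦M.filter (fun k => g k = i), f k ≤ Bi ^ 2 *
          ‖1 - csym (tor D 1 (2 ^ (E * (topl σ k + 1)))) (hl k) θ‖ ^ 2 := by
        intro k hk
        rw [hf']
        apply mul_le_mul_of_nonneg_right _ (by positivity)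
        exact pow_le_pow_left₀ (norm_nonneg _) (hb k hk) 2
      refine (sum_le_sum h3).trans ?_
      rw [← mul_sum]
      apply mul_le_mul_of_nonneg_left _ (by positivity)
      refine h1.trans ?_
      have h4 : (0 : ℝ) ≤ i := Nat.cast_nonneg _
      nlinarith
    have hbd : ∀ i ∈ Icc js N, ∑ k ∈ 𝒦M.filter (fun k => g k = i), f k
        ≤ if i = js then ε / 3 else c * (1 / 2) ^ i := by
      intro i hi
      rw [mem_Icc] at hi
      split_ifs with hij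
      · subst hij
        refine (hper i le_rfl ε1 hε10.le ?_).trans hε11
        intro k hk
        rw [mem_filter] at hk
        obtain ⟨hkM, hgk⟩ := hk
        have hMi := (hgs k hkM).2.2.1
        rw [hgk] at hMi
        obtain ⟨e, he, β, hint, hβ⟩ := maj_pt hg (by omega) hMi
        have hkH : H0 ≤ m * 2 ^ k := by
          have h1 : k < 2 ^ k := Nat.lt_two_pow_self
          have h2 := h𝒦 k (hM𝒦 hkM)
          have h3 : 2 ^ k ≤ m * 2 ^ k := Nat.le_mul_of_pos_left _ hm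
          omega
        have h1 := hH0 (m * 2 ^ k) hkH (W k) (hW k) e he θ β hint hβ
        have h2 := hsm3 k m (hk1 k (hM𝒦 hkM)) hm (W k) (hW k) θ (by
          have := htop k (hM𝒦 hkM); omega)
        have h3 : (C4 : ℝ) / 2 ^ (topl σ k) ≤ ε1 / 2 := by
          have h4 : ((1 : ℝ) / 2) ^ (topl σ k) ≤ (1 / 2) ^ j2 :=
            pow_le_pow_of_le_one (by norm_num) (by norm_num) (by have := htop k (hM𝒦 hkM); omega)
          have h5 : ((1 : ℝ) / 2) ^ (topl σ k) ≤ ε1 / (2 * C4) := h4.trans hj2.le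
          rw [one_div_pow, le_div_iff₀ (by linarith)] at h5
          calc (C4 : ℝ) / 2 ^ (topl σ k) = (1 / 2 ^ (topl σ k) * (2 * C4)) / 2 := by ring
            _ ≤ ε1 / 2 := by linarith
        have h4 : ‖msym χ b (m * 2 ^ k) (W k) θ‖ ≤ ε1 / 2 := h1
        linarith
      · have hlt : js < i := lt_of_le_of_ne hi.1 (Ne.symm hij)
        refine (hper i hi.1 (C4 / 2 ^ (i - 1)) (by positivity) ?_).trans ?_
        · intro k hk
          rw [mem_filter] at hk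
          obtain ⟨hkM, hgk⟩ := hk
          have h1 := (hgs k hkM).2.2.2 (by omega)
          rw [hgk] at h1
          have h2 := (hgs k hkM).2.1
          rw [hgk] at h2
          exact hsm1 k m (hk1 k (hM𝒦 hkM)) hm (W k) (hW k) θ (i - 1) (by omega) (by omega) h1
        · have h1 : ((i : ℝ) + 1) ≤ 2 ^ i := by
            have : i + 1 ≤ 2 ^ i := Nat.lt_two_pow_self
            exact_mod_cast this
          have h2 : (2 : ℝ) ^ i = 2 * 2 ^ (i - 1) := by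
            rw [← pow_succ']
            congr 1
            omega
          have h3 : (C4 / (2 : ℝ) ^ (i - 1)) ^ 2 = 4 * C4 ^ 2 / (2 ^ i) ^ 2 := by
            rw [h2]
            field_simp
            ring
          rw [h3, hc, one_div_pow]
          have h4 : (0 : ℝ) < 2 ^ i := by positivity
          calc 4 * (C4 : ℝ) ^ 2 / (2 ^ i) ^ 2 * ((P2 + 2) * (i + 1))
              ≤ 4 * (C4 : ℝ) ^ 2 / (2 ^ i) ^ 2 * ((P2 + 2) * 2 ^ i) := by gcongr
            _ = 4 * (C4 : ℝ) ^ 2 * (P2 + 2) * (1 / 2 ^ i) := by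
                field_simp
    refine (sum_le_sum hbd).trans ?_
    rcases le_or_gt js N with hjN | hjN
    · rw [Icc_eq_cons_Ioc hjN, sum_cons, if_pos rfl]
      have h1 : ∑ x ∈ Ioc js N, (if x = js then ε / 3 else c * (1 / 2) ^ x)
          = ∑ x ∈ Ioc js N, c * (1 / 2) ^ x := by
        refine sum_congr rfl (fun x hx => ?_)
        rw [mem_Ioc] at hx
        rw [if_neg (by omega)]
      rw [h1, ← mul_sum]
      have h2 := geom_Ioc js N
      have h3 : ((1 : ℝ) / 2) ^ js ≤ (1 / 2) ^ n0 :=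
        pow_le_pow_of_le_one (by norm_num) (by norm_num) hjsn
      have h4 : c * ∑ i ∈ Ioc js N, ((1 : ℝ) / 2) ^ i ≤ ε / 3 := by
        calc c * ∑ i ∈ Ioc js N, ((1 : ℝ) / 2) ^ i ≤ c * (ε / (3 * c)) := by
              apply mul_le_mul_of_nonneg_left _ hc0.le
              linarith
          _ = ε / 3 := by field_simp
      linarith
    · rw [Icc_eq_empty (by omega), sum_empty]
      positivity
  linarith

end

end Pool.Agent.H10.Sar
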