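import Pool.Agent.H10.Sar.LevF
import Pool.Agent.H10.Sar.Low
import Pool.Agent.H10.Sar.Rem4
set_option autoImplicit false
set_option linter.unusedSectionVars false

namespace Pool.Agent.H10.Sar

open NumberField Module Finset Filter Topology
open scoped Classical

noncomputable section

variable {K : Type*} [Field K] [NumberField K] {D : ℕ} {b : Basis (Fin D) ℤ (𝓞 K)}
variable {χ : 𝓞 K → ℂ} {σ B C : ℕ}

lemma sqrt_pow_half (t : ℕ) : Real.sqrt ((1 / 2) ^ t) = (Real.sqrt (1 / 2)) ^ t := by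
  rw [← Real.sqrt_sq (pow_nonneg (Real.sqrt_nonneg (1 / 2)) t), ← pow_mul, mul_comm, pow_mul,
    Real.sq_sqrt (by norm_num)]

lemma small_tail (a c δ : ℝ) (hδ : 0 < δ) : ∃ t0 : ℕ, ∀ t, t0 ≤ t →
    a * (1 / 2) ^ t + (t + 1) * (c * Real.sqrt ((1 / 2) ^ t)) ≤ δ := by
  have hs0 : 0 ≤ Real.sqrt (1 / 2) := Real.sqrt_nonneg _
  have hs1 : Real.sqrt (1 / 2) < 1 := by
    rw [Real.sqrt_lt' (by norm_num)]
    norm_num
  have h1 : Tendsto (fun t : ℕ => a * (1 / 2 : ℝ) ^ t) atTop (𝓝 (a * 0)) :=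
    (tendsto_pow_atTop_nhds_zero_of_lt_one (by norm_num) (by norm_num)).const_mul a
  have h2 : Tendsto (fun t : ℕ => (t : ℝ) * Real.sqrt (1 / 2) ^ t) atTop (𝓝 0) :=
    tendsto_self_mul_const_pow_of_lt_one hs0 hs1
  have h3 : Tendsto (fun t : ℕ => Real.sqrt (1 / 2) ^ t) atTop (𝓝 0) :=
    tendsto_pow_atTop_nhds_zero_of_lt_one hs0 hs1
  have h4 : Tendsto (fun t : ℕ => a * (1 / 2 : ℝ) ^ t + (c * ((t : ℝ) * Real.sqrt (1 / 2) ^ t)
      + c * Real.sqrt (1 / 2) ^ t)) atTop (𝓝 (a * 0 + (c * 0 + c * 0))) :=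
    h1.add ((h2.const_mul c).add (h3.const_mul c))
  simp only [mul_zero, add_zero] at h4
  obtain ⟨t0, ht0⟩ := eventually_atTop.mp (h4.eventually (gt_mem_nhds hδ))
  refine ⟨t0, fun t ht => ?_⟩
  have h5 := ht0 t ht
  rw [sqrt_pow_half]
  have : a * (1 / 2) ^ t + (t + 1) * (c * Real.sqrt (1 / 2) ^ t)
      = a * (1 / 2) ^ t + (c * ((t : ℝ) * Real.sqrt (1 / 2) ^ t) + c * Real.sqrt (1 / 2) ^ t) := by
    ring
  rw [this]
  exact h5.le

/-- pointwise decomposition -/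
lemma point_decomp (hap : Aper (fun n => χ (b.equivFun.symm n))) (L : Lev b χ σ B C)
    (hχ : ∀ x, ‖χ x‖ ≤ 1) (hC : 1 ≤ C) (L1 : ℝ) :
    ∃ js1 : ℕ, ∀ js, js1 ≤ js → ∀ m : ℕ, 1 ≤ m → ∀ δ : ℝ, 0 < δ → ∃ k0 : ℕ, 1 ≤ k0 ∧ ∀ k, k0 ≤ k →
    js ≤ topl σ k ∧ ∀ W : (Fin D → ℤ) → ℝ, IsWt (m * 2 ^ k) L1 W →
    ∀ F : (Fin D → ℤ) → ℂ, (∀ n, ‖F n‖ ≤ 1) → ∀ y,
    ‖Aop (fun n => χ (b.equivFun.symm n)) (m * 2 ^ k) W F y‖
      ≤ δ + ‖Bop L (topl σ k) (m * 2 ^ k) W F y - Bop L (topl σ k) (m * 2 ^ k) W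
          (Cop (tor D 1 (2 ^ (EE D σ * (topl σ k + 1)))) (hll D σ js (m * 2 ^ k)) F) y‖
        + ∑ j ∈ Ico js (topl σ k + 1), ‖Aop (fun n => χ (b.equivFun.symm n)) (m * 2 ^ k) W
            (Cop (Tj D σ j) (hlen D σ (Chh D σ) j (m * 2 ^ k)) F) y‖ := by
  have hD : 0 < D := D_pos b
  obtain ⟨C9, hex⟩ := exc_level L hC
  obtain ⟨j6, hexp⟩ := exp_dom σ C
  refine ⟨C9 + j6 + C, ?_⟩
  intro js hjs m hm δ hδ
  set Q := (tor D 1 (2 ^ (EE D σ * js))).card with hQ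
  obtain ⟨H0, hlow⟩ := low_bound (fun n => χ (b.equivFun.symm n)) (fun n => hχ _) hap L1
    (2 ^ (EE D σ * js)) (δ / 2) (by positivity)
  obtain ⟨t0, ht0⟩ := small_tail (2 * C * (1 + Q)) C9 (δ / 2) (by positivity)
  refine ⟨2 ^ (cc σ * (t0 + js)) + H0, ?_, ?_⟩
  · have : 0 < 2 ^ (cc σ * (t0 + js)) := pow_pos (by norm_num) _
    omega
  intro k hk
  have hk1 : 1 ≤ k := by
    have : 0 < 2 ^ (cc σ * (t0 + js)) := pow_pos (by norm_num) _
    omega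
  have htj : t0 + js ≤ topl σ k := (le_topl_iff hk1).mpr (by omega)
  set t := topl σ k with ht
  refine ⟨by omega, ?_⟩
  intro W hW F hF y
  set H := m * 2 ^ k with hH
  set X : (Fin D → ℤ) → ℂ := fun n => χ (b.equivFun.symm n) with hX
  have hHt : 2 ^ (2 ^ (cc σ * t)) ≤ H := scale_ge hm hk1 le_rfl
  have hH1 : 1 ≤ H := Nat.one_le_two_pow.trans hHt
  have hHr : (0 : ℝ) < H := by exact_mod_cast hH1
  have hHD : (0 : ℝ) < (H : ℝ) ^ D := by positivity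
  have hHH0 : H0 ≤ H := by
    have h1 : k < 2 ^ k := Nat.lt_two_pow_self
    have h2 : 2 ^ k ≤ H := Nat.le_mul_of_pos_left _ hm
    have h3 : 0 < 2 ^ (cc σ * (t0 + js)) := pow_pos (by norm_num) _
    omega
  have hcard := L.hE t (by omega) H (by
        refine le_trans ?_ (hexp t (by omega) H hHt)
        apply Nat.pow_le_pow_right (by norm_num)
        calc C * 2 ^ (2 * σ * t) = C * 1 * 2 ^ (2 * σ * t) := by ring
          _ ≤ C * (t + 1) * 2 ^ ((cc σ - 1) * t) := by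
            gcongr
            · omega
            · norm_num
            · unfold cc; omega)
  set T := (bx D H).filter (fun n => n ∈ L.E t) with hT
  set G : (Fin D → ℤ) → ℂ := Cop (tor D 1 (2 ^ (EE D σ * (t + 1)))) (hll D σ js H) F with hG
  set G0 : (Fin D → ℤ) → ℂ := Cop (tor D 1 (2 ^ (EE D σ * js))) (fun _ => H * 2 ^ (Chh D σ * js)) F
    with hG0
  set Gj' : ℕ → (Fin D → ℤ) → ℂ := fun j => Cop (Tj D σ j) (hlen D σ (Chh D σ) j H) F with hGj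
  have hsplit : G = fun x => G0 x + ∑ j ∈ Ico js (t + 1), Gj' j x := by
    funext x
    exact Cop_split (by omega) F x
  -- main parts
  have s1 : ‖Aop X H W F y - Bop L t H W F y‖ ≤ 2 * C * (1 / 2) ^ t := by
    refine (dec L (by omega) hW F y).trans ?_
    have h1 : ∑ n ∈ T, ‖F (y + n)‖ ≤ C * (1 / 2) ^ t * H ^ D := by
      calc ∑ n ∈ T, ‖F (y + n)‖ ≤ ∑ _n ∈ T, (1 : ℝ) := sum_le_sum (fun n _ => hF _)
        _ = T.card := by rw [sum_const, nsmul_eq_mul, mul_one]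
        _ ≤ _ := hcard
    calc 2 / (H : ℝ) ^ D * ∑ n ∈ T, ‖F (y + n)‖ ≤ 2 / (H : ℝ) ^ D * (C * (1 / 2) ^ t * H ^ D) :=
          mul_le_mul_of_nonneg_left h1 (by positivity)
      _ = 2 * C * (1 / 2) ^ t := by field_simp
  have s2 : ‖Aop X H W G y - Bop L t H W G y‖
      ≤ 2 * C * (1 / 2) ^ t * Q + (t + 1) * (C9 * Real.sqrt ((1 / 2) ^ t)) := by
    refine (dec L (by omega) hW G y).trans ?_
    have h1 : ∀ n ∈ T, ‖G (y + n)‖ ≤ Q + ∑ j ∈ Ico js (t + 1), ‖Gj' j (y + n)‖ := by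
      intro n _
      rw [hsplit]
      beta_reduce
      refine (norm_add_le _ _).trans (add_le_add ?_ (norm_sum_le _ _))
      rw [hG0]
      unfold Cop
      refine (norm_sum_le _ _).trans ?_
      calc ∑ e ∈ tor D 1 (2 ^ (EE D σ * js)), ‖ee (dot (vec e) (y + n)) *
            Gl (H * 2 ^ (Chh D σ * js)) F e (y + n)‖
          ≤ ∑ _e ∈ tor D 1 (2 ^ (EE D σ * js)), (1 : ℝ) := by
            apply sum_le_sum
            intro e _
            rw [norm_mul, norm_ee, one_mul]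
            exact norm_Gl_le hF _ _
        _ = Q := by rw [sum_const, nsmul_eq_mul, mul_one]
    have h2 : ∑ n ∈ T, ‖G (y + n)‖ ≤ T.card * Q + ∑ j ∈ Ico js (t + 1), ∑ n ∈ T, ‖Gj' j (y + n)‖ := by
      refine (sum_le_sum h1).trans ?_
      rw [sum_add_distrib, sum_const, nsmul_eq_mul, sum_comm]
    have h3 : ∀ j ∈ Ico js (t + 1), 2 / (H : ℝ) ^ D * ∑ n ∈ T, ‖Gj' j (y + n)‖
        ≤ C9 * Real.sqrt ((1 / 2) ^ t) := by
      intro j hj
      rw [mem_Ico] at hj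
      exact hex j (by omega) k m hk1 hm (by omega) F hF y
    calc 2 / (H : ℝ) ^ D * ∑ n ∈ T, ‖G (y + n)‖
        ≤ 2 / (H : ℝ) ^ D * (T.card * Q + ∑ j ∈ Ico js (t + 1), ∑ n ∈ T, ‖Gj' j (y + n)‖) :=
          mul_le_mul_of_nonneg_left h2 (by positivity)
      _ = 2 / (H : ℝ) ^ D * (T.card * Q) + ∑ j ∈ Ico js (t + 1), 2 / (H : ℝ) ^ D *
            ∑ n ∈ T, ‖Gj' j (y + n)‖ := by rw [mul_add, mul_sum]
      _ ≤ 2 / (H : ℝ) ^ D * ((C * (1 / 2) ^ t * H ^ D) * Q)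
          + ∑ _j ∈ Ico js (t + 1), C9 * Real.sqrt ((1 / 2) ^ t) := by
          apply add_le_add _ (sum_le_sum h3)
          gcongr
      _ ≤ 2 * C * (1 / 2) ^ t * Q + (t + 1) * (C9 * Real.sqrt ((1 / 2) ^ t)) := by
          rw [sum_const, nsmul_eq_mul, Nat.card_Ico]
          have e1 : 2 / (H : ℝ) ^ D * ((C * (1 / 2) ^ t * H ^ D) * Q) = 2 * C * (1 / 2) ^ t * Q := by
            field_simp
          rw [e1]
          have e2 : ((t + 1 - js : ℕ) : ℝ) ≤ t + 1 := by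
            have : t + 1 - js ≤ t + 1 := Nat.sub_le _ _
            exact_mod_cast this
          gcongr
  have s3 : ‖Aop X H W G y‖ ≤ δ / 2 + ∑ j ∈ Ico js (t + 1), ‖Aop X H W (Gj' j) y‖ := by
    rw [hsplit, Aop_add_sum]
    refine (norm_add_le _ _).trans (add_le_add ?_ (norm_sum_le _ _))
    exact hlow H hHH0 W hW (H * 2 ^ (Chh D σ * js)) (Nat.le_mul_of_pos_right _ (pow_pos (by norm_num) _))
      F hF y
  have s4 := ht0 t (by omega)
  have e1 : Aop X H W F y = (Aop X H W F y - Bop L t H W F y) + (Bop L t H W F y - Bop L t H W G y)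
      + (Aop X H W G y - (Aop X H W G y - Bop L t H W G y)) := by ring
  have s5 : ‖Aop X H W F y‖ ≤ ‖Aop X H W F y - Bop L t H W F y‖ + ‖Bop L t H W F y - Bop L t H W G y‖
      + (‖Aop X H W G y‖ + ‖Aop X H W G y - Bop L t H W G y‖) := by
    conv_lhs => rw [e1]
    exact (norm_add_le _ _).trans (add_le_add (norm_add_le _ _) (norm_sub_le _ _))
  refine s5.trans ?_
  have e2 : 2 * (C : ℝ) * (1 + Q) * (1 / 2) ^ t = 2 * C * (1 / 2) ^ t + 2 * C * (1 / 2) ^ t * Q := by ring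
  rw [e2] at s4
  change _ ≤ δ + ‖Bop L t H W F y - Bop L t H W G y‖ + ∑ j ∈ Ico js (t + 1), ‖Aop X H W (Gj' j) y‖
  linarith

end

end Pool.Agent.H10.Sar
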