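import Pool.Agent.H10.Sar.Box
set_option autoImplicit false
set_option linter.unusedSectionVars false

namespace Pool.Agent.H10.Sar

open NumberField Module Finset
open scoped Classical Topology
open MeasureTheory Filter

noncomputable section

/-- the uniform statement for the scales `m * 2 ^ k` and the trapezoid weights of slope `s` -/
def UStat {D : ℕ} (X : (Fin D → ℤ) → ℂ) (m s : ℕ) : Prop :=
  ∀ ε : ℝ, 0 < ε → ∃ k0 : ℕ, ∀ k1 : ℕ, ∃ L0 : ℕ, ∀ L : ℕ, L0 ≤ L →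
    ∀ F : (Fin D → ℤ) → ℂ, (∀ n, ‖F n‖ ≤ 1) → (∀ n, n ∉ bx D L → F n = 0) →
    ∀ κ : (Fin D → ℤ) → ℕ, (∀ y, k0 ≤ κ y ∧ κ y ≤ k1) →
    ∑ y ∈ bx D L, ‖Aop X (m * 2 ^ κ y) (trapD D s (m * 2 ^ κ y)) F y‖ ^ 2 ≤ ε * L ^ D

/-- `T_1^{n_1} ∘ ... ∘ T_D^{n_D}` -/
def itr {D : ℕ} {Ω : Type*} (T : Fin D → Ω → Ω) (n : Fin D → ℕ) : Ω → Ω :=
  (List.ofFn (fun i => (T i)^[n i])).foldr (fun f g => f ∘ g) id

/-! ### Deterministic comparison of sharp boxes and trapezoids -/

lemma trap_one {s H : ℕ} (hH : 0 < H) {t : ℤ} (h1 : (H : ℝ) ≤ s * t) (h2 : (H : ℝ) ≤ s * (H - t)) :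
    trap s H t = 1 := by
  unfold trap
  have hH' : (0 : ℝ) < H := by exact_mod_cast hH
  have e1 : (1 : ℝ) ≤ s * t / H := by rw [le_div_iff₀ hH']; linarith
  have e2 : (1 : ℝ) ≤ s * (H - t) / H := by rw [le_div_iff₀ hH']; linarith
  rw [min_eq_left (le_min e1 e2)]
  exact max_eq_right zero_le_one

lemma sum_trap_ge {s H : ℕ} (hs : 1 ≤ s) (hH : 0 < H) :
    (H : ℝ) - 2 * H / s - 1 ≤ ∑ t ∈ Finset.Ico (0 : ℤ) H, trap s H t := by
  have hs' : (0 : ℝ) < s := by exact_mod_cast hs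
  set a : ℤ := ⌈(H : ℝ) / s⌉ with ha
  set b : ℤ := ⌊(H : ℝ) - H / s⌋ with hb
  have ha0 : 0 ≤ a := Int.ceil_nonneg (by positivity)
  have hbH : b < H := by
    have h1 : (b : ℝ) ≤ (H : ℝ) - H / s := Int.floor_le _
    have h2 : (0 : ℝ) < (H : ℝ) / s := by positivity
    have : (b : ℝ) < H := by linarith
    exact_mod_cast this
  have h1 : ∀ t ∈ Finset.Icc a b, trap s H t = 1 := by
    intro t ht
    rw [Finset.mem_Icc] at ht
    have h3 : (H : ℝ) / s ≤ t := (Int.le_ceil _).trans (by exact_mod_cast ht.1)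
    have h4 : (t : ℝ) ≤ H - H / s := le_trans (by exact_mod_cast ht.2) (Int.floor_le _)
    apply trap_one hH
    · rw [div_le_iff₀ hs'] at h3; linarith
    · have : (H : ℝ) / s ≤ H - t := by linarith
      rw [div_le_iff₀ hs'] at this; linarith
  have h2 : ∑ t ∈ Finset.Icc a b, trap s H t ≤ ∑ t ∈ Finset.Ico (0 : ℤ) H, trap s H t := by
    apply sum_le_sum_of_subset_of_nonneg
    · intro t ht
      rw [Finset.mem_Icc] at ht
      rw [Finset.mem_Ico]
      omega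
    · intro t _ _
      exact trap_nonneg _ _ _
  rw [sum_congr rfl h1, sum_const, nsmul_eq_mul, mul_one, Int.card_Icc] at h2
  refine le_trans ?_ h2
  have h3 : ((b + 1 - a : ℤ) : ℝ) ≤ ((b + 1 - a).toNat : ℝ) := by
    exact_mod_cast Int.self_le_toNat _
  refine le_trans ?_ h3
  push_cast
  have h4 : (a : ℝ) < H / s + 1 := Int.ceil_lt_add_one _
  have h5 : (H : ℝ) - H / s < b + 1 := Int.lt_floor_add_one _
  have h6 : 2 * (H : ℝ) / s = H / s + H / s := by ring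
  linarith

lemma sum_trapD {D s H : ℕ} :
    ∑ n ∈ bx D H, trapD D s H n = (∑ t ∈ Finset.Ico (0 : ℤ) H, trap s H t) ^ D := by
  have := Finset.prod_univ_sum (fun _ : Fin D => Finset.Ico (0 : ℤ) H) (fun _ t => trap s H t)
  rw [prod_const, card_univ, Fintype.card_fin] at this
  rw [this]
  rfl

/-- sharp box against trapezoid weights -/
lemma sharp_sub_trap {D s H N : ℕ} (hHN : H ≤ N) (A : (Fin D → ℤ) → ℂ) (hA : ∀ n, ‖A n‖ ≤ 1) :
    ‖∑ n ∈ Fintype.piFinset (fun _ : Fin D => Finset.Icc (1 : ℤ) N), A n -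
      ∑ n ∈ bx D H, (trapD D s H n : ℂ) * A n‖ ≤
      (N : ℝ) ^ D - (∑ t ∈ Finset.Ico (0 : ℤ) H, trap s H t) ^ D := by
  set P := Fintype.piFinset (fun _ : Fin D => Finset.Icc (1 : ℤ) N) with hP
  set Q := (bx D H).filter (fun n => n ∈ P) with hQ
  have hWP : ∀ n, n ∉ P → trapD D s H n = 0 := by
    intro n hn
    by_contra h
    apply hn
    rw [hP, Fintype.mem_piFinset]
    intro i
    rw [Finset.mem_Icc]
    by_contra h2
    apply h
    apply prod_eq_zero (mem_univ i)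
    apply trap_supp
    omega
  have hWb : ∀ n, n ∉ bx D H → trapD D s H n = 0 := (isWt_trapD D s H).supp
  have e1 : ∑ n ∈ bx D H, (trapD D s H n : ℂ) * A n = ∑ n ∈ P, (trapD D s H n : ℂ) * A n := by
    have h1 : ∑ n ∈ bx D H, (trapD D s H n : ℂ) * A n =
        ∑ n ∈ bx D H ∪ P, (trapD D s H n : ℂ) * A n := by
      apply sum_subset subset_union_left
      intro n _ hn
      rw [hWb n hn]
      simp
    have h2 : ∑ n ∈ P, (trapD D s H n : ℂ) * A n =
        ∑ n ∈ bx D H ∪ P, (trapD D s H n : ℂ) * A n := by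
      apply sum_subset subset_union_right
      intro n _ hn
      rw [hWP n hn]
      simp
    rw [h1, h2]
  have e2 : ∑ n ∈ bx D H, trapD D s H n = ∑ n ∈ P, trapD D s H n := by
    have h1 : ∑ n ∈ bx D H, trapD D s H n = ∑ n ∈ bx D H ∪ P, trapD D s H n := by
      apply sum_subset subset_union_left
      intro n _ hn
      exact hWb n hn
    have h2 : ∑ n ∈ P, trapD D s H n = ∑ n ∈ bx D H ∪ P, trapD D s H n := by
      apply sum_subset subset_union_right
      intro n _ hn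
      exact hWP n hn
    rw [h1, h2]
  have e3 : (N : ℝ) ^ D = ∑ n ∈ P, (1 : ℝ) := by
    rw [sum_const, nsmul_eq_mul, mul_one, hP, Fintype.card_piFinset]
    simp
  rw [e1, ← sum_sub_distrib, ← sum_trapD, e2, e3, ← sum_sub_distrib]
  refine (norm_sum_le _ _).trans (sum_le_sum fun n _ => ?_)
  have h1 : A n - (trapD D s H n : ℂ) * A n = ((1 - trapD D s H n : ℝ) : ℂ) * A n := by
    push_cast; ring
  rw [h1, norm_mul, Complex.norm_real, Real.norm_of_nonneg]
  · have h2 : 0 ≤ 1 - trapD D s H n := by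
      have := (isWt_trapD D s H).le_one n
      linarith
    calc (1 - trapD D s H n) * ‖A n‖ ≤ (1 - trapD D s H n) * 1 :=
          mul_le_mul_of_nonneg_left (hA n) h2
      _ = _ := mul_one _
  · have := (isWt_trapD D s H).le_one n
    linarith

lemma det_limit {D : ℕ} (A : (Fin D → ℤ) → ℂ) (hA : ∀ n, ‖A n‖ ≤ 1)
    (h : ∀ m s : ℕ, 1 ≤ m → 1 ≤ s → Tendsto (fun k : ℕ => (1 / ((m * 2 ^ k : ℕ) : ℂ) ^ D) *
      ∑ n ∈ bx D (m * 2 ^ k), (trapD D s (m * 2 ^ k) n : ℂ) * A n) atTop (𝓝 0)) :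
    Tendsto (fun N : ℕ => (1 / (N : ℂ) ^ D) *
      ∑ n ∈ Fintype.piFinset (fun _ : Fin D => Finset.Icc (1 : ℤ) N), A n) atTop (𝓝 0) := by
  rw [Metric.tendsto_atTop]
  intro δ hδ
  -- the slope
  obtain ⟨j, hj2, hj⟩ : ∃ j : ℕ, 2 ≤ j ∧ 4 * (D : ℝ) / 2 ^ j < δ / 2 := by
    have h1 : Tendsto (fun j : ℕ => 4 * (D : ℝ) / 2 ^ j) atTop (𝓝 0) := by
      have := (tendsto_pow_atTop_nhds_zero_of_lt_one (r := (1 / 2 : ℝ)) (by norm_num)
        (by norm_num)).const_mul (4 * (D : ℝ))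
      rw [mul_zero] at this
      refine this.congr fun j => ?_
      rw [one_div, inv_pow]
      rfl
    obtain ⟨j, hj⟩ := ((h1.eventually_lt_const (by linarith : (0 : ℝ) < δ / 2)).and
      (eventually_ge_atTop 2)).exists
    exact ⟨j, hj.2, hj.1⟩
  have hK : ∀ m ∈ Finset.Ico (2 ^ j) (2 ^ (j + 1)), ∀ᶠ k : ℕ in atTop,
      ‖(1 / ((m * 2 ^ k : ℕ) : ℂ) ^ D) *
      ∑ n ∈ bx D (m * 2 ^ k), (trapD D (2 ^ j) (m * 2 ^ k) n : ℂ) * A n‖ < δ / 2 := by
    intro m hm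
    rw [Finset.mem_Ico] at hm
    have h1 := h m (2 ^ j) (le_trans Nat.one_le_two_pow hm.1) Nat.one_le_two_pow
    have h2 := h1.norm
    rw [norm_zero] at h2
    exact h2.eventually_lt_const (by linarith)
  rw [← Filter.eventually_all_finset] at hK
  obtain ⟨K, hK⟩ := eventually_atTop.mp hK
  refine ⟨2 ^ (K + j), fun N hN => ?_⟩
  have hN0 : N ≠ 0 := by
    have : 0 < 2 ^ (K + j) := by positivity
    omega
  have hlog : K + j ≤ Nat.log 2 N := Nat.le_log_of_pow_le (by norm_num) hN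
  set k := Nat.log 2 N - j with hk
  have hkK : K ≤ k := by omega
  have hkj : k + j = Nat.log 2 N := by omega
  have hl1 : 2 ^ (k + j) ≤ N := by rw [hkj]; exact Nat.pow_log_le_self 2 hN0
  have hl2 : N < 2 ^ (k + j + 1) := by rw [hkj]; exact Nat.lt_pow_succ_log_self (by norm_num) N
  set m := N / 2 ^ k with hm
  have h2k : 0 < 2 ^ k := by positivity
  have hmI : m ∈ Finset.Ico (2 ^ j) (2 ^ (j + 1)) := by
    rw [Finset.mem_Ico]
    constructor
    · rw [hm, Nat.le_div_iff_mul_le h2k, ← pow_add, add_comm]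
      exact hl1
    · rw [hm, Nat.div_lt_iff_lt_mul h2k, ← pow_add]
      rw [show j + 1 + k = k + j + 1 by ring]
      exact hl2
  have hm1 : 1 ≤ m := le_trans Nat.one_le_two_pow (Finset.mem_Ico.mp hmI).1
  set H := m * 2 ^ k with hH
  have hHN : H ≤ N := Nat.div_mul_le_self _ _
  have hNH : N < H + 2 ^ k := Nat.lt_div_mul_add h2k
  have hH0 : 0 < H := Nat.mul_pos hm1 h2k
  have hmain := hK k hkK m hmI
  have hN' : (0 : ℝ) < N := by exact_mod_cast Nat.pos_of_ne_zero hN0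
  have hH' : (0 : ℝ) < H := by exact_mod_cast hH0
  have h2j : (0 : ℝ) < 2 ^ j := by positivity
  -- size of the trapezoid
  have hT1 := sum_trap_ge (s := 2 ^ j) (H := H) Nat.one_le_two_pow hH0
  have hkN : (2 : ℝ) ^ k ≤ N / 2 ^ j := by
    rw [le_div_iff₀ h2j, ← pow_add]
    exact_mod_cast hl1
  have h1N : (1 : ℝ) ≤ N / 2 ^ j := by
    have : (1 : ℝ) ≤ 2 ^ k := one_le_pow₀ (by norm_num)
    linarith
  have hT2 : (N : ℝ) * (1 - 4 / 2 ^ j) ≤ ∑ t ∈ Finset.Ico (0 : ℤ) H, trap (2 ^ j) H t := by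
    refine le_trans ?_ hT1
    have hHr : (H : ℝ) ≤ N := by exact_mod_cast hHN
    have hNr : (N : ℝ) ≤ H + 2 ^ k := by
      have : ((N : ℕ) : ℝ) ≤ ((H + 2 ^ k : ℕ) : ℝ) := by exact_mod_cast hNH.le
      push_cast at this
      exact this
    have h3 : 2 * (H : ℝ) / ((2 ^ j : ℕ) : ℝ) ≤ 2 * (N / 2 ^ j) := by
      push_cast
      rw [← mul_div_assoc]
      gcongr
    have h4 : (N : ℝ) * (1 - 4 / 2 ^ j) = N - 4 * (N / 2 ^ j) := by ring
    rw [h4]
    linarith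
  have h4j : (4 : ℝ) / 2 ^ j ≤ 1 := by
    rw [div_le_one h2j]
    calc (4 : ℝ) = 2 ^ 2 := by norm_num
      _ ≤ 2 ^ j := pow_le_pow_right₀ (by norm_num) hj2
  have hT3 : (N : ℝ) ^ D * (1 - 4 * D / 2 ^ j) ≤
      (∑ t ∈ Finset.Ico (0 : ℤ) H, trap (2 ^ j) H t) ^ D := by
    calc (N : ℝ) ^ D * (1 - 4 * D / 2 ^ j) ≤ (N : ℝ) ^ D * (1 - 4 / 2 ^ j) ^ D := by
          apply mul_le_mul_of_nonneg_left _ (by positivity)
          have := one_add_mul_le_pow (a := -(4 / 2 ^ j : ℝ)) (by linarith) D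
          calc 1 - 4 * (D : ℝ) / 2 ^ j = 1 + D * -(4 / 2 ^ j) := by ring
            _ ≤ (1 + -(4 / 2 ^ j)) ^ D := this
            _ = _ := by ring
      _ = ((N : ℝ) * (1 - 4 / 2 ^ j)) ^ D := by rw [mul_pow]
      _ ≤ _ := pow_le_pow_left₀ (mul_nonneg hN'.le (by linarith)) hT2 D
  have hS := sharp_sub_trap (s := 2 ^ j) hHN A hA
  rw [dist_zero_right]
  set S1 := ∑ n ∈ Fintype.piFinset (fun _ : Fin D => Finset.Icc (1 : ℤ) N), A n with hS1
  set S2 := ∑ n ∈ bx D H, (trapD D (2 ^ j) H n : ℂ) * A n with hS2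
  have hS3 : ‖S2‖ ≤ δ / 2 * (H : ℝ) ^ D := by
    have h5 : ‖(1 / ((H : ℕ) : ℂ) ^ D) * S2‖ = ‖S2‖ / (H : ℝ) ^ D := by
      rw [norm_mul, norm_div, norm_pow, Complex.norm_natCast, norm_one]
      ring
    rw [h5, div_lt_iff₀ (by positivity)] at hmain
    exact hmain.le
  have hS4 : ‖S1‖ < δ * (N : ℝ) ^ D := by
    calc ‖S1‖ = ‖(S1 - S2) + S2‖ := by rw [sub_add_cancel]
      _ ≤ ‖S1 - S2‖ + ‖S2‖ := norm_add_le _ _
      _ ≤ ((N : ℝ) ^ D - (N : ℝ) ^ D * (1 - 4 * D / 2 ^ j)) + δ / 2 * (H : ℝ) ^ D := by linarith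
      _ ≤ (N : ℝ) ^ D * (4 * D / 2 ^ j) + δ / 2 * (N : ℝ) ^ D := by
          have : (H : ℝ) ^ D ≤ (N : ℝ) ^ D :=
            pow_le_pow_left₀ hH'.le (by exact_mod_cast hHN) D
          have h6 : δ / 2 * (H : ℝ) ^ D ≤ δ / 2 * (N : ℝ) ^ D :=
            mul_le_mul_of_nonneg_left this (by linarith)
          linarith
      _ < (N : ℝ) ^ D * (δ / 2) + δ / 2 * (N : ℝ) ^ D := by
          have : (0 : ℝ) < (N : ℝ) ^ D := by positivity
          have h7 := mul_lt_mul_of_pos_left hj this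
          linarith
      _ = δ * (N : ℝ) ^ D := by ring
  rw [norm_mul, norm_div, norm_pow, Complex.norm_natCast, norm_one]
  have hND : (0 : ℝ) < (N : ℝ) ^ D := by positivity
  rw [one_div, inv_mul_lt_iff₀ hND]
  linarith

/-! ### Commuting maps -/

section comm

variable {Ω : Type*} [MeasurableSpace Ω] {μ : Measure Ω}

lemma comp_iter_ae {f g : Ω → Ω} (hg : MeasurePreserving g μ μ) (h : f ∘ g =ᵐ[μ] g ∘ f) (b : ℕ) :
    f ∘ g^[b] =ᵐ[μ] g^[b] ∘ f := by
  induction b with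
  | zero => simp
  | succ b ih =>
    have h1 : (f ∘ g^[b]) ∘ g =ᵐ[μ] (g^[b] ∘ f) ∘ g :=
      hg.quasiMeasurePreserving.ae_eq_comp ih
    have h2 : g^[b] ∘ (f ∘ g) =ᵐ[μ] g^[b] ∘ (g ∘ f) := by
      filter_upwards [h] with x hx
      simp only [Function.comp_apply] at hx ⊢
      rw [hx]
    rw [Function.iterate_succ]
    exact h1.trans h2

lemma itr_zero' (T : Fin 0 → Ω → Ω) (n : Fin 0 → ℕ) : itr T n = id := by
  simp [itr]

lemma itr_succ {D : ℕ} (T : Fin (D + 1) → Ω → Ω) (n : Fin (D + 1) → ℕ) :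
    itr T n = (T 0)^[n 0] ∘ itr (fun i => T i.succ) (fun i => n i.succ) := by
  unfold itr
  rw [List.ofFn_succ, List.foldr_cons]

lemma itr_mp {D : ℕ} (T : Fin D → Ω → Ω) (hT : ∀ i, MeasurePreserving (T i) μ μ)
    (n : Fin D → ℕ) : MeasurePreserving (itr T n) μ μ := by
  induction D with
  | zero => rw [itr_zero']; exact MeasurePreserving.id μ
  | succ D ih =>
    rw [itr_succ]
    exact ((hT 0).iterate _).comp (ih _ (fun i => hT i.succ) _)

lemma comp_itr_ae {D : ℕ} (T : Fin D → Ω → Ω) (hT : ∀ i, MeasurePreserving (T i) μ μ)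
    {f : Ω → Ω} (h : ∀ i, f ∘ T i =ᵐ[μ] T i ∘ f) (n : Fin D → ℕ) :
    f ∘ itr T n =ᵐ[μ] itr T n ∘ f := by
  induction D with
  | zero => rw [itr_zero']; rfl
  | succ D ih =>
    rw [itr_succ]
    have h1 : (f ∘ (T 0)^[n 0]) ∘ itr (fun i => T i.succ) (fun i => n i.succ) =ᵐ[μ]
        ((T 0)^[n 0] ∘ f) ∘ itr (fun i => T i.succ) (fun i => n i.succ) :=
      (itr_mp _ (fun i => hT i.succ) _).quasiMeasurePreserving.ae_eq_comp
        (comp_iter_ae (hT 0) (h 0) _)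
    have h2 : (T 0)^[n 0] ∘ (f ∘ itr (fun i => T i.succ) (fun i => n i.succ)) =ᵐ[μ]
        (T 0)^[n 0] ∘ (itr (fun i => T i.succ) (fun i => n i.succ) ∘ f) := by
      filter_upwards [ih (fun i => T i.succ) (fun i => hT i.succ) (fun i => h i.succ)
        (fun i => n i.succ)] with x hx
      simp only [Function.comp_apply] at hx ⊢
      rw [hx]
    exact h1.trans h2

lemma itr_add_ae {D : ℕ} (T : Fin D → Ω → Ω) (hT : ∀ i, MeasurePreserving (T i) μ μ)
    (hc : ∀ i j, (T i ∘ T j) =ᵐ[μ] (T j ∘ T i)) (y n : Fin D → ℕ) :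
    itr T (fun i => y i + n i) =ᵐ[μ] itr T n ∘ itr T y := by
  induction D with
  | zero => rw [itr_zero', itr_zero', itr_zero']; rfl
  | succ D ih =>
    rw [itr_succ, itr_succ T n, itr_succ T y]
    set T' : Fin D → Ω → Ω := fun i => T i.succ with hT'
    have ih' := ih T' (fun i => hT i.succ) (fun i j => hc i.succ j.succ)
      (fun i => y i.succ) (fun i => n i.succ)
    have h1 : (T 0)^[y 0 + n 0] ∘ itr T' (fun i => y i.succ + n i.succ) =ᵐ[μ]
        (T 0)^[y 0 + n 0] ∘ (itr T' (fun i => n i.succ) ∘ itr T' (fun i => y i.succ)) := by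
      filter_upwards [ih'] with x hx
      simp only [Function.comp_apply] at hx ⊢
      rw [hx]
    have h2 : ((T 0)^[y 0] ∘ itr T' (fun i => n i.succ)) ∘ itr T' (fun i => y i.succ) =ᵐ[μ]
        (itr T' (fun i => n i.succ) ∘ (T 0)^[y 0]) ∘ itr T' (fun i => y i.succ) := by
      apply (itr_mp T' (fun i => hT i.succ) _).quasiMeasurePreserving.ae_eq_comp
      apply comp_itr_ae T' (fun i => hT i.succ)
      intro i
      exact (comp_iter_ae (hT 0) (hc i.succ 0) _).symm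
    have h3 : (T 0)^[n 0] ∘ (((T 0)^[y 0] ∘ itr T' (fun i => n i.succ)) ∘
          itr T' (fun i => y i.succ)) =ᵐ[μ]
        (T 0)^[n 0] ∘ ((itr T' (fun i => n i.succ) ∘ (T 0)^[y 0]) ∘
          itr T' (fun i => y i.succ)) := by
      filter_upwards [h2] with x hx
      simp only [Function.comp_apply] at hx ⊢
      rw [hx]
    refine h1.trans ?_
    rw [add_comm (y 0) (n 0), Function.iterate_add]
    exact h3

end comm

/-! ### Averages along orbits -/

section main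

variable {D : ℕ} {Ω : Type*} [MeasurableSpace Ω] {μ : Measure Ω}

/-- orbit function -/
def orb (T : Fin D → Ω → Ω) (Φ : Ω → ℂ) (x : Ω) (n : Fin D → ℤ) : ℂ :=
  Φ (itr T (fun i => (n i).toNat) x)

/-- averages at the scale `m * 2 ^ k` -/
def av (X : (Fin D → ℤ) → ℂ) (T : Fin D → Ω → Ω) (Φ : Ω → ℂ) (m s k : ℕ) (x : Ω) : ℂ :=
  Aop X (m * 2 ^ k) (trapD D s (m * 2 ^ k)) (orb T Φ x) 0

lemma measurable_av (X : (Fin D → ℤ) → ℂ) (T : Fin D → Ω → Ω)
    (hT : ∀ i, MeasurePreserving (T i) μ μ) (Φ : Ω → ℂ) (hΦ : Measurable Φ) (m s k : ℕ) :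
    Measurable (av X T Φ m s k) := by
  unfold av Aop orb
  refine Measurable.const_mul (Finset.measurable_sum _ fun n _ => Measurable.const_mul ?_ _) _
  exact hΦ.comp (itr_mp T hT _).measurable

/-- squares of the averages with values in `[0, ∞]` -/
def sqav (X : (Fin D → ℤ) → ℂ) (T : Fin D → Ω → Ω) (Φ : Ω → ℂ) (m s k : ℕ) (x : Ω) : ENNReal :=
  ENNReal.ofReal (‖av X T Φ m s k x‖ ^ 2)

/-- maximum over a range of scales -/
def mxav (X : (Fin D → ℤ) → ℂ) (T : Fin D → Ω → Ω) (Φ : Ω → ℂ) (m s k0 k1 : ℕ) (x : Ω) :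
    ENNReal :=
  (Finset.Icc k0 k1).sup (fun k => sqav X T Φ m s k x)

lemma measurable_sqav (X : (Fin D → ℤ) → ℂ) (T : Fin D → Ω → Ω)
    (hT : ∀ i, MeasurePreserving (T i) μ μ) (Φ : Ω → ℂ) (hΦ : Measurable Φ) (m s k : ℕ) :
    Measurable (sqav X T Φ m s k) := by
  unfold sqav
  exact ((measurable_av X T hT Φ hΦ m s k).norm.pow_const 2).ennreal_ofReal

lemma measurable_mxav (X : (Fin D → ℤ) → ℂ) (T : Fin D → Ω → Ω)
    (hT : ∀ i, MeasurePreserving (T i) μ μ) (Φ : Ω → ℂ) (hΦ : Measurable Φ) (m s k0 k1 : ℕ) :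
    Measurable (mxav X T Φ m s k0 k1) := by
  have h : mxav X T Φ m s k0 k1 = (Finset.Icc k0 k1).sup (fun k => sqav X T Φ m s k) := by
    funext x
    rw [mxav, Finset.sup_apply]
  rw [h]
  exact Finset.sup_induction (p := Measurable) measurable_const
    (fun a ha b hb => Measurable.sup ha hb) fun k _ => measurable_sqav X T hT Φ hΦ m s k

lemma int_max_le [IsProbabilityMeasure μ] (X : (Fin D → ℤ) → ℂ) (T : Fin D → Ω → Ω)
    (hT : ∀ i, MeasurePreserving (T i) μ μ) (hc : ∀ i j, (T i ∘ T j) =ᵐ[μ] (T j ∘ T i))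
    (Φ : Ω → ℂ) (hΦ : Measurable Φ) (hΦ1 : ∀ x, ‖Φ x‖ ≤ 1) (m s : ℕ) (hm : 1 ≤ m)
    (hU : UStat X m s) (ε : ℝ) (hε : 0 < ε) :
    ∃ k0 : ℕ, ∀ k1 : ℕ, ∫⁻ x, mxav X T Φ m s k0 k1 x ∂μ ≤ ENNReal.ofReal ε := by
  obtain ⟨k0, hk0⟩ := hU (ε / 2 ^ D) (by positivity)
  refine ⟨k0, fun k1 => ?_⟩
  rcases Nat.lt_or_ge k1 k0 with hk | hk
  · have : ∀ x, mxav X T Φ m s k0 k1 x = 0 := by
      intro x
      rw [mxav, Finset.Icc_eq_empty (by omega), Finset.sup_empty]
      rfl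
    simp only [this, lintegral_zero]
    exact bot_le
  obtain ⟨L0, hL0⟩ := hk0 k1
  set H := m * 2 ^ k1 with hH
  have hH1 : 1 ≤ H := Nat.mul_pos hm (by positivity)
  set L := max L0 (2 * H) with hL
  have hLH : 2 * H ≤ L := le_max_right _ _
  have hL0L : L0 ≤ L := le_max_left _ _
  -- pointwise bound
  have hae : ∀ᵐ x ∂μ, ∀ y n : Fin D → ℕ,
      itr T (fun i => y i + n i) x = itr T n (itr T y x) := by
    rw [ae_all_iff]
    intro y
    rw [ae_all_iff]
    intro n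
    exact itr_add_ae T hT hc y n
  have hpt : ∀ᵐ x ∂μ, ∑ y ∈ bx D (L - H), mxav X T Φ m s k0 k1 (itr T (fun i => (y i).toNat) x) ≤
      ENNReal.ofReal (ε / 2 ^ D * L ^ D) := by
    filter_upwards [hae] with x hx
    set F : (Fin D → ℤ) → ℂ := fun n => if n ∈ bx D L then orb T Φ x n else 0 with hF
    have hmax : ∀ y : Fin D → ℤ, ∃ k ∈ Finset.Icc k0 k1, ∀ k' ∈ Finset.Icc k0 k1,
        ‖Aop X (m * 2 ^ k') (trapD D s (m * 2 ^ k')) F y‖ ≤
          ‖Aop X (m * 2 ^ k) (trapD D s (m * 2 ^ k)) F y‖ := fun y =>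
      Finset.exists_max_image (Finset.Icc k0 k1)
        (fun k => ‖Aop X (m * 2 ^ k) (trapD D s (m * 2 ^ k)) F y‖)
        ⟨k0, Finset.mem_Icc.mpr ⟨le_rfl, hk⟩⟩
    choose κ hκ1 hκ2 using hmax
    have h1 := hL0 L hL0L F
      (fun n => by
        simp only [hF]
        split_ifs
        · exact hΦ1 _
        · simp)
      (fun n hn => by simp only [hF]; rw [if_neg hn]) κ
      (fun y => by have := hκ1 y; rw [Finset.mem_Icc] at this; exact this)
    have h2 : ∀ y ∈ bx D (L - H), ∀ k ∈ Finset.Icc k0 k1,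
        Aop X (m * 2 ^ k) (trapD D s (m * 2 ^ k)) F y =
          av X T Φ m s k (itr T (fun i => (y i).toNat) x) := by
      intro y hy k hk'
      rw [Finset.mem_Icc] at hk'
      rw [mem_bx] at hy
      have hHk : m * 2 ^ k ≤ H := Nat.mul_le_mul_left _ (Nat.pow_le_pow_right (by norm_num) hk'.2)
      unfold av Aop
      congr 1
      refine sum_congr rfl fun n hn => ?_
      rw [mem_bx] at hn
      congr 1
      have hyn : y + n ∈ bx D L := by
        rw [mem_bx]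
        intro i
        have h3 := hy i
        have h4 := hn i
        simp only [Pi.add_apply]
        omega
      simp only [hF]
      rw [if_pos hyn, zero_add]
      unfold orb
      rw [← hx]
      congr 2
      funext i
      have h3 := hy i
      have h4 := hn i
      simp only [Pi.add_apply]
      omega
    calc ∑ y ∈ bx D (L - H), mxav X T Φ m s k0 k1 (itr T (fun i => (y i).toNat) x)
        ≤ ∑ y ∈ bx D (L - H),
          ENNReal.ofReal (‖Aop X (m * 2 ^ κ y) (trapD D s (m * 2 ^ κ y)) F y‖ ^ 2) := by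
          apply sum_le_sum
          intro y hy
          unfold mxav
          apply Finset.sup_le
          intro k hk'
          unfold sqav
          rw [← h2 y hy k hk']
          apply ENNReal.ofReal_le_ofReal
          exact pow_le_pow_left₀ (norm_nonneg _) (hκ2 y k hk') 2
      _ = ENNReal.ofReal (∑ y ∈ bx D (L - H),
          ‖Aop X (m * 2 ^ κ y) (trapD D s (m * 2 ^ κ y)) F y‖ ^ 2) := by
          rw [ENNReal.ofReal_sum_of_nonneg]
          intro y _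
          positivity
      _ ≤ ENNReal.ofReal (ε / 2 ^ D * L ^ D) := by
          apply ENNReal.ofReal_le_ofReal
          refine le_trans ?_ h1
          apply sum_le_sum_of_subset_of_nonneg
          · intro y hy
            rw [mem_bx] at hy ⊢
            intro i
            have := hy i
            omega
          · intro y _ _
            positivity
  have hmm := measurable_mxav X T hT Φ hΦ m s k0 k1
  have hint : ((L - H : ℕ) : ENNReal) ^ D * ∫⁻ x, mxav X T Φ m s k0 k1 x ∂μ ≤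
      ENNReal.ofReal (ε / 2 ^ D * L ^ D) := by
    calc ((L - H : ℕ) : ENNReal) ^ D * ∫⁻ x, mxav X T Φ m s k0 k1 x ∂μ
        = ∑ y ∈ bx D (L - H), ∫⁻ x, mxav X T Φ m s k0 k1 x ∂μ := by
          rw [sum_const, card_bx, nsmul_eq_mul]
          push_cast
          rfl
      _ = ∑ y ∈ bx D (L - H),
          ∫⁻ x, mxav X T Φ m s k0 k1 (itr T (fun i => (y i).toNat) x) ∂μ := by
          refine sum_congr rfl fun y _ => ?_
          exact ((itr_mp T hT _).lintegral_comp hmm).symm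
      _ = ∫⁻ x, ∑ y ∈ bx D (L - H),
          mxav X T Φ m s k0 k1 (itr T (fun i => (y i).toNat) x) ∂μ := by
          rw [lintegral_finsetSum]
          intro y _
          exact hmm.comp (itr_mp T hT _).measurable
      _ ≤ ∫⁻ _x, ENNReal.ofReal (ε / 2 ^ D * L ^ D) ∂μ := lintegral_mono_ae hpt
      _ = _ := by rw [lintegral_const, measure_univ, mul_one]
  have hLH' : (0 : ℝ) < ((L - H : ℕ) : ℝ) := by
    have : 0 < L - H := by omega
    exact_mod_cast this
  have h3 : ε / 2 ^ D * (L : ℝ) ^ D ≤ ε * ((L - H : ℕ) : ℝ) ^ D := by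
    have h4 : (L : ℝ) ≤ 2 * ((L - H : ℕ) : ℝ) := by
      have : L ≤ 2 * (L - H) := by omega
      exact_mod_cast this
    calc ε / 2 ^ D * (L : ℝ) ^ D ≤ ε / 2 ^ D * (2 * ((L - H : ℕ) : ℝ)) ^ D := by gcongr
      _ = _ := by rw [mul_pow]; field_simp
  have h4 : ((L - H : ℕ) : ENNReal) ^ D * ∫⁻ x, mxav X T Φ m s k0 k1 x ∂μ ≤
      ((L - H : ℕ) : ENNReal) ^ D * ENNReal.ofReal ε := by
    refine hint.trans ((ENNReal.ofReal_le_ofReal h3).trans (le_of_eq ?_))
    rw [mul_comm ε, ENNReal.ofReal_mul (by positivity), ENNReal.ofReal_pow (by positivity),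
      ENNReal.ofReal_natCast]
  have h5 : ((L - H : ℕ) : ENNReal) ^ D ≠ 0 := by
    apply pow_ne_zero
    have : L - H ≠ 0 := by omega
    exact_mod_cast this
  have h6 : ((L - H : ℕ) : ENNReal) ^ D ≠ ⊤ := ENNReal.pow_ne_top (ENNReal.natCast_ne_top _)
  exact (ENNReal.mul_le_mul_iff_right h5 h6).mp h4

lemma av_tendsto [IsProbabilityMeasure μ] (X : (Fin D → ℤ) → ℂ) (T : Fin D → Ω → Ω)
    (hT : ∀ i, MeasurePreserving (T i) μ μ) (hc : ∀ i j, (T i ∘ T j) =ᵐ[μ] (T j ∘ T i))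
    (Φ : Ω → ℂ) (hΦ : Measurable Φ) (hΦ1 : ∀ x, ‖Φ x‖ ≤ 1) (m s : ℕ) (hm : 1 ≤ m)
    (hU : UStat X m s) :
    ∀ᵐ x ∂μ, Tendsto (fun k => av X T Φ m s k x) atTop (𝓝 0) := by
  set g : Ω → ENNReal := fun x => ⨅ k0 : ℕ, ⨆ k1 : ℕ, mxav X T Φ m s k0 k1 x with hg
  have hgm : Measurable g :=
    Measurable.iInf fun k0 => Measurable.iSup fun k1 => measurable_mxav X T hT Φ hΦ m s k0 k1
  have hg0 : ∫⁻ x, g x ∂μ = 0 := by
    refine le_antisymm ?_ (bot_le : (0 : ENNReal) ≤ _)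
    apply ENNReal.le_of_forall_pos_le_add
    intro ε hε _
    obtain ⟨k0, hk0⟩ := int_max_le X T hT hc Φ hΦ hΦ1 m s hm hU ε (by exact_mod_cast hε)
    rw [zero_add]
    calc ∫⁻ x, g x ∂μ ≤ ∫⁻ x, ⨆ k1 : ℕ, mxav X T Φ m s k0 k1 x ∂μ :=
          lintegral_mono fun x => iInf_le _ k0
      _ = ⨆ k1 : ℕ, ∫⁻ x, mxav X T Φ m s k0 k1 x ∂μ := by
          apply lintegral_iSup (fun k1 => measurable_mxav X T hT Φ hΦ m s k0 k1)
          intro a b hab x
          exact Finset.sup_mono (Finset.Icc_subset_Icc le_rfl hab)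
      _ ≤ ENNReal.ofReal ε := iSup_le hk0
      _ = ε := ENNReal.ofReal_coe_nnreal
  have hg1 : g =ᵐ[μ] 0 := (lintegral_eq_zero_iff hgm).mp hg0
  filter_upwards [hg1] with x hx
  rw [Metric.tendsto_atTop]
  intro δ hδ
  have h1 : g x < ENNReal.ofReal (δ ^ 2) := by
    rw [hx]
    simp only [Pi.zero_apply, ENNReal.ofReal_pos]
    positivity
  simp only [hg] at h1
  rw [iInf_lt_iff] at h1
  obtain ⟨k0, hk0⟩ := h1
  refine ⟨k0, fun k hk => ?_⟩
  have h2 : sqav X T Φ m s k x < ENNReal.ofReal (δ ^ 2) := by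
    refine lt_of_le_of_lt ?_ hk0
    refine le_trans ?_ (le_iSup _ k)
    exact Finset.le_sup (f := fun k => sqav X T Φ m s k x) (Finset.mem_Icc.mpr ⟨hk, le_rfl⟩)
  unfold sqav at h2
  rw [ENNReal.ofReal_lt_ofReal_iff (by positivity)] at h2
  rw [dist_zero_right]
  exact lt_of_pow_lt_pow_left₀ 2 hδ.le h2

end main

/-- transference -/
theorem transfer {D : ℕ} (X : (Fin D → ℤ) → ℂ) (hX : ∀ n, ‖X n‖ ≤ 1)
    (hU : ∀ m s : ℕ, 1 ≤ m → 1 ≤ s → UStat X m s)
    {Ω : Type*} [MeasurableSpace Ω] (μ : Measure Ω) [IsProbabilityMeasure μ]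
    (T : Fin D → Ω → Ω) (hT : ∀ i, MeasurePreserving (T i) μ μ)
    (hc : ∀ i j, (T i ∘ T j) =ᵐ[μ] (T j ∘ T i)) (Φ : Ω → ℂ) (hΦ : MemLp Φ ⊤ μ) :
    ∀ᵐ x ∂μ, Tendsto (fun N : ℕ => (1 / (N : ℂ) ^ D) *
      ∑ n ∈ Fintype.piFinset (fun _ : Fin D => Finset.Icc 1 N),
        X (fun i => (n i : ℤ)) * Φ (itr T n x)) atTop (𝓝 0) := by
  -- reduction to a bounded measurable function
  set B : ℝ := (eLpNorm Φ ⊤ μ).toReal + 1 with hB
  have hB0 : 0 < B := by positivity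
  have hbd : ∀ᵐ x ∂μ, ‖Φ x‖ ≤ B := by
    have h1 := ae_le_eLpNormEssSup (f := Φ) (μ := μ)
    filter_upwards [h1] with x hx
    rw [← eLpNorm_exponent_top] at hx
    have h2 := ENNReal.toReal_mono hΦ.2.ne hx
    rw [toReal_enorm] at h2
    linarith
  set Φ1 := hΦ.1.mk Φ with hΦ1
  have hΦ1m : Measurable Φ1 := hΦ.1.stronglyMeasurable_mk.measurable
  have hΦ1e : Φ =ᵐ[μ] Φ1 := hΦ.1.ae_eq_mk
  set Φ2 : Ω → ℂ := fun x => if ‖Φ1 x‖ ≤ B then Φ1 x / B else 0 with hΦ2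
  have hΦ2m : Measurable Φ2 := by
    apply Measurable.ite
    · exact measurableSet_le hΦ1m.norm measurable_const
    · exact hΦ1m.div_const _
    · exact measurable_const
  have hΦ2b : ∀ x, ‖Φ2 x‖ ≤ 1 := by
    intro x
    simp only [hΦ2]
    split_ifs with h
    · rw [norm_div, Complex.norm_real, Real.norm_of_nonneg hB0.le, div_le_one hB0]
      exact h
    · simp
  have hΦ2e : ∀ᵐ x ∂μ, Φ x = B * Φ2 x := by
    filter_upwards [hbd, hΦ1e] with x h1 h2
    simp only [hΦ2]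
    rw [← h2, if_pos h1, mul_div_cancel₀]
    exact_mod_cast hB0.ne'
  have hall : ∀ᵐ x ∂μ, ∀ n : Fin D → ℕ, Φ (itr T n x) = B * Φ2 (itr T n x) := by
    rw [ae_all_iff]
    intro n
    exact (itr_mp T hT n).quasiMeasurePreserving.ae hΦ2e
  have hav : ∀ᵐ x ∂μ, ∀ m s : ℕ, 1 ≤ m → 1 ≤ s →
      Tendsto (fun k => av X T Φ2 m s k x) atTop (𝓝 0) := by
    rw [ae_all_iff]
    intro m
    rw [ae_all_iff]
    intro s
    by_cases hm : 1 ≤ m
    · by_cases hs : 1 ≤ s
      · filter_upwards [av_tendsto X T hT hc Φ2 hΦ2m hΦ2b m s hm (hU m s hm hs)] with x hx _ _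
        exact hx
      · exact Eventually.of_forall fun x _ h => absurd h hs
    · exact Eventually.of_forall fun x h => absurd h hm
  filter_upwards [hall, hav] with x hx1 hx2
  have hlim := det_limit (fun n => X n * orb T Φ2 x n)
    (fun n => by
      rw [norm_mul]
      have h1 := hX n
      have h2 : ‖orb T Φ2 x n‖ ≤ 1 := hΦ2b _
      calc ‖X n‖ * ‖orb T Φ2 x n‖ ≤ 1 * 1 := mul_le_mul h1 h2 (norm_nonneg _) zero_le_one
        _ = 1 := one_mul 1)
    (fun m s hm hs => by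
      have := hx2 m s hm hs
      refine this.congr fun k => ?_
      unfold av Aop
      congr 1
      refine sum_congr rfl fun n _ => ?_
      rw [zero_add]
      ring)
  have hlim2 := hlim.const_mul (B : ℂ)
  rw [mul_zero] at hlim2
  refine hlim2.congr fun N => ?_
  rw [mul_left_comm]
  congr 1
  rw [mul_sum]
  symm
  refine Finset.sum_nbij' (fun n i => (n i : ℤ)) (fun n i => (n i).toNat) ?_ ?_ ?_ ?_ ?_
  · intro n hn
    rw [Fintype.mem_piFinset] at hn ⊢
    intro i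
    have := hn i
    rw [Finset.mem_Icc] at this ⊢
    omega
  · intro n hn
    rw [Fintype.mem_piFinset] at hn ⊢
    intro i
    have := hn i
    rw [Finset.mem_Icc] at this ⊢
    omega
  · intro n _
    funext i
    simp
  · intro n hn
    rw [Fintype.mem_piFinset] at hn
    funext i
    have := hn i
    rw [Finset.mem_Icc] at this
    simp only
    omega
  · intro n _
    unfold orb
    simp only [Int.toNat_natCast]
    rw [hx1 n]
    ring

end

end Pool.Agent.H10.Sar
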