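import Pool.Agent.H10.Sar.LevG
import Pool.Agent.H10.Sar.Trans
set_option autoImplicit false
set_option linter.unusedSectionVars false

namespace Pool.Agent.H10.Sar

open NumberField Module Finset Filter Topology
open scoped Classical

noncomputable section

variable {K : Type*} [Field K] [NumberField K] {D : ℕ} (b : Basis (Fin D) ℤ (𝓞 K))

lemma geom_Ico_le {r : ℝ} (h0 : 0 < r) (h1 : r < 1) (a n : ℕ) :
    ∑ j ∈ Ico a n, r ^ j ≤ r ^ a / (1 - r) := by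
  rcases le_or_gt a n with h | h
  · rw [geom_sum_Ico' h1.ne h]
    apply div_le_div_of_nonneg_right _ (by linarith)
    have : 0 < r ^ n := by positivity
    linarith
  · rw [Finset.Ico_eq_empty_of_le h.le, sum_empty]
    exact div_nonneg (by positivity) (by linarith)

/-- weighted Cauchy-Schwarz -/
lemma weighted_cs (a : ℕ → ℝ) (js t : ℕ) :
    (∑ j ∈ Ico js t, a j) ^ 2 ≤ 4 * (3 / 4) ^ js * ∑ j ∈ Ico js t, (4 / 3) ^ j * a j ^ 2 := by
  have h1 : (∑ j ∈ Ico js t, a j) ^ 2 ≤ (∑ j ∈ Ico js t, ((3 : ℝ) / 4) ^ j) *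
      ∑ j ∈ Ico js t, (4 / 3) ^ j * a j ^ 2 := by
    apply sum_sq_le_sum_mul_sum_of_sq_le_mul
    · intro j _; positivity
    · intro j _; positivity
    · intro j _
      rw [← mul_assoc, ← mul_pow]
      norm_num
  refine h1.trans ?_
  apply mul_le_mul_of_nonneg_right _ (sum_nonneg (fun j _ => by positivity))
  refine (geom_Ico_le (by norm_num) (by norm_num) js t).trans (le_of_eq ?_)
  norm_num
  ring

lemma topl_mono {σ k k' : ℕ} (h : k ≤ k') : topl σ k ≤ topl σ k' := by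
  unfold topl
  exact Nat.div_le_div_right (Nat.log_mono_right h)

/-- the uniform statement for a multiplicative aperiodic function -/
theorem ustat (χ : 𝓞 K → ℂ)
    (hmul : ∀ m n : 𝓞 K, IsCoprime (Algebra.norm ℤ m) (Algebra.norm ℤ n) →
      χ (m * n) = χ m * χ n) (hχ : ∀ x, ‖χ x‖ ≤ 1)
    (hap : Aper (fun n => χ (b.equivFun.symm n))) (m s : ℕ) (hm : 1 ≤ m) :
    UStat (fun n => χ (b.equivFun.symm n)) m s := by
  have hD : 0 < D := D_pos b
  obtain ⟨σ, hσ, h⟩ := exists_lev (b := b) χ hmul hχ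
  obtain ⟨C, hC, ⟨L⟩⟩ := h (rr σ + (pp D σ + 2 * EE D σ))
  intro ε hε
  obtain ⟨js0, hrem⟩ := rem_bound hap L hχ hC (by omega) (D * s : ℝ) m (Chh D σ) hm (ε / 9)
    (by positivity)
  obtain ⟨C8, hlev⟩ := level_bound L hχ hC (by omega) (D * s : ℝ)
  obtain ⟨js1, hpd⟩ := point_decomp hap L hχ hC (D * s : ℝ)
  obtain ⟨j1, hcond⟩ := hll_cond D σ hD
  obtain ⟨n0, hn0⟩ := exists_pow_lt_of_lt_one (show (0 : ℝ) < ε / (9 * (12 * (C8 + 1))) by positivity)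
    (show (3 : ℝ) / 4 < 1 by norm_num)
  set js := js0 + C8 + js1 + j1 + n0 with hjs
  have hsm : 12 * C8 * ((3 : ℝ) / 4) ^ js ≤ ε / 9 := by
    have h1 : ((3 : ℝ) / 4) ^ js ≤ (3 / 4) ^ n0 :=
      pow_le_pow_of_le_one (by norm_num) (by norm_num) (by omega)
    have h2 : ((3 : ℝ) / 4) ^ js ≤ ε / (9 * (12 * (C8 + 1))) := h1.trans hn0.le
    calc 12 * C8 * ((3 : ℝ) / 4) ^ js ≤ 12 * (C8 + 1) * (ε / (9 * (12 * (C8 + 1)))) := by
          gcongr
          linarith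
      _ = ε / 9 := by
          have : (C8 : ℝ) + 1 ≠ 0 := by positivity
          field_simp
  obtain ⟨k2, hrem⟩ := hrem js (by omega)
  set δ : ℝ := Real.sqrt (ε / 9) with hδ
  have hδ0 : 0 < δ := Real.sqrt_pos.mpr (by positivity)
  have hδ2 : δ ^ 2 = ε / 9 := Real.sq_sqrt (by positivity)
  obtain ⟨k3, hk3, hpd⟩ := hpd js (by omega) m hm δ hδ0
  refine ⟨k2 + k3, ?_⟩
  intro k1
  refine ⟨0, ?_⟩
  intro N _ F hF1 hF κ hκ
  set X : (Fin D → ℤ) → ℂ := fun n => χ (b.equivFun.symm n) with hX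
  set W : ℕ → (Fin D → ℤ) → ℝ := fun k => trapD D s (m * 2 ^ k) with hW
  have hWt : ∀ k, IsWt (m * 2 ^ k) (D * s : ℝ) (W k) := fun k => isWt_trapD D s (m * 2 ^ k)
  set hl : ℕ → ℕ × (Fin D → ℤ) → ℕ := fun k => if k = 0 then (fun _ => m) else hll D σ js (m * 2 ^ k)
    with hhl
  have hhl1 : ∀ k, 1 ≤ k → hl k = hll D σ js (m * 2 ^ k) := by
    intro k hk
    rw [hhl]
    exact if_neg (by omega)
  -- the remainder operator
  set U : ℕ → ((Fin D → ℤ) → ℂ) → (Fin D → ℤ) → ℂ := fun k F y =>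
    Bop L (topl σ k) (m * 2 ^ k) (W k) F y - Bop L (topl σ k) (m * 2 ^ k) (W k)
          (Cop (tor D 1 (2 ^ (EE D σ * (topl σ k + 1)))) (hl k) F) y with hU
  have hUmul : ∀ k, IsMul (U k) (fun θ => bsym L (topl σ k) (m * 2 ^ k) (W k) θ *
      (1 - csym (tor D 1 (2 ^ (EE D σ * (topl σ k + 1)))) (hl k) θ)) := by
    intro k
    refine ((isMul_Bop L (topl σ k) (m * 2 ^ k) (W k)).sub
      ((isMul_Bop L (topl σ k) (m * 2 ^ k) (W k)).comp
        (isMul_Cop (tor D 1 (2 ^ (EE D σ * (topl σ k + 1)))) (hl k)))).congr (fun F y => rfl)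
      (fun θ => by ring)
  have hcond' : ∀ k, k2 ≤ k → ∀ e ∈ tor D 1 (2 ^ (EE D σ * (topl σ k + 1))), m * 2 ^ k ≤ hl k e ∧
      ∀ i, js ≤ i → e.1 < 2 ^ (EE D σ * (i + 1)) → hl k e ≤ m * 2 ^ k * 2 ^ (Chh D σ * i) := by
    intro k _ e he
    rcases Nat.eq_zero_or_pos k with hk0 | hk0
    · subst hk0
      have h1 : hl 0 e = m := by
        rw [hhl]
        simp
      rw [h1, pow_zero, mul_one]
      exact ⟨le_rfl, fun i _ _ => Nat.le_mul_of_pos_right _ (pow_pos (by norm_num) _)⟩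
    · rw [hhl1 k hk0]
      exact hcond js (by omega) m k hm hk0 e he
  have hpars := IsMul.parseval (Icc (k2 + k3) k1) (fun k _ => hUmul k) (ε / 9)
    (hrem W hWt hl hcond' (Icc (k2 + k3) k1) (fun k hk => by rw [mem_Icc] at hk; omega))
    F (bx D N) hF (bx D N)
  have hFN : ∑ n ∈ bx D N, ‖F n‖ ^ 2 ≤ (N : ℝ) ^ D := by
    calc ∑ n ∈ bx D N, ‖F n‖ ^ 2 ≤ ∑ _n ∈ bx D N, (1 : ℝ) :=
          sum_le_sum (fun n _ => pow_le_one₀ (norm_nonneg _) (hF1 n))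
      _ = (N : ℝ) ^ D := by rw [sum_const, card_bx, nsmul_eq_mul, mul_one, Nat.cast_pow]
  have hU1 : ∑ y ∈ bx D N, ‖U (κ y) F y‖ ^ 2 ≤ ε / 9 * N ^ D := by
    calc ∑ y ∈ bx D N, ‖U (κ y) F y‖ ^ 2 ≤ ∑ y ∈ bx D N, ∑ k ∈ Icc (k2 + k3) k1, ‖U k F y‖ ^ 2 := by
          apply sum_le_sum
          intro y _
          exact single_le_sum (f := fun k => ‖U k F y‖ ^ 2) (fun k _ => by positivity)
            (mem_Icc.mpr (hκ y))
      _ = ∑ k ∈ Icc (k2 + k3) k1, ∑ y ∈ bx D N, ‖U k F y‖ ^ 2 := sum_comm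
      _ ≤ ε / 9 * ∑ n ∈ bx D N, ‖F n‖ ^ 2 := hpars
      _ ≤ ε / 9 * N ^ D := mul_le_mul_of_nonneg_left hFN (by positivity)
  -- the levels
  set a : (Fin D → ℤ) → ℕ → ℝ := fun y j => ‖Aop X (m * 2 ^ κ y) (W (κ y))
            (Cop (Tj D σ j) (hlen D σ (Chh D σ) j (m * 2 ^ κ y)) F) y‖ with ha
  have hκ1 : ∀ y, 1 ≤ κ y := fun y => by have := (hκ y).1; omega
  have hlev' : ∀ j, js ≤ j → ∑ y ∈ (bx D N).filter (fun y => j ≤ topl σ (κ y)), a y j ^ 2
      ≤ C8 * (1 / 2) ^ j * N ^ D := fun j hj =>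
    hlev j (by omega) m hm W hWt N F hF1 hF κ hκ1
  have hL1 : ∑ y ∈ bx D N, (∑ j ∈ Ico js (topl σ (κ y) + 1), a y j) ^ 2 ≤ ε / 9 * N ^ D := by
    set T := topl σ k1 with hT
    have h1 : ∀ y ∈ bx D N, (∑ j ∈ Ico js (topl σ (κ y) + 1), a y j) ^ 2
        ≤ 4 * (3 / 4) ^ js * ∑ j ∈ Ico js (T + 1),
          (4 / 3) ^ j * (if j ≤ topl σ (κ y) then a y j ^ 2 else 0) := by
      intro y _
      refine (weighted_cs (a y) js (topl σ (κ y) + 1)).trans ?_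
      apply mul_le_mul_of_nonneg_left _ (by positivity)
      have h2 : topl σ (κ y) ≤ T := topl_mono (hκ y).2
      calc ∑ j ∈ Ico js (topl σ (κ y) + 1), (4 / 3 : ℝ) ^ j * a y j ^ 2
          = ∑ j ∈ Ico js (topl σ (κ y) + 1), (4 / 3 : ℝ) ^ j *
            (if j ≤ topl σ (κ y) then a y j ^ 2 else 0) := by
            refine sum_congr rfl (fun j hj => ?_)
            rw [mem_Ico] at hj
            rw [if_pos (by omega)]
        _ ≤ _ := by
            apply sum_le_sum_of_subset_of_nonneg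
            · intro j hj
              rw [mem_Ico] at hj ⊢
              omega
            · intro j _ _
              split_ifs
              · positivity
              · rw [mul_zero]
    refine (sum_le_sum h1).trans ?_
    rw [← mul_sum, sum_comm]
    have h2 : ∀ j ∈ Ico js (T + 1), ∑ y ∈ bx D N, (4 / 3 : ℝ) ^ j *
        (if j ≤ topl σ (κ y) then a y j ^ 2 else 0) ≤ (2 / 3) ^ j * (C8 * N ^ D) := by
      intro j hj
      rw [mem_Ico] at hj
      rw [← mul_sum, ← sum_filter]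
      calc (4 / 3 : ℝ) ^ j * ∑ y ∈ (bx D N).filter (fun y => j ≤ topl σ (κ y)), a y j ^ 2
          ≤ (4 / 3 : ℝ) ^ j * (C8 * (1 / 2) ^ j * N ^ D) :=
            mul_le_mul_of_nonneg_left (hlev' j hj.1) (by positivity)
        _ = ((4 / 3) ^ j * (1 / 2) ^ j) * (C8 * N ^ D) := by ring
        _ = (2 / 3) ^ j * (C8 * N ^ D) := by
            rw [← mul_pow]
            norm_num
    have h3 : ∑ j ∈ Ico js (T + 1), ((2 : ℝ) / 3) ^ j ≤ 3 := by
      refine (geom_Ico_le (by norm_num) (by norm_num) _ _).trans ?_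
      have : ((2 : ℝ) / 3) ^ js ≤ 1 := pow_le_one₀ (by norm_num) (by norm_num)
      rw [div_le_iff₀ (by norm_num)]
      linarith
    calc 4 * (3 / 4 : ℝ) ^ js * ∑ j ∈ Ico js (T + 1), ∑ y ∈ bx D N, (4 / 3 : ℝ) ^ j *
          (if j ≤ topl σ (κ y) then a y j ^ 2 else 0)
        ≤ 4 * (3 / 4 : ℝ) ^ js * ∑ j ∈ Ico js (T + 1), (2 / 3 : ℝ) ^ j * ((C8 : ℝ) * (N : ℝ) ^ D) :=
          mul_le_mul_of_nonneg_left (sum_le_sum h2) (by positivity)
      _ = 4 * (3 / 4 : ℝ) ^ js * ((∑ j ∈ Ico js (T + 1), (2 / 3 : ℝ) ^ j) * ((C8 : ℝ) * (N : ℝ) ^ D)) := by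
          rw [← sum_mul]
      _ ≤ 4 * (3 / 4 : ℝ) ^ js * (3 * (C8 * N ^ D)) := by gcongr
      _ = 12 * C8 * (3 / 4) ^ js * N ^ D := by ring
      _ ≤ ε / 9 * N ^ D := mul_le_mul_of_nonneg_right hsm (by positivity)
  -- conclusion
  have hfin : ∀ y ∈ bx D N, ‖Aop X (m * 2 ^ κ y) (trapD D s (m * 2 ^ κ y)) F y‖ ^ 2
      ≤ 3 * (ε / 9) + 3 * ‖U (κ y) F y‖ ^ 2 + 3 * (∑ j ∈ Ico js (topl σ (κ y) + 1), a y j) ^ 2 := by
    intro y _
    have h1 := (hpd (κ y) (by have := (hκ y).1; omega)).2 (W (κ y)) (hWt _) F hF1 y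
    have h2 : ‖Aop X (m * 2 ^ κ y) (W (κ y)) F y‖
        ≤ δ + ‖U (κ y) F y‖ + ∑ j ∈ Ico js (topl σ (κ y) + 1), a y j := by
      rw [hU]
      beta_reduce
      rw [hhl1 (κ y) (hκ1 y)]
      exact h1
    have h3 := pow_le_pow_left₀ (norm_nonneg _) h2 2
    refine h3.trans ?_
    rw [← hδ2]
    set u := ‖U (κ y) F y‖
    set v := ∑ j ∈ Ico js (topl σ (κ y) + 1), a y j
    nlinarith [sq_nonneg (δ - u), sq_nonneg (δ - v), sq_nonneg (u - v)]
  refine (sum_le_sum hfin).trans ?_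
  rw [sum_add_distrib, sum_add_distrib, sum_const, card_bx, nsmul_eq_mul, ← mul_sum, ← mul_sum,
    Nat.cast_pow]
  linarith

end

end Pool.Agent.H10.Sar
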