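import Pool.Agent.H10.Sar.Box
set_option autoImplicit false
set_option linter.unusedSectionVars false

namespace Pool.Agent.H10.Sar

open NumberField Module Finset
open scoped Classical

noncomputable section

lemma par_ee_sum {D : ℕ} (s : Finset (Fin D)) (f : Fin D → ℝ) :
    ee (∑ i ∈ s, f i) = ∏ i ∈ s, ee (f i) := by
  induction s using Finset.induction_on with
  | empty => simp
  | insert a s ha ih => rw [sum_insert ha, prod_insert ha, ee_add, ih]

lemma par_ee_nat_mul (k : ℕ) (t : ℝ) : ee (k * t) = ee t ^ k := by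
  induction k with
  | zero => simp
  | succ k ih =>
    rw [pow_succ, ← ih, ← ee_add]
    congr 1
    push_cast
    ring

lemma par_ee_eq_one {t : ℝ} (h : ee t = 1) : ∃ n : ℤ, t = n := by
  unfold ee at h
  rw [Complex.exp_eq_one_iff] at h
  obtain ⟨n, hn⟩ := h
  refine ⟨n, ?_⟩
  have h2 : (2 * Real.pi * Complex.I : ℂ) ≠ 0 := by
    simp [Real.pi_ne_zero, Complex.I_ne_zero]
  have h3 : ((t : ℂ) - n) * (2 * Real.pi * Complex.I) = 0 := by
    linear_combination hn
  rcases mul_eq_zero.mp h3 with h4 | h4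
  · have h5 : (t : ℂ) = n := sub_eq_zero.mp h4
    exact_mod_cast h5
  · exact absurd h4 h2

/-- one-dimensional orthogonality -/
lemma par_orth1 {L : ℕ} (hL : 0 < L) (u : ℤ) (hu : |u| < L) :
    ∑ a ∈ Finset.Ico (0 : ℤ) L, ee ((a : ℝ) / L * u) = if u = 0 then (L : ℂ) else 0 := by
  have h1 : ∑ a ∈ Finset.Ico (0 : ℤ) L, ee ((a : ℝ) / L * u)
      = ∑ k ∈ Finset.range L, ee ((u : ℝ) / L) ^ k := by
    symm
    refine Finset.sum_bij (fun k _ => (k : ℤ)) ?_ ?_ ?_ ?_
    · intro k hk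
      rw [Finset.mem_range] at hk
      rw [Finset.mem_Ico]
      omega
    · intro a _ b _ h
      exact_mod_cast h
    · intro c hc
      rw [Finset.mem_Ico] at hc
      refine ⟨c.toNat, ?_, ?_⟩
      · rw [Finset.mem_range]
        omega
      · exact Int.toNat_of_nonneg hc.1
    · intro k _
      rw [← par_ee_nat_mul]
      congr 1
      push_cast
      ring
  rw [h1]
  have hL' : (L : ℝ) ≠ 0 := by positivity
  by_cases h : u = 0
  · subst h
    simp
  · rw [if_neg h]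
    have hne : ee ((u : ℝ) / L) ≠ 1 := by
      intro h2
      obtain ⟨n, hn⟩ := par_ee_eq_one h2
      have h3 : (u : ℝ) = n * L := by
        rw [← hn]
        field_simp
      have h4 : u = n * L := by exact_mod_cast h3
      rw [h4, abs_mul, Nat.abs_cast] at hu
      have h5 : |n| < 1 := by
        by_contra h6
        push Not at h6
        have : (L : ℤ) ≤ |n| * L := by
          have hL0 : (0 : ℤ) ≤ L := by positivity
          nlinarith
        omega
      have h6 : n = 0 := by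
        rwa [Int.abs_lt_one_iff] at h5
      rw [h6] at h4
      simp at h4
      exact h h4
    have h7 := mul_neg_geom_sum (ee ((u : ℝ) / L)) L
    have h8 : ee ((u : ℝ) / L) ^ L = 1 := by
      rw [← par_ee_nat_mul]
      rw [show (L : ℝ) * ((u : ℝ) / L) = (u : ℤ) by field_simp]
      exact ee_int u
    rw [h8, sub_self] at h7
    rcases mul_eq_zero.mp h7 with h9 | h9
    · exact absurd (sub_eq_zero.mp h9).symm hne
    · exact h9

/-- orthogonality in dimension `D` -/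
lemma par_orth {D L : ℕ} (hL : 0 < L) (u : Fin D → ℤ) (hu : nn u < L) :
    ∑ a ∈ bx D L, ee (dot (fun i => (a i : ℝ) / L) u) = if u = 0 then (L : ℂ) ^ D else 0 := by
  have h1 : ∀ a : Fin D → ℤ, ee (dot (fun i => (a i : ℝ) / L) u)
      = ∏ i, ee ((a i : ℝ) / L * u i) := by
    intro a
    unfold dot
    exact par_ee_sum _ _
  simp_rw [h1]
  unfold bx
  rw [← Finset.prod_univ_sum (fun _ : Fin D => Finset.Ico (0 : ℤ) L)
    (fun i (a : ℤ) => ee ((a : ℝ) / L * u i))]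
  have h2 : ∀ i, ∑ a ∈ Finset.Ico (0 : ℤ) L, ee ((a : ℝ) / L * u i)
      = if u i = 0 then (L : ℂ) else 0 := by
    intro i
    apply par_orth1 hL
    have := abs_le_nn u i
    omega
  simp_rw [h2]
  by_cases h : u = 0
  · subst h
    simp
  · rw [if_neg h]
    have h3 : ∃ i, u i ≠ 0 := by
      by_contra h4
      push Not at h4
      exact h (funext h4)
    obtain ⟨i, hi⟩ := h3
    apply prod_eq_zero (mem_univ i)
    rw [if_neg hi]

/-- finite Parseval identity -/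
lemma par_parseval {D L : ℕ} (hL : 0 < L) (U : Finset (Fin D → ℤ))
    (hU : ∀ x ∈ U, ∀ y ∈ U, nn (y - x) < L) (g : (Fin D → ℤ) → ℂ) :
    ∑ a ∈ bx D L, ‖∑ x ∈ U, g x * ee (-dot (fun i => (a i : ℝ) / L) x)‖ ^ 2
      = (L : ℝ) ^ D * ∑ x ∈ U, ‖g x‖ ^ 2 := by
  have h0 : ∀ z : ℂ, ((‖z‖ ^ 2 : ℝ) : ℂ) = z * (starRingEnd ℂ) z := by
    intro z
    rw [Complex.mul_conj, Complex.normSq_eq_norm_sq]
  have key : ((∑ a ∈ bx D L, ‖∑ x ∈ U, g x * ee (-dot (fun i => (a i : ℝ) / L) x)‖ ^ 2 : ℝ) : ℂ)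
      = (((L : ℝ) ^ D * ∑ x ∈ U, ‖g x‖ ^ 2 : ℝ) : ℂ) := by
    rw [Complex.ofReal_sum]
    simp_rw [h0]
    have h1 : ∀ a : Fin D → ℤ, (∑ x ∈ U, g x * ee (-dot (fun i => (a i : ℝ) / L) x))
        * (starRingEnd ℂ) (∑ x ∈ U, g x * ee (-dot (fun i => (a i : ℝ) / L) x))
        = ∑ x ∈ U, ∑ y ∈ U, g x * (starRingEnd ℂ) (g y)
          * ee (dot (fun i => (a i : ℝ) / L) (y - x)) := by
      intro a
      rw [map_sum, sum_mul_sum]
      refine sum_congr rfl (fun x _ => sum_congr rfl (fun y _ => ?_))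
      rw [map_mul, ← ee_neg, neg_neg, dot_sub, sub_eq_add_neg, ee_add]
      ring
    simp_rw [h1]
    rw [sum_comm]
    have h2 : ∀ x ∈ U, ∑ a ∈ bx D L, ∑ y ∈ U, g x * (starRingEnd ℂ) (g y)
          * ee (dot (fun i => (a i : ℝ) / L) (y - x))
        = (L : ℂ) ^ D * (g x * (starRingEnd ℂ) (g x)) := by
      intro x hx
      rw [sum_comm]
      have h3 : ∀ y ∈ U, ∑ a ∈ bx D L, g x * (starRingEnd ℂ) (g y)
          * ee (dot (fun i => (a i : ℝ) / L) (y - x))
          = if x = y then (L : ℂ) ^ D * (g x * (starRingEnd ℂ) (g y)) else 0 := by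
        intro y hy
        rw [← mul_sum, par_orth hL (y - x) (hU x hx y hy)]
        by_cases h : x = y
        · subst h
          simp
          ring
        · have h4 : y - x ≠ 0 := fun h5 => h (sub_eq_zero.mp h5).symm
          rw [if_neg h4, if_neg h, mul_zero]
      rw [sum_congr rfl h3, sum_ite_eq U x, if_pos hx]
    rw [sum_congr rfl h2, ← mul_sum]
    push_cast
    congr 1
    refine sum_congr rfl (fun x _ => ?_)
    rw [← h0]
    push_cast
    rfl
  exact_mod_cast key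

/-- Parseval bound for finitely many convolution operators on `ℤ^D` -/
theorem parseval_sq {D : ℕ} {ι : Type*} (s : Finset ι) (τ : ι → (Fin D → ℤ) → ℂ)
    (T : Finset (Fin D → ℤ)) (B : ℝ)
    (hB : ∀ θ : Fin D → ℝ, ∑ i ∈ s, ‖∑ n ∈ T, τ i n * ee (dot θ n)‖ ^ 2 ≤ B)
    (F : (Fin D → ℤ) → ℂ) (S : Finset (Fin D → ℤ)) (hS : ∀ n, n ∉ S → F n = 0)
    (Y : Finset (Fin D → ℤ)) :
    ∑ i ∈ s, ∑ y ∈ Y, ‖∑ n ∈ T, τ i n * F (y + n)‖ ^ 2 ≤ B * ∑ n ∈ S, ‖F n‖ ^ 2 := by
  -- the radius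
  set R : ℕ := Y.sup nn + S.sup nn + T.sup nn with hR
  have hYR : ∀ y ∈ Y, nn y ≤ R := by
    intro y hy
    have : nn y ≤ Y.sup nn := Finset.le_sup (f := nn) hy
    omega
  have hSR : ∀ y ∈ S, nn y ≤ R := by
    intro y hy
    have : nn y ≤ S.sup nn := Finset.le_sup (f := nn) hy
    omega
  have hSTR : ∀ y ∈ S, ∀ n ∈ T, nn (y - n) ≤ R := by
    intro y hy n hn
    have h1 : nn y ≤ S.sup nn := Finset.le_sup (f := nn) hy
    have h2 : nn n ≤ T.sup nn := Finset.le_sup (f := nn) hn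
    have h3 := nn_sub_le y n
    omega
  set L : ℕ := 2 * R + 1 with hL
  have hLpos : 0 < L := by omega
  set U : Finset (Fin D → ℤ) := sbx D R with hU
  have hUL : ∀ x ∈ U, ∀ y ∈ U, nn (y - x) < L := by
    intro x hx y hy
    rw [hU, mem_sbx] at hx hy
    have := nn_sub_le y x
    omega
  have hSU : S ⊆ U := fun y hy => mem_sbx.mpr (hSR y hy)
  have hYU : Y ⊆ U := fun y hy => mem_sbx.mpr (hYR y hy)
  have hSL : ∀ x ∈ S, ∀ y ∈ S, nn (y - x) < L := fun x hx y hy => hUL x (hSU hx) y (hSU hy)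
  have hLD : (0 : ℝ) < (L : ℝ) ^ D := by positivity
  -- transforms
  set G : ι → (Fin D → ℤ) → ℂ := fun i y => ∑ n ∈ T, τ i n * F (y + n) with hG
  set θ : (Fin D → ℤ) → (Fin D → ℝ) := fun a => fun i => (a i : ℝ) / L with hθ
  have hshift : ∀ (a : Fin D → ℤ), ∀ n ∈ T, ∑ y ∈ U, F (y + n) * ee (-dot (θ a) y)
      = ee (dot (θ a) n) * ∑ m ∈ S, F m * ee (-dot (θ a) m) := by
    intro a n hn
    have h1 : S.image (fun m => m - n) ⊆ U := by
      intro y hy
      rw [mem_image] at hy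
      obtain ⟨m, hm, rfl⟩ := hy
      exact mem_sbx.mpr (hSTR m hm n hn)
    rw [← Finset.sum_subset h1]
    · rw [Finset.sum_image (fun x _ y _ h => by
        have : x - n = y - n := h
        exact sub_left_inj.mp this)]
      rw [mul_sum]
      refine sum_congr rfl (fun m _ => ?_)
      rw [sub_add_cancel, dot_sub, neg_sub, sub_eq_add_neg, ee_add]
      ring
    · intro y _ hy
      have : F (y + n) = 0 := by
        apply hS
        intro h
        apply hy
        rw [mem_image]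
        exact ⟨y + n, h, by simp⟩
      rw [this, zero_mul]
  have hGhat : ∀ (i : ι) (a : Fin D → ℤ), ∑ y ∈ U, G i y * ee (-dot (θ a) y)
      = (∑ n ∈ T, τ i n * ee (dot (θ a) n)) * ∑ m ∈ S, F m * ee (-dot (θ a) m) := by
    intro i a
    simp only [hG]
    simp_rw [sum_mul]
    rw [sum_comm]
    refine sum_congr rfl (fun n hn => ?_)
    simp_rw [mul_assoc]
    rw [← mul_sum, hshift a n hn]
  have hpar : ∀ i, ∑ y ∈ U, ‖G i y‖ ^ 2
      = (1 / (L : ℝ) ^ D) * ∑ a ∈ bx D L, ‖∑ n ∈ T, τ i n * ee (dot (θ a) n)‖ ^ 2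
        * ‖∑ m ∈ S, F m * ee (-dot (θ a) m)‖ ^ 2 := by
    intro i
    have h1 := par_parseval hLpos U hUL (G i)
    have h2 : ∀ a ∈ bx D L, ‖∑ x ∈ U, G i x * ee (-dot (fun i => (a i : ℝ) / L) x)‖ ^ 2
        = ‖∑ n ∈ T, τ i n * ee (dot (θ a) n)‖ ^ 2
        * ‖∑ m ∈ S, F m * ee (-dot (θ a) m)‖ ^ 2 := by
      intro a _
      have := hGhat i a
      simp only [hθ] at this ⊢
      rw [this, norm_mul, mul_pow]
    rw [sum_congr rfl h2] at h1
    rw [h1]
    field_simp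
  have hF := par_parseval hLpos S hSL F
  calc ∑ i ∈ s, ∑ y ∈ Y, ‖∑ n ∈ T, τ i n * F (y + n)‖ ^ 2
      ≤ ∑ i ∈ s, ∑ y ∈ U, ‖G i y‖ ^ 2 := by
        apply sum_le_sum
        intro i _
        exact sum_le_sum_of_subset_of_nonneg hYU (fun _ _ _ => by positivity)
    _ = (1 / (L : ℝ) ^ D) * ∑ a ∈ bx D L, (∑ i ∈ s, ‖∑ n ∈ T, τ i n * ee (dot (θ a) n)‖ ^ 2)
        * ‖∑ m ∈ S, F m * ee (-dot (θ a) m)‖ ^ 2 := by
        simp_rw [hpar]
        rw [← mul_sum, sum_comm]
        congr 1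
        refine sum_congr rfl (fun a _ => ?_)
        rw [sum_mul]
    _ ≤ (1 / (L : ℝ) ^ D) * ∑ a ∈ bx D L, B
        * ‖∑ m ∈ S, F m * ee (-dot (θ a) m)‖ ^ 2 := by
        apply mul_le_mul_of_nonneg_left _ (by positivity)
        apply sum_le_sum
        intro a _
        exact mul_le_mul_of_nonneg_right (hB _) (by positivity)
    _ = B * ∑ n ∈ S, ‖F n‖ ^ 2 := by
        rw [← mul_sum]
        have : ∑ a ∈ bx D L, ‖∑ m ∈ S, F m * ee (-dot (θ a) m)‖ ^ 2
            = (L : ℝ) ^ D * ∑ x ∈ S, ‖F x‖ ^ 2 := hF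
        rw [this]
        field_simp

end

end Pool.Agent.H10.Sar
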