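import Pool.Agent.H10.Sar.Ops
import Pool.Agent.H10.Sar.Par
set_option autoImplicit false
set_option linter.unusedSectionVars false

namespace Pool.Agent.H10.Sar

open NumberField Module Finset
open scoped Classical

noncomputable section

/-- `U` is a finite combination of shifts with symbol `m` -/
def IsMul {D : ℕ} (U : ((Fin D → ℤ) → ℂ) → (Fin D → ℤ) → ℂ) (m : (Fin D → ℝ) → ℂ) : Prop :=
  ∃ (T : Finset (Fin D → ℤ)) (τ : (Fin D → ℤ) → ℂ), (∀ n, n ∉ T → τ n = 0) ∧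
    (∀ F y, U F y = ∑ n ∈ T, τ n * F (y + n)) ∧ (∀ θ, m θ = ∑ n ∈ T, τ n * ee (dot θ n))

lemma IsMul.shift {D : ℕ} (c : ℂ) (n : Fin D → ℤ) :
    IsMul (fun F y => c * F (y + n)) (fun θ => c * ee (dot θ n)) := by
  refine ⟨{n}, fun k => if k = n then c else 0, ?_, ?_, ?_⟩
  · intro k hk
    rw [mem_singleton] at hk
    beta_reduce
    rw [if_neg hk]
  · intro F y
    beta_reduce
    rw [sum_singleton, if_pos rfl]
  · intro θ
    beta_reduce
    rw [sum_singleton, if_pos rfl]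

lemma IsMul.zero {D : ℕ} : IsMul (fun (_ : (Fin D → ℤ) → ℂ) _ => (0 : ℂ)) (fun _ => 0) := by
  refine ⟨∅, fun _ => 0, fun _ _ => rfl, ?_, ?_⟩
  · intro F y
    simp
  · intro θ
    simp

lemma IsMul.add {D : ℕ} {U V : ((Fin D → ℤ) → ℂ) → (Fin D → ℤ) → ℂ} {m k : (Fin D → ℝ) → ℂ}
    (hU : IsMul U m) (hV : IsMul V k) :
    IsMul (fun F y => U F y + V F y) (fun θ => m θ + k θ) := by
  obtain ⟨T1, τ1, h1, h2, h3⟩ := hU
  obtain ⟨T2, τ2, k1, k2, k3⟩ := hV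
  refine ⟨T1 ∪ T2, fun n => τ1 n + τ2 n, ?_, ?_, ?_⟩
  · intro n hn
    rw [mem_union, not_or] at hn
    beta_reduce
    rw [h1 n hn.1, k1 n hn.2, add_zero]
  · intro F y
    beta_reduce
    rw [h2, k2]
    simp_rw [add_mul]
    rw [sum_add_distrib]
    congr 1
    · apply sum_subset subset_union_left
      intro n _ hn
      rw [h1 n hn, zero_mul]
    · apply sum_subset subset_union_right
      intro n _ hn
      rw [k1 n hn, zero_mul]
  · intro θ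
    beta_reduce
    rw [h3, k3]
    simp_rw [add_mul]
    rw [sum_add_distrib]
    congr 1
    · apply sum_subset subset_union_left
      intro n _ hn
      rw [h1 n hn, zero_mul]
    · apply sum_subset subset_union_right
      intro n _ hn
      rw [k1 n hn, zero_mul]

lemma IsMul.smul {D : ℕ} {U : ((Fin D → ℤ) → ℂ) → (Fin D → ℤ) → ℂ} {m : (Fin D → ℝ) → ℂ}
    (c : ℂ) (hU : IsMul U m) : IsMul (fun F y => c * U F y) (fun θ => c * m θ) := by
  obtain ⟨T1, τ1, h1, h2, h3⟩ := hU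
  refine ⟨T1, fun n => c * τ1 n, ?_, ?_, ?_⟩
  · intro n hn
    beta_reduce
    rw [h1 n hn, mul_zero]
  · intro F y
    beta_reduce
    rw [h2, mul_sum]
    exact sum_congr rfl (fun n _ => by ring)
  · intro θ
    beta_reduce
    rw [h3, mul_sum]
    exact sum_congr rfl (fun n _ => by ring)

lemma IsMul.congr {D : ℕ} {U V : ((Fin D → ℤ) → ℂ) → (Fin D → ℤ) → ℂ} {m k : (Fin D → ℝ) → ℂ}
    (hU : IsMul U m) (h : ∀ F y, V F y = U F y) (h' : ∀ θ, k θ = m θ) : IsMul V k := by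
  obtain ⟨T1, τ1, h1, h2, h3⟩ := hU
  exact ⟨T1, τ1, h1, fun F y => by rw [h, h2], fun θ => by rw [h', h3]⟩

lemma IsMul.sub {D : ℕ} {U V : ((Fin D → ℤ) → ℂ) → (Fin D → ℤ) → ℂ} {m k : (Fin D → ℝ) → ℂ}
    (hU : IsMul U m) (hV : IsMul V k) :
    IsMul (fun F y => U F y - V F y) (fun θ => m θ - k θ) :=
  (hU.add (hV.smul (-1))).congr (fun F y => by ring) (fun θ => by ring)

lemma IsMul.sum {D : ℕ} {ι : Type*} (s : Finset ι)
    {U : ι → ((Fin D → ℤ) → ℂ) → (Fin D → ℤ) → ℂ} {m : ι → (Fin D → ℝ) → ℂ}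
    (hU : ∀ i ∈ s, IsMul (U i) (m i)) :
    IsMul (fun F y => ∑ i ∈ s, U i F y) (fun θ => ∑ i ∈ s, m i θ) := by
  induction s using Finset.induction_on with
  | empty => exact IsMul.zero.congr (fun F y => by simp) (fun θ => by simp)
  | insert a s ha ih =>
    have h1 := ih (fun i hi => hU i (mem_insert_of_mem hi))
    exact ((hU a (mem_insert_self _ _)).add h1).congr (fun F y => by rw [sum_insert ha])
      (fun θ => by rw [sum_insert ha])

lemma IsMul.comp {D : ℕ} {U V : ((Fin D → ℤ) → ℂ) → (Fin D → ℤ) → ℂ} {m k : (Fin D → ℝ) → ℂ}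
    (hU : IsMul U m) (hV : IsMul V k) :
    IsMul (fun F y => U (V F) y) (fun θ => m θ * k θ) := by
  obtain ⟨T1, τ1, h1, h2, h3⟩ := hU
  obtain ⟨T2, τ2, k1, k2, k3⟩ := hV
  have key : IsMul (fun (F : (Fin D → ℤ) → ℂ) y => ∑ n ∈ T1, τ1 n * ∑ l ∈ T2, τ2 l * F (y + (n + l)))
      (fun θ => ∑ n ∈ T1, τ1 n * ∑ l ∈ T2, τ2 l * ee (dot θ (n + l))) :=
    IsMul.sum T1 (fun n _ => (IsMul.sum T2 (fun l _ => IsMul.shift (τ2 l) (n + l))).smul (τ1 n))
  refine key.congr ?_ ?_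
  · intro F y
    rw [h2]
    refine sum_congr rfl (fun n _ => ?_)
    rw [k2]
    congr 1
    refine sum_congr rfl (fun l _ => ?_)
    rw [add_assoc]
  · intro θ
    rw [h3, k3, sum_mul]
    refine sum_congr rfl (fun n _ => ?_)
    rw [mul_assoc]
    congr 1
    rw [mul_sum]
    refine sum_congr rfl (fun l _ => ?_)
    rw [dot_add, ee_add]
    ring

lemma IsMul.id {D : ℕ} : IsMul (fun (F : (Fin D → ℤ) → ℂ) y => F y) (fun _ => 1) :=
  (IsMul.shift 1 0).congr (fun F y => by rw [add_zero, one_mul])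
    (fun θ => by rw [dot_zero, ee_zero, one_mul])

/-- Parseval for finitely many multipliers -/
lemma IsMul.parseval {D : ℕ} {ι : Type*} (s : Finset ι)
    {U : ι → ((Fin D → ℤ) → ℂ) → (Fin D → ℤ) → ℂ} {m : ι → (Fin D → ℝ) → ℂ}
    (hU : ∀ i ∈ s, IsMul (U i) (m i)) (B : ℝ) (hB : ∀ θ, ∑ i ∈ s, ‖m i θ‖ ^ 2 ≤ B)
    (F : (Fin D → ℤ) → ℂ) (S : Finset (Fin D → ℤ)) (hS : ∀ n, n ∉ S → F n = 0)
    (Y : Finset (Fin D → ℤ)) :
    ∑ i ∈ s, ∑ y ∈ Y, ‖U i F y‖ ^ 2 ≤ B * ∑ n ∈ S, ‖F n‖ ^ 2 := by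
  have h1 : ∀ i, ∃ (T : Finset (Fin D → ℤ)) (τ : (Fin D → ℤ) → ℂ), i ∈ s →
      ((∀ n, n ∉ T → τ n = 0) ∧
      (∀ F y, U i F y = ∑ n ∈ T, τ n * F (y + n)) ∧ (∀ θ, m i θ = ∑ n ∈ T, τ n * ee (dot θ n))) := by
    intro i
    by_cases hi : i ∈ s
    · obtain ⟨T, τ, h⟩ := hU i hi
      exact ⟨T, τ, fun _ => h⟩
    · exact ⟨∅, fun _ => 0, fun h => absurd h hi⟩
  choose T τ hT using h1
  set TT := s.biUnion T with hTT
  have h2 : ∀ i ∈ s, ∀ g : (Fin D → ℤ) → ℂ, ∑ n ∈ T i, τ i n * g n = ∑ n ∈ TT, τ i n * g n := by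
    intro i hi g
    apply sum_subset (subset_biUnion_of_mem T hi)
    intro n _ hn
    rw [(hT i hi).1 n hn, zero_mul]
  have h3 := parseval_sq s τ TT B (fun θ => by
    refine le_trans (le_of_eq ?_) (hB θ)
    refine sum_congr rfl (fun i hi => ?_)
    rw [(hT i hi).2.2 θ, h2 i hi]) F S hS Y
  refine le_trans (le_of_eq ?_) h3
  refine sum_congr rfl (fun i hi => sum_congr rfl (fun y _ => ?_))
  rw [(hT i hi).2.1 F y, h2 i hi]

/-- the averaging operator, as a multiplier -/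
lemma isMul_Aop {D : ℕ} (X : (Fin D → ℤ) → ℂ) (H : ℕ) (W : (Fin D → ℤ) → ℝ) :
    IsMul (Aop X H W) (fun θ => (1 / (H : ℂ) ^ D) * ∑ n ∈ bx D H, (W n : ℂ) * X n * ee (dot θ n)) :=
  ((IsMul.sum (bx D H) (fun n _ => IsMul.shift ((W n : ℂ) * X n) n)).smul (1 / (H : ℂ) ^ D)).congr
    (fun F y => rfl) (fun θ => rfl)

/-- symbol of the core operator -/
def csym {D : ℕ} (Λ : Finset (ℕ × (Fin D → ℤ))) (hl : ℕ × (Fin D → ℤ) → ℕ) (θ : Fin D → ℝ) : ℂ :=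
  ∑ e ∈ Λ, (1 / (hl e : ℂ) ^ D) * ∑ z ∈ bx D (hl e), ee (dot (θ - vec e) z)

lemma isMul_Cop {D : ℕ} (Λ : Finset (ℕ × (Fin D → ℤ))) (hl : ℕ × (Fin D → ℤ) → ℕ) :
    IsMul (Cop Λ hl) (csym Λ hl) := by
  have key : IsMul (fun (F : (Fin D → ℤ) → ℂ) y => ∑ e ∈ Λ, (1 / (hl e : ℂ) ^ D) *
      ∑ z ∈ bx D (hl e), ee (-dot (vec e) z) * F (y + z))
      (fun θ => ∑ e ∈ Λ, (1 / (hl e : ℂ) ^ D) * ∑ z ∈ bx D (hl e), ee (-dot (vec e) z) * ee (dot θ z)) :=
    IsMul.sum Λ (fun e _ => (IsMul.sum (bx D (hl e))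
      (fun z _ => IsMul.shift (ee (-dot (vec e) z)) z)).smul (1 / (hl e : ℂ) ^ D))
  refine key.congr ?_ ?_
  · intro F y
    unfold Cop Gl
    refine sum_congr rfl (fun e _ => ?_)
    rw [mul_left_comm, mul_sum]
    congr 1
    refine sum_congr rfl (fun z _ => ?_)
    rw [← mul_assoc, ← ee_add]
    congr 2
    rw [dot_add]
    ring
  · intro θ
    unfold csym
    refine sum_congr rfl (fun e _ => ?_)
    congr 1
    refine sum_congr rfl (fun z _ => ?_)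
    rw [← ee_add, sub_dot]
    congr 1
    ring

end

end Pool.Agent.H10.Sar
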