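import Pool.Agent.H10.Sar.Box
set_option autoImplicit false
set_option linter.unusedSectionVars false

namespace Pool.Agent.H10.Sar

open NumberField Module Finset
open scoped Classical

noncomputable section

/-- primitive rational points `a / q` of `[0,1)^D` with `q0 ≤ q < q1`, as pairs `(q, a)` -/
def tor (D q0 q1 : ℕ) : Finset (ℕ × (Fin D → ℤ)) :=
  ((Finset.Ico q0 q1) ×ˢ (bx D q1)).filter (fun l => (∀ i, l.2 i < l.1) ∧
    ∀ d : ℕ, (∀ i, (l.1 : ℤ) ∣ d * l.2 i) → l.1 ∣ d)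

/-- the real vector `a / q` -/
def vec {D : ℕ} (l : ℕ × (Fin D → ℤ)) : Fin D → ℝ := fun i => (l.2 i : ℝ) / l.1

/-- distance to the nearest integer -/
def di (t : ℝ) : ℝ := |t - round t|

/-- trigonometric polynomial with frequencies in `Λ` -/
def Fv {D : ℕ} (Λ : Finset (ℕ × (Fin D → ℤ))) (v : ℕ × (Fin D → ℤ) → ℂ) (y : Fin D → ℤ) : ℂ :=
  ∑ l ∈ Λ, v l * ee (dot (vec l) y)

end

end Pool.Agent.H10.Sar
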