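import Pool.Agent.H10.Sar.MinB
import Pool.Agent.H10.Sar.TorDefs
set_option autoImplicit false
set_option linter.unusedSectionVars false

namespace Pool.Agent.H10.Sar

open NumberField Module Finset
open scoped Classical

noncomputable section

variable {K : Type*} [Field K] [NumberField K] {D : ℕ} (b : Basis (Fin D) ℤ (𝓞 K))

/-- the multipliers of dyadic size `2 ^ a` -/
def dya (𝒜 : Finset (𝓞 K)) (a : ℕ) : Finset (𝓞 K) :=
  𝒜.filter (fun α => 2 ^ a ≤ sz b α ∧ sz b α < 2 ^ (a + 1))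

/-- the block index of a ring element, for blocks of side `w` -/
def blk (w : ℕ) (α : 𝓞 K) : Fin D → ℤ := fun i => (b.equivFun α i) / (w : ℤ)

/-- the seminorm controlling the bilinear form on `M`-periodic trigonometric polynomials;
`l` = number of dyadic ranges, blocks of side `2 ^ (a - p)` for multipliers of size `2 ^ a` -/
def Nsem (χ : 𝓞 K → ℂ) (𝒜 : Finset (𝓞 K)) (l p M : ℕ) (Λ : Finset (ℕ × (Fin D → ℤ)))
    (v : ℕ × (Fin D → ℤ) → ℂ) (y : Fin D → ℤ) : ℝ :=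
  ∑ a ∈ range (l + 1), ∑ β ∈ (dya b 𝒜 a).image (blk b (2 ^ (a - p))),
    (1 / (2 : ℝ) ^ a) ^ D * Real.sqrt ((1 / (M : ℝ) ^ D) * ∑ s ∈ bx D M,
      ‖∑ α ∈ (dya b 𝒜 a).filter (fun α => blk b (2 ^ (a - p)) α = β),
        χ α * Fv Λ v (y + act b α s)‖ ^ 2)

end

end Pool.Agent.H10.Sar
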