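import Pool.Agent.H10.Sar.Box
set_option autoImplicit false
set_option linter.unusedSectionVars false

namespace Pool.Agent.H10.Sar

open NumberField Module Finset
open scoped Classical

noncomputable section

variable {K : Type*} [Field K] [NumberField K]

/-- a family of prime ideals of prime norm -/
def DegOne (S : Finset ℕ) (P : ℕ → Ideal (𝓞 K)) : Prop :=
  ∀ p ∈ S, p.Prime ∧ (P p).IsPrime ∧ Ideal.absNorm (P p) = p

lemma DegOne.mono {S T : Finset ℕ} {P : ℕ → Ideal (𝓞 K)} (h : DegOne S P) (hT : T ⊆ S) :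
    DegOne T P := fun p hp => h p (hT hp)

lemma DegOne.ne_bot {S : Finset ℕ} {P : ℕ → Ideal (𝓞 K)} (h : DegOne S P) {p : ℕ} (hp : p ∈ S) :
    P p ≠ ⊥ := by
  intro h0
  have h1 := (h p hp).2.2
  rw [h0, Ideal.absNorm_bot] at h1
  exact (h p hp).1.ne_zero h1.symm

lemma DegOne.prime {S : Finset ℕ} {P : ℕ → Ideal (𝓞 K)} (h : DegOne S P) {p : ℕ} (hp : p ∈ S) :
    Prime (P p) := Ideal.prime_of_isPrime (h.ne_bot hp) (h p hp).2.1

lemma DegOne.inj {S : Finset ℕ} {P : ℕ → Ideal (𝓞 K)} (h : DegOne S P) {p q : ℕ} (hp : p ∈ S)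
    (hq : q ∈ S) (hpq : P p = P q) : p = q := by
  rw [← (h p hp).2.2, ← (h q hq).2.2, hpq]

lemma DegOne.mem_prod {E : Finset ℕ} {P : ℕ → Ideal (𝓞 K)} (h : DegOne E P) {x : 𝓞 K} :
    x ∈ ∏ p ∈ E, P p ↔ ∀ p ∈ E, x ∈ P p := by
  constructor
  · intro hx p hp
    have h1 : P p ∣ ∏ p ∈ E, P p := dvd_prod_of_mem _ hp
    exact Ideal.dvd_iff_le.mp h1 hx
  · intro hx
    have h1 : ∏ p ∈ E, P p = ∏ I ∈ E.image P, I := by
      rw [prod_image]
      intro p hp q hq hpq
      exact h.inj hp hq hpq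
    have h2 : ∏ I ∈ E.image P, I ∣ Ideal.span {x} := by
      apply prod_primes_dvd
      · intro I hI
        obtain ⟨p, hp, rfl⟩ := mem_image.mp hI
        exact h.prime hp
      · intro I hI
        obtain ⟨p, hp, rfl⟩ := mem_image.mp hI
        rw [Ideal.dvd_span_singleton]
        exact hx p hp
    rw [h1]
    exact Ideal.dvd_span_singleton.mp h2

lemma DegOne.absNorm_prod {E : Finset ℕ} {P : ℕ → Ideal (𝓞 K)} (h : DegOne E P) :
    Ideal.absNorm (∏ p ∈ E, P p) = ∏ p ∈ E, p := by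
  rw [map_prod]
  exact prod_congr rfl (fun p hp => (h p hp).2.2)

/-- membership in a prime of norm `p` forces divisibility of the norm by `p` -/
lemma DegOne.dvd_norm {S : Finset ℕ} {P : ℕ → Ideal (𝓞 K)} (h : DegOne S P) {p : ℕ} (hp : p ∈ S)
    {x : 𝓞 K} (hx : x ∈ P p) : (p : ℤ) ∣ Algebra.norm ℤ x := by
  have := Ideal.absNorm_dvd_norm_of_mem hx
  rwa [(h p hp).2.2] at this

end

end Pool.Agent.H10.Sar
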