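import Pool.Agent.H10.Sar.Lev
set_option autoImplicit false
set_option linter.unusedSectionVars false

namespace Pool.Agent.H10.Sar

open NumberField Module Finset
open scoped Classical

noncomputable section

variable {K : Type*} [Field K] [NumberField K] {D : ℕ} {b : Basis (Fin D) ℤ (𝓞 K)}
variable {χ : 𝓞 K → ℂ} {σ B C : ℕ}

/-- major at level `i` and scale `H` -/
def MajI (b : Basis (Fin D) ℤ (𝓞 K)) (σ C2 i H : ℕ) (θ : Fin D → ℝ) : Prop :=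
  Major b (2 ^ (rr σ * i)) (C2 * ((2 ^ (rr σ * i) : ℕ) : ℝ) ^ C2 / H) θ

lemma exp_dom (σ P : ℕ) : ∃ j1 : ℕ, ∀ j, j1 ≤ j → ∀ H : ℕ, 2 ^ (2 ^ (cc σ * j)) ≤ H →
    2 ^ (P * (j + 1) * 2 ^ ((cc σ - 1) * j)) ≤ H := by
  obtain ⟨j1, h⟩ := growth σ P
  refine ⟨j1, fun j hj H hH => ?_⟩
  exact (Nat.pow_le_pow_right (by norm_num) (h j hj)).trans hH

lemma pow_sigma_le (σ j : ℕ) : 2 ^ (σ * j) ≤ 2 ^ ((cc σ - 1) * j) := by
  apply Nat.pow_le_pow_right (by norm_num)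
  apply Nat.mul_le_mul_right
  unfold cc
  omega

lemma pow_two_sigma_le (σ j : ℕ) : 2 ^ (2 * σ * j) ≤ 2 ^ ((cc σ - 1) * j) := by
  apply Nat.pow_le_pow_right (by norm_num)
  apply Nat.mul_le_mul_right
  unfold cc
  omega

/-- the bilinear symbol at minor points -/
lemma bil_minor (L : Lev b χ σ B C) (hχ : ∀ x, ‖χ x‖ ≤ 1) (hC : 1 ≤ C) (hB : rr σ ≤ B) (L1 : ℝ) :
    ∃ C2 : ℕ, 1 ≤ C2 ∧ ∀ i, C2 ≤ i → ∀ H : ℕ, 2 ^ (2 ^ (cc σ * i)) ≤ H →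
    ∀ W : (Fin D → ℤ) → ℝ, IsWt H L1 W → ∀ θ, ¬ MajI b σ C2 i H θ →
    ‖bsym L i H W θ‖ ≤ C2 * 2 ^ (σ * i) / 2 ^ (2 * cc σ * i) := by
  obtain ⟨C', hC', hmin⟩ := min_bound b C L1
  obtain ⟨j1, hj1⟩ := exp_dom σ (C' * C + C' * rr σ)
  refine ⟨C' * C + C' + C + j1, by omega, ?_⟩
  intro i hi H hH W hW θ hnot
  have hCi : C ≤ i := by omega
  have hji : j1 ≤ i := by omega
  have hH1 : 1 ≤ H := Nat.one_le_two_pow.trans hH
  have hHr : (0 : ℝ) < H := by exact_mod_cast hH1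
  set Q := 2 ^ (rr σ * i) with hQ
  have hQ1 : 1 ≤ Q := Nat.one_le_two_pow
  have hQr : (1 : ℝ) ≤ (Q : ℝ) := by exact_mod_cast hQ1
  have hQA : Q ≤ 2 ^ (B * i) := Nat.pow_le_pow_right (by norm_num) (Nat.mul_le_mul_right _ hB)
  have hcond : 2 ^ (C' * (C * 2 ^ (σ * i))) * Q ^ C' ≤ H := by
    refine le_trans ?_ (hj1 i hji H hH)
    rw [hQ, ← pow_mul, ← pow_add]
    apply Nat.pow_le_pow_right (by norm_num)
    have h1 := pow_sigma_le σ i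
    have h2 : 1 ≤ 2 ^ ((cc σ - 1) * i) := Nat.one_le_two_pow
    calc C' * (C * 2 ^ (σ * i)) + rr σ * i * C'
        ≤ C' * C * 2 ^ ((cc σ - 1) * i) * (i + 1) + C' * rr σ * (i + 1) * 2 ^ ((cc σ - 1) * i) := by
          apply add_le_add
          · calc C' * (C * 2 ^ (σ * i)) = C' * C * 2 ^ (σ * i) * 1 := by ring
              _ ≤ C' * C * 2 ^ ((cc σ - 1) * i) * (i + 1) := by gcongr; omega
          · calc rr σ * i * C' = C' * rr σ * i * 1 := by ring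
              _ ≤ C' * rr σ * (i + 1) * 2 ^ ((cc σ - 1) * i) := by gcongr; omega
      _ = (C' * C + C' * rr σ) * (i + 1) * 2 ^ ((cc σ - 1) * i) := by ring
  have hnot' : ¬ Major b Q (C' * (Q : ℝ) ^ C' / H) θ := by
    intro hM
    apply hnot
    refine hM.mono ?_
    have h1 : (C' : ℝ) ≤ ((C' * C + C' + C + j1 : ℕ) : ℝ) := by exact_mod_cast (by nlinarith)
    have h2 : (Q : ℝ) ^ C' ≤ (Q : ℝ) ^ (C' * C + C' + C + j1) :=
      pow_le_pow_right₀ hQr (by nlinarith)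
    gcongr
  have hl : 1 ≤ C * 2 ^ (σ * i) := Nat.mul_pos (by omega) (pow_pos (by norm_num) _)
  have h1 := hmin (L.A i) χ (L.β i) (2 ^ (B * i)) (C * 2 ^ (σ * i)) Q H (C * H) W θ
    (L.hA i hCi) hχ (L.hβ i hCi) hl hQ1 hQA hcond hW le_rfl hnot'
  unfold bsym
  rw [norm_mul, norm_div, norm_one, norm_pow, Complex.norm_natCast]
  have hHD : (0 : ℝ) < (H : ℝ) ^ D := by positivity
  rw [one_div, inv_mul_le_iff₀ hHD]
  refine h1.trans ?_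
  have hsq : Real.sqrt (Q : ℝ) = 2 ^ (2 * cc σ * i) := by
    rw [hQ]
    push_cast
    rw [show rr σ * i = (2 * cc σ * i) * 2 by unfold rr; ring, pow_mul]
    exact Real.sqrt_sq (by positivity)
  rw [hsq]
  push_cast
  have h3 : (C' : ℝ) * (C * 2 ^ (σ * i)) ≤ (C' * C + C' + C + j1) * 2 ^ (σ * i) := by
    have h4 : (0 : ℝ) ≤ C' + C + j1 := by positivity
    have h5 : (0 : ℝ) ≤ 2 ^ (σ * i) := by positivity
    nlinarith
  calc (C' : ℝ) * (C * 2 ^ (σ * i)) * H ^ D / 2 ^ (2 * cc σ * i)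
      ≤ (C' * C + C' + C + j1) * 2 ^ (σ * i) * H ^ D / 2 ^ (2 * cc σ * i) := by gcongr
    _ = H ^ D * ((C' * C + C' + C + j1) * 2 ^ (σ * i) / 2 ^ (2 * cc σ * i)) := by ring

lemma scale_ge {k j m : ℕ} (hm : 1 ≤ m) (hk : 1 ≤ k) (hj : j ≤ topl σ k) :
    2 ^ (2 ^ (cc σ * j)) ≤ m * 2 ^ k := by
  have h1 := (le_topl_iff hk).mp hj
  calc 2 ^ (2 ^ (cc σ * j)) ≤ 2 ^ k := Nat.pow_le_pow_right (by norm_num) h1
    _ ≤ m * 2 ^ k := Nat.le_mul_of_pos_left _ hm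

/-- the symbol of the top level bilinear operator is small when `θ` is not major at level `i` -/
lemma bsym_small (L : Lev b χ σ B C) (hχ : ∀ x, ‖χ x‖ ≤ 1) (hC : 1 ≤ C) (hB : rr σ ≤ B) (L1 : ℝ) :
    ∃ C2 C4 : ℕ, 1 ≤ C2 ∧ 1 ≤ C4 ∧
    (∀ k m : ℕ, 1 ≤ k → 1 ≤ m → ∀ W : (Fin D → ℤ) → ℝ, IsWt (m * 2 ^ k) L1 W → ∀ θ i,
      C4 ≤ i → i ≤ topl σ k → ¬ MajI b σ C2 i (m * 2 ^ k) θ →
      ‖bsym L (topl σ k) (m * 2 ^ k) W θ‖ ≤ C4 / 2 ^ i) ∧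
    (∀ k m : ℕ, 1 ≤ k → 1 ≤ m → ∀ W : (Fin D → ℤ) → ℝ, IsWt (m * 2 ^ k) L1 W → ∀ θ,
      C4 ≤ topl σ k → ¬ MajI b σ C2 (topl σ k) (m * 2 ^ k) θ →
      ‖bsym L (topl σ k) (m * 2 ^ k) W θ‖ ^ 2 ≤ C4 / (k : ℝ) ^ 2) ∧
    (∀ k m : ℕ, 1 ≤ k → 1 ≤ m → ∀ W : (Fin D → ℤ) → ℝ, IsWt (m * 2 ^ k) L1 W → ∀ θ,
      C4 ≤ topl σ k → ‖bsym L (topl σ k) (m * 2 ^ k) W θ‖
        ≤ ‖msym χ b (m * 2 ^ k) W θ‖ + C4 / 2 ^ (topl σ k)) := by
  obtain ⟨C2, hC2, hbil⟩ := bil_minor L hχ hC hB L1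
  obtain ⟨j1, hj1⟩ := exp_dom σ C
  set C4 := C2 ^ 2 * 2 ^ (2 * cc σ) + 4 * C + C2 + j1 with hC4
  have hC2C4 : C2 ≤ C4 := by omega
  have hCC4 : C ≤ C4 := by omega
  have hjC4 : j1 ≤ C4 := by omega
  have hbig : ∀ k m j : ℕ, 1 ≤ k → 1 ≤ m → C4 ≤ j → j ≤ topl σ k →
      2 ^ (C * 2 ^ (2 * σ * j)) ≤ m * 2 ^ k := by
    intro k m j hk hm hj hjt
    have h1 := hj1 j (hjC4.trans hj) _ (scale_ge (σ := σ) hm hk hjt)
    refine le_trans ?_ h1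
    apply Nat.pow_le_pow_right (by norm_num)
    have h2 := pow_two_sigma_le σ j
    calc C * 2 ^ (2 * σ * j) = C * 1 * 2 ^ (2 * σ * j) := by ring
      _ ≤ C * (j + 1) * 2 ^ ((cc σ - 1) * j) := by gcongr; omega
  have hdec : ∀ k m j : ℕ, 1 ≤ k → 1 ≤ m → ∀ W : (Fin D → ℤ) → ℝ, IsWt (m * 2 ^ k) L1 W → ∀ θ,
      C4 ≤ j → j ≤ topl σ k →
      ‖msym χ b (m * 2 ^ k) W θ - bsym L j (m * 2 ^ k) W θ‖ ≤ 2 * C / 2 ^ j := by
    intro k m j hk hm W hW θ hj hjt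
    have := dec_sym L (hCC4.trans hj) (hbig k m j hk hm hj hjt) hW θ
    rw [one_div_pow] at this
    refine this.trans (le_of_eq (by ring))
  refine ⟨C2, C4, hC2, by omega, ?_, ?_, ?_⟩
  · intro k m hk hm W hW θ i hi hit hnot
    have h1 := hbil i (hC2C4.trans hi) (m * 2 ^ k) (scale_ge hm hk hit) W hW θ hnot
    have h2 := hdec k m i hk hm W hW θ hi hit
    have h3 := hdec k m (topl σ k) hk hm W hW θ (hi.trans hit) le_rfl
    have h4 : (C2 : ℝ) * 2 ^ (σ * i) / 2 ^ (2 * cc σ * i) ≤ C2 / 2 ^ i := by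
      rw [div_le_div_iff₀ (by positivity) (by positivity), mul_assoc, ← pow_add]
      apply mul_le_mul_of_nonneg_left _ (Nat.cast_nonneg _)
      apply pow_le_pow_right₀ (by norm_num)
      have : σ + 1 ≤ 2 * cc σ := by unfold cc; omega
      nlinarith
    have h5 : 2 * (C : ℝ) / 2 ^ (topl σ k) ≤ 2 * C / 2 ^ i := by
      apply div_le_div_of_nonneg_left (by positivity) (by positivity)
      exact pow_le_pow_right₀ (by norm_num) hit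
    have h6 : bsym L (topl σ k) (m * 2 ^ k) W θ = (msym χ b (m * 2 ^ k) W θ - bsym L i (m * 2 ^ k) W θ)
        - (msym χ b (m * 2 ^ k) W θ - bsym L (topl σ k) (m * 2 ^ k) W θ)
        + bsym L i (m * 2 ^ k) W θ := by ring
    rw [h6]
    refine (norm_add_le _ _).trans ?_
    have h7 := norm_sub_le (msym χ b (m * 2 ^ k) W θ - bsym L i (m * 2 ^ k) W θ)
      (msym χ b (m * 2 ^ k) W θ - bsym L (topl σ k) (m * 2 ^ k) W θ)
    have h8 : 2 * (C : ℝ) / 2 ^ i + 2 * C / 2 ^ i + C2 / 2 ^ i ≤ C4 / 2 ^ i := by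
      rw [← add_div, ← add_div]
      apply div_le_div_of_nonneg_right _ (by positivity)
      rw [hC4]
      push_cast
      have : (0 : ℝ) ≤ C2 ^ 2 * 2 ^ (2 * cc σ) + j1 := by positivity
      linarith
    linarith
  · intro k m hk hm W hW θ hit hnot
    have h1 := hbil (topl σ k) (hC2C4.trans hit) (m * 2 ^ k) (scale_ge hm hk le_rfl) W hW θ hnot
    set j := topl σ k with hj
    have hkj : k < 2 ^ (cc σ * (j + 1)) := topl_lt hk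
    have hkr : (k : ℝ) ≤ 2 ^ (cc σ * (j + 1)) := by exact_mod_cast hkj.le
    have hk0 : (0 : ℝ) < k := by exact_mod_cast hk
    have h2 : ‖bsym L j (m * 2 ^ k) W θ‖ ^ 2 ≤ (C2 * 2 ^ (σ * j) / 2 ^ (2 * cc σ * j)) ^ 2 :=
      pow_le_pow_left₀ (norm_nonneg _) h1 2
    refine h2.trans ?_
    rw [div_pow, div_le_div_iff₀ (by positivity) (by positivity)]
    have h3 : (k : ℝ) ^ 2 ≤ (2 ^ (cc σ * (j + 1))) ^ 2 := pow_le_pow_left₀ hk0.le hkr 2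
    calc ((C2 : ℝ) * 2 ^ (σ * j)) ^ 2 * (k : ℝ) ^ 2
        ≤ ((C2 : ℝ) * 2 ^ (σ * j)) ^ 2 * (2 ^ (cc σ * (j + 1))) ^ 2 := by gcongr
      _ = ((C2 : ℝ) ^ 2 * 2 ^ (2 * cc σ)) * 2 ^ (2 * σ * j + 2 * cc σ * j) := by
          rw [mul_pow, ← pow_mul, ← pow_mul]
          ring
      _ ≤ (C4 : ℝ) * 2 ^ (4 * cc σ * j) := by
          have h4 : ((C2 : ℝ) ^ 2 * 2 ^ (2 * cc σ)) ≤ C4 := by
            rw [hC4]
            push_cast
            have : (0 : ℝ) ≤ 4 * C + C2 + j1 := by positivity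
            linarith
          have h5 : (2 : ℝ) ^ (2 * σ * j + 2 * cc σ * j) ≤ 2 ^ (4 * cc σ * j) := by
            apply pow_le_pow_right₀ (by norm_num)
            have : 2 * σ ≤ 2 * cc σ := by unfold cc; omega
            nlinarith
          gcongr
      _ = (C4 : ℝ) * (2 ^ (2 * cc σ * j)) ^ 2 := by
          rw [← pow_mul]
          congr 2
          ring
  · intro k m hk hm W hW θ hit
    have h3 := hdec k m (topl σ k) hk hm W hW θ hit le_rfl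
    have h6 : bsym L (topl σ k) (m * 2 ^ k) W θ = msym χ b (m * 2 ^ k) W θ
        - (msym χ b (m * 2 ^ k) W θ - bsym L (topl σ k) (m * 2 ^ k) W θ) := by ring
    have h7 := norm_sub_le (msym χ b (m * 2 ^ k) W θ)
      (msym χ b (m * 2 ^ k) W θ - bsym L (topl σ k) (m * 2 ^ k) W θ)
    rw [← h6] at h7
    have h8 : 2 * (C : ℝ) / 2 ^ (topl σ k) ≤ C4 / 2 ^ (topl σ k) := by
      apply div_le_div_of_nonneg_right _ (by positivity)
      rw [hC4]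
      push_cast
      have : (0 : ℝ) ≤ C2 ^ 2 * 2 ^ (2 * cc σ) + 2 * C + C2 + j1 := by positivity
      linarith
    linarith

end

end Pool.Agent.H10.Sar
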